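import Pool.Agent.KExp.Bas

/-!
# The action
-/

set_option autoImplicit false

namespace KExp

theorem gen_mem {M : ℕ} (hM : 0 < M) (g : G) {z : ℕ × ℕ} (hz : z ∈ box M) : gen M g z ∈ box M := by
  rw [mem_box] at hz ⊢
  have hs : ∀ (inv one : Bool) (a b : ℕ), sh M inv one a b < M := by
    intro inv one a b
    unfold sh
    cases inv
    · exact Nat.mod_lt _ hM
    · exact Nat.mod_lt _ hM
  unfold gen
  rcases g with ⟨g1, g2, g3⟩
  cases g3
  · exact ⟨hs _ _ _ _, hz.2⟩
  · exact ⟨hz.1, hs _ _ _ _⟩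

theorem act_mem {q : ℕ} (w : List G) {z : ℕ × ℕ} (hz : z ∈ box (2 ^ q)) :
    act (2 ^ q) w z ∈ box (2 ^ q) := by
  induction w with
  | nil => exact hz
  | cons g w ih => exact gen_mem (by positivity) g ih

theorem cast_mod {k q : ℕ} (h : k ≤ q) (x : ℕ) : ((x % 2 ^ q : ℕ) : ZMod (2 ^ k)) = x := by
  have h1 : ((2 ^ q : ℕ) : ZMod (2 ^ k)) = 0 := by
    rw [ZMod.natCast_eq_zero_iff]
    exact pow_dvd_pow 2 h
  conv_rhs => rw [← Nat.div_add_mod x (2 ^ q)]
  rw [Nat.cast_add, Nat.cast_mul, h1, zero_mul, zero_add]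

theorem cast_sh {k q : ℕ} (h : k ≤ q) (inv one : Bool) (a b : ℕ) :
    ((sh (2 ^ q) inv one a b : ℕ) : ZMod (2 ^ k)) = shR inv one (a : ZMod (2 ^ k)) b := by
  have h1 : ((2 ^ q : ℕ) : ZMod (2 ^ k)) = 0 := by
    rw [ZMod.natCast_eq_zero_iff]
    exact pow_dvd_pow 2 h
  have hM : 1 ≤ 2 ^ q := Nat.one_le_two_pow
  have hb : b % 2 ^ q ≤ 2 ^ q := (Nat.mod_lt _ (by positivity)).le
  unfold sh shR
  cases inv
  · cases one
    · simp only [cond_false]
      rw [cast_mod h]
      push_cast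
      ring
    · simp only [cond_false, cond_true]
      rw [cast_mod h]
      push_cast
      ring
  · cases one
    · simp only [cond_false, cond_true]
      rw [cast_mod h, Nat.cast_add, Nat.cast_add, Nat.cast_mul, Nat.cast_sub hb, h1, cast_mod h]
      push_cast
      ring
    · simp only [cond_true]
      rw [cast_mod h, Nat.cast_add, Nat.cast_add, Nat.cast_mul, Nat.cast_sub hb, Nat.cast_sub hM, h1,
        cast_mod h]
      push_cast
      ring

theorem cast_gen {k q : ℕ} (h : k ≤ q) (g : G) (z : ℕ × ℕ) :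
    (((gen (2 ^ q) g z).1 : ZMod (2 ^ k)), ((gen (2 ^ q) g z).2 : ZMod (2 ^ k))) =
      genR g ((z.1 : ZMod (2 ^ k)), (z.2 : ZMod (2 ^ k))) := by
  rcases g with ⟨g1, g2, g3⟩
  unfold gen genR
  cases g3
  · simp only [cond_false, cast_sh h]
  · simp only [cond_true, cast_sh h]

theorem cast_act' {k q : ℕ} (h : k ≤ q) (w : List G) (z : ℕ × ℕ) :
    (((act (2 ^ q) w z).1 : ZMod (2 ^ k)), ((act (2 ^ q) w z).2 : ZMod (2 ^ k))) =
      actR w ((z.1 : ZMod (2 ^ k)), (z.2 : ZMod (2 ^ k))) := by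
  induction w with
  | nil => rfl
  | cons g w ih =>
    change (((gen (2 ^ q) g (act (2 ^ q) w z)).1 : ZMod (2 ^ k)),
      ((gen (2 ^ q) g (act (2 ^ q) w z)).2 : ZMod (2 ^ k))) = genR g (actR w _)
    rw [cast_gen h, ih]

theorem shR_inj {R : Type*} [CommRing R] {inv one : Bool} {a a' b : R}
    (h : shR inv one a b = shR inv one a' b) : a = a' := by
  unfold shR at h
  cases inv
  · simp only [cond_false] at h
    linear_combination h
  · simp only [cond_true] at h
    linear_combination h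

theorem genR_inj {R : Type*} [CommRing R] (g : G) : Function.Injective (genR (R := R) g) := by
  rintro ⟨a, b⟩ ⟨a', b'⟩ h
  rcases g with ⟨g1, g2, g3⟩
  unfold genR at h
  cases g3
  · simp only [cond_false, Prod.mk.injEq] at h
    obtain ⟨h1, h2⟩ := h
    subst h2
    rw [shR_inj h1]
  · simp only [cond_true, Prod.mk.injEq] at h
    obtain ⟨h1, h2⟩ := h
    subst h1
    rw [shR_inj h2]

theorem actR_inj {R : Type*} [CommRing R] (w : List G) : Function.Injective (actR (R := R) w) := by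
  induction w with
  | nil => exact fun _ _ h => h
  | cons g w ih =>
    intro z z' h
    change genR g (actR w z) = genR g (actR w z') at h
    exact ih (genR_inj g h)

theorem str_eq_iff_cast {k : ℕ} {z z' : ℕ × ℕ} : str k z = str k z' ↔
    (((z.1 : ZMod (2 ^ k)), (z.2 : ZMod (2 ^ k)) ) : ZMod (2 ^ k) × ZMod (2 ^ k)) =
      ((z'.1 : ZMod (2 ^ k)), (z'.2 : ZMod (2 ^ k))) := by
  rw [str_eq_iff, Prod.mk.injEq, ZMod.natCast_eq_natCast_iff', ZMod.natCast_eq_natCast_iff']

/-- the action respects and reflects the levels -/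
theorem act_str {k q : ℕ} (h : k ≤ q) (w : List G) {z z' : ℕ × ℕ} :
    str k (act (2 ^ q) w z) = str k (act (2 ^ q) w z') ↔ str k z = str k z' := by
  rw [str_eq_iff_cast, str_eq_iff_cast, cast_act' h, cast_act' h]
  exact (actR_inj w).eq_iff

theorem card_res {l q : ℕ} (h : l ≤ q) (v : ℕ) :
    ((Finset.range (2 ^ q)).filter fun a => a % 2 ^ l = v % 2 ^ l).card = 2 ^ (q - l) := by
  have h0 : 0 < 2 ^ l := by positivity
  have h1 := Nat.count_modEq_card (2 ^ q) h0 v
  rw [Nat.count_eq_card_filter_range] at h1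
  have h2 : 2 ^ q % 2 ^ l = 0 := Nat.mod_eq_zero_of_dvd (pow_dvd_pow 2 h)
  rw [h2, if_neg (Nat.not_lt_zero _), add_zero, Nat.pow_div h (by norm_num)] at h1
  exact h1

theorem card_cyl {l q : ℕ} (h : l ≤ q) (z : ℕ × ℕ) :
    ((box (2 ^ q)).filter fun y => str l y = str l z).card = 4 ^ (q - l) := by
  have e : ((box (2 ^ q)).filter fun y => str l y = str l z) =
      ((Finset.range (2 ^ q)).filter fun a => a % 2 ^ l = z.1 % 2 ^ l) ×ˢ
        ((Finset.range (2 ^ q)).filter fun a => a % 2 ^ l = z.2 % 2 ^ l) := by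
    ext y
    rw [Finset.mem_filter, Finset.mem_product, Finset.mem_filter, Finset.mem_filter, str_eq_iff,
      mem_box, Finset.mem_range, Finset.mem_range]
    tauto
  rw [e, Finset.card_product, card_res h, card_res h, ← mul_pow]
  norm_num

/-- the natural maps agree with the maps in the ring `ZMod (2^q)` -/
theorem cast_act (q : ℕ) (w : List G) (z : ℕ × ℕ) :
    (((act (2 ^ q) w z).1 : ZMod (2 ^ q)), ((act (2 ^ q) w z).2 : ZMod (2 ^ q))) =
      actR w ((z.1 : ZMod (2 ^ q)), (z.2 : ZMod (2 ^ q))) :=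
  cast_act' le_rfl w z

end KExp
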