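import Pool.Agent.KExp.Defs

/-!
# Basic facts on strings, words and the action
-/

set_option autoImplicit false

namespace KExp

theorem mem_words {i : ℕ} {w : List G} : w ∈ words i ↔ w.length = i := by
  induction i generalizing w with
  | zero =>
    rw [words, Finset.mem_singleton, List.length_eq_zero_iff]
  | succ i ih =>
    rw [words, Finset.mem_image]
    constructor
    · rintro ⟨⟨g, v⟩, hv, rfl⟩
      rw [Finset.mem_product] at hv
      rw [List.length_cons, ih.1 hv.2]
    · intro h
      cases w with
      | nil => exact absurd h (by simp)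
      | cons g v =>
        refine ⟨(g, v), ?_, rfl⟩
        rw [Finset.mem_product]
        refine ⟨Finset.mem_univ _, ih.2 ?_⟩
        rw [List.length_cons] at h
        exact Nat.succ_injective h

private theorem inj_cons : Function.Injective (fun p : G × List G => p.1 :: p.2) := by
  rintro ⟨a, b⟩ ⟨c, d⟩ h
  obtain ⟨h1, h2⟩ := List.cons.inj h
  exact Prod.ext h1 h2

theorem card_words (i : ℕ) : (words i).card = 8 ^ i := by
  induction i with
  | zero => rw [words, Finset.card_singleton, pow_zero]
  | succ i ih =>
    rw [words, Finset.card_image_of_injective _ inj_cons, Finset.card_product, ih,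
      Finset.card_univ, pow_succ']
    congr 1

theorem sum_words_succ (i : ℕ) {M : Type*} [AddCommMonoid M] (f : List G → M) :
    ∑ w ∈ words (i + 1), f w = ∑ g : G, ∑ w ∈ words i, f (g :: w) := by
  rw [words, Finset.sum_image (fun a _ b _ h => inj_cons h), Finset.sum_product]

theorem mem_box {M : ℕ} {z : ℕ × ℕ} : z ∈ box M ↔ z.1 < M ∧ z.2 < M := by
  rw [box, Finset.mem_product, Finset.mem_range, Finset.mem_range]

theorem length_str (k : ℕ) (z : ℕ × ℕ) : (str k z).length = 2 * k := by
  induction k generalizing z with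
  | zero => rfl
  | succ k ih =>
    rw [str, List.length_cons, List.length_cons, ih]
    ring

theorem take_str {k q : ℕ} (h : k ≤ q) (z : ℕ × ℕ) : (str q z).take (2 * k) = str k z := by
  induction k generalizing q z with
  | zero => rfl
  | succ k ih =>
    obtain ⟨q, rfl⟩ : ∃ q', q = q' + 1 := ⟨q - 1, by omega⟩
    rw [str, str, Nat.mul_succ, List.take_succ_cons, List.take_succ_cons,
      ih (Nat.le_of_succ_le_succ h)]

private theorem mod_iff (k a b : ℕ) : a % 2 ^ (k + 1) = b % 2 ^ (k + 1) ↔
    a % 2 = b % 2 ∧ a / 2 % 2 ^ k = b / 2 % 2 ^ k := by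
  rw [pow_succ', Nat.mod_mul, Nat.mod_mul]
  omega

private theorem dec_iff (a b : ℕ) : decide (a % 2 = 1) = decide (b % 2 = 1) ↔ a % 2 = b % 2 := by
  rw [decide_eq_decide]
  omega

theorem str_eq_iff {k : ℕ} {z z' : ℕ × ℕ} :
    str k z = str k z' ↔ z.1 % 2 ^ k = z'.1 % 2 ^ k ∧ z.2 % 2 ^ k = z'.2 % 2 ^ k := by
  induction k generalizing z z' with
  | zero => simp [str, Nat.mod_one]
  | succ k ih =>
    rw [str, str, List.cons_eq_cons, List.cons_eq_cons, ih, dec_iff, dec_iff, mod_iff, mod_iff]
    tauto

theorem str_mono {k l : ℕ} (h : k ≤ l) {z z' : ℕ × ℕ} (hz : str l z = str l z') :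
    str k z = str k z' := by
  rw [← take_str h, ← take_str h, hz]

theorem exists_str {k : ℕ} {σ : List Bool} (h : σ.length = 2 * k) :
    ∃ z ∈ box (2 ^ k), str k z = σ := by
  induction k generalizing σ with
  | zero =>
    refine ⟨(0, 0), mem_box.2 ⟨Nat.one_pos, Nat.one_pos⟩, ?_⟩
    exact (List.length_eq_zero_iff.1 h).symm
  | succ k ih =>
    match σ, h with
    | [], h => exact absurd h (by simp)
    | [a], h => exact absurd h (by rw [List.length_singleton]; omega)
    | a :: b :: σ, h =>
      rw [List.length_cons, List.length_cons] at h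
      obtain ⟨z, hz, hs⟩ := ih (σ := σ) (by omega)
      rw [mem_box] at hz
      refine ⟨(2 * z.1 + a.toNat, 2 * z.2 + b.toNat), mem_box.2 ⟨?_, ?_⟩, ?_⟩
      · have := Bool.toNat_lt a
        have := hz.1
        rw [pow_succ']
        dsimp only
        omega
      · have := Bool.toNat_lt b
        have := hz.2
        rw [pow_succ']
        dsimp only
        omega
      · have e1 : ∀ (c : Bool) (n : ℕ), decide ((2 * n + c.toNat) % 2 = 1) = c := by
          intro c n
          cases c
          · rw [Bool.toNat_false]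
            exact decide_eq_false (by omega)
          · rw [Bool.toNat_true]
            exact decide_eq_true (by omega)
        have e2 : ∀ (c : Bool) (n : ℕ), (2 * n + c.toNat) / 2 = n := by
          intro c n
          have := Bool.toNat_lt c
          omega
        rw [str, e1, e1, e2, e2, hs]

theorem eq_of_str {q : ℕ} {z z' : ℕ × ℕ} (hz : z ∈ box (2 ^ q)) (hz' : z' ∈ box (2 ^ q))
    (h : str q z = str q z') : z = z' := by
  rw [mem_box] at hz hz'
  rw [str_eq_iff, Nat.mod_eq_of_lt hz.1, Nat.mod_eq_of_lt hz.2, Nat.mod_eq_of_lt hz'.1,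
    Nat.mod_eq_of_lt hz'.2] at h
  exact Prod.ext h.1 h.2

end KExp
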