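import Pool.Agent.KExp.CDefs

/-!
# Killed and live strings
-/

set_option autoImplicit false

namespace KExp

open KRed AC Low4

variable {R : List Bool × ℕ → ℕ → Bool}

theorem mem_bs {m : ℕ} {v : List Bool} : v ∈ bs m ↔ v.length = m := by
  induction m generalizing v with
  | zero =>
    unfold bs
    rw [Finset.mem_singleton, List.length_eq_zero_iff]
  | succ m ih =>
    unfold bs
    rw [Finset.mem_union, Finset.mem_image, Finset.mem_image]
    constructor
    · rintro (⟨w, hw, rfl⟩ | ⟨w, hw, rfl⟩)
      · rw [List.length_cons, ih.1 hw]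
      · rw [List.length_cons, ih.1 hw]
    · intro h
      cases v with
      | nil => simp at h
      | cons b w =>
        rw [List.length_cons] at h
        have hw : w ∈ bs m := ih.2 (by omega)
        cases b
        · exact Or.inr ⟨w, hw, rfl⟩
        · exact Or.inl ⟨w, hw, rfl⟩

theorem bs_disj (m : ℕ) : Disjoint ((bs m).image (fun v => true :: v))
    ((bs m).image (fun v => false :: v)) := by
  rw [Finset.disjoint_left]
  intro v h1 h2
  rw [Finset.mem_image] at h1 h2
  obtain ⟨w, -, rfl⟩ := h1
  obtain ⟨w', -, h⟩ := h2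
  simp at h

theorem sum_bs_succ {M : Type*} [AddCommMonoid M] (m : ℕ) (f : List Bool → M) :
    ∑ v ∈ bs (m + 1), f v = ∑ v ∈ bs m, f (true :: v) + ∑ v ∈ bs m, f (false :: v) := by
  have e : bs (m + 1) = (bs m).image (fun v => true :: v) ∪ (bs m).image (fun v => false :: v) :=
    rfl
  rw [e, Finset.sum_union (bs_disj m), Finset.sum_image, Finset.sum_image]
  · intro a _ b _ h
    exact (List.cons.inj h).2
  · intro a _ b _ h
    exact (List.cons.inj h).2

theorem card_bs (m : ℕ) : (bs m).card = 2 ^ m := by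
  induction m with
  | zero => rfl
  | succ m ih =>
    rw [Finset.card_eq_sum_ones, sum_bs_succ, ← Finset.card_eq_sum_ones, ih, pow_succ]
    ring

theorem Kl_mono {t t' : ℕ} (h : t ≤ t') {u v : List Bool} (huv : u <+: v) (hk : Kl R t u) :
    Kl R t' v := by
  obtain ⟨n, hn, h2, s, hs, hR⟩ := hk
  obtain ⟨w, rfl⟩ := huv
  refine ⟨n, ?_, h2, s, hs.trans h, ?_⟩
  · rw [List.length_append]
    omega
  · rw [List.take_append_of_le_length hn]
    exact hR

theorem un_eq (t m : ℕ) (u : List Bool) : un R t m u =
    ∑ v ∈ bs m, (by classical exact if Kl R t (u ++ v) then 0 else 1) := by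
  classical
  unfold un
  rw [Finset.card_filter]
  apply Finset.sum_congr rfl
  intro v _
  by_cases h : Kl R t (u ++ v)
  · simp [h]
  · simp [h]

theorem un_add_bs (t a m : ℕ) (u : List Bool) :
    un R t (a + m) u = ∑ s ∈ bs a, un R t m (u ++ s) := by
  induction a generalizing u with
  | zero =>
    have e : bs 0 = {[]} := rfl
    rw [e, Finset.sum_singleton, List.append_nil, Nat.zero_add]
  | succ a ih =>
    have e : a + 1 + m = (a + m) + 1 := by omega
    rw [e, sum_bs_succ, un_eq, sum_bs_succ]
    have h1 : ∀ b : Bool, ∑ s ∈ bs a, un R t m (u ++ b :: s) = un R t (a + m) (u ++ [b]) := by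
      intro b
      rw [ih]
      apply Finset.sum_congr rfl
      intro s _
      rw [List.append_assoc, List.singleton_append]
    rw [h1, h1, un_eq, un_eq]
    congr 1
    · apply Finset.sum_congr rfl
      intro v _
      rw [List.append_assoc, List.singleton_append]
    · apply Finset.sum_congr rfl
      intro v _
      rw [List.append_assoc, List.singleton_append]

theorem bs_eq_image (q : ℕ) : bs (2 * q) = (box (2 ^ q)).image (str q) := by
  ext v
  rw [mem_bs, Finset.mem_image]
  constructor
  · intro h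
    exact exists_str h
  · rintro ⟨z, _, rfl⟩
    exact length_str q z

/-- summing over the first `2 q` bits (they are `str q y`, `y` in the box) -/
theorem un_add (t q m : ℕ) (u : List Bool) :
    un R t (2 * q + m) u = ∑ y ∈ box (2 ^ q), un R t m (u ++ str q y) := by
  rw [un_add_bs, bs_eq_image, Finset.sum_image]
  intro z hz z' hz' h
  exact eq_of_str hz hz' h

theorem un_le (t m : ℕ) (u : List Bool) : un R t m u ≤ 2 ^ m := by
  classical
  unfold un
  rw [← card_bs]
  exact Finset.card_filter_le _ _

theorem un_eq_zero {t m : ℕ} {u : List Bool} (h : Kl R t u) : un R t m u = 0 := by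
  classical
  unfold un
  rw [Finset.card_eq_zero, Finset.filter_eq_empty_iff]
  intro v _
  rw [not_not]
  exact Kl_mono le_rfl (List.prefix_append u v) h

theorem un_anti {t t' : ℕ} (h : t ≤ t') (m : ℕ) (u : List Bool) : un R t' m u ≤ un R t m u := by
  classical
  unfold un
  apply Finset.card_le_card
  intro v hv
  rw [Finset.mem_filter] at hv ⊢
  refine ⟨hv.1, fun hk => hv.2 ?_⟩
  exact Kl_mono h (List.prefix_refl _) hk

theorem un_ext_le (t a d : ℕ) (u : List Bool) : un R t (a + d) u ≤ 2 ^ d * un R t a u := by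
  classical
  have e : un R t a u = ((bs a).filter fun v => ¬ Kl R t (u ++ v)).card := by
    unfold un
    apply congrArg
    ext v
    simp only [Finset.mem_filter]
  rw [un_add_bs, e, Finset.card_filter, Finset.mul_sum]
  apply Finset.sum_le_sum
  intro s _
  by_cases hk : Kl R t (u ++ s)
  · rw [un_eq_zero hk]
    exact Nat.zero_le _
  · rw [if_pos hk, mul_one]
    exact un_le _ _ _

theorem Lv_anti {t t' j : ℕ} (h : t ≤ t') {u : List Bool} (hl : Lv R t' j u) : Lv R t j u := by
  obtain ⟨d, rfl⟩ := Nat.exists_eq_add_of_le h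
  unfold Lv at hl ⊢
  have h1 : un R (t + d) (t + d) u ≤ 2 ^ d * un R t t u :=
    (un_anti h (t + d) u).trans (un_ext_le t t d u)
  have h2 : 2 ^ d * 2 ^ t ≤ 2 ^ d * (2 ^ (j + 1) * un R t t u) := by
    calc 2 ^ d * 2 ^ t = 2 ^ (t + d) := by rw [pow_add, mul_comm]
      _ ≤ 2 ^ (j + 1) * un R (t + d) (t + d) u := hl
      _ ≤ 2 ^ (j + 1) * (2 ^ d * un R t t u) := Nat.mul_le_mul_left _ h1
      _ = 2 ^ d * (2 ^ (j + 1) * un R t t u) := by ring
  exact Nat.le_of_mul_le_mul_left h2 (by positivity)

theorem le_of_live {U : List Bool →. ℕ} (hR : NF U R) {j : ℕ} {u : List Bool} (h : Live R j u)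
    {n : ℕ} (hn : n ≤ u.length) : n ≤ KS U (u.take n) + 1 := by
  by_contra hcon
  have h1 : KS U (u.take n) ≤ n - 2 := by omega
  obtain ⟨t, ht⟩ := (hR.2 (u.take n, n - 2)).1 h1
  have hk : Kl R t u := ⟨n, hn, by omega, t, le_rfl, ht⟩
  have hl := h t
  unfold Lv at hl
  rw [un_eq_zero hk, mul_zero] at hl
  have : 0 < 2 ^ t := by positivity
  omega

end KExp
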