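import Pool.Agent.KExp.CBas

/-!
# Markov's inequality
-/

set_option autoImplicit false

namespace KExp

open KRed AC Low4

variable {R : List Bool × ℕ → ℕ → Bool}

open Classical in
private theorem cmk_un_mono {t t' : ℕ} (h : t ≤ t') (m : ℕ) (u : List Bool) :
    un R t' m u ≤ un R t m u := by
  unfold un
  refine Finset.card_le_card fun v hv => ?_
  rw [Finset.mem_filter] at hv ⊢
  exact ⟨hv.1, fun hk => hv.2 (Kl_mono h (List.prefix_refl _) hk)⟩

open Classical in
private theorem cmk_un_le (t m : ℕ) (u : List Bool) : un R t m u ≤ 2 ^ m := by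
  unfold un
  rw [← card_bs m]
  exact Finset.card_filter_le _ _

private theorem cmk_card_box (q : ℕ) : (box (2 ^ q)).card = 4 ^ q := by
  rw [box, Finset.card_product, Finset.card_range, ← mul_pow]
  norm_num

private theorem cmk_arith {S b g N : ℕ} (hS : 2 ≤ S) (hN : b + g = N)
    (h : 2 * N ≤ b + S * g) : 2 * S * b ≤ (2 * S - 2) * N := by
  obtain ⟨s, rfl⟩ : ∃ s, S = s + 2 := ⟨S - 2, by omega⟩
  subst hN
  have e : 2 * (s + 2) - 2 = 2 * s + 2 := by omega
  rw [e]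
  have h1 : b ≤ s * g := by nlinarith
  nlinarith

open Classical in
/-- Markov's inequality. Put `b` = number of the `y` with `¬ Lv`. `2^(2q+t) ≤ 2^(j+1) un`, and
`un R (2q+t) (2q+t) u ≤ ∑_y un R t t (u ++ str q y)` (`un_add`, fewer strings are killed at stage
`t`), each summand `≤ 2^t`, and `2^(j+2)` times it is `< 2^t` for the `b` bad ones. So
`2 · 4^q ≤ b + 2^(j+2) (4^q - b)`, hence `(2^(j+2) - 1) b ≤ (2^(j+2) - 2) 4^q` and the claim. -/
theorem markov {j q t : ℕ} {τ : List Bool} (h : Lv R (2 * q + t) j τ) :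
    2 ^ (j + 3) * ((box (2 ^ q)).filter fun y => PC R τ j q t y).card ≤
      (2 ^ (j + 3) - 2) * 4 ^ q := by
  have h1 : 2 ^ (2 * q + t) ≤ 2 ^ (j + 1) * ∑ y ∈ box (2 ^ q), un R t t (τ ++ str q y) := by
    refine h.trans (Nat.mul_le_mul_left _ ?_)
    rw [← un_add]
    exact cmk_un_mono (by omega) _ _
  have hsplit := Finset.sum_filter_add_sum_filter_not (box (2 ^ q)) (fun y => PC R τ j q t y)
    (fun y => un R t t (τ ++ str q y))
  have hcard : ((box (2 ^ q)).filter fun y => PC R τ j q t y).card +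
      ((box (2 ^ q)).filter fun y => ¬ PC R τ j q t y).card = 4 ^ q := by
    rw [Finset.card_filter_add_card_filter_not, cmk_card_box]
  have h2 : 2 ^ (j + 2) * ∑ y ∈ (box (2 ^ q)).filter (fun y => PC R τ j q t y),
      un R t t (τ ++ str q y) ≤
      ((box (2 ^ q)).filter fun y => PC R τ j q t y).card * 2 ^ t := by
    rw [Finset.mul_sum, ← smul_eq_mul (_ : ℕ) (2 ^ t)]
    refine Finset.sum_le_card_nsmul _ _ _ fun y hy => ?_
    have hy1 := (Finset.mem_filter.1 hy).2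
    unfold PC Lv at hy1
    have e : j + 1 + 1 = j + 2 := by omega
    rw [e] at hy1
    omega
  have h3 : ∑ y ∈ (box (2 ^ q)).filter (fun y => ¬ PC R τ j q t y), un R t t (τ ++ str q y) ≤
      ((box (2 ^ q)).filter fun y => ¬ PC R τ j q t y).card * 2 ^ t := by
    rw [← smul_eq_mul (_ : ℕ) (2 ^ t)]
    exact Finset.sum_le_card_nsmul _ _ _ fun y _ => cmk_un_le _ _ _
  set b := ((box (2 ^ q)).filter fun y => PC R τ j q t y).card with hb
  set g := ((box (2 ^ q)).filter fun y => ¬ PC R τ j q t y).card with hg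
  have h4 : 2 * 4 ^ q * 2 ^ t ≤ (b + 2 ^ (j + 2) * g) * 2 ^ t := by
    have e1 : 2 * 4 ^ q * 2 ^ t = 2 * 2 ^ (2 * q + t) := by
      rw [pow_add, pow_mul]
      norm_num
      ring
    have e2 : 2 ^ (j + 2) = 2 * 2 ^ (j + 1) := by rw [pow_succ]; ring
    calc 2 * 4 ^ q * 2 ^ t = 2 * 2 ^ (2 * q + t) := e1
      _ ≤ 2 * (2 ^ (j + 1) * ∑ y ∈ box (2 ^ q), un R t t (τ ++ str q y)) :=
          Nat.mul_le_mul_left _ h1
      _ = 2 ^ (j + 2) * ∑ y ∈ box (2 ^ q), un R t t (τ ++ str q y) := by rw [e2]; ring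
      _ = 2 ^ (j + 2) * ∑ y ∈ (box (2 ^ q)).filter (fun y => PC R τ j q t y),
            un R t t (τ ++ str q y) +
          2 ^ (j + 2) * ∑ y ∈ (box (2 ^ q)).filter (fun y => ¬ PC R τ j q t y),
            un R t t (τ ++ str q y) := by rw [← hsplit, mul_add]
      _ ≤ b * 2 ^ t + 2 ^ (j + 2) * (g * 2 ^ t) :=
          Nat.add_le_add h2 (Nat.mul_le_mul_left _ h3)
      _ = (b + 2 ^ (j + 2) * g) * 2 ^ t := by ring
  have h5 : 2 * 4 ^ q ≤ b + 2 ^ (j + 2) * g :=
    Nat.le_of_mul_le_mul_right h4 (by positivity)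
  have e3 : 2 ^ (j + 3) = 2 * 2 ^ (j + 2) := by rw [pow_succ]; ring
  rw [e3]
  refine cmk_arith ?_ hcard h5
  calc 2 = 2 ^ 1 := rfl
    _ ≤ 2 ^ (j + 2) := Nat.pow_le_pow_right (by norm_num) (by omega)

end KExp
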