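import Pool.Agent.KExp.CMax
import Pool.Agent.KExp.CMk

/-!
# The number of bad pairs, all stages together (paper proof of `card_BC` in CWtV.lean)
-/

set_option autoImplicit false

namespace KExp

open KRed AC Low4

variable {R : List Bool × ℕ → ℕ → Bool}

private theorem ccard_PC_mono {τ : List Bool} {j q t t' : ℕ} (h : t ≤ t') {y : ℕ × ℕ}
    (hy : PC R τ j q t y) : PC R τ j q t' y :=
  fun hl => hy (Lv_anti h hl)

open Classical in
private theorem ccard_BadS_mono {P Q : ℕ × ℕ → Prop} (h : ∀ y, P y → Q y) {q i s k : ℕ}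
    {z : ℕ × ℕ} (hb : BadS P q i s k z) : BadS Q q i s k z := by
  obtain ⟨l, hl, hd⟩ := hb
  refine ⟨l, hl, ?_⟩
  unfold DistS at hd ⊢
  refine hd.trans (Nat.mul_le_mul_left _ ?_)
  unfold cnt
  refine Finset.card_le_card fun x hx => ?_
  rw [Finset.mem_filter] at hx ⊢
  exact ⟨hx.1, hx.2.1, h _ hx.2.2⟩

open Classical in
theorem card_BC (τ : List Bool) (j i : ℕ) :
    (((box (2 ^ 9 ^ i)).filter fun z => BC R τ j i (9 ^ i) z).card : ℝ) ≤
      4 ^ (j + 3) * (5329 / 6400) ^ i * 4 ^ 9 ^ i := by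
  set F := (box (2 ^ 9 ^ i)).filter fun z => BC R τ j i (9 ^ i) z with hF
  rcases F.eq_empty_or_nonempty with h0 | hne
  · rw [h0]
    simp only [Finset.card_empty, Nat.cast_zero]
    positivity
  -- a stage for each bad pair
  have hst : ∀ z ∈ F, ∃ t, Lv R (2 * 9 ^ i + t) j τ ∧
      BadS (PC R τ j (9 ^ i) t) (9 ^ i) i (j + 3) (9 ^ i) z := fun z hz =>
    (Finset.mem_filter.mp hz).2
  choose! T hT using hst
  obtain ⟨z0, hz0, hmax⟩ := F.exists_max_image T hne
  have hL := (hT z0 hz0).1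
  have hsub : F ⊆ (box (2 ^ 9 ^ i)).filter fun z =>
      BadS (PC R τ j (9 ^ i) (T z0)) (9 ^ i) i (j + 3) (9 ^ i) z := by
    intro z hz
    rw [Finset.mem_filter]
    exact ⟨(Finset.mem_filter.mp hz).1,
      ccard_BadS_mono (fun y hy => ccard_PC_mono (hmax z hz) hy) (hT z hz).2⟩
  have h1 := card_badS (PC R τ j (9 ^ i) (T z0)) (9 ^ i) i (j + 3) (by omega) (markov hL)
  refine le_trans ?_ h1
  exact_mod_cast Finset.card_le_card hsub

end KExp
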