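import Pool.Agent.KExp.Act

/-!
# The cone version: definitions

THEOREM (CMain.lean). There is a computable increasing sequence `N_0 < N_1 < ...` and `c` such that
every set `A` has a 1-random `B` (even `n ≤ K(B↾n) + 1`) with
`K(A↾n) ≤ K(B↾n) + 0.95 log N_j + c` for all `j` and all `n ≤ N_j`.

PROOF. Stage `j`: strings `σ = A↾2p` and `τ = B↾2p` are given, `τ` is live: at most the fraction
`1 - 2^(-j-1)` of the extensions of `τ` (of each length) is killed (has an initial segment `ν` with
`K ν + 2 ≤ |ν|`). Apply the finite argument inside `τ` with `q = 9^i` and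
`P = {y | τ ++ str q y is not live for j + 1}`; by Markov's inequality `|P| ≤ (1 - 2^(-j-2)) 4^q`
(`markov`). Disturbed means now: at least `1 - 2^(-s)`, `s = j + 3`, of the pairs (word, extension)
are mapped in `P` (`DistS`, `BadS`). The requests are for all `i, j, p, σ, τ` together, the error
term is `E i j p = 3i + i/512 + 4p + 4j + 30`. As `P` and the liveness of `τ` are not decidable, everything
uses stages `t` (`Kl`, `Lv`); a request of the second kind is made if at SOME stage `t` the string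
`τ` still looks live (at stage `2q + t`) and `z` is bad for the stage `t` approximation `PC .. t` of
`P`. The parameter `R` is the primitive recursive normal form of `K σ ≤ k` (`primrec_nf (sig_KS hU)`).
-/

set_option autoImplicit false

namespace KExp

open KRed

/-- the strings of length `m` -/
def bs : ℕ → Finset (List Bool)
  | 0 => {[]}
  | m + 1 => (bs m).image (fun v => true :: v) ∪ (bs m).image (fun v => false :: v)

/-- `R` is a normal form of `K σ ≤ k` -/
def NF (U : List Bool →. ℕ) (R : List Bool × ℕ → ℕ → Bool) : Prop :=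
  Primrec₂ R ∧ ∀ a, KS U a.1 ≤ a.2 ↔ ∃ t, R a t = true

/-- `v` is killed at stage `t`: some initial segment `ν` of `v` has `K ν + 2 ≤ |ν|`, seen by
stage `t` -/
def Kl (R : List Bool × ℕ → ℕ → Bool) (t : ℕ) (v : List Bool) : Prop :=
  ∃ n ≤ v.length, 2 ≤ n ∧ ∃ t' ≤ t, R (v.take n, n - 2) t' = true

open Classical in
/-- number of the extensions of `u` by `m` bits which are not killed at stage `t` -/
noncomputable def un (R : List Bool × ℕ → ℕ → Bool) (t m : ℕ) (u : List Bool) : ℕ :=
  ((bs m).filter fun v => ¬ Kl R t (u ++ v)).card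

/-- `u` looks live at stage `t` (at least the fraction `2^(-j-1)` of its extensions of `t` bits is
not killed at stage `t`) -/
def Lv (R : List Bool × ℕ → ℕ → Bool) (t j : ℕ) (u : List Bool) : Prop :=
  2 ^ t ≤ 2 ^ (j + 1) * un R t t u

/-- `u` is live -/
def Live (R : List Bool × ℕ → ℕ → Bool) (j : ℕ) (u : List Bool) : Prop := ∀ t, Lv R t j u

/-- the fraction `1 - 2^(-s)` of the pairs (word, extension of `str l z`) is mapped in `P` -/
def DistS (P : ℕ × ℕ → Prop) (q i s l : ℕ) (z : ℕ × ℕ) : Prop :=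
  (2 ^ s - 1) * (8 ^ i * 4 ^ (q - l)) ≤ 2 ^ s * cnt P q i l z

/-- `DistS` at some level `≤ k` -/
def BadS (P : ℕ × ℕ → Prop) (q i s k : ℕ) (z : ℕ × ℕ) : Prop := ∃ l ≤ k, DistS P q i s l z

/-- the pairs `y` for which `τ ++ str q y` does not look live for `j + 1` at stage `t` -/
def PC (R : List Bool × ℕ → ℕ → Bool) (τ : List Bool) (j q t : ℕ) (y : ℕ × ℕ) : Prop :=
  ¬ Lv R t (j + 1) (τ ++ str q y)

/-- bad at some stage at which `τ` looks live -/
def BC (R : List Bool × ℕ → ℕ → Bool) (τ : List Bool) (j i k : ℕ) (z : ℕ × ℕ) : Prop :=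
  ∃ t, Lv R (2 * 9 ^ i + t) j τ ∧ BadS (PC R τ j (9 ^ i) t) (9 ^ i) i (j + 3) k z

/-- the error term -/
def E (i j p : ℕ) : ℕ := 3 * i + i / 512 + 4 * p + 4 * j + 30

/-- the requests for `σ`, `τ` of length `2 p`, stage `j`, scale `i` -/
def VC (U : List Bool →. ℕ) (R : List Bool × ℕ → ℕ → Bool) (i j p : ℕ) (σ τ ρ : List Bool)
    (κ : ℕ) : Prop :=
  ∃ k ≤ 9 ^ i, ∃ z ∈ box (2 ^ 9 ^ i), σ ++ str k z = ρ ∧
    ((∃ w ∈ words i, KS U (τ ++ str k (act (2 ^ 9 ^ i) w z)) + E i j p ≤ κ) ∨
      (BC R τ j i k z ∧ 2 * p + 2 * k + E i j p ≤ κ))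

/-- the requests with parameters `i, j, p` -/
def RC3 (U : List Bool →. ℕ) (R : List Bool × ℕ → ℕ → Bool) (i j p : ℕ) (ρ : List Bool)
    (κ : ℕ) : Prop :=
  ∃ σ ∈ bs (2 * p), ∃ τ ∈ bs (2 * p), VC U R i j p σ τ ρ κ

/-- all requests -/
def RC (U : List Bool →. ℕ) (R : List Bool × ℕ → ℕ → Bool) (ρ : List Bool) (κ : ℕ) : Prop :=
  ∃ i j p, RC3 U R i j p ρ κ

end KExp
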