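import Pool.Agent.KExp.Host
import Pool.Agent.KExp.CDefs

/-!
# Hosts with the threshold `1 - 2^(-s)`; as Host.lean

`DistS` at level `0` fails because `cnt = 8^i |P|` there and `2^s cnt ≤ (2^s - 2) 8^i 4^q`. If
`DistS` fails at level `l` then `cnt < 8^i 4^(q-l)`, so some pair (word, extension) is not mapped
in `P`.
-/

set_option autoImplicit false

namespace KExp

open Classical in
theorem exists_hostS (P : ℕ × ℕ → Prop) (q i s : ℕ) (hs : 1 ≤ s)
    (hP : 2 ^ s * ((box (2 ^ q)).filter P).card ≤ (2 ^ s - 2) * 4 ^ q)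
    {z : ℕ × ℕ} (hz : z ∈ box (2 ^ q)) :
    ∃ z' ∈ box (2 ^ q), ¬ P z' ∧ ∀ k ≤ q,
      (∃ w ∈ words i, str k z' = str k (act (2 ^ q) w z)) ∨ BadS P q i s k z := by
  have key : ∀ m ≤ q, ¬ DistS P q i s m z → ∃ w ∈ words i, ∃ y ∈ box (2 ^ q),
      str m y = str m z ∧ ¬ P (act (2 ^ q) w y) := by
    intro m hm hD
    by_contra hc
    push Not at hc
    apply hD
    have h1 : 8 ^ i * 4 ^ (q - m) ≤ cnt P q i m z := by
      rw [← card_words i, ← card_cyl hm z, ← Finset.card_product]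
      unfold cnt
      apply Finset.card_le_card
      rintro ⟨w, y⟩ hx
      rw [Finset.mem_product, Finset.mem_filter] at hx
      rw [Finset.mem_filter, Finset.mem_product]
      exact ⟨⟨hx.1, hx.2.1⟩, hx.2.2, hc w hx.1 y hx.2.1 hx.2.2⟩
    unfold DistS
    calc (2 ^ s - 1) * (8 ^ i * 4 ^ (q - m)) ≤ 2 ^ s * (8 ^ i * 4 ^ (q - m)) :=
          Nat.mul_le_mul_right _ (Nat.sub_le _ _)
      _ ≤ 2 ^ s * cnt P q i m z := Nat.mul_le_mul_left _ h1
  have h0 : ¬ DistS P q i s 0 z := by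
    have h2 : cnt P q i 0 z ≤ 8 ^ i * ((box (2 ^ q)).filter P).card := by
      rw [← card_words i, ← Finset.card_product]
      unfold cnt
      apply Finset.card_le_card_of_injOn (fun x : List G × (ℕ × ℕ) => (x.1, act (2 ^ q) x.1 x.2))
      · rintro ⟨w, y⟩ hx
        rw [SetLike.mem_coe, Finset.mem_filter, Finset.mem_product] at hx
        rw [SetLike.mem_coe, Finset.mem_product, Finset.mem_filter]
        exact ⟨hx.1.1, act_mem w hx.1.2, hx.2.2⟩
      · rintro ⟨w, y⟩ hx ⟨w', y'⟩ hx' hxx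
        rw [SetLike.mem_coe, Finset.mem_filter, Finset.mem_product] at hx hx'
        simp only [Prod.mk.injEq] at hxx
        obtain ⟨rfl, h3⟩ := hxx
        have h4 : y = y' := eq_of_str hx.1.2 hx'.1.2
          ((act_str le_rfl w).1 (congrArg (str q) h3))
        rw [h4]
    unfold DistS
    intro h3
    rw [Nat.sub_zero] at h3
    have h4 : 0 < 8 ^ i * 4 ^ q := by positivity
    have h5 : 2 ^ s * cnt P q i 0 z ≤ (2 ^ s - 2) * (8 ^ i * 4 ^ q) :=
      calc 2 ^ s * cnt P q i 0 z ≤ 2 ^ s * (8 ^ i * ((box (2 ^ q)).filter P).card) :=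
            Nat.mul_le_mul_left _ h2
        _ = 8 ^ i * (2 ^ s * ((box (2 ^ q)).filter P).card) := by ring
        _ ≤ 8 ^ i * ((2 ^ s - 2) * 4 ^ q) := Nat.mul_le_mul_left _ hP
        _ = (2 ^ s - 2) * (8 ^ i * 4 ^ q) := by ring
    have h6 : 2 ≤ 2 ^ s := by
      calc 2 = 2 ^ 1 := rfl
        _ ≤ 2 ^ s := Nat.pow_le_pow_right (by norm_num) hs
    have h7 : 2 ^ s - 1 ≤ 2 ^ s - 2 := Nat.le_of_mul_le_mul_right (h3.trans h5) h4
    omega
  have fin : ∀ m ≤ q, ¬ DistS P q i s m z → (∀ k ≤ q, m < k → BadS P q i s k z) →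
      ∃ z' ∈ box (2 ^ q), ¬ P z' ∧ ∀ k ≤ q,
        (∃ w ∈ words i, str k z' = str k (act (2 ^ q) w z)) ∨ BadS P q i s k z := by
    intro m hm hD hB
    obtain ⟨w, hw, y, hy, hs, hP'⟩ := key m hm hD
    refine ⟨act (2 ^ q) w y, act_mem w hy, hP', fun k hk => ?_⟩
    rcases le_or_gt k m with h | h
    · exact Or.inl ⟨w, hw, (act_str hk w).2 (str_mono h hs)⟩
    · exact Or.inr (hB k hk h)
  by_cases hex : ∃ l, l ≤ q ∧ DistS P q i s l z
  · obtain ⟨hl, hlD⟩ := Nat.find_spec hex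
    have hl0 : Nat.find hex ≠ 0 := by
      intro h
      rw [h] at hlD
      exact h0 hlD
    obtain ⟨m, hm⟩ := Nat.exists_eq_succ_of_ne_zero hl0
    have hmq : m ≤ q := by omega
    have hmD : ¬ DistS P q i s m z := by
      intro h
      exact Nat.find_min hex (m := m) (by omega) ⟨hmq, h⟩
    exact fin m hmq hmD fun k _ hk => ⟨Nat.find hex, by omega, hlD⟩
  · push Not at hex
    exact fin q le_rfl (hex q le_rfl) fun k hk hk' => absurd hk (by omega)

end KExp
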