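import Pool.Agent.KExp.CBas

/-!
# The empty string is live
-/

set_option autoImplicit false

namespace KExp

open KRed AC Low4

variable {R : List Bool × ℕ → ℕ → Bool}

private lemma cyl_le {t n : ℕ} (_hn : n ≤ t) (σ : List Bool) :
    ((bs t).filter fun v => v.take n = σ).card ≤ 2 ^ (t - n) := by
  rw [← card_bs (t - n)]
  refine Finset.card_le_card_of_injOn (fun v => v.drop n) ?_ ?_
  · intro v hv
    have h1 := mem_bs.1 (Finset.mem_filter.1 hv).1
    exact mem_bs.2 (by rw [List.length_drop, h1])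
  · intro v hv w hw h
    have h1 := (Finset.mem_filter.1 hv).2
    have h2 := (Finset.mem_filter.1 hw).2
    have h3 : v.drop n = w.drop n := h
    rw [← List.take_append_drop n v, ← List.take_append_drop n w, h1, h2, h3]

private lemma pow_bound' {t n k : ℕ} (hn : n ≤ t) (h : k + 2 ≤ n) :
    (4 : ℚ) * 2 ^ (t - n) ≤ 2 ^ t * (1 / 2) ^ k := by
  obtain ⟨r, rfl⟩ := Nat.exists_eq_add_of_le hn
  obtain ⟨s, rfl⟩ := Nat.exists_eq_add_of_le h
  have h1 : k + 2 + s + r - (k + 2 + s) = r := by omega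
  rw [h1]
  have h2 : (2 : ℚ) ^ (k + 2 + s + r) * (1 / 2) ^ k = 4 * 2 ^ s * 2 ^ r := by
    rw [pow_add, pow_add, pow_add]
    have h3 : (2 : ℚ) ^ k * (1 / 2) ^ k = 1 := by
      rw [← mul_pow]
      norm_num
    calc (2 : ℚ) ^ k * 2 ^ 2 * 2 ^ s * 2 ^ r * (1 / 2) ^ k
        = (2 ^ k * (1 / 2) ^ k) * (2 ^ 2 * 2 ^ s * 2 ^ r) := by ring
      _ = 4 * 2 ^ s * 2 ^ r := by rw [h3]; ring
  rw [h2]
  have h4 : (1 : ℚ) ≤ 2 ^ s := one_le_pow₀ (by norm_num)
  have h5 : (0 : ℚ) < 2 ^ r := by positivity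
  nlinarith

open Classical in
private lemma card_killed {U : List Bool →. ℕ} (hU : IsOptimal ∅ U) (hR : NF U R) (t : ℕ) :
    4 * ((bs t).filter fun v => Kl R t v).card ≤ 2 ^ t := by
  set F := (bs t).filter fun v => Kl R t v with hF
  let kk : List Bool → ℕ := fun v => if h : Kl R t v then h.choose else 0
  have hkk : ∀ v ∈ F, v.length = t ∧ kk v ≤ t ∧ KS U (v.take (kk v)) + 2 ≤ kk v := by
    intro v hv
    have hD : Kl R t v := (Finset.mem_filter.1 hv).2
    have hl : v.length = t := mem_bs.1 (Finset.mem_filter.1 hv).1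
    have h0 : kk v = hD.choose := dif_pos hD
    rw [h0]
    obtain ⟨h1, h2, t', _, h3⟩ := hD.choose_spec
    refine ⟨hl, hl ▸ h1, ?_⟩
    have h4 := (hR.2 (v.take hD.choose, hD.choose - 2)).2 ⟨t', h3⟩
    have h5 : KS U (v.take hD.choose) ≤ hD.choose - 2 := h4
    omega
  let S : Finset (List Bool) := F.image fun v => v.take (kk v)
  have hcard : (F.card : ℚ) = ∑ σ ∈ S, ((F.filter fun v => v.take (kk v) = σ).card : ℚ) := by
    rw [Finset.card_eq_sum_card_image (fun v => v.take (kk v)) F]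
    push_cast
    rfl
  have hfib : ∀ σ ∈ S, (4 : ℚ) * ((F.filter fun v => v.take (kk v) = σ).card : ℚ) ≤
      2 ^ t * (1 / 2) ^ KS U σ := by
    intro σ hσ
    obtain ⟨v0, hv0, rfl⟩ := Finset.mem_image.1 hσ
    obtain ⟨h0, h1, h2⟩ := hkk v0 hv0
    have hsub : (F.filter fun v => v.take (kk v) = v0.take (kk v0)) ⊆
        (bs t).filter fun v => v.take (kk v0) = v0.take (kk v0) := by
      intro v hv
      obtain ⟨h3, h4⟩ := Finset.mem_filter.1 hv
      obtain ⟨h6, h7, -⟩ := hkk v h3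
      have h5 : kk v = kk v0 := by
        have := congrArg List.length h4
        rw [List.length_take, List.length_take, h6, h0] at this
        omega
      rw [h5] at h4
      exact Finset.mem_filter.2 ⟨(Finset.mem_filter.1 h3).1, h4⟩
    have h6 := (Finset.card_le_card hsub).trans (cyl_le h1 _)
    refine le_trans ?_ (pow_bound' h1 h2)
    have h7 : ((F.filter fun v => v.take (kk v) = v0.take (kk v0)).card : ℚ) ≤
        ((2 ^ (t - kk v0) : ℕ) : ℚ) := by exact_mod_cast h6
    push_cast at h7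
    linarith
  have h8 : (4 : ℚ) * F.card ≤ 2 ^ t := by
    rw [hcard, Finset.mul_sum]
    calc ∑ σ ∈ S, (4 : ℚ) * ((F.filter fun v => v.take (kk v) = σ).card : ℚ)
        ≤ ∑ σ ∈ S, 2 ^ t * (1 / 2 : ℚ) ^ KS U σ := Finset.sum_le_sum hfib
      _ = 2 ^ t * ∑ σ ∈ S, (1 / 2 : ℚ) ^ KS U σ := by rw [Finset.mul_sum]
      _ ≤ 2 ^ t * 1 := by
          have := kraft_KS hU S
          gcongr
      _ = 2 ^ t := mul_one _
  exact_mod_cast h8

open Classical in
/-- at most a quarter of the strings of each length is killed (Kraft, `kraft_KS`; as in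
Small.lean) -/
theorem live_nil {U : List Bool →. ℕ} (hU : IsOptimal ∅ U) (hR : NF U R) : Live R 0 [] := by
  intro t
  have h1 := card_killed hU hR t
  have h2 : ((bs t).filter fun v => Kl R t v).card + un R t t [] = 2 ^ t := by
    rw [← card_bs t, ← Finset.card_filter_add_card_filter_not (s := bs t) (fun v => Kl R t v)]
    rfl
  unfold Lv
  rw [zero_add, pow_one]
  omega

end KExp
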