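import Pool.Agent.KExp.CSig2

/-!
# The requests of the cone version are `Sig1` (paper proof in CSig1.lean)
-/

set_option autoImplicit false

namespace KExp

open KRed AC Low4 Encodable

variable {R : List Bool × ℕ → ℕ → Bool}

private theorem csig_pow {α : Type*} [Primcodable α] {f g : α → ℕ} (hf : Primrec f)
    (hg : Primrec g) : Primrec fun x => f x ^ g x :=
  (Primrec₂.unpaired'.1 Nat.Primrec.pow : Primrec₂ fun a b : ℕ => a ^ b).comp hf hg

private theorem csig_E {α : Type*} [Primcodable α] {i j p : α → ℕ} (hi : Primrec i)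
    (hj : Primrec j) (hp : Primrec p) : Primrec fun x => E (i x) (j x) (p x) := by
  unfold E
  refine Primrec.nat_add.comp (Primrec.nat_add.comp (Primrec.nat_add.comp
    (Primrec.nat_add.comp ?_ ?_) ?_) ?_) (Primrec.const 30)
  · exact Primrec.nat_mul.comp (Primrec.const 3) hi
  · exact Primrec.nat_div.comp hi (Primrec.const 512)
  · exact Primrec.nat_mul.comp (Primrec.const 4) hp
  · exact Primrec.nat_mul.comp (Primrec.const 4) hj

/-- the parameters of a request: `i, j, p`, the strings, `k` and `z` -/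
private abbrev RPar : Type := (ℕ × ℕ × ℕ) × (List Bool × List Bool) × (ℕ × (ℕ × ℕ))

theorem sig_RC {U : List Bool →. ℕ} (hU : IsOptimal ∅ U) (hR : Primrec₂ R) :
    Sig1 fun p : List Bool × ℕ => RC U R p.1 p.2 := by
  -- the projections of `y = (a, x)`
  have pa : Primrec fun y : (List Bool × ℕ) × RPar => y.1.1 := Primrec.fst.comp Primrec.fst
  have pκ : Primrec fun y : (List Bool × ℕ) × RPar => y.1.2 := Primrec.snd.comp Primrec.fst
  have p1 : Primrec fun y : (List Bool × ℕ) × RPar => y.2.1 := Primrec.fst.comp Primrec.snd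
  have pi : Primrec fun y : (List Bool × ℕ) × RPar => y.2.1.1 := Primrec.fst.comp p1
  have pj : Primrec fun y : (List Bool × ℕ) × RPar => y.2.1.2.1 :=
    Primrec.fst.comp (Primrec.snd.comp p1)
  have pp : Primrec fun y : (List Bool × ℕ) × RPar => y.2.1.2.2 :=
    Primrec.snd.comp (Primrec.snd.comp p1)
  have p2 : Primrec fun y : (List Bool × ℕ) × RPar => y.2.2 := Primrec.snd.comp Primrec.snd
  have pσ : Primrec fun y : (List Bool × ℕ) × RPar => y.2.2.1.1 :=
    Primrec.fst.comp (Primrec.fst.comp p2)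
  have pτ : Primrec fun y : (List Bool × ℕ) × RPar => y.2.2.1.2 :=
    Primrec.snd.comp (Primrec.fst.comp p2)
  have pk : Primrec fun y : (List Bool × ℕ) × RPar => y.2.2.2.1 :=
    Primrec.fst.comp (Primrec.snd.comp p2)
  have pz : Primrec fun y : (List Bool × ℕ) × RPar => y.2.2.2.2 :=
    Primrec.snd.comp (Primrec.snd.comp p2)
  have p9 : Primrec fun y : (List Bool × ℕ) × RPar => 9 ^ y.2.1.1 :=
    csig_pow (Primrec.const 9) pi
  have p29 : Primrec fun y : (List Bool × ℕ) × RPar => 2 ^ 9 ^ y.2.1.1 :=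
    csig_pow (Primrec.const 2) p9
  have pE : Primrec fun y : (List Bool × ℕ) × RPar => E y.2.1.1 y.2.1.2.1 y.2.1.2.2 :=
    csig_E pi pj pp
  have p2p : Primrec fun y : (List Bool × ℕ) × RPar => 2 * y.2.1.2.2 :=
    Primrec.nat_mul.comp (Primrec.const 2) pp
  -- the decidable conditions
  have c1 : Sig1 fun y : (List Bool × ℕ) × RPar =>
      decide (y.2.2.1.1.length = 2 * y.2.1.2.2) = true :=
    Sig1.of_computable ((Primrec.eq (α := ℕ)).decide.to_comp.comp
      (Primrec.list_length.comp pσ).to_comp p2p.to_comp)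
  have c2 : Sig1 fun y : (List Bool × ℕ) × RPar =>
      decide (y.2.2.1.2.length = 2 * y.2.1.2.2) = true :=
    Sig1.of_computable ((Primrec.eq (α := ℕ)).decide.to_comp.comp
      (Primrec.list_length.comp pτ).to_comp p2p.to_comp)
  have c3 : Sig1 fun y : (List Bool × ℕ) × RPar =>
      decide (y.2.2.2.1 ≤ 9 ^ y.2.1.1) = true :=
    Sig1.of_computable (Primrec.nat_le.decide.to_comp.comp pk.to_comp p9.to_comp)
  have c4 : Sig1 fun y : (List Bool × ℕ) × RPar =>
      decide (y.2.2.2.2.1 < 2 ^ 9 ^ y.2.1.1) = true :=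
    Sig1.of_computable (Primrec.nat_lt.decide.to_comp.comp (Primrec.fst.comp pz).to_comp
      p29.to_comp)
  have c5 : Sig1 fun y : (List Bool × ℕ) × RPar =>
      decide (y.2.2.2.2.2 < 2 ^ 9 ^ y.2.1.1) = true :=
    Sig1.of_computable (Primrec.nat_lt.decide.to_comp.comp (Primrec.snd.comp pz).to_comp
      p29.to_comp)
  have c6 : Sig1 fun y : (List Bool × ℕ) × RPar =>
      decide (y.2.2.1.1 ++ str y.2.2.2.1 y.2.2.2.2 = y.1.1) = true :=
    Sig1.of_computable ((Primrec.eq (α := List Bool)).decide.to_comp.comp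
      (Primrec.list_append.comp pσ (primrec_str.comp (Primrec.pair pk pz))).to_comp pa.to_comp)
  have c7 : Sig1 fun y : (List Bool × ℕ) × RPar =>
      decide (2 * y.2.1.2.2 + 2 * y.2.2.2.1 + E y.2.1.1 y.2.1.2.1 y.2.1.2.2 ≤ y.1.2) = true :=
    Sig1.of_computable (Primrec.nat_le.decide.to_comp.comp (Primrec.nat_add.comp
      (Primrec.nat_add.comp p2p (Primrec.nat_mul.comp (Primrec.const 2) pk)) pE).to_comp
      pκ.to_comp)
  have c8 : Sig1 fun y : (List Bool × ℕ) × RPar =>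
      BC R y.2.2.1.2 y.2.1.2.1 y.2.1.1 y.2.2.2.1 y.2.2.2.2 :=
    (sig_BC hR).comp (f := fun y : (List Bool × ℕ) × RPar =>
      (y.2.2.1.2, y.2.1.2.1, y.2.1.1, y.2.2.2.1, y.2.2.2.2))
      (Primrec.pair pτ (Primrec.pair pj (Primrec.pair pi (Primrec.pair pk pz)))).to_comp
  -- the requests of the first kind
  have c9 : Sig1 fun y : (List Bool × ℕ) × RPar => ∃ w : List G,
      (decide (w.length = y.2.1.1) = true ∧
        decide (E y.2.1.1 y.2.1.2.1 y.2.1.2.2 ≤ y.1.2) = true) ∧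
        KS U (y.2.2.1.2 ++ str y.2.2.2.1 (act (2 ^ 9 ^ y.2.1.1) w y.2.2.2.2)) ≤
          y.1.2 - E y.2.1.1 y.2.1.2.1 y.2.1.2.2 := by
    refine Sig1.ex (p := fun (y : (List Bool × ℕ) × RPar) (w : List G) =>
      (decide (w.length = y.2.1.1) = true ∧
        decide (E y.2.1.1 y.2.1.2.1 y.2.1.2.2 ≤ y.1.2) = true) ∧
        KS U (y.2.2.1.2 ++ str y.2.2.2.1 (act (2 ^ 9 ^ y.2.1.1) w y.2.2.2.2)) ≤
          y.1.2 - E y.2.1.1 y.2.1.2.1 y.2.1.2.2) (Sig1.and (Sig1.and ?_ ?_) ?_)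
    · exact Sig1.of_computable ((Primrec.eq (α := ℕ)).decide.to_comp.comp
        (Primrec.list_length.comp Primrec.snd).to_comp (pi.comp Primrec.fst).to_comp)
    · exact Sig1.of_computable (Primrec.nat_le.decide.to_comp.comp (pE.comp Primrec.fst).to_comp
        (pκ.comp Primrec.fst).to_comp)
    · refine (sig_KS hU).comp (f := fun v : ((List Bool × ℕ) × RPar) × List G =>
        (v.1.2.2.1.2 ++ str v.1.2.2.2.1 (act (2 ^ 9 ^ v.1.2.1.1) v.2 v.1.2.2.2.2),
          v.1.1.2 - E v.1.2.1.1 v.1.2.1.2.1 v.1.2.1.2.2)) ?_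
      have pf : Primrec fun v : ((List Bool × ℕ) × RPar) × List G => v.1 := Primrec.fst
      have ps : Primrec fun v : ((List Bool × ℕ) × RPar) × List G => v.2 := Primrec.snd
      have e1 : Primrec fun v : ((List Bool × ℕ) × RPar) × List G =>
          act (2 ^ 9 ^ v.1.2.1.1) v.2 v.1.2.2.2.2 :=
        primrec_act.comp (Primrec.pair (p29.comp pf) (Primrec.pair ps (pz.comp pf)))
      have e2 : Primrec fun v : ((List Bool × ℕ) × RPar) × List G =>
          str v.1.2.2.2.1 (act (2 ^ 9 ^ v.1.2.1.1) v.2 v.1.2.2.2.2) :=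
        primrec_str.comp (Primrec.pair (pk.comp pf) e1)
      exact (Primrec.pair (Primrec.list_append.comp (pτ.comp pf) e2)
        (Primrec.nat_sub.comp (pκ.comp pf) (pE.comp pf))).to_comp
  have hall := Sig1.ex (α := List Bool × ℕ) (β := RPar) (p := fun a x =>
    (decide (x.2.1.1.length = 2 * x.1.2.2) = true ∧
        decide (x.2.1.2.length = 2 * x.1.2.2) = true ∧
          decide (x.2.2.1 ≤ 9 ^ x.1.1) = true ∧
            decide (x.2.2.2.1 < 2 ^ 9 ^ x.1.1) = true ∧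
              decide (x.2.2.2.2 < 2 ^ 9 ^ x.1.1) = true ∧
                decide (x.2.1.1 ++ str x.2.2.1 x.2.2.2 = a.1) = true) ∧
      ((∃ w : List G,
          (decide (w.length = x.1.1) = true ∧
            decide (E x.1.1 x.1.2.1 x.1.2.2 ≤ a.2) = true) ∧
            KS U (x.2.1.2 ++ str x.2.2.1 (act (2 ^ 9 ^ x.1.1) w x.2.2.2)) ≤
              a.2 - E x.1.1 x.1.2.1 x.1.2.2) ∨
        BC R x.2.1.2 x.1.2.1 x.1.1 x.2.2.1 x.2.2.2 ∧
          decide (2 * x.1.2.2 + 2 * x.2.2.1 + E x.1.1 x.1.2.1 x.1.2.2 ≤ a.2) = true))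
    ((c1.and (c2.and (c3.and (c4.and (c5.and c6))))).and (c9.or (c8.and c7)))
  refine hall.of_eq fun a => ?_
  simp only [decide_eq_true_eq]
  unfold RC RC3 VC
  constructor
  · rintro ⟨⟨⟨i, j, p⟩, ⟨σ, τ⟩, ⟨k, z⟩⟩, ⟨h1, h2, h3, h4, h5, h6⟩, h7⟩
    refine ⟨i, j, p, σ, mem_bs.2 h1, τ, mem_bs.2 h2, k, h3, z, mem_box.2 ⟨h4, h5⟩, h6, ?_⟩
    rcases h7 with ⟨w, ⟨hw, he⟩, hk⟩ | ⟨hb, hk⟩
    · left
      refine ⟨w, mem_words.2 hw, ?_⟩
      dsimp only at he hk
      omega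
    · right
      exact ⟨hb, hk⟩
  · rintro ⟨i, j, p, σ, hσ, τ, hτ, k, hk, z, hz, h6, h7⟩
    refine ⟨⟨⟨i, j, p⟩, ⟨σ, τ⟩, ⟨k, z⟩⟩, ⟨mem_bs.1 hσ, mem_bs.1 hτ, hk, (mem_box.1 hz).1,
      (mem_box.1 hz).2, h6⟩, ?_⟩
    rcases h7 with ⟨w, hw, hk⟩ | ⟨hb, hk⟩
    · left
      refine ⟨w, ⟨mem_words.1 hw, ?_⟩, ?_⟩
      · dsimp only
        omega
      · dsimp only
        omega
    · right
      exact ⟨hb, hk⟩

end KExp
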