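import Pool.Agent.KExp.CWtV

/-!
# The total weight of the requests of the cone version

`∑_{i,j,p} 512 · 4^p · 4^j · 8^i · 2^(-E i j p) = 2^9 · 2^(-30) ∑ 2^(-(i/512)) ∑ 4^(-j) ∑ 4^(-p)
= 2^(-21) · 1024 · (4/3)² ≤ 1`. (`4^j 2^(-4j) = 4^(-j)`.)
-/

set_option autoImplicit false

namespace KExp

open KRed AC Low4
open scoped ENNReal

theorem cwt_two : (2 : ℝ≥0∞) * (1 / 2) = 1 := by
  rw [one_div, ENNReal.mul_inv_cancel (by norm_num) (by norm_num)]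

theorem cwt_geo : ∑' n : ℕ, (1 / 2 : ℝ≥0∞) ^ n = 2 := by
  rw [ENNReal.tsum_geometric, one_div, ENNReal.one_sub_inv_two, inv_inv]

theorem cwt_div : ∑' i : ℕ, (1 / 2 : ℝ≥0∞) ^ (i / 512) = 1024 := by
  have h1 : ∑' i : ℕ, (1 / 2 : ℝ≥0∞) ^ (i / 512) =
      ∑' x : ℕ × Fin 512, (1 / 2 : ℝ≥0∞) ^ x.1 := by
    rw [← (Nat.divModEquiv 512).tsum_eq (fun x : ℕ × Fin 512 => (1 / 2 : ℝ≥0∞) ^ x.1)]
    rfl
  rw [h1, ENNReal.tsum_prod (f := fun (n : ℕ) (_ : Fin 512) => (1 / 2 : ℝ≥0∞) ^ n)]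
  have h2 : ∀ n : ℕ, ∑' _ : Fin 512, (1 / 2 : ℝ≥0∞) ^ n = 512 * (1 / 2 : ℝ≥0∞) ^ n := by
    intro n
    rw [tsum_fintype, Finset.sum_const, Finset.card_univ, Fintype.card_fin, nsmul_eq_mul]
    norm_num
  rw [tsum_congr h2, ENNReal.tsum_mul_left, cwt_geo]
  norm_num

theorem cwt_pow (j : ℕ) : (4 : ℝ≥0∞) ^ j * (1 / 2) ^ (4 * j) ≤ (1 / 2) ^ j := by
  have h : (4 : ℝ≥0∞) * (1 / 2) ^ 4 ≤ 1 / 2 := by
    have h1 : (4 : ℝ≥0∞) * (1 / 2) ^ 4 = (2 * (1 / 2)) * (2 * (1 / 2)) * (1 / 2 * (1 / 2)) := by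
      have h2 : (4 : ℝ≥0∞) = 2 * 2 := by norm_num
      rw [h2]
      ring
    rw [h1, cwt_two, one_mul, one_mul]
    calc (1 / 2 : ℝ≥0∞) * (1 / 2) ≤ 1 * (1 / 2) := by
          gcongr
          rw [one_div]
          exact ENNReal.inv_le_one.2 (by norm_num)
      _ = 1 / 2 := one_mul _
  rw [pow_mul, ← mul_pow]
  exact pow_le_pow_left' h j

theorem cwt_eight (i : ℕ) : (8 : ℝ≥0∞) ^ i * (1 / 2) ^ (3 * i) = 1 := by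
  have h : (8 : ℝ≥0∞) * (1 / 2) ^ 3 = 1 := by
    have h1 : (8 : ℝ≥0∞) * (1 / 2) ^ 3 = (2 * (1 / 2)) * (2 * (1 / 2)) * (2 * (1 / 2)) := by
      have h2 : (8 : ℝ≥0∞) = 2 * 2 * 2 := by norm_num
      rw [h2]
      ring
    rw [h1, cwt_two, one_mul, one_mul]
  rw [pow_mul, ← mul_pow, h, one_pow]

theorem cwt_const : (512 : ℝ≥0∞) * (1 / 2) ^ 30 * (1024 * (2 * 2)) ≤ 1 := by
  have h1 : (512 : ℝ≥0∞) * (1 / 2) ^ 30 * (1024 * (2 * 2)) =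
      (2 * (1 / 2)) ^ 21 * (1 / 2) ^ 9 := by
    have h2 : (512 : ℝ≥0∞) = 2 ^ 9 := by norm_num
    have h3 : (1024 : ℝ≥0∞) = 2 ^ 10 := by norm_num
    rw [h2, h3]
    ring
  rw [h1, cwt_two, one_pow, one_mul]
  refine pow_le_one' ?_ 9
  rw [one_div]
  exact ENNReal.inv_le_one.2 (by norm_num)

open Classical in
theorem weight_RC {U : List Bool →. ℕ} (hU : IsOptimal ∅ U) (R : List Bool × ℕ → ℕ → Bool) :
    ∑' x : List Bool × ℕ, (if RC U R x.1 x.2 then (1 / 2 : ℝ≥0∞) ^ x.2 else 0) ≤ 1 := by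
  have h1 : ∀ x : List Bool × ℕ, (if RC U R x.1 x.2 then (1 / 2 : ℝ≥0∞) ^ x.2 else 0) ≤
      ∑' t : ℕ × ℕ × ℕ, (if RC3 U R t.1 t.2.1 t.2.2 x.1 x.2 then (1 / 2 : ℝ≥0∞) ^ x.2 else 0) := by
    intro x
    split_ifs with h
    · obtain ⟨i, j, p, h⟩ := h
      have h2 := ENNReal.le_tsum (f := fun t : ℕ × ℕ × ℕ =>
        (if RC3 U R t.1 t.2.1 t.2.2 x.1 x.2 then (1 / 2 : ℝ≥0∞) ^ x.2 else 0)) (i, j, p)
      simp only at h2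
      rw [if_pos h] at h2
      exact h2
    · exact bot_le
  refine (ENNReal.tsum_le_tsum h1).trans ?_
  rw [ENNReal.tsum_comm]
  have h2 : ∀ t : ℕ × ℕ × ℕ, ∑' x : List Bool × ℕ,
      (if RC3 U R t.1 t.2.1 t.2.2 x.1 x.2 then (1 / 2 : ℝ≥0∞) ^ x.2 else 0) ≤
      512 * (1 / 2) ^ 30 * ((1 / 2) ^ (t.1 / 512) * ((1 / 2) ^ t.2.1 * (1 / 2) ^ t.2.2)) := by
    intro t
    refine (weight_RC3 hU t.1 t.2.1 t.2.2).trans ?_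
    unfold E
    rw [pow_add, pow_add, pow_add, pow_add]
    calc (512 : ℝ≥0∞) * 4 ^ t.2.2 * 4 ^ t.2.1 * 8 ^ t.1 *
          ((1 / 2) ^ (3 * t.1) * (1 / 2) ^ (t.1 / 512) * (1 / 2) ^ (4 * t.2.2) *
            (1 / 2) ^ (4 * t.2.1) * (1 / 2) ^ 30)
        = 512 * (1 / 2) ^ 30 * ((8 ^ t.1 * (1 / 2) ^ (3 * t.1)) * (1 / 2) ^ (t.1 / 512) *
          ((4 ^ t.2.1 * (1 / 2) ^ (4 * t.2.1)) * (4 ^ t.2.2 * (1 / 2) ^ (4 * t.2.2)))) := by ring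
      _ ≤ 512 * (1 / 2) ^ 30 * (1 * (1 / 2) ^ (t.1 / 512) *
          ((1 / 2) ^ t.2.1 * (1 / 2) ^ t.2.2)) := by
        rw [cwt_eight]
        exact mul_le_mul' le_rfl (mul_le_mul' le_rfl (mul_le_mul' (cwt_pow _) (cwt_pow _)))
      _ = _ := by rw [one_mul]
  refine (ENNReal.tsum_le_tsum h2).trans ?_
  rw [ENNReal.tsum_mul_left]
  have h3 : ∑' t : ℕ × ℕ × ℕ, (1 / 2 : ℝ≥0∞) ^ (t.1 / 512) *
      ((1 / 2) ^ t.2.1 * (1 / 2) ^ t.2.2) = 1024 * (2 * 2) := by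
    rw [ENNReal.tsum_prod (f := fun (i : ℕ) (s : ℕ × ℕ) => (1 / 2 : ℝ≥0∞) ^ (i / 512) *
      ((1 / 2) ^ s.1 * (1 / 2) ^ s.2))]
    simp only [ENNReal.tsum_mul_left]
    rw [ENNReal.tsum_mul_right, cwt_div,
      ENNReal.tsum_prod (f := fun (j p : ℕ) => (1 / 2 : ℝ≥0∞) ^ j * (1 / 2) ^ p)]
    simp only [ENNReal.tsum_mul_left]
    rw [ENNReal.tsum_mul_right, cwt_geo]
  rw [h3]
  exact cwt_const

end KExp
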