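import Pool.Agent.KExp.KSs
import Pool.Agent.KExp.CHost
import Pool.Agent.KExp.CNil
import Pool.Agent.KExp.CSig
import Pool.Agent.KExp.CWt
import Pool.Agent.KRed.Meet

/-!
# The cone version: main theorem
-/

set_option autoImplicit false

namespace KExp

open KRed AC Low4 Encodable

variable {U : List Bool →. ℕ} {R : List Bool × ℕ → ℕ → Bool}

/-- at a late stage `PC` is exactly the negation of `Live` on the box -/
theorem exists_stage (τ : List Bool) (j q : ℕ) : ∃ t, ∀ y ∈ box (2 ^ q),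
    ¬ Live R (j + 1) (τ ++ str q y) → PC R τ j q t y := by
  classical
  have h : ∀ y : ℕ × ℕ, ∃ t, ¬ Live R (j + 1) (τ ++ str q y) → PC R τ j q t y := by
    intro y
    by_cases hy : Live R (j + 1) (τ ++ str q y)
    · exact ⟨0, fun h => absurd hy h⟩
    · have h1 := hy
      unfold Live at h1
      push Not at h1
      obtain ⟨t, ht⟩ := h1
      exact ⟨t, fun _ => ht⟩
  choose t ht using h
  refine ⟨(box (2 ^ q)).sup t, fun y hy hl => ?_⟩
  exact fun h => ht y hl (Lv_anti (Finset.le_sup (f := t) hy) h)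

theorem step (hU : IsOptimal ∅ U) (hR : NF U R) : ∃ c, ∀ (i j p : ℕ) (σ τ : List Bool),
    σ.length = 2 * p → τ.length = 2 * p → Live R j τ → ∀ z ∈ box (2 ^ 9 ^ i),
    ∃ z' ∈ box (2 ^ 9 ^ i), Live R (j + 1) (τ ++ str (9 ^ i) z') ∧
      ∀ k ≤ 9 ^ i, KS U (σ ++ str k z) ≤ KS U (τ ++ str k z') + E i j p + c := by
  classical
  obtain ⟨c, hc⟩ := coding hU (sig_RC hU hR.1) (weight_RC hU R)
  refine ⟨c + 1, fun i j p σ τ hσ hτ hl z hz => ?_⟩
  obtain ⟨t, ht⟩ := exists_stage (R := R) τ j (9 ^ i)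
  obtain ⟨z', hz', h1, h2⟩ := exists_hostS (PC R τ j (9 ^ i) t) (9 ^ i) i (j + 3) (by omega)
    (markov (hl _)) hz
  have hlive : Live R (j + 1) (τ ++ str (9 ^ i) z') := by
    by_contra hcon
    exact h1 (ht z' hz' hcon)
  refine ⟨z', hz', hlive, fun k hk => ?_⟩
  rcases h2 k hk with ⟨w, hw, h4⟩ | h4
  · have h5 := hc (σ ++ str k z) (KS U (τ ++ str k (act (2 ^ 9 ^ i) w z)) + E i j p)
      ⟨i, j, p, σ, mem_bs.2 hσ, τ, mem_bs.2 hτ, k, hk, z, hz, rfl, Or.inl ⟨w, hw, le_rfl⟩⟩
    rw [← h4] at h5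
    omega
  · have h5 := hc (σ ++ str k z) (2 * p + 2 * k + E i j p)
      ⟨i, j, p, σ, mem_bs.2 hσ, τ, mem_bs.2 hτ, k, hk, z, hz, rfl,
        Or.inr ⟨⟨t, hl _, h4⟩, le_rfl⟩⟩
    have h6 := le_of_live hR hlive (n := 2 * p + 2 * k) (by
      rw [List.length_append, hτ, length_str]; omega)
    have h7 : (τ ++ str (9 ^ i) z').take (2 * p + 2 * k) = τ ++ str k z' := by
      rw [← hτ, List.take_length_add_append, take_str hk]
    rw [h7] at h6
    omega

/-- the scales -/
def sI (p j : ℕ) : ℕ := 1024 * (4 * p + 4 * j + 30)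

/-- the lengths are `2 * sp j` -/
def sp : ℕ → ℕ
  | 0 => 0
  | j + 1 => sp j + 9 ^ sI (sp j) j

theorem computable_sp : Computable sp := by
  have hpow : Primrec₂ ((· ^ ·) : ℕ → ℕ → ℕ) := Primrec₂.unpaired'.1 Nat.Primrec.pow
  have h1 : Primrec fun x : ℕ × ℕ => x.2 + 9 ^ (1024 * (4 * x.2 + 4 * x.1 + 30)) := by
    refine Primrec.nat_add.comp Primrec.snd (hpow.comp (Primrec.const 9)
      (Primrec.nat_mul.comp (Primrec.const 1024) (Primrec.nat_add.comp (Primrec.nat_add.comp
        (Primrec.nat_mul.comp (Primrec.const 4) Primrec.snd)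
        (Primrec.nat_mul.comp (Primrec.const 4) Primrec.fst)) (Primrec.const 30))))
  have h2 : Primrec (fun n : ℕ => Nat.rec (motive := fun _ => ℕ) 0
      (fun j a => a + 9 ^ (1024 * (4 * a + 4 * j + 30))) n) :=
    Primrec.nat_rec₁ 0 h1.to₂
  refine (h2.of_eq fun n => ?_).to_comp
  induction n with
  | zero => rfl
  | succ n ih =>
    change _ = sp n + 9 ^ sI (sp n) n
    rw [← ih]
    rfl

theorem sp_succ (j : ℕ) : sp (j + 1) = sp j + 9 ^ sI (sp j) j := rfl

theorem sp_lt (j : ℕ) : sp j < sp (j + 1) := by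
  have : 0 < 9 ^ sI (sp j) j := by positivity
  change sp j < sp j + 9 ^ sI (sp j) j
  omega

theorem sp_mono : StrictMono sp := strictMono_nat_of_lt_succ sp_lt

theorem log_bound' {N i : ℕ} (h : 9 ^ i ≤ N) : (i : ℝ) * (19 / 6) ≤ Real.logb 2 N := by
  have h1 : (2 : ℝ) ^ ((i : ℝ) * (19 / 6)) ≤ N := by
    have h2 : (2 : ℝ) ^ ((19 : ℝ) / 6) ≤ 9 := by
      have h3 : ((2 : ℝ) ^ ((19 : ℝ) / 6)) ^ (6 : ℕ) ≤ 9 ^ 6 := by
        rw [← Real.rpow_natCast, ← Real.rpow_mul (by norm_num)]
        norm_num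
      exact le_of_pow_le_pow_left₀ (by norm_num) (by norm_num) h3
    calc (2 : ℝ) ^ ((i : ℝ) * (19 / 6)) = ((2 : ℝ) ^ ((19 : ℝ) / 6)) ^ i := by
          rw [← Real.rpow_natCast, ← Real.rpow_mul (by norm_num)]
          congr 1
          ring
      _ ≤ 9 ^ i := by gcongr
      _ ≤ N := by exact_mod_cast h
  have hN : (0 : ℝ) < N := by
    have : 0 < 9 ^ i := by positivity
    exact_mod_cast (by omega : 0 < N)
  rw [Real.le_logb_iff_rpow_le (by norm_num) hN]
  exact h1

theorem E_le (j : ℕ) : (E (sI (sp j) j) j (sp j) : ℝ) ≤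
    19 / 20 * Real.logb 2 ((2 * sp (j + 1) : ℕ) : ℝ) := by
  set I := sI (sp j) j with hI
  have h0 : (E I j (sp j) : ℝ) ≤ (3 + 3 / 1024) * I := by
    have h2 : (E I j (sp j) : ℝ) ≤ 3 * I + I / 512 + 4 * sp j + 4 * j + 30 := by
      unfold E
      push_cast
      have := @Nat.cast_div_le ℝ _ _ _ I 512
      push_cast at this
      linarith
    have h3 : (I : ℝ) = 1024 * (4 * sp j + 4 * j + 30) := by
      rw [hI]; unfold sI; push_cast; ring
    linarith
  have h1 := log_bound' (N := 2 * sp (j + 1)) (i := I) (by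
    change 9 ^ I ≤ 2 * (sp j + 9 ^ I)
    omega)
  have h2 : (0 : ℝ) ≤ I := by positivity
  linarith

/-- the error at the lengths of the block `j` -/
theorem chain (hU : IsOptimal ∅ U) (hR : NF U R) : ∃ c, ∀ A : Set ℕ, ∃ τ : ℕ → List Bool,
    (∀ j, (τ j).length = 2 * sp j ∧ Live R j (τ j) ∧ τ j <+: τ (j + 1)) ∧
    ∀ j, ∀ k ≤ 9 ^ sI (sp j) j, KS U (pre A (2 * sp j + 2 * k)) ≤
      KS U ((τ (j + 1)).take (2 * sp j + 2 * k)) + E (sI (sp j) j) j (sp j) + c := by
  classical
  obtain ⟨c, hc⟩ := step hU hR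
  refine ⟨c, fun A => ?_⟩
  have hstep : ∀ (j : ℕ) (τ : {τ : List Bool // τ.length = 2 * sp j ∧ Live R j τ}),
      ∃ τ' : {τ : List Bool // τ.length = 2 * sp (j + 1) ∧ Live R (j + 1) τ},
        τ.1 <+: τ'.1 ∧ ∀ k ≤ 9 ^ sI (sp j) j, KS U (pre A (2 * sp j + 2 * k)) ≤
          KS U (τ'.1.take (2 * sp j + 2 * k)) + E (sI (sp j) j) j (sp j) + c := by
    rintro j ⟨τ, hτ1, hτ2⟩
    have hc' := hc (sI (sp j) j) j (sp j) (pre A (2 * sp j)) τ (pre_length _ _) hτ1 hτ2
    have hsp := sp_succ j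
    revert hc' hsp
    generalize 9 ^ sI (sp j) j = q
    intro hc' hsp
    obtain ⟨z, hz, hzs⟩ := exists_str (k := q) (σ := (pre A (2 * sp j + 2 * q)).drop (2 * sp j))
      (by rw [List.length_drop, pre_length]; omega)
    obtain ⟨z', hz', h1, h2⟩ := hc' z hz
    refine ⟨⟨τ ++ str q z', ?_, h1⟩, List.prefix_append _ _, fun k hk => ?_⟩
    · rw [List.length_append, hτ1, length_str]
      rw [hsp]
      ring
    · have h3 := h2 k hk
      have e1 : pre A (2 * sp j) ++ str k z = pre A (2 * sp j + 2 * k) := by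
        rw [← take_str hk z, hzs]
        have e2 : pre A (2 * sp j) = (pre A (2 * sp j + 2 * q)).take (2 * sp j) :=
          (pre_take _ _ _ (by omega)).symm
        rw [e2, ← List.take_add, pre_take _ _ _ (by omega)]
      have e3 : (τ ++ str q z').take (2 * sp j + 2 * k) = τ ++ str k z' := by
        rw [← hτ1, List.take_length_add_append, take_str hk]
      rw [e1] at h3
      dsimp only
      rw [e3]
      exact h3
  choose f hf1 hf2 using hstep
  let τ : ∀ j, {τ : List Bool // τ.length = 2 * sp j ∧ Live R j τ} :=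
    fun j => Nat.rec ⟨[], rfl, live_nil hU hR⟩ (fun j a => f j a) j
  refine ⟨fun j => (τ j).1, fun j => ⟨(τ j).2.1, (τ j).2.2, hf1 j (τ j)⟩, fun j k hk => ?_⟩
  exact hf2 j (τ j) k hk

theorem cone_main (hU : IsOptimal ∅ U) : ∃ c : ℕ, ∀ A : Set ℕ, ∃ B : Set ℕ,
    (∀ n, n ≤ KS U (restr B n) + 1) ∧
    ∀ j, ∀ n ≤ 2 * sp (j + 1), (KS U (restr A n) : ℝ) ≤
      KS U (restr B n) + 19 / 20 * Real.logb 2 ((2 * sp (j + 1) : ℕ) : ℝ) + c := by
  classical
  obtain ⟨R, hR1, hR2⟩ := primrec_nf (sig_KS hU)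
  have hR : NF U R := ⟨hR1, hR2⟩
  obtain ⟨c, hc⟩ := chain hU hR
  obtain ⟨c1, h1⟩ := KS_succ hU
  obtain ⟨c2, h2⟩ := KS_pred hU
  refine ⟨c + c1 + c2, fun A => ?_⟩
  obtain ⟨τ, hτ, hh⟩ := hc A
  have hpre : ∀ {m n : ℕ}, m ≤ n → τ m <+: τ n := by
    intro m n h
    induction n, h using Nat.le_induction with
    | base => exact List.prefix_rfl
    | succ n _ ih => exact ih.trans (hτ n).2.2
  have hlen : ∀ n, n ≤ (τ n).length := by
    intro n
    rw [(hτ n).1]
    have := sp_mono.id_le n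
    change n ≤ sp n at this
    omega
  set B : Set ℕ := {n | (τ (n + 1)).getD n false = true} with hB
  have hBτ : ∀ n, τ n = pre B (τ n).length := by
    intro n
    apply List.ext_getElem?
    intro i
    by_cases hi : i < (τ n).length
    · rw [pre_getElem? _ _ _ hi, List.getElem?_eq_getElem hi]
      congr 1
      have h1 : (τ (i + 1)).getD i false = (τ n).getD i false := by
        have hi' : i < (τ (i + 1)).length := lt_of_lt_of_le (Nat.lt_succ_self i) (hlen (i + 1))
        rcases le_total (i + 1) n with h | h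
        · exact (getD_of_prefix (hpre h) hi').symm
        · exact getD_of_prefix (hpre h) hi
      have h2 : (τ n).getD i false = (τ n)[i] := by
        rw [List.getD_eq_getElem _ _ hi]
      rw [← h2, ← h1]
      by_cases hh : i ∈ B
      · rw [show (τ (i + 1)).getD i false = true from hh]
        exact (@decide_eq_true _ (Classical.propDecidable _) hh).symm
      · have h5 : ¬ (τ (i + 1)).getD i false = true := hh
        rw [Bool.not_eq_true] at h5
        rw [h5]
        exact (@decide_eq_false _ (Classical.propDecidable _) hh).symm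
    · rw [pre_getElem?_none _ _ _ (not_lt.1 hi), List.getElem?_eq_none (not_lt.1 hi)]
  have htake : ∀ j n, n ≤ 2 * sp j → (τ j).take n = restr B n := by
    intro j n hn
    rw [hBτ j, (hτ j).1, pre_take _ _ _ hn]
    rfl
  refine ⟨B, fun n => ?_, ?_⟩
  · have h3 := le_of_live hR (hτ n).2.1 (hlen n)
    have h4 := hlen n
    rw [(hτ n).1] at h4
    rwa [htake n n h4] at h3
  · -- the error in the block
    have hblock : ∀ j n, 2 * sp j ≤ n → n ≤ 2 * sp (j + 1) → (KS U (restr A n) : ℝ) ≤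
        KS U (restr B n) + 19 / 20 * Real.logb 2 ((2 * sp (j + 1) : ℕ) : ℝ) +
          (c + c1 + c2 : ℕ) := by
      intro j n hn hn'
      set k := (n - 2 * sp j) / 2 with hk
      have hk1 : k ≤ 9 ^ sI (sp j) j := by
        have := sp_succ j
        omega
      have g1 := hh j k hk1
      have hm : 2 * sp j + 2 * k ≤ n ∧ n ≤ 2 * sp j + 2 * k + 1 := by omega
      set m := 2 * sp j + 2 * k with hmdef
      rw [htake (j + 1) m (by omega)] at g1
      have g2 : KS U (restr A n) ≤ KS U (restr A m) + c1 := by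
        rcases (by omega : n = m ∨ n = m + 1) with h | h
        · rw [h]; omega
        · have e1 : restr A m = (pre A n).take m := (pre_take _ _ _ (by omega)).symm
          have e2 : restr A n = (pre A n).take (m + 1) := by
            rw [← h]; exact (pre_take _ _ _ le_rfl).symm
          rw [e1, e2]
          exact h1 _ _
      have g3 : KS U (restr B m) ≤ KS U (restr B n) + c2 := by
        rcases (by omega : n = m ∨ n = m + 1) with h | h
        · rw [h]; omega
        · have e1 : restr B m = (pre B n).take m := (pre_take _ _ _ (by omega)).symm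
          have e2 : restr B n = (pre B n).take (m + 1) := by
            rw [← h]; exact (pre_take _ _ _ le_rfl).symm
          rw [e1, e2]
          exact h2 _ _
      have e3 : pre A m = restr A m := rfl
      rw [e3] at g1
      have g4 : KS U (restr A n) ≤ KS U (restr B n) + E (sI (sp j) j) j (sp j) + (c + c1 + c2) := by
        omega
      have g5 : (KS U (restr A n) : ℝ) ≤
          KS U (restr B n) + E (sI (sp j) j) j (sp j) + (c + c1 + c2 : ℕ) := by
        exact_mod_cast g4
      have g6 := E_le j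
      linarith
    intro j n hn
    -- the block of `n`
    have hex : ∃ i, n ≤ 2 * sp (i + 1) := ⟨j, hn⟩
    set i := Nat.find hex with hi
    have hi1 : n ≤ 2 * sp (i + 1) := Nat.find_spec hex
    have hij : i ≤ j := Nat.find_min' hex hn
    have hi2 : 2 * sp i ≤ n := by
      rcases Nat.eq_zero_or_pos i with h | h
      · rw [h]; simp [sp]
      · have := Nat.find_min hex (m := i - 1) (by omega)
        rw [Nat.sub_add_cancel h] at this
        omega
    refine (hblock i n hi2 hi1).trans ?_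
    have hmono : Real.logb 2 ((2 * sp (i + 1) : ℕ) : ℝ) ≤ Real.logb 2 ((2 * sp (j + 1) : ℕ) : ℝ) := by
      have h3 : 0 < 2 * sp (i + 1) := by
        have := sp_lt i
        omega
      have h4 : 2 * sp (i + 1) ≤ 2 * sp (j + 1) := by
        have := sp_mono.monotone (by omega : i + 1 ≤ j + 1)
        omega
      exact Real.logb_le_logb_of_le (by norm_num) (by exact_mod_cast h3) (by exact_mod_cast h4)
    linarith

end KExp
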