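import Pool.Agent.KExp.Maxi
import Pool.Agent.KExp.CDefs

/-!
# Maximal inequality with the threshold `1 - 2^(-s)`

As `card_bad` (Maxi.lean). `μ = |P| / 4^q ≤ 1 - 2 · 2^(-s)`,
`f = 1_P - μ` on the box, `F y = ∑_{w ∈ words i} f (act w y)`; if `DistS P q i s l z` then
`∑_{y ∈ C} F y = cnt - μ 8^i |C| ≥ 8^i |C| 2^(-s)` on the class `C` of `z` (`|C| = 4^(q-l)`), so
`∑_{y ∈ C} F y ^ 2 ≥ 64^i |C| 4^(-s)` and `64^i |bad| 4^(-s) ≤ ∑ F² ≤ (7.3²)^i |P| ≤ (7.3²)^i 4^q`.
(Note `1 ≤ s` follows from the hypothesis for `P` when it matters: `2^s - 2` is a natural number;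
for `s = 0` the hypothesis says that `P` is empty on the box, `DistS` is always true and the bound
in `card_badS` may FAIL, therefore `1 ≤ s` is assumed.)
-/

set_option autoImplicit false

namespace KExp

/-- `DistS l` depends on `str l z` only -/
theorem distS_congr {P : ℕ × ℕ → Prop} {q i s l : ℕ} {y z : ℕ × ℕ} (h : str l y = str l z) :
    DistS P q i s l y ↔ DistS P q i s l z := by
  unfold DistS cnt
  rw [h]

open Classical in
/-- one class -/
theorem class_sqS (P : ℕ × ℕ → Prop) {q i s l : ℕ} (hl : l ≤ q) {μ θ : ℝ} (hθ : 0 < θ)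
    (hθs : θ * 2 ^ s = 1) (hμ : μ ≤ 1 - 2 * θ) {z : ℕ × ℕ} (hD : DistS P q i s l z) :
    64 ^ i * (4 : ℝ) ^ (q - l) * θ ^ 2 ≤
      ∑ y ∈ (box (2 ^ q)).filter (fun y => str l y = str l z),
      (∑ w ∈ words i, ((if P (act (2 ^ q) w y) then (1 : ℝ) else 0) - μ)) ^ 2 := by
  set C := (box (2 ^ q)).filter (fun y => str l y = str l z) with hC
  have hcC : (C.card : ℝ) = (4 : ℝ) ^ (q - l) := by
    rw [hC, card_cyl hl z]
    push_cast
    rfl
  have hsum : ∑ y ∈ C, ∑ w ∈ words i, ((if P (act (2 ^ q) w y) then (1 : ℝ) else 0) - μ) =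
      cnt P q i l z - 8 ^ i * 4 ^ (q - l) * μ := by
    rw [cnt_eq, ← hC]
    simp only [Finset.sum_sub_distrib, Finset.sum_const, nsmul_eq_mul]
    rw [hcC, card_words]
    push_cast
    ring
  have h8 : (0 : ℝ) < 8 ^ i * 4 ^ (q - l) := by positivity
  have hD' : (1 - θ) * ((8 : ℝ) ^ i * 4 ^ (q - l)) ≤ cnt P q i l z := by
    unfold DistS at hD
    have h1 : (((2 ^ s - 1) * (8 ^ i * 4 ^ (q - l)) : ℕ) : ℝ) ≤
        ((2 ^ s * cnt P q i l z : ℕ) : ℝ) := by exact_mod_cast hD
    rw [Nat.cast_mul, Nat.cast_sub Nat.one_le_two_pow] at h1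
    push_cast at h1
    have h2 := mul_le_mul_of_nonneg_left h1 hθ.le
    have e1 : θ * ((2 ^ s - 1) * ((8 : ℝ) ^ i * 4 ^ (q - l))) =
        (θ * 2 ^ s - θ) * ((8 : ℝ) ^ i * 4 ^ (q - l)) := by ring
    have e2 : θ * (2 ^ s * (cnt P q i l z : ℝ)) = (θ * 2 ^ s) * cnt P q i l z := by ring
    rw [e1, e2, hθs, one_mul] at h2
    exact h2
  have hlow : 8 ^ i * 4 ^ (q - l) * θ ≤
      ∑ y ∈ C, ∑ w ∈ words i, ((if P (act (2 ^ q) w y) then (1 : ℝ) else 0) - μ) := by
    rw [hsum]
    nlinarith [mul_le_mul_of_nonneg_left hμ h8.le]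
  have hcs := sq_sum_le_card_mul_sum_sq (s := C)
    (f := fun y => ∑ w ∈ words i, ((if P (act (2 ^ q) w y) then (1 : ℝ) else 0) - μ))
  rw [hcC] at hcs
  have h2 : (8 ^ i * 4 ^ (q - l) * θ) ^ 2 ≤ (4 : ℝ) ^ (q - l) * ∑ y ∈ C,
      (∑ w ∈ words i, ((if P (act (2 ^ q) w y) then (1 : ℝ) else 0) - μ)) ^ 2 :=
    le_trans (pow_le_pow_left₀ (by positivity) hlow 2) hcs
  have h64 : (64 : ℝ) ^ i = 8 ^ i * 8 ^ i := by
    rw [← mul_pow]
    norm_num
  have h4 : (0 : ℝ) < 4 ^ (q - l) := by positivity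
  have h3 : (4 : ℝ) ^ (q - l) * (64 ^ i * (4 : ℝ) ^ (q - l) * θ ^ 2) ≤ (4 : ℝ) ^ (q - l) *
      ∑ y ∈ C, (∑ w ∈ words i, ((if P (act (2 ^ q) w y) then (1 : ℝ) else 0) - μ)) ^ 2 := by
    refine le_trans (le_of_eq ?_) h2
    rw [h64]
    ring
  exact le_of_mul_le_mul_left h3 h4

open Classical in
theorem card_badS (P : ℕ × ℕ → Prop) (q i s : ℕ) (hs : 1 ≤ s)
    (hP : 2 ^ s * ((box (2 ^ q)).filter P).card ≤ (2 ^ s - 2) * 4 ^ q) :
    (((box (2 ^ q)).filter fun z => BadS P q i s q z).card : ℝ) ≤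
      4 ^ s * (5329 / 6400) ^ i * 4 ^ q := by
  set B := box (2 ^ q) with hB
  have hBc : (B.card : ℝ) = 4 ^ q := by
    rw [hB, card_box, ← mul_pow]
    push_cast
    norm_num
  set N : ℝ := ((B.filter P).card : ℝ) with hN
  have hN0 : 0 ≤ N := Nat.cast_nonneg _
  have h4q : (0 : ℝ) < 4 ^ q := by positivity
  obtain ⟨θ, hθ, hθs⟩ : ∃ θ : ℝ, 0 < θ ∧ θ * 2 ^ s = 1 :=
    ⟨(2 ^ s)⁻¹, by positivity, inv_mul_cancel₀ (by positivity)⟩
  have h2s : 2 ≤ 2 ^ s := by
    calc 2 = 2 ^ 1 := by norm_num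
      _ ≤ 2 ^ s := Nat.pow_le_pow_right (by norm_num) hs
  have hNP : N ≤ (1 - 2 * θ) * 4 ^ q := by
    have h1 : ((2 ^ s * (B.filter P).card : ℕ) : ℝ) ≤ (((2 ^ s - 2) * 4 ^ q : ℕ) : ℝ) := by
      exact_mod_cast hP
    rw [Nat.cast_mul, Nat.cast_mul, Nat.cast_sub h2s, ← hN] at h1
    push_cast at h1
    have h2 := mul_le_mul_of_nonneg_left h1 hθ.le
    have e1 : θ * (2 ^ s * N) = (θ * 2 ^ s) * N := by ring
    have e2 : θ * ((2 ^ s - 2) * (4 : ℝ) ^ q) = (θ * 2 ^ s - 2 * θ) * 4 ^ q := by ring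
    rw [e1, e2, hθs, one_mul] at h2
    exact h2
  have hNq : N ≤ 4 ^ q := by nlinarith [mul_pos hθ h4q]
  set μ : ℝ := N / 4 ^ q with hμ
  have hμ0 : 0 ≤ μ := by positivity
  have hμ4 : μ ≤ 1 - 2 * θ := by
    rw [hμ, div_le_iff₀ h4q]
    exact hNP
  have hμN : μ * 4 ^ q = N := by
    rw [hμ]
    field_simp
  let f : ℕ × ℕ → ℝ := fun z => (if P z then (1 : ℝ) else 0) - μ
  have hind : ∑ z ∈ B, (if P z then (1 : ℝ) else 0) = N := by
    rw [hN, Finset.card_filter]
    push_cast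
    rfl
  have h0 : ∑ z ∈ B, f z = 0 := by
    simp only [f]
    rw [Finset.sum_sub_distrib, hind, Finset.sum_const, nsmul_eq_mul, hBc]
    linarith
  have hf2 : ∑ z ∈ B, f z ^ 2 ≤ N := by
    have e : ∀ z, f z ^ 2 = (1 - 2 * μ) * (if P z then (1 : ℝ) else 0) + μ ^ 2 := by
      intro z
      simp only [f]
      by_cases h : P z
      · rw [if_pos h]; ring
      · rw [if_neg h]; ring
    rw [Finset.sum_congr rfl fun z _ => e z, Finset.sum_add_distrib, ← Finset.mul_sum, hind,
      Finset.sum_const, nsmul_eq_mul, hBc]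
    nlinarith [mul_nonneg hμ0 hN0]
  let F : ℕ × ℕ → ℝ := fun y => ∑ w ∈ words i, f (act (2 ^ q) w y)
  have hnorm : ∑ y ∈ B, F y ^ 2 ≤ ((73 / 10) ^ 2) ^ i * N :=
    le_trans (norm_box q i f h0) (mul_le_mul_of_nonneg_left hf2 (by positivity))
  -- the least level
  let lev : ℕ × ℕ → ℕ := fun z => if h : BadS P q i s q z then Nat.find h else 0
  have hlev : ∀ z, BadS P q i s q z → lev z ≤ q ∧ DistS P q i s (lev z) z ∧
      ∀ m < lev z, ¬ (m ≤ q ∧ DistS P q i s m z) := by
    intro z hz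
    have e : lev z = Nat.find hz := dif_pos hz
    rw [e]
    exact ⟨(Nat.find_spec hz).1, (Nat.find_spec hz).2, fun m hm => Nat.find_min hz hm⟩
  have hswap : ∀ y z, BadS P q i s q z → str (lev z) y = str (lev z) z →
      BadS P q i s q y ∧ lev y = lev z := by
    intro y z hz hyz
    obtain ⟨h1, h2, h3⟩ := hlev z hz
    have hy : BadS P q i s q y := ⟨lev z, h1, (distS_congr hyz).2 h2⟩
    refine ⟨hy, ?_⟩
    obtain ⟨h4, h5, h6⟩ := hlev y hy
    apply le_antisymm
    · by_contra hlt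
      push Not at hlt
      exact h6 (lev z) hlt ⟨h1, (distS_congr hyz).2 h2⟩
    · by_contra hlt
      push Not at hlt
      exact h3 (lev y) hlt ⟨h4, (distS_congr (str_mono hlt.le hyz)).1 h5⟩
  have hone : ∀ z ∈ B.filter (fun z => BadS P q i s q z), (64 : ℝ) ^ i * θ ^ 2 ≤
      ∑ y ∈ B, if str (lev z) y = str (lev z) z then F y ^ 2 / 4 ^ (q - lev z) else 0 := by
    intro z hz
    have hz' := (Finset.mem_filter.1 hz).2
    obtain ⟨h1, h2, h3⟩ := hlev z hz'
    have h4 := class_sqS P h1 hθ hθs hμ4 h2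
    have h5 : (0 : ℝ) < 4 ^ (q - lev z) := by positivity
    rw [← Finset.sum_filter, ← Finset.sum_div, le_div_iff₀ h5]
    refine le_trans (le_of_eq ?_) h4
    ring
  have hsum : ((B.filter fun z => BadS P q i s q z).card : ℝ) * (64 ^ i * θ ^ 2) ≤
      ∑ y ∈ B, F y ^ 2 := by
    calc ((B.filter fun z => BadS P q i s q z).card : ℝ) * (64 ^ i * θ ^ 2)
        = ∑ z ∈ B.filter (fun z => BadS P q i s q z), (64 : ℝ) ^ i * θ ^ 2 := by
          rw [Finset.sum_const, nsmul_eq_mul]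
      _ ≤ ∑ z ∈ B.filter (fun z => BadS P q i s q z), ∑ y ∈ B,
            (if str (lev z) y = str (lev z) z then F y ^ 2 / 4 ^ (q - lev z) else 0) :=
          Finset.sum_le_sum hone
      _ = ∑ y ∈ B, ∑ z ∈ B.filter (fun z => BadS P q i s q z),
            (if str (lev z) y = str (lev z) z then F y ^ 2 / 4 ^ (q - lev z) else 0) :=
          Finset.sum_comm
      _ ≤ ∑ y ∈ B, F y ^ 2 := by
          apply Finset.sum_le_sum
          intro y hy
          rw [← Finset.sum_filter]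
          by_cases hbad : BadS P q i s q y
          · have hsub : ((B.filter fun z => BadS P q i s q z).filter
                fun z => str (lev z) y = str (lev z) z) ⊆
                B.filter fun z => str (lev y) z = str (lev y) y := by
              intro z hz
              rw [Finset.mem_filter, Finset.mem_filter] at hz
              obtain ⟨⟨hzB, hzb⟩, hss⟩ := hz
              obtain ⟨_, he⟩ := hswap y z hzb hss
              rw [Finset.mem_filter]
              refine ⟨hzB, ?_⟩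
              rw [he]
              exact hss.symm
            have h5 : (0 : ℝ) < 4 ^ (q - lev y) := by positivity
            calc ∑ z ∈ (B.filter fun z => BadS P q i s q z).filter
                  (fun z => str (lev z) y = str (lev z) z), F y ^ 2 / 4 ^ (q - lev z)
                = ∑ z ∈ (B.filter fun z => BadS P q i s q z).filter
                  (fun z => str (lev z) y = str (lev z) z), F y ^ 2 / 4 ^ (q - lev y) := by
                  apply Finset.sum_congr rfl
                  intro z hz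
                  rw [Finset.mem_filter, Finset.mem_filter] at hz
                  rw [(hswap y z hz.1.2 hz.2).2]
              _ ≤ ∑ z ∈ B.filter (fun z => str (lev y) z = str (lev y) y),
                  F y ^ 2 / 4 ^ (q - lev y) :=
                  Finset.sum_le_sum_of_subset_of_nonneg hsub fun _ _ _ => by positivity
              _ = F y ^ 2 := by
                  rw [Finset.sum_const, nsmul_eq_mul, hB, card_cyl (hlev y hbad).1 y]
                  push_cast
                  field_simp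
          · have hemp : ((B.filter fun z => BadS P q i s q z).filter
                fun z => str (lev z) y = str (lev z) z) = ∅ := by
              apply Finset.filter_eq_empty_iff.2
              intro z hz hss
              exact hbad (hswap y z (Finset.mem_filter.1 hz).2 hss).1
            rw [hemp, Finset.sum_empty]
            positivity
  have hfin : ((B.filter fun z => BadS P q i s q z).card : ℝ) * (64 ^ i * θ ^ 2) ≤
      ((73 / 10) ^ 2) ^ i * 4 ^ q :=
    le_trans hsum (le_trans hnorm (mul_le_mul_of_nonneg_left hNq (by positivity)))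
  have h64 : (0 : ℝ) < 64 ^ i := by positivity
  have hpow : ((73 / 10 : ℝ) ^ 2) ^ i = (5329 / 6400) ^ i * 64 ^ i := by
    rw [← mul_pow]
    norm_num
  have h4s : (4 : ℝ) ^ s = 2 ^ s * 2 ^ s := by
    rw [← mul_pow]
    norm_num
  have hθ4 : θ ^ 2 * 4 ^ s = 1 := by
    rw [h4s]
    calc θ ^ 2 * (2 ^ s * 2 ^ s) = (θ * 2 ^ s) * (θ * 2 ^ s) := by ring
      _ = 1 := by rw [hθs, one_mul]
  rw [hpow] at hfin
  have hfin2 := mul_le_mul_of_nonneg_right hfin (by positivity : (0 : ℝ) ≤ 4 ^ s)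
  have hfin' : ((B.filter fun z => BadS P q i s q z).card : ℝ) * 64 ^ i ≤
      (4 ^ s * (5329 / 6400) ^ i * 4 ^ q) * 64 ^ i := by
    calc ((B.filter fun z => BadS P q i s q z).card : ℝ) * 64 ^ i
        = ((B.filter fun z => BadS P q i s q z).card : ℝ) * (64 ^ i * θ ^ 2) * 4 ^ s := by
          rw [show ((B.filter fun z => BadS P q i s q z).card : ℝ) * (64 ^ i * θ ^ 2) * 4 ^ s =
            ((B.filter fun z => BadS P q i s q z).card : ℝ) * 64 ^ i * (θ ^ 2 * 4 ^ s) by ring,
            hθ4, mul_one]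
      _ ≤ _ := hfin2
      _ = _ := by ring
  exact le_of_mul_le_mul_right hfin' h64

end KExp
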