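import Pool.Agent.KExp.SigC
import Pool.Agent.KExp.CBas

/-!
# The requests of the cone version are computably enumerable

Paper proof. As in Sig.lean. `Kl R t v` is decidable (primitive recursive: bounded quantifiers), so
both `Kl` and `¬ Kl` are `Sig1` in `(t, v)`. `Lv R t j u` iff there is a list `L : List (List Bool)`
without repetitions, all members of length `t` with `¬ Kl R t (u ++ v)`, `2^t ≤ 2^(j+1) * L.length`.
`¬ Lv R t j u` iff there is a list without repetitions of strings `v` of length `t` with
`Kl R t (u ++ v)` and `2^(j+1) * (2^t - L.length) < 2^t` (number of killed = `2^t` - number of not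
killed). `DistS (PC R τ j q t) q i s l z` iff there is a list `L` of pairs `(w, y)` without
repetitions, `w.length = i`, `y` in the box, `str l y = str l z`,
`PC R τ j q t (act (2^q) w y)`, `(2^s - 1) * (8^i * 4^(q-l)) ≤ 2^s * L.length`. The rest is
`Sig1.ex, ball, and, or, comp` with `computable_str`, `computable_act`, `sig_KS`
(`KS U ρ + e ≤ κ` iff `e ≤ κ` and `KS U ρ ≤ κ - e`).
-/

set_option autoImplicit false

namespace KExp

open KRed AC Low4 Encodable

section

variable {α β : Type} [Primcodable α] [Primcodable β]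

theorem c1_eq {f g : α → β} (hf : Computable f) (hg : Computable g) : Sig1 fun a => f a = g a := by
  have h : Sig1 fun a => decide (encode (f a) = encode (g a)) = true := by
    refine Sig1.of_computable ?_
    exact ((Primrec.eq (α := ℕ)).decide.to_comp).comp (Computable.encode.comp hf)
      (Computable.encode.comp hg)
  exact h.of_eq fun a => by simp

theorem c1_ne {f g : α → β} (hf : Computable f) (hg : Computable g) : Sig1 fun a => f a ≠ g a := by
  have h : Sig1 fun a => (!(decide (encode (f a) = encode (g a)))) = true := by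
    refine Sig1.of_computable ?_
    exact Primrec.not.to_comp.comp (((Primrec.eq (α := ℕ)).decide.to_comp).comp
      (Computable.encode.comp hf) (Computable.encode.comp hg))
  exact h.of_eq fun a => by simp

theorem c1_le {f g : α → ℕ} (hf : Computable f) (hg : Computable g) : Sig1 fun a => f a ≤ g a := by
  have h : Sig1 fun a => decide (f a ≤ g a) = true := by
    refine Sig1.of_computable ?_
    exact ((Primrec.nat_le).decide.to_comp).comp hf hg
  exact h.of_eq fun a => by simp

theorem c1_lt {f g : α → ℕ} (hf : Computable f) (hg : Computable g) : Sig1 fun a => f a < g a := by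
  have h : Sig1 fun a => decide (f a < g a) = true := by
    refine Sig1.of_computable ?_
    exact ((Primrec.nat_lt).decide.to_comp).comp hf hg
  exact h.of_eq fun a => by simp

theorem c1_nodup : Sig1 fun L : List β => L.Nodup := by
  have h2 : Sig1 fun x : (List β × ℕ) × ℕ => x.1.1[x.2]? ≠ x.1.1[x.1.2]? :=
    c1_ne (Computable.list_getElem?.comp (Computable.fst.comp Computable.fst) Computable.snd)
      (Computable.list_getElem?.comp (Computable.fst.comp Computable.fst)
        (Computable.snd.comp Computable.fst))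
  have h3 : Sig1 fun x : List β × ℕ => ∀ i < x.2, x.1[i]? ≠ x.1[x.2]? :=
    Sig1.ball (p := fun (x : List β × ℕ) i => x.1[i]? ≠ x.1[x.2]?) h2 Computable.snd
  have h4 : Sig1 fun L : List β => ∀ j < L.length, ∀ i < j, L[i]? ≠ L[j]? :=
    Sig1.ball (p := fun (L : List β) j => ∀ i < j, L[i]? ≠ L[j]?) h3 Computable.list_length
  refine h4.of_eq fun L => ?_
  rw [List.nodup_iff_getElem?_ne_getElem?]
  exact ⟨fun h i j hij hj => h j hj i hij, fun h j hj i hij => h i j hij hj⟩

/-- lower bounds for the number of elements of a finite `Sig1` set are `Sig1` -/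
theorem c1_count {P : α → β → Prop} (hP : Sig1 fun x : α × β => P x.1 x.2) (F : α → Finset β)
    (hF : ∀ a b, b ∈ F a ↔ P a b) {f g : α → ℕ} (hf : Computable f) (hg : Computable g) :
    Sig1 fun a => f a ≤ g a * (F a).card := by
  have h1 : Sig1 fun x : ((α × List β) × ℕ) × β =>
      x.1.1.2[x.1.2]? = some x.2 ∧ P x.1.1.1 x.2 := by
    refine Sig1.and ?_ ?_
    · exact c1_eq (Computable.list_getElem?.comp
        (Computable.snd.comp (Computable.fst.comp Computable.fst))
        (Computable.snd.comp Computable.fst)) (Computable.option_some.comp Computable.snd)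
    · exact hP.comp (f := fun x : ((α × List β) × ℕ) × β => (x.1.1.1, x.2))
        (Computable.pair (Computable.fst.comp (Computable.fst.comp Computable.fst)) Computable.snd)
  have h2 : Sig1 fun x : (α × List β) × ℕ => ∃ b, x.1.2[x.2]? = some b ∧ P x.1.1 b :=
    Sig1.ex (p := fun (x : (α × List β) × ℕ) b => x.1.2[x.2]? = some b ∧ P x.1.1 b) h1
  have h3 : Sig1 fun x : α × List β => ∀ i < x.2.length, ∃ b, x.2[i]? = some b ∧ P x.1 b :=
    Sig1.ball (p := fun (x : α × List β) i => ∃ b, x.2[i]? = some b ∧ P x.1 b) h2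
      (Computable.list_length.comp Computable.snd)
  have h4 : Sig1 fun x : α × List β => x.2.Nodup :=
    (c1_nodup (β := β)).comp (f := fun x : α × List β => x.2) Computable.snd
  have h5 : Sig1 fun x : α × List β => f x.1 ≤ g x.1 * x.2.length :=
    c1_le (hf.comp Computable.fst) (Primrec.nat_mul.to_comp.comp (hg.comp Computable.fst)
      (Computable.list_length.comp Computable.snd))
  refine (Sig1.ex (p := fun a (L : List β) => L.Nodup ∧ (∀ i < L.length, ∃ b, L[i]? = some b ∧ P a b) ∧
    f a ≤ g a * L.length) (h4.and (h3.and h5))).of_eq fun a => ?_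
  constructor
  · rintro ⟨L, hL1, hL2, hL3⟩
    classical
    have h6 : L.toFinset ⊆ F a := by
      intro b hb
      rw [List.mem_toFinset] at hb
      obtain ⟨i, hi, rfl⟩ := List.getElem_of_mem hb
      obtain ⟨b, hb1, hb2⟩ := hL2 i hi
      rw [List.getElem?_eq_getElem hi] at hb1
      rw [Option.some.inj hb1]
      exact (hF a b).2 hb2
    have h7 := Finset.card_le_card h6
    rw [List.toFinset_card_of_nodup hL1] at h7
    exact hL3.trans (Nat.mul_le_mul_left _ h7)
  · intro h
    refine ⟨(F a).toList, Finset.nodup_toList _, ?_, ?_⟩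
    · intro i hi
      refine ⟨(F a).toList[i], List.getElem?_eq_getElem hi, (hF a _).1 ?_⟩
      rw [← Finset.mem_toList]
      exact List.getElem_mem hi
    · rw [Finset.length_toList]
      exact h

end

theorem c1_pow : Primrec₂ fun a b : ℕ => a ^ b := by
  have h : Primrec₂ fun (a b : ℕ) => (Nat.rec 1 (fun _ z => z * a) b : ℕ) := by
    refine (Primrec.nat_rec (f := fun _ : ℕ => 1) (g := fun (a : ℕ) (p : ℕ × ℕ) => p.2 * a)
      (Primrec.const 1) ?_)
    exact (Primrec.nat_mul.comp (Primrec.snd.comp Primrec.snd) Primrec.fst).to₂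
  refine h.of_eq fun a b => ?_
  induction b with
  | zero => rfl
  | succ b ih => rw [pow_succ, ← ih]

variable {R : List Bool × ℕ → ℕ → Bool}

/-- decision procedure for `Kl` -/
def klb (R : List Bool × ℕ → ℕ → Bool) (p : ℕ × List Bool) : Bool :=
  bEx (fun n => decide (2 ≤ n) && bEx (fun t' => R (p.2.take n, n - 2) t') (p.1 + 1))
    (p.2.length + 1)

theorem klb_iff (p : ℕ × List Bool) : klb R p = true ↔ Kl R p.1 p.2 := by
  unfold klb Kl
  rw [bEx_iff]
  constructor
  · rintro ⟨n, hn, h⟩
    rw [Bool.and_eq_true, decide_eq_true_eq, bEx_iff] at h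
    obtain ⟨h1, t', ht, h2⟩ := h
    exact ⟨n, Nat.lt_succ_iff.1 hn, h1, t', Nat.lt_succ_iff.1 ht, h2⟩
  · rintro ⟨n, hn, h1, t', ht, h2⟩
    refine ⟨n, Nat.lt_succ_iff.2 hn, ?_⟩
    rw [Bool.and_eq_true, decide_eq_true_eq, bEx_iff]
    exact ⟨h1, t', Nat.lt_succ_iff.2 ht, h2⟩

theorem computable_klb (hR : Primrec₂ R) : Computable (klb R) := by
  have h1 : Computable₂ fun (x : (ℕ × List Bool) × ℕ) (t' : ℕ) =>
      R (x.1.2.take x.2, x.2 - 2) t' := by
    have h0 : Computable fun y : ((ℕ × List Bool) × ℕ) × ℕ =>
        (y.1.1.2.take y.1.2, y.1.2 - 2) := by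
      refine Computable.pair ?_ ?_
      · exact Primrec.list_take.to_comp.comp (Computable.snd.comp Computable.fst)
          (Computable.snd.comp (Computable.fst.comp Computable.fst))
      · exact Primrec.nat_sub.to_comp.comp (Computable.snd.comp Computable.fst)
          (Computable.const 2)
    exact (hR.to_comp.comp h0 Computable.snd).to₂
  have h2 : Computable fun x : (ℕ × List Bool) × ℕ =>
      bEx (fun t' => R (x.1.2.take x.2, x.2 - 2) t') (x.1.1 + 1) :=
    computable_bEx h1 (Computable.succ.comp (Computable.fst.comp Computable.fst))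
  have h3 : Computable₂ fun (p : ℕ × List Bool) (n : ℕ) =>
      decide (2 ≤ n) && bEx (fun t' => R (p.2.take n, n - 2) t') (p.1 + 1) := by
    have h4 : Computable fun x : (ℕ × List Bool) × ℕ => decide (2 ≤ x.2) :=
      (Primrec.nat_le.decide.to_comp).comp (Computable.const 2) Computable.snd
    exact (Primrec.and.to_comp.comp h4 h2).to₂
  exact computable_bEx h3 (Computable.succ.comp (Computable.list_length.comp Computable.snd))

theorem sig_Lv (hR : Primrec₂ R) : Sig1 fun p : ℕ × ℕ × List Bool => Lv R p.1 p.2.1 p.2.2 := by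
  classical
  have h1 : Sig1 fun x : (ℕ × ℕ × List Bool) × List Bool =>
      x.2.length = x.1.1 ∧ ¬ Kl R x.1.1 (x.1.2.2 ++ x.2) := by
    refine Sig1.and (c1_eq (Computable.list_length.comp Computable.snd)
      (Computable.fst.comp Computable.fst)) ?_
    have h2 : Sig1 fun x : (ℕ × ℕ × List Bool) × List Bool =>
        (!(klb R (x.1.1, x.1.2.2 ++ x.2))) = true := by
      refine Sig1.of_computable (Primrec.not.to_comp.comp ((computable_klb hR).comp
        (Computable.pair (Computable.fst.comp Computable.fst) (Computable.list_append.comp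
          (Computable.snd.comp (Computable.snd.comp Computable.fst)) Computable.snd))))
    refine h2.of_eq fun x => ?_
    have h3 := klb_iff (R := R) (x.1.1, x.1.2.2 ++ x.2)
    dsimp only at h3
    rw [← h3, Bool.not_eq_true', Bool.not_eq_true]
  refine (c1_count (P := fun (x : ℕ × ℕ × List Bool) v =>
    v.length = x.1 ∧ ¬ Kl R x.1 (x.2.2 ++ v)) h1
    (fun x => (bs x.1).filter fun v => ¬ Kl R x.1 (x.2.2 ++ v)) ?_
    (f := fun x => 2 ^ x.1) (g := fun x => 2 ^ (x.2.1 + 1)) ?_ ?_).of_eq fun x => ?_
  · intro a b
    rw [Finset.mem_filter, mem_bs]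
  · exact c1_pow.to_comp.comp (Computable.const 2) Computable.fst
  · exact c1_pow.to_comp.comp (Computable.const 2)
      (Computable.succ.comp (Computable.fst.comp Computable.snd))
  · unfold Lv un
    exact Iff.rfl

theorem sig_not_Lv (hR : Primrec₂ R) :
    Sig1 fun p : ℕ × ℕ × List Bool => ¬ Lv R p.1 p.2.1 p.2.2 := by
  classical
  have h1 : Sig1 fun x : (ℕ × ℕ × List Bool) × List Bool =>
      x.2.length = x.1.1 ∧ Kl R x.1.1 (x.1.2.2 ++ x.2) := by
    refine Sig1.and (c1_eq (Computable.list_length.comp Computable.snd)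
      (Computable.fst.comp Computable.fst)) ?_
    have h2 : Sig1 fun x : (ℕ × ℕ × List Bool) × List Bool =>
        klb R (x.1.1, x.1.2.2 ++ x.2) = true := by
      refine Sig1.of_computable ((computable_klb hR).comp
        (Computable.pair (Computable.fst.comp Computable.fst) (Computable.list_append.comp
          (Computable.snd.comp (Computable.snd.comp Computable.fst)) Computable.snd)))
    exact h2.of_eq fun x => klb_iff _
  have hpow : Computable fun x : ℕ × ℕ × List Bool => 2 ^ x.1 :=
    c1_pow.to_comp.comp (Computable.const 2) Computable.fst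
  have hpow2 : Computable fun x : ℕ × ℕ × List Bool => 2 ^ (x.2.1 + 1) :=
    c1_pow.to_comp.comp (Computable.const 2)
      (Computable.succ.comp (Computable.fst.comp Computable.snd))
  refine (c1_count (P := fun (x : ℕ × ℕ × List Bool) v =>
    v.length = x.1 ∧ Kl R x.1 (x.2.2 ++ v)) h1
    (fun x => (bs x.1).filter fun v => Kl R x.1 (x.2.2 ++ v)) ?_
    (f := fun x => 2 ^ (x.2.1 + 1) * 2 ^ x.1 + 1 - 2 ^ x.1)
    (g := fun x => 2 ^ (x.2.1 + 1)) ?_ hpow2).of_eq fun x => ?_
  · intro a b
    rw [Finset.mem_filter, mem_bs]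
  · exact Primrec.nat_sub.to_comp.comp (Computable.succ.comp
      (Primrec.nat_mul.to_comp.comp hpow2 hpow)) hpow
  · obtain ⟨t, j, u⟩ := x
    dsimp only
    have h3 := Finset.card_filter_add_card_filter_not (s := bs t) (fun v => Kl R t (u ++ v))
    rw [card_bs] at h3
    have h4 : un R t t u = ((bs t).filter fun v => ¬ Kl R t (u ++ v)).card := by
      unfold un
      congr
    unfold Lv
    rw [h4, not_le]
    generalize ((bs t).filter fun v => ¬ Kl R t (u ++ v)).card = A at *
    generalize ((bs t).filter fun v => Kl R t (u ++ v)).card = B at *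
    have h5 : 2 ^ (j + 1) * 2 ^ t = 2 ^ (j + 1) * B + 2 ^ (j + 1) * A := by
      rw [← h3]; ring
    have h6 : 2 ^ t ≤ 2 ^ (j + 1) * 2 ^ t := Nat.le_mul_of_pos_left _ (by positivity)
    omega

end KExp
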