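import Pool.Agent.KExp.CSig1

/-!
# `BC` is `Sig1` (paper proof in CSig1.lean)
-/

set_option autoImplicit false

namespace KExp

open KRed AC Low4 Encodable

variable {R : List Bool × ℕ → ℕ → Bool}

/-- parameters: `τ, j, i, k, z` -/
abbrev Par : Type := List Bool × ℕ × ℕ × ℕ × (ℕ × ℕ)

section

variable {α : Type} [Primcodable α]

theorem c2_fst {β γ : Type} [Primcodable β] [Primcodable γ] {f : α → β × γ} (h : Computable f) :
    Computable fun a => (f a).1 := Computable.fst.comp h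

theorem c2_snd {β γ : Type} [Primcodable β] [Primcodable γ] {f : α → β × γ} (h : Computable f) :
    Computable fun a => (f a).2 := Computable.snd.comp h

theorem c2_str {l : α → ℕ} {z : α → ℕ × ℕ} (hl : Computable l) (hz : Computable z) :
    Computable fun a => str (l a) (z a) := by
  have h1 : Computable fun a => (l a, z a) := Computable.pair hl hz
  have h2 := Computable.comp (f := fun p : ℕ × (ℕ × ℕ) => str p.1 p.2) (g := fun a => (l a, z a))
    computable_str h1
  exact h2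

theorem c2_act {M : α → ℕ} {w : α → List G} {z : α → ℕ × ℕ} (hM : Computable M)
    (hw : Computable w) (hz : Computable z) : Computable fun a => act (M a) (w a) (z a) := by
  have h1 : Computable fun a => (M a, w a, z a) := Computable.pair hM (Computable.pair hw hz)
  have h2 := Computable.comp (f := fun p : ℕ × List G × (ℕ × ℕ) => act p.1 p.2.1 p.2.2)
    (g := fun a => (M a, w a, z a)) computable_act h1
  exact h2

theorem c2_len {β : Type} [Primcodable β] {L : α → List β} (h : Computable L) :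
    Computable fun a => (L a).length := Computable.list_length.comp h

theorem c2_pow {f g : α → ℕ} (hf : Computable f) (hg : Computable g) :
    Computable fun a => f a ^ g a := c1_pow.to_comp.comp hf hg

theorem c2_mul {f g : α → ℕ} (hf : Computable f) (hg : Computable g) :
    Computable fun a => f a * g a := Primrec.nat_mul.to_comp.comp hf hg

theorem c2_add {f g : α → ℕ} (hf : Computable f) (hg : Computable g) :
    Computable fun a => f a + g a := Primrec.nat_add.to_comp.comp hf hg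

theorem c2_sub {f g : α → ℕ} (hf : Computable f) (hg : Computable g) :
    Computable fun a => f a - g a := Primrec.nat_sub.to_comp.comp hf hg

/-- `PC` is `Sig1` -/
theorem sig_PC (hR : Primrec₂ R) {τ : α → List Bool} {j q t : α → ℕ} {y : α → ℕ × ℕ}
    (hτ : Computable τ) (hj : Computable j) (hq : Computable q) (ht : Computable t)
    (hy : Computable y) : Sig1 fun a => PC R (τ a) (j a) (q a) (t a) (y a) := by
  have h1 : Computable fun a => τ a ++ str (q a) (y a) :=
    Computable.list_append.comp hτ (c2_str hq hy)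
  have h2 : Computable fun a => j a + 1 := c2_add hj (Computable.const 1)
  have h3 := (sig_not_Lv hR).comp (f := fun a => (t a, j a + 1, τ a ++ str (q a) (y a)))
    (Computable.pair ht (Computable.pair h2 h1))
  exact h3

/-- `DistS` for `PC` is `Sig1` -/
theorem sig_DistS (hR : Primrec₂ R) {τ : α → List Bool} {j q t i s l : α → ℕ} {z : α → ℕ × ℕ}
    (hτ : Computable τ) (hj : Computable j) (hq : Computable q) (ht : Computable t)
    (hi : Computable i) (hs : Computable s) (hl : Computable l) (hz : Computable z) :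
    Sig1 fun a => DistS (PC R (τ a) (j a) (q a) (t a)) (q a) (i a) (s a) (l a) (z a) := by
  classical
  have hM : Computable fun a => 2 ^ q a := c2_pow (Computable.const 2) hq
  have hf1 : ∀ {δ : Type} [Primcodable δ] {f : α → δ}, Computable f →
      Computable fun x : α × (List G × (ℕ × ℕ)) => f x.1 := fun hf => hf.comp Computable.fst
  have hw : Computable fun x : α × (List G × (ℕ × ℕ)) => x.2.1 :=
    Computable.fst.comp Computable.snd
  have hy : Computable fun x : α × (List G × (ℕ × ℕ)) => x.2.2 :=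
    Computable.snd.comp Computable.snd
  have hP : Sig1 fun x : α × (List G × (ℕ × ℕ)) =>
      (x.2.1.length = i x.1 ∧ (x.2.2.1 < 2 ^ q x.1 ∧ x.2.2.2 < 2 ^ q x.1)) ∧
        (str (l x.1) x.2.2 = str (l x.1) (z x.1) ∧
          PC R (τ x.1) (j x.1) (q x.1) (t x.1) (act (2 ^ q x.1) x.2.1 x.2.2)) := by
    have p1 : Sig1 fun x : α × (List G × (ℕ × ℕ)) => x.2.1.length = i x.1 :=
      c1_eq (c2_len hw) (hf1 hi)
    have p2 : Sig1 fun x : α × (List G × (ℕ × ℕ)) => x.2.2.1 < 2 ^ q x.1 :=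
      c1_lt (c2_fst hy) (hf1 hM)
    have p3 : Sig1 fun x : α × (List G × (ℕ × ℕ)) => x.2.2.2 < 2 ^ q x.1 :=
      c1_lt (c2_snd hy) (hf1 hM)
    have r1 : Computable fun x : α × (List G × (ℕ × ℕ)) => str (l x.1) x.2.2 :=
      c2_str (hf1 hl) hy
    have r2 : Computable fun x : α × (List G × (ℕ × ℕ)) => str (l x.1) (z x.1) :=
      c2_str (hf1 hl) (hf1 hz)
    have p4 : Sig1 fun x : α × (List G × (ℕ × ℕ)) => str (l x.1) x.2.2 = str (l x.1) (z x.1) :=
      c1_eq r1 r2
    have r3 : Computable fun x : α × (List G × (ℕ × ℕ)) => act (2 ^ q x.1) x.2.1 x.2.2 :=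
      c2_act (hf1 hM) hw hy
    have p5 : Sig1 fun x : α × (List G × (ℕ × ℕ)) =>
        PC R (τ x.1) (j x.1) (q x.1) (t x.1) (act (2 ^ q x.1) x.2.1 x.2.2) :=
      sig_PC hR (hf1 hτ) (hf1 hj) (hf1 hq) (hf1 ht) r3
    exact (p1.and (p2.and p3)).and (p4.and p5)
  refine (c1_count (P := fun a (x : List G × (ℕ × ℕ)) =>
    (x.1.length = i a ∧ (x.2.1 < 2 ^ q a ∧ x.2.2 < 2 ^ q a)) ∧
      (str (l a) x.2 = str (l a) (z a) ∧ PC R (τ a) (j a) (q a) (t a) (act (2 ^ q a) x.1 x.2))) hP
    (fun a => (words (i a) ×ˢ box (2 ^ q a)).filter fun x : List G × (ℕ × ℕ) =>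
      str (l a) x.2 = str (l a) (z a) ∧ PC R (τ a) (j a) (q a) (t a) (act (2 ^ q a) x.1 x.2)) ?_
    (f := fun a => (2 ^ s a - 1) * (8 ^ i a * 4 ^ (q a - l a))) (g := fun a => 2 ^ s a)
    ?_ ?_).of_eq fun a => ?_
  · intro a x
    rw [Finset.mem_filter, Finset.mem_product, mem_words, mem_box]
  · exact c2_mul (c2_sub (c2_pow (Computable.const 2) hs) (Computable.const 1))
      (c2_mul (c2_pow (Computable.const 8) hi) (c2_pow (Computable.const 4) (c2_sub hq hl)))
  · exact c2_pow (Computable.const 2) hs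
  · unfold DistS cnt
    exact Iff.rfl

end

theorem sig_BC (hR : Primrec₂ R) :
    Sig1 fun p : List Bool × ℕ × ℕ × ℕ × (ℕ × ℕ) => BC R p.1 p.2.1 p.2.2.1 p.2.2.2.1 p.2.2.2.2 := by
  -- projections from `(Par × ℕ) × ℕ` : parameters, `t`, `l`
  have a0 : Computable fun x : (Par × ℕ) × ℕ => x.1.1 := c2_fst Computable.fst
  have at' : Computable fun x : (Par × ℕ) × ℕ => x.1.2 := c2_snd Computable.fst
  have al : Computable fun x : (Par × ℕ) × ℕ => x.2 := Computable.snd
  have aτ : Computable fun x : (Par × ℕ) × ℕ => x.1.1.1 := c2_fst a0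
  have a1 : Computable fun x : (Par × ℕ) × ℕ => x.1.1.2 := c2_snd a0
  have aj : Computable fun x : (Par × ℕ) × ℕ => x.1.1.2.1 := c2_fst a1
  have a2 : Computable fun x : (Par × ℕ) × ℕ => x.1.1.2.2 := c2_snd a1
  have ai : Computable fun x : (Par × ℕ) × ℕ => x.1.1.2.2.1 := c2_fst a2
  have a3 : Computable fun x : (Par × ℕ) × ℕ => x.1.1.2.2.2 := c2_snd a2
  have ak : Computable fun x : (Par × ℕ) × ℕ => x.1.1.2.2.2.1 := c2_fst a3
  have az : Computable fun x : (Par × ℕ) × ℕ => x.1.1.2.2.2.2 := c2_snd a3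
  have aq : Computable fun x : (Par × ℕ) × ℕ => 9 ^ x.1.1.2.2.1 :=
    c2_pow (Computable.const 9) ai
  have h1 : Sig1 fun x : (Par × ℕ) × ℕ =>
      x.2 ≤ x.1.1.2.2.2.1 ∧ DistS (PC R x.1.1.1 x.1.1.2.1 (9 ^ x.1.1.2.2.1) x.1.2)
        (9 ^ x.1.1.2.2.1) x.1.1.2.2.1 (x.1.1.2.1 + 3) x.2 x.1.1.2.2.2.2 :=
    (c1_le al ak).and (sig_DistS hR aτ aj aq at' ai (c2_add aj (Computable.const 3)) al az)
  have h2 : Sig1 fun x : Par × ℕ => ∃ l, l ≤ x.1.2.2.2.1 ∧
      DistS (PC R x.1.1 x.1.2.1 (9 ^ x.1.2.2.1) x.2)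
        (9 ^ x.1.2.2.1) x.1.2.2.1 (x.1.2.1 + 3) l x.1.2.2.2.2 :=
    Sig1.ex (p := fun (x : Par × ℕ) l => l ≤ x.1.2.2.2.1 ∧
      DistS (PC R x.1.1 x.1.2.1 (9 ^ x.1.2.2.1) x.2)
        (9 ^ x.1.2.2.1) x.1.2.2.1 (x.1.2.1 + 3) l x.1.2.2.2.2) h1
  have b0 : Computable fun x : Par × ℕ => x.1 := Computable.fst
  have bt : Computable fun x : Par × ℕ => x.2 := Computable.snd
  have bτ : Computable fun x : Par × ℕ => x.1.1 := c2_fst b0
  have b1 : Computable fun x : Par × ℕ => x.1.2 := c2_snd b0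
  have bj : Computable fun x : Par × ℕ => x.1.2.1 := c2_fst b1
  have b2 : Computable fun x : Par × ℕ => x.1.2.2 := c2_snd b1
  have bi : Computable fun x : Par × ℕ => x.1.2.2.1 := c2_fst b2
  have h3 : Sig1 fun x : Par × ℕ => Lv R (2 * 9 ^ x.1.2.2.1 + x.2) x.1.2.1 x.1.1 :=
    ((sig_Lv hR).comp (f := fun x : Par × ℕ => (2 * 9 ^ x.1.2.2.1 + x.2, x.1.2.1, x.1.1))
      (Computable.pair (c2_add (c2_mul (Computable.const 2) (c2_pow (Computable.const 9) bi)) bt)
        (Computable.pair bj bτ)))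
  refine (Sig1.ex (p := fun (x : Par) t => Lv R (2 * 9 ^ x.2.2.1 + t) x.2.1 x.1 ∧
    ∃ l, l ≤ x.2.2.2.1 ∧ DistS (PC R x.1 x.2.1 (9 ^ x.2.2.1) t)
        (9 ^ x.2.2.1) x.2.2.1 (x.2.1 + 3) l x.2.2.2.2) (h3.and h2)).of_eq fun x => ?_
  unfold BC BadS
  exact Iff.rfl

end KExp
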