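import Pool.Agent.KExp.Act

/-!
# Few pairs are compressible

Paper proof. `{z ∈ box (2^q) | D U q z} ⊆ ⋃_{k ≤ q} {z | KS (str k z) + 2 ≤ 2k}`, and for a string
`σ` of length `2k` exactly `4^(q-k)` pairs `z` have `str k z = σ` (`card_cyl`, `exists_str`). So the
number is `≤ ∑_{k ≤ q} ∑_{σ, |σ| = 2k, KS σ + 2 ≤ 2k} 4^q 2^(-2k) ≤ 4^q ∑_σ 2^(-KS σ - 2) ≤ 4^q / 4`
by `KRed.kraft_KS` (the strings of length `≤ 2q` are a finite set; strings of different lengths are
different).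
-/

set_option autoImplicit false

namespace KExp

open KRed AC Low4

private lemma pow_bound {q k n : ℕ} (hk : k ≤ q) (h : n + 2 ≤ 2 * k) :
    (4 : ℚ) * 4 ^ (q - k) ≤ 4 ^ q * (1 / 2) ^ n := by
  obtain ⟨r, rfl⟩ := Nat.exists_eq_add_of_le hk
  have h1 : k + r - k = r := by omega
  rw [h1, pow_add]
  have h2 : (1 : ℚ) ≤ 4 ^ k * (1 / 2) ^ (n + 2) := by
    have h3 : (4 : ℚ) ^ k = 2 ^ (2 * k) := by rw [pow_mul]; norm_num
    rw [h3]
    obtain ⟨s, hs⟩ := Nat.exists_eq_add_of_le h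
    rw [hs, pow_add, mul_right_comm, ← mul_pow]
    norm_num
    exact one_le_pow₀ (by norm_num)
  have h4 : (0 : ℚ) < 4 ^ r := by positivity
  calc (4 : ℚ) * 4 ^ r = 4 * 4 ^ r * 1 := by ring
    _ ≤ 4 * 4 ^ r * (4 ^ k * (1 / 2) ^ (n + 2)) := by gcongr
    _ = 4 ^ k * 4 ^ r * (1 / 2) ^ n := by rw [pow_add]; ring

open Classical in
theorem card_D {U : List Bool →. ℕ} (hU : IsOptimal ∅ U) (q : ℕ) :
    4 * ((box (2 ^ q)).filter fun z => D U q z).card ≤ 4 ^ q := by
  set F := (box (2 ^ q)).filter fun z => D U q z with hF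
  let kk : ℕ × ℕ → ℕ := fun z => if h : D U q z then h.choose else 0
  have hkk : ∀ z ∈ F, kk z ≤ q ∧ KS U (str (kk z) z) + 2 ≤ 2 * kk z := by
    intro z hz
    have hD : D U q z := (Finset.mem_filter.1 hz).2
    have : kk z = hD.choose := dif_pos hD
    rw [this]
    exact hD.choose_spec
  let S : Finset (List Bool) := F.image fun z => str (kk z) z
  have hcard : (F.card : ℚ) = ∑ σ ∈ S, ((F.filter fun z => str (kk z) z = σ).card : ℚ) := by
    rw [Finset.card_eq_sum_card_image (fun z => str (kk z) z) F]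
    push_cast
    rfl
  have hfib : ∀ σ ∈ S, (4 : ℚ) * ((F.filter fun z => str (kk z) z = σ).card : ℚ) ≤
      4 ^ q * (1 / 2) ^ KS U σ := by
    intro σ hσ
    obtain ⟨z0, hz0, rfl⟩ := Finset.mem_image.1 hσ
    obtain ⟨h1, h2⟩ := hkk z0 hz0
    have hsub : (F.filter fun z => str (kk z) z = str (kk z0) z0) ⊆
        (box (2 ^ q)).filter fun y => str (kk z0) y = str (kk z0) z0 := by
      intro z hz
      obtain ⟨h3, h4⟩ := Finset.mem_filter.1 hz
      have h5 : kk z = kk z0 := by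
        have := congrArg List.length h4
        rw [length_str, length_str] at this
        omega
      rw [h5] at h4
      exact Finset.mem_filter.2 ⟨(Finset.mem_filter.1 h3).1, h4⟩
    have h6 := (Finset.card_le_card hsub).trans (card_cyl h1 z0).le
    refine le_trans ?_ (pow_bound h1 h2)
    have h7 : ((F.filter fun z => str (kk z) z = str (kk z0) z0).card : ℚ) ≤
        ((4 ^ (q - kk z0) : ℕ) : ℚ) := by exact_mod_cast h6
    push_cast at h7
    linarith
  have h8 : (4 : ℚ) * F.card ≤ 4 ^ q := by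
    rw [hcard, Finset.mul_sum]
    calc ∑ σ ∈ S, (4 : ℚ) * ((F.filter fun z => str (kk z) z = σ).card : ℚ)
        ≤ ∑ σ ∈ S, 4 ^ q * (1 / 2 : ℚ) ^ KS U σ := Finset.sum_le_sum hfib
      _ = 4 ^ q * ∑ σ ∈ S, (1 / 2 : ℚ) ^ KS U σ := by rw [Finset.mul_sum]
      _ ≤ 4 ^ q * 1 := by
          have := kraft_KS hU S
          gcongr
      _ = 4 ^ q := mul_one _
  exact_mod_cast h8

end KExp
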