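import Pool.Agent.KExp.Maxi
import Pool.Agent.KExp.Small

/-!
# The weight of the requests

Paper proof of `weight_V`. Put `q = 9^i`. A request `(σ, κ)` of `V U i` has `σ = str k z`,
`|σ| = 2k`, `k ≤ q`. For a word `w` let `h_w σ = str k (act w z)` for any `z` in the box with
`str k z = σ` (well defined and injective on the strings of length `2k` by `act_str`). So
`∑_{σ,κ} [V] 2^-κ ≤ ∑_σ (∑_w ∑_{κ ≥ KS (h_w σ) + e i} 2^-κ + [Bad σ] ∑_{κ ≥ |σ| + e i} 2^-κ)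
= 2 · 2^(-e i) (∑_w ∑_σ 2^(-KS (h_w σ)) + ∑_{σ Bad} 2^(-|σ|))`. The first sum is
`≤ 8^i · 1` by `KRed.kraft_KS`; for each `k ≤ q` the number of `σ` of length `2k` with `Bad` times
`4^(q-k)` is the number of `z ∈ box (2^q)` with `Bad P q i k z` (`Bad P q i k z` depends on
`str k z` only), which is `≤` the number with `Bad P q i q z`, `≤ 4 (5329/6400)^i 4^q` by `card_bad`
and `card_D`. So the second sum is `≤ (9^i + 1) 4 (5329/6400)^i ≤ 8 · 8^i`
(`9 · 5329 / 6400 < 8`). In total `2 · 2^(-e i) · 9 · 8^i`.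
`weight_Rq`: `∑_i 18 · 8^i · 2^(-3i - i/512 - 20) = 18 · 2^-20 ∑_i 2^(-(i/512)) = 18 · 1024 / 2^20 ≤ 1`.
-/

set_option autoImplicit false

namespace KExp

open KRed AC Low4
open scoped ENNReal

theorem wtv_tail (a : ℕ) :
    ∑' κ : ℕ, (if a ≤ κ then (1 / 2 : ℝ≥0∞) ^ κ else 0) = 2 * (1 / 2) ^ a := by
  have h := (ENNReal.summable (f := fun κ : ℕ =>
    (if a ≤ κ + a then (1 / 2 : ℝ≥0∞) ^ (κ + a) else 0))).sum_add_tsum_nat_add'
      (f := fun κ : ℕ => (if a ≤ κ then (1 / 2 : ℝ≥0∞) ^ κ else 0)) (k := a)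
  rw [← h]
  have h1 : ∑ κ ∈ Finset.range a, (if a ≤ κ then (1 / 2 : ℝ≥0∞) ^ κ else 0) = 0 := by
    refine Finset.sum_eq_zero fun κ hκ => ?_
    rw [Finset.mem_range] at hκ
    rw [if_neg (by omega)]
  have h2 : ∑' κ : ℕ, (if a ≤ κ + a then (1 / 2 : ℝ≥0∞) ^ (κ + a) else 0) =
      ∑' κ : ℕ, (1 / 2 : ℝ≥0∞) ^ κ * (1 / 2) ^ a := by
    refine tsum_congr fun κ => ?_
    rw [if_pos (by omega), pow_add]
  rw [h1, zero_add, h2, ENNReal.tsum_mul_right, ENNReal.tsum_geometric]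
  congr 1
  rw [one_div, ENNReal.one_sub_inv_two, inv_inv]

theorem wtv_dist {P : ℕ × ℕ → Prop} {q i l : ℕ} {z z' : ℕ × ℕ} (h : str l z = str l z')
    (hd : Dist P q i l z) : Dist P q i l z' := by
  unfold Dist cnt at hd ⊢
  rw [← h]
  exact hd

theorem wtv_bad {P : ℕ × ℕ → Prop} {q i k : ℕ} {z z' : ℕ × ℕ} (h : str k z = str k z')
    (hb : Bad P q i k z) : Bad P q i k z' := by
  obtain ⟨l, hl, hd⟩ := hb
  exact ⟨l, hl, wtv_dist (str_mono hl h) hd⟩

open Classical in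
/-- a pair with the given initial segment -/
noncomputable def wtvRep (q k : ℕ) (σ : List Bool) : ℕ × ℕ :=
  if h : ∃ z ∈ box (2 ^ q), str k z = σ then h.choose else (0, 0)

/-- the initial segments of length `2 k` -/
noncomputable def wtvA (q k : ℕ) : Finset (List Bool) := (box (2 ^ q)).image (str k)

theorem wtvRep_spec {q k : ℕ} {σ : List Bool} (h : σ ∈ wtvA q k) :
    wtvRep q k σ ∈ box (2 ^ q) ∧ str k (wtvRep q k σ) = σ := by
  obtain ⟨z, hz, hz'⟩ := Finset.mem_image.1 h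
  have h1 : ∃ z ∈ box (2 ^ q), str k z = σ := ⟨z, hz, hz'⟩
  unfold wtvRep
  rw [dif_pos h1]
  exact h1.choose_spec

open Classical in
/-- bound for one string and one length of the code -/
noncomputable def wtvF (U : List Bool →. ℕ) (i k : ℕ) (σ : List Bool) (κ : ℕ) : ℝ≥0∞ :=
  ∑ w ∈ words i, (if KS U (str k (act (2 ^ 9 ^ i) w (wtvRep (9 ^ i) k σ))) + e i ≤ κ
    then (1 / 2 : ℝ≥0∞) ^ κ else 0) +
  (if Bad (D U (9 ^ i)) (9 ^ i) i k (wtvRep (9 ^ i) k σ) then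
    (if 2 * k + e i ≤ κ then (1 / 2 : ℝ≥0∞) ^ κ else 0) else 0)

open Classical in
theorem wtv_point {U : List Bool →. ℕ} (i : ℕ) (σ : List Bool) (κ : ℕ) :
    (if V U i σ κ then (1 / 2 : ℝ≥0∞) ^ κ else 0) ≤
      ∑ k ∈ Finset.range (9 ^ i + 1), ∑ τ ∈ wtvA (9 ^ i) k,
        (if σ = τ then wtvF U i k τ κ else 0) := by
  split_ifs with h
  · obtain ⟨k, hk, z, hz, hσ, h⟩ := h
    have hA : σ ∈ wtvA (9 ^ i) k := Finset.mem_image.2 ⟨z, hz, hσ⟩
    obtain ⟨h1, h2⟩ := wtvRep_spec hA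
    have h3 : str k z = str k (wtvRep (9 ^ i) k σ) := by rw [h2, hσ]
    have h4 : (1 / 2 : ℝ≥0∞) ^ κ ≤ wtvF U i k σ κ := by
      unfold wtvF
      rcases h with ⟨w, hw, h⟩ | ⟨hb, h⟩
      · have h5 : str k (act (2 ^ 9 ^ i) w (wtvRep (9 ^ i) k σ)) =
            str k (act (2 ^ 9 ^ i) w z) := (act_str hk w).2 h3.symm
        have h6 : (if KS U (str k (act (2 ^ 9 ^ i) w (wtvRep (9 ^ i) k σ))) + e i ≤ κ
            then (1 / 2 : ℝ≥0∞) ^ κ else 0) = (1 / 2 : ℝ≥0∞) ^ κ := by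
          rw [h5, if_pos h]
        refine le_trans ?_ le_self_add
        refine h6.symm.le.trans ?_
        exact Finset.single_le_sum (f := fun w =>
          (if KS U (str k (act (2 ^ 9 ^ i) w (wtvRep (9 ^ i) k σ))) + e i ≤ κ
            then (1 / 2 : ℝ≥0∞) ^ κ else 0)) (fun _ _ => bot_le) hw
      · refine le_trans ?_ le_add_self
        rw [if_pos (wtv_bad h3 hb), if_pos h]
    have h7 : wtvF U i k σ κ ≤ ∑ τ ∈ wtvA (9 ^ i) k, (if σ = τ then wtvF U i k τ κ else 0) := by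
      have h8 := Finset.single_le_sum (f := fun τ => (if σ = τ then wtvF U i k τ κ else 0))
        (fun _ _ => bot_le) hA
      simpa using h8
    refine h4.trans (h7.trans ?_)
    exact Finset.single_le_sum (f := fun k =>
      ∑ τ ∈ wtvA (9 ^ i) k, (if σ = τ then wtvF U i k τ κ else 0)) (fun _ _ => bot_le)
      (Finset.mem_range.2 (Nat.lt_succ_of_le hk))
  · exact bot_le

theorem wtv_single (τ : List Bool) (G : ℕ → ℝ≥0∞) :
    ∑' p : List Bool × ℕ, (if p.1 = τ then G p.2 else 0) = ∑' κ, G κ := by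
  rw [ENNReal.tsum_prod (f := fun σ κ => (if σ = τ then G κ else 0))]
  rw [tsum_eq_single τ]
  · refine tsum_congr fun κ => ?_
    rw [if_pos rfl]
  · intro σ hσ
    rw [ENNReal.tsum_eq_zero]
    intro κ
    rw [if_neg hσ]

open Classical in
theorem wtv_tsumF {U : List Bool →. ℕ} (i k : ℕ) (σ : List Bool) :
    ∑' κ, wtvF U i k σ κ =
      ∑ w ∈ words i, 2 * (1 / 2 : ℝ≥0∞) ^ (KS U (str k (act (2 ^ 9 ^ i) w (wtvRep (9 ^ i) k σ))) + e i)
      + (if Bad (D U (9 ^ i)) (9 ^ i) i k (wtvRep (9 ^ i) k σ) then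
        2 * (1 / 2 : ℝ≥0∞) ^ (2 * k + e i) else 0) := by
  unfold wtvF
  rw [ENNReal.tsum_add, Summable.tsum_finsetSum fun _ _ => ENNReal.summable]
  congr 1
  · exact Finset.sum_congr rfl fun w _ => wtv_tail _
  · split_ifs
    · exact wtv_tail _
    · exact tsum_zero

/-- the first sum -/
theorem wtv_first {U : List Bool →. ℕ} (hU : IsOptimal ∅ U) (q : ℕ) (w : List G) :
    ∑ k ∈ Finset.range (q + 1), ∑ τ ∈ wtvA q k,
      (1 / 2 : ℝ≥0∞) ^ KS U (str k (act (2 ^ q) w (wtvRep q k τ))) ≤ 1 := by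
  classical
  rw [Finset.sum_sigma']
  have hinj : Set.InjOn (fun x : (_ : ℕ) × List Bool =>
      str x.1 (act (2 ^ q) w (wtvRep q x.1 x.2)))
      ((Finset.range (q + 1)).sigma fun k => wtvA q k) := by
    rintro ⟨k, σ⟩ hx ⟨l, τ⟩ hy hxy
    rw [Finset.mem_coe, Finset.mem_sigma] at hx hy
    simp only at hxy hx hy
    have h1 := congrArg List.length hxy
    rw [length_str, length_str] at h1
    obtain rfl : k = l := by omega
    have h2 := (act_str (Nat.lt_succ_iff.1 (Finset.mem_range.1 hx.1)) w).1 hxy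
    rw [(wtvRep_spec hx.2).2, (wtvRep_spec hy.2).2] at h2
    rw [h2]
  rw [← Finset.sum_image (f := fun σ => (1 / 2 : ℝ≥0∞) ^ KS U σ) hinj]
  exact sum_ennreal_le _ _ (kraft_KS hU _)

open Classical in
/-- the number of the bad strings of one length -/
theorem wtv_count {U : List Bool →. ℕ} (hU : IsOptimal ∅ U) {q i k : ℕ} (hk : k ≤ q) :
    (((wtvA q k).filter fun τ => Bad (D U q) q i k (wtvRep q k τ)).card : ℝ) * (1 / 2) ^ (2 * k) ≤
      4 * (5329 / 6400) ^ i := by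
  set S := (wtvA q k).filter fun τ => Bad (D U q) q i k (wtvRep q k τ) with hS
  have h1 : S.card * 4 ^ (q - k) ≤ ((box (2 ^ q)).filter fun z => Bad (D U q) q i q z).card := by
    have h2 : S.card * 4 ^ (q - k) =
        ∑ τ ∈ S, ((box (2 ^ q)).filter fun y => str k y = τ).card := by
      rw [Finset.sum_congr rfl (g := fun _ => 4 ^ (q - k)), Finset.sum_const, smul_eq_mul]
      intro τ hτ
      have h3 := card_cyl hk (wtvRep q k τ)
      rw [(wtvRep_spec (Finset.mem_filter.1 hτ).1).2] at h3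
      exact h3
    have h4 : (S.biUnion fun τ => (box (2 ^ q)).filter fun y => str k y = τ).card =
        ∑ τ ∈ S, ((box (2 ^ q)).filter fun y => str k y = τ).card := by
      refine Finset.card_biUnion fun σ _ τ _ hne => ?_
      refine Finset.disjoint_left.2 ?_
      intro y hy hy'
      exact hne ((Finset.mem_filter.1 hy).2.symm.trans (Finset.mem_filter.1 hy').2)
    rw [h2, ← h4]
    refine Finset.card_le_card fun y hy => ?_
    obtain ⟨τ, hτ, hy⟩ := Finset.mem_biUnion.1 hy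
    obtain ⟨hy1, hy2⟩ := Finset.mem_filter.1 hy
    obtain ⟨hτ1, hτ2⟩ := Finset.mem_filter.1 hτ
    refine Finset.mem_filter.2 ⟨hy1, ?_⟩
    have h5 : Bad (D U q) q i k y := wtv_bad (by rw [(wtvRep_spec hτ1).2, hy2]) hτ2
    obtain ⟨l, hl, hd⟩ := h5
    exact ⟨l, hl.trans hk, hd⟩
  have h2 := card_bad (D U q) q i (card_D hU q)
  have h3 : ((S.card * 4 ^ (q - k) : ℕ) : ℝ) ≤ 4 * (5329 / 6400) ^ i * 4 ^ q :=
    le_trans (by exact_mod_cast h1) h2
  push_cast at h3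
  have h4 : (4 : ℝ) ^ q = 4 ^ (q - k) * 4 ^ k := by rw [← pow_add, Nat.sub_add_cancel hk]
  have h5 : (0 : ℝ) < 4 ^ (q - k) := by positivity
  have h6 : (S.card : ℝ) ≤ 4 * (5329 / 6400) ^ i * 4 ^ k := by
    rw [h4] at h3
    refine le_of_mul_le_mul_right ?_ h5
    calc (S.card : ℝ) * 4 ^ (q - k) ≤ 4 * (5329 / 6400) ^ i * (4 ^ (q - k) * 4 ^ k) := h3
      _ = _ := by ring
  have h7 : ((1 : ℝ) / 2) ^ (2 * k) = (4 ^ k)⁻¹ := by
    rw [pow_mul, ← inv_pow]
    norm_num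
  rw [h7, ← div_eq_mul_inv, div_le_iff₀ (by positivity)]
  exact h6

open Classical in
/-- the second sum -/
theorem wtv_second {U : List Bool →. ℕ} (hU : IsOptimal ∅ U) (i : ℕ) :
    ∑ k ∈ Finset.range (9 ^ i + 1), ∑ τ ∈ wtvA (9 ^ i) k,
      (if Bad (D U (9 ^ i)) (9 ^ i) i k (wtvRep (9 ^ i) k τ) then (1 / 2 : ℝ≥0∞) ^ (2 * k) else 0) ≤
        8 * 8 ^ i := by
  have h1 : ∀ m : ℕ, (1 / 2 : ℝ≥0∞) ^ m = ENNReal.ofReal ((1 / 2 : ℝ) ^ m) := by
    intro m
    rw [ENNReal.ofReal_pow (by norm_num)]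
    congr 1
    rw [ENNReal.ofReal_div_of_pos (by norm_num)]
    simp
  have h2 : ∀ k ∈ Finset.range (9 ^ i + 1), ∑ τ ∈ wtvA (9 ^ i) k,
      (if Bad (D U (9 ^ i)) (9 ^ i) i k (wtvRep (9 ^ i) k τ) then (1 / 2 : ℝ≥0∞) ^ (2 * k) else 0) ≤
        ENNReal.ofReal (4 * (5329 / 6400) ^ i) := by
    intro k hk
    have h3 := wtv_count hU (i := i) (Nat.lt_succ_iff.1 (Finset.mem_range.1 hk))
    rw [← Finset.sum_filter, Finset.sum_const, nsmul_eq_mul, h1, ← ENNReal.ofReal_natCast,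
      ← ENNReal.ofReal_mul (by positivity)]
    exact ENNReal.ofReal_le_ofReal h3
  refine (Finset.sum_le_sum h2).trans ?_
  rw [Finset.sum_const, Finset.card_range, nsmul_eq_mul, ← ENNReal.ofReal_natCast,
    ← ENNReal.ofReal_mul (by positivity)]
  have h4 : (8 * 8 ^ i : ℝ≥0∞) = ENNReal.ofReal (8 * 8 ^ i) := by
    rw [ENNReal.ofReal_mul (by norm_num), ENNReal.ofReal_pow (by norm_num)]
    simp
  rw [h4]
  refine ENNReal.ofReal_le_ofReal ?_
  push_cast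
  have h5 : (1 : ℝ) ≤ 9 ^ i := one_le_pow₀ (by norm_num)
  have h6 : (9 : ℝ) ^ i * (5329 / 6400) ^ i ≤ 8 ^ i := by
    rw [← mul_pow]
    exact pow_le_pow_left₀ (by norm_num) (by norm_num) i
  have h7 : (0 : ℝ) < (5329 / 6400) ^ i := by positivity
  nlinarith

open Classical in
theorem weight_V {U : List Bool →. ℕ} (hU : IsOptimal ∅ U) (i : ℕ) :
    ∑' p : List Bool × ℕ, (if V U i p.1 p.2 then (1 / 2 : ℝ≥0∞) ^ p.2 else 0) ≤
      18 * 8 ^ i * (1 / 2) ^ e i := by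
  refine (ENNReal.tsum_le_tsum fun p : List Bool × ℕ => wtv_point i p.1 p.2).trans ?_
  rw [Summable.tsum_finsetSum fun _ _ => ENNReal.summable]
  have h1 : ∀ k ∈ Finset.range (9 ^ i + 1), ∑' p : List Bool × ℕ, ∑ τ ∈ wtvA (9 ^ i) k,
      (if p.1 = τ then wtvF U i k τ p.2 else 0) =
      2 * (1 / 2) ^ e i * (∑ w ∈ words i, ∑ τ ∈ wtvA (9 ^ i) k,
        (1 / 2 : ℝ≥0∞) ^ KS U (str k (act (2 ^ 9 ^ i) w (wtvRep (9 ^ i) k τ)))) +
      2 * (1 / 2) ^ e i * (∑ τ ∈ wtvA (9 ^ i) k,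
        (if Bad (D U (9 ^ i)) (9 ^ i) i k (wtvRep (9 ^ i) k τ) then
          (1 / 2 : ℝ≥0∞) ^ (2 * k) else 0)) := by
    intro k _
    rw [Summable.tsum_finsetSum fun _ _ => ENNReal.summable]
    rw [Finset.sum_congr rfl fun τ _ => (wtv_single τ (wtvF U i k τ)).trans (wtv_tsumF i k τ),
      Finset.sum_add_distrib, Finset.sum_comm, Finset.mul_sum, Finset.mul_sum]
    congr 1
    · refine Finset.sum_congr rfl fun w _ => ?_
      rw [Finset.mul_sum]
      refine Finset.sum_congr rfl fun τ _ => ?_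
      rw [pow_add]
      ring
    · refine Finset.sum_congr rfl fun τ _ => ?_
      split_ifs
      · rw [pow_add]
        ring
      · rw [mul_zero]
  rw [Finset.sum_congr rfl h1, Finset.sum_add_distrib, ← Finset.mul_sum, ← Finset.mul_sum,
    Finset.sum_comm, ← mul_add]
  have h2 : ∑ w ∈ words i, ∑ k ∈ Finset.range (9 ^ i + 1), ∑ τ ∈ wtvA (9 ^ i) k,
      (1 / 2 : ℝ≥0∞) ^ KS U (str k (act (2 ^ 9 ^ i) w (wtvRep (9 ^ i) k τ))) ≤ 8 ^ i := by
    refine (Finset.sum_le_sum fun w _ => wtv_first hU (9 ^ i) w).trans ?_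
    rw [Finset.sum_const, card_words, nsmul_eq_mul, mul_one]
    push_cast
    exact le_rfl
  refine (mul_le_mul' le_rfl (add_le_add h2 (wtv_second hU i))).trans (le_of_eq ?_)
  ring

end KExp
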