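import Pool.Agent.KExp.CCard
import Pool.Agent.KExp.WtV

/-!
# The weight of the requests of the cone version

Paper proof of `card_BC`. The set of the `z` in the box with `BC R τ j i (9^i) z` is finite; each
has a stage `t_z`; put `t` = the maximum. `Lv R (2 * 9^i + t) j τ` holds (it is one of the stages),
and every `z` is bad for the stage `t` (`PC R τ j q t_z y → PC R τ j q t y` by `Lv_anti`, so `cnt`,
`DistS`, `BadS` grow with `t`). So `card_badS` applies, with `markov`.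

Paper proof of `weight_RC3`. As `weight_V` in WtV.lean. Put `q = 9^i`. For fixed `σ, τ`: a request
`(ρ, κ)` of `VC` has `ρ = σ ++ str k z`, `k ≤ q`. For a word `w` the map
`str k z ↦ str k (act w z)` is a bijection of the strings of length `2k` (`act_str`,
`exists_str`). So the weight is at most
`2 · 2^(-E) ∑_σ ∑_τ (∑_w ∑_{ν, |ν| even ≤ 2q} 2^(-KS (τ ++ ν)) + ∑_{ν bad for τ} 2^(-2p-|ν|))`.
First part: `∑_τ ∑_ν 2^(-KS (τ ++ ν)) ≤ 1` (`KRed.kraft_KS`, `(τ, ν) ↦ τ ++ ν` is injective as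
`|τ| = 2p`), so it is `≤ 4^p · 8^i`. Second part: for each `τ` and `k ≤ q` the number of the
`ν = str k z` with `BC R τ j i k z` times `4^(q-k)` is `≤ 4^(j+3) (5329/6400)^i 4^q` (`card_BC`,
`card_cyl`; `BC` depends on `str k z` only), so it is
`≤ 4^p · 4^p · 2^(-2p) (9^i + 1) 4^(j+3) (5329/6400)^i ≤ 4^p · 2 · 4^(j+3) · 8^i`.
In total `2 · 2^(-E) · 4^p · 8^i · (1 + 2 · 4^(j+3)) ≤ 512 · 4^p · 4^j · 8^i · 2^(-E)`
(`2 (1 + 128 · 4^j) ≤ 258 · 4^j`).
-/

set_option autoImplicit false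

namespace KExp

open KRed AC Low4
open scoped ENNReal

variable {R : List Bool × ℕ → ℕ → Bool}

theorem cw_dist {P : ℕ × ℕ → Prop} {q i s l : ℕ} {z z' : ℕ × ℕ} (h : str l z = str l z')
    (hd : DistS P q i s l z) : DistS P q i s l z' := by
  unfold DistS cnt at hd ⊢
  rw [← h]
  exact hd

theorem cw_BC {τ : List Bool} {j i k l : ℕ} (hkl : k ≤ l) {z z' : ℕ × ℕ}
    (h : str k z = str k z') (hb : BC R τ j i k z) : BC R τ j i l z' := by
  obtain ⟨t, ht, m, hm, hd⟩ := hb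
  exact ⟨t, ht, m, hm.trans hkl, cw_dist (str_mono hm h) hd⟩

open Classical in
/-- counting the strings of one length -/
theorem cw_fib {q k : ℕ} (hk : k ≤ q) (B : ℕ × ℕ → Prop)
    (hB : ∀ z z', str k z = str k z' → B z → B z') {C : ℝ} (B' : ℕ × ℕ → Prop)
    (hB' : ∀ z, B z → B' z)
    (hC : (((box (2 ^ q)).filter fun z => B' z).card : ℝ) ≤ C * 4 ^ q) :
    (((wtvA q k).filter fun ν => B (wtvRep q k ν)).card : ℝ) * (1 / 2) ^ (2 * k) ≤ C := by
  set S := (wtvA q k).filter fun ν => B (wtvRep q k ν) with hS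
  have h1 : S.card * 4 ^ (q - k) ≤ ((box (2 ^ q)).filter fun z => B' z).card := by
    have h2 : S.card * 4 ^ (q - k) =
        ∑ τ ∈ S, ((box (2 ^ q)).filter fun y => str k y = τ).card := by
      rw [Finset.sum_congr rfl (g := fun _ => 4 ^ (q - k)), Finset.sum_const, smul_eq_mul]
      intro τ hτ
      have h3 := card_cyl hk (wtvRep q k τ)
      rw [(wtvRep_spec (Finset.mem_filter.1 hτ).1).2] at h3
      exact h3
    have h4 : (S.biUnion fun τ => (box (2 ^ q)).filter fun y => str k y = τ).card =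
        ∑ τ ∈ S, ((box (2 ^ q)).filter fun y => str k y = τ).card := by
      refine Finset.card_biUnion fun σ _ τ _ hne => ?_
      refine Finset.disjoint_left.2 ?_
      intro y hy hy'
      exact hne ((Finset.mem_filter.1 hy).2.symm.trans (Finset.mem_filter.1 hy').2)
    rw [h2, ← h4]
    refine Finset.card_le_card fun y hy => ?_
    obtain ⟨τ, hτ, hy⟩ := Finset.mem_biUnion.1 hy
    obtain ⟨hy1, hy2⟩ := Finset.mem_filter.1 hy
    obtain ⟨hτ1, hτ2⟩ := Finset.mem_filter.1 hτ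
    refine Finset.mem_filter.2 ⟨hy1, hB' _ ?_⟩
    exact hB _ _ (by rw [(wtvRep_spec hτ1).2, hy2]) hτ2
  have h3 : ((S.card * 4 ^ (q - k) : ℕ) : ℝ) ≤ C * 4 ^ q := le_trans (by exact_mod_cast h1) hC
  push_cast at h3
  have h4 : (4 : ℝ) ^ q = 4 ^ (q - k) * 4 ^ k := by rw [← pow_add, Nat.sub_add_cancel hk]
  have h5 : (0 : ℝ) < 4 ^ (q - k) := by positivity
  have h6 : (S.card : ℝ) ≤ C * 4 ^ k := by
    rw [h4] at h3
    refine le_of_mul_le_mul_right ?_ h5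
    calc (S.card : ℝ) * 4 ^ (q - k) ≤ C * (4 ^ (q - k) * 4 ^ k) := h3
      _ = _ := by ring
  have h7 : ((1 : ℝ) / 2) ^ (2 * k) = (4 ^ k)⁻¹ := by
    rw [pow_mul, ← inv_pow]
    norm_num
  rw [h7, ← div_eq_mul_inv, div_le_iff₀ (by positivity)]
  exact h6

theorem cw_half (m : ℕ) : (1 / 2 : ℝ≥0∞) ^ m = ENNReal.ofReal ((1 / 2 : ℝ) ^ m) := by
  rw [ENNReal.ofReal_pow (by norm_num)]
  congr 1
  rw [ENNReal.ofReal_div_of_pos (by norm_num)]
  simp

open Classical in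
/-- the second sum, for one string `τ` -/
theorem cw_second (R : List Bool × ℕ → ℕ → Bool) (τ : List Bool) (i j : ℕ) :
    ∑ k ∈ Finset.range (9 ^ i + 1), ∑ ν ∈ wtvA (9 ^ i) k,
      (if BC R τ j i k (wtvRep (9 ^ i) k ν) then (1 / 2 : ℝ≥0∞) ^ (2 * k) else 0) ≤
        128 * 4 ^ j * 8 ^ i := by
  have h2 : ∀ k ∈ Finset.range (9 ^ i + 1), ∑ ν ∈ wtvA (9 ^ i) k,
      (if BC R τ j i k (wtvRep (9 ^ i) k ν) then (1 / 2 : ℝ≥0∞) ^ (2 * k) else 0) ≤
        ENNReal.ofReal (4 ^ (j + 3) * (5329 / 6400) ^ i) := by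
    intro k hk
    have hk' := Nat.lt_succ_iff.1 (Finset.mem_range.1 hk)
    have h3 := cw_fib hk' (fun z => BC R τ j i k z) (fun z z' h => cw_BC le_rfl h)
      (fun z => BC R τ j i (9 ^ i) z) (fun z => cw_BC hk' rfl) (card_BC τ j i)
    rw [← Finset.sum_filter, Finset.sum_const, nsmul_eq_mul, cw_half, ← ENNReal.ofReal_natCast,
      ← ENNReal.ofReal_mul (by positivity)]
    exact ENNReal.ofReal_le_ofReal h3
  refine (Finset.sum_le_sum h2).trans ?_
  rw [Finset.sum_const, Finset.card_range, nsmul_eq_mul, ← ENNReal.ofReal_natCast,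
    ← ENNReal.ofReal_mul (by positivity)]
  have h4 : (128 * 4 ^ j * 8 ^ i : ℝ≥0∞) = ENNReal.ofReal (128 * 4 ^ j * 8 ^ i) := by
    rw [ENNReal.ofReal_mul (by positivity), ENNReal.ofReal_mul (by norm_num),
      ENNReal.ofReal_pow (by norm_num), ENNReal.ofReal_pow (by norm_num)]
    simp
  rw [h4]
  refine ENNReal.ofReal_le_ofReal ?_
  push_cast
  have h5 : (1 : ℝ) ≤ 9 ^ i := one_le_pow₀ (by norm_num)
  have h6 : (9 : ℝ) ^ i * (5329 / 6400) ^ i ≤ 8 ^ i := by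
    rw [← mul_pow]
    exact pow_le_pow_left₀ (by norm_num) (by norm_num) i
  have h7 : (0 : ℝ) < (5329 / 6400) ^ i := by positivity
  have h8 : ((9 : ℝ) ^ i + 1) * (5329 / 6400) ^ i ≤ 2 * 8 ^ i := by nlinarith
  have h9 : (4 : ℝ) ^ (j + 3) = 64 * 4 ^ j := by rw [pow_add]; ring
  rw [h9]
  calc ((9 : ℝ) ^ i + 1) * (64 * 4 ^ j * (5329 / 6400) ^ i)
      = 64 * 4 ^ j * (((9 : ℝ) ^ i + 1) * (5329 / 6400) ^ i) := by ring
    _ ≤ 64 * 4 ^ j * (2 * 8 ^ i) := by gcongr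
    _ = 128 * 4 ^ j * 8 ^ i := by ring

/-- the first sum, for one word -/
theorem cw_first {U : List Bool →. ℕ} (hU : IsOptimal ∅ U) (q p : ℕ) (w : List G) :
    ∑ τ ∈ bs (2 * p), ∑ k ∈ Finset.range (q + 1), ∑ ν ∈ wtvA q k,
      (1 / 2 : ℝ≥0∞) ^ KS U (τ ++ str k (act (2 ^ q) w (wtvRep q k ν))) ≤ 1 := by
  classical
  have hs : ∀ τ ∈ bs (2 * p), ∑ k ∈ Finset.range (q + 1), ∑ ν ∈ wtvA q k,
      (1 / 2 : ℝ≥0∞) ^ KS U (τ ++ str k (act (2 ^ q) w (wtvRep q k ν))) =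
      ∑ x ∈ (Finset.range (q + 1)).sigma fun k => wtvA q k,
        (1 / 2 : ℝ≥0∞) ^ KS U (τ ++ str x.1 (act (2 ^ q) w (wtvRep q x.1 x.2))) :=
    fun τ _ => Finset.sum_sigma' _ _ _
  rw [Finset.sum_congr rfl hs, ← Finset.sum_product']
  have hinj : Set.InjOn (fun x : List Bool × ((_ : ℕ) × List Bool) =>
      x.1 ++ str x.2.1 (act (2 ^ q) w (wtvRep q x.2.1 x.2.2)))
      ((bs (2 * p) ×ˢ (Finset.range (q + 1)).sigma fun k => wtvA q k :
        Finset (List Bool × ((_ : ℕ) × List Bool)))) := by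
    rintro ⟨τ, k, ν⟩ hx ⟨τ', l, ν'⟩ hy hxy
    rw [Finset.mem_coe, Finset.mem_product, Finset.mem_sigma] at hx hy
    simp only at hxy hx hy
    have h1 : τ = τ' ∧ str k (act (2 ^ q) w (wtvRep q k ν)) =
        str l (act (2 ^ q) w (wtvRep q l ν')) :=
      List.append_inj hxy ((mem_bs.1 hx.1).trans (mem_bs.1 hy.1).symm)
    obtain ⟨rfl, h1⟩ := h1
    have h2 := congrArg List.length h1
    rw [length_str, length_str] at h2
    obtain rfl : k = l := by omega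
    have h3 := (act_str (Nat.lt_succ_iff.1 (Finset.mem_range.1 hx.2.1)) w).1 h1
    rw [(wtvRep_spec hx.2.2).2, (wtvRep_spec hy.2.2).2] at h3
    rw [h3]
  rw [← Finset.sum_image (f := fun σ => (1 / 2 : ℝ≥0∞) ^ KS U σ) hinj]
  exact sum_ennreal_le _ _ (kraft_KS hU _)

open Classical in
/-- bound for one string and one length of the code -/
noncomputable def cwF (U : List Bool →. ℕ) (R : List Bool × ℕ → ℕ → Bool) (i j p k : ℕ)
    (τ ν : List Bool) (κ : ℕ) : ℝ≥0∞ :=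
  ∑ w ∈ words i, (if KS U (τ ++ str k (act (2 ^ 9 ^ i) w (wtvRep (9 ^ i) k ν))) + E i j p ≤ κ
    then (1 / 2 : ℝ≥0∞) ^ κ else 0) +
  (if BC R τ j i k (wtvRep (9 ^ i) k ν) then
    (if 2 * p + 2 * k + E i j p ≤ κ then (1 / 2 : ℝ≥0∞) ^ κ else 0) else 0)

open Classical in
theorem cw_tsumF (U : List Bool →. ℕ) (R : List Bool × ℕ → ℕ → Bool) (i j p k : ℕ)
    (τ ν : List Bool) :
    ∑' κ, cwF U R i j p k τ ν κ =
      ∑ w ∈ words i, 2 * (1 / 2 : ℝ≥0∞) ^
        (KS U (τ ++ str k (act (2 ^ 9 ^ i) w (wtvRep (9 ^ i) k ν))) + E i j p)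
      + (if BC R τ j i k (wtvRep (9 ^ i) k ν) then
        2 * (1 / 2 : ℝ≥0∞) ^ (2 * p + 2 * k + E i j p) else 0) := by
  unfold cwF
  rw [ENNReal.tsum_add, Summable.tsum_finsetSum fun _ _ => ENNReal.summable]
  congr 1
  · exact Finset.sum_congr rfl fun w _ => wtv_tail _
  · split_ifs
    · exact wtv_tail _
    · exact tsum_zero

open Classical in
theorem cw_point (U : List Bool →. ℕ) (R : List Bool × ℕ → ℕ → Bool) (i j p : ℕ)
    (ρ : List Bool) (κ : ℕ) :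
    (if RC3 U R i j p ρ κ then (1 / 2 : ℝ≥0∞) ^ κ else 0) ≤
      ∑ σ ∈ bs (2 * p), ∑ τ ∈ bs (2 * p), ∑ k ∈ Finset.range (9 ^ i + 1),
        ∑ ν ∈ wtvA (9 ^ i) k, (if ρ = σ ++ ν then cwF U R i j p k τ ν κ else 0) := by
  split_ifs with h
  · obtain ⟨σ, hσ, τ, hτ, k, hk, z, hz, hρ, h⟩ := h
    have hA : str k z ∈ wtvA (9 ^ i) k := Finset.mem_image.2 ⟨z, hz, rfl⟩
    obtain ⟨h1, h2⟩ := wtvRep_spec hA
    have h4 : (1 / 2 : ℝ≥0∞) ^ κ ≤ cwF U R i j p k τ (str k z) κ := by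
      unfold cwF
      rcases h with ⟨w, hw, h⟩ | ⟨hb, h⟩
      · have h5 : str k (act (2 ^ 9 ^ i) w (wtvRep (9 ^ i) k (str k z))) =
            str k (act (2 ^ 9 ^ i) w z) := (act_str hk w).2 h2
        have h6 : (if KS U (τ ++ str k (act (2 ^ 9 ^ i) w (wtvRep (9 ^ i) k (str k z)))) +
            E i j p ≤ κ then (1 / 2 : ℝ≥0∞) ^ κ else 0) = (1 / 2 : ℝ≥0∞) ^ κ := by
          rw [h5, if_pos h]
        refine le_trans ?_ le_self_add
        refine h6.symm.le.trans ?_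
        exact Finset.single_le_sum (f := fun w =>
          (if KS U (τ ++ str k (act (2 ^ 9 ^ i) w (wtvRep (9 ^ i) k (str k z)))) + E i j p ≤ κ
            then (1 / 2 : ℝ≥0∞) ^ κ else 0)) (fun _ _ => bot_le) hw
      · refine le_trans ?_ le_add_self
        rw [if_pos (cw_BC le_rfl h2.symm hb), if_pos h]
    have h7 : cwF U R i j p k τ (str k z) κ ≤
        ∑ ν ∈ wtvA (9 ^ i) k, (if ρ = σ ++ ν then cwF U R i j p k τ ν κ else 0) := by
      have h8 := Finset.single_le_sum (f := fun ν =>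
        (if ρ = σ ++ ν then cwF U R i j p k τ ν κ else 0)) (fun _ _ => bot_le) hA
      simp only [hρ, if_true] at h8
      exact h8
    have h9 := Finset.single_le_sum (f := fun k =>
      ∑ ν ∈ wtvA (9 ^ i) k, (if ρ = σ ++ ν then cwF U R i j p k τ ν κ else 0))
      (fun _ _ => bot_le) (Finset.mem_range.2 (Nat.lt_succ_of_le hk))
    have h10 := Finset.single_le_sum (f := fun τ => ∑ k ∈ Finset.range (9 ^ i + 1),
      ∑ ν ∈ wtvA (9 ^ i) k, (if ρ = σ ++ ν then cwF U R i j p k τ ν κ else 0))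
      (fun _ _ => bot_le) hτ
    have h11 := Finset.single_le_sum (f := fun σ => ∑ τ ∈ bs (2 * p),
      ∑ k ∈ Finset.range (9 ^ i + 1),
      ∑ ν ∈ wtvA (9 ^ i) k, (if ρ = σ ++ ν then cwF U R i j p k τ ν κ else 0))
      (fun _ _ => bot_le) hσ
    exact h4.trans (h7.trans (h9.trans (h10.trans h11)))
  · exact bot_le

open Classical in
theorem weight_RC3 {U : List Bool →. ℕ} (hU : IsOptimal ∅ U) (i j p : ℕ) :
    ∑' x : List Bool × ℕ, (if RC3 U R i j p x.1 x.2 then (1 / 2 : ℝ≥0∞) ^ x.2 else 0) ≤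
      512 * 4 ^ p * 4 ^ j * 8 ^ i * (1 / 2) ^ E i j p := by
  refine (ENNReal.tsum_le_tsum fun x : List Bool × ℕ => cw_point U R i j p x.1 x.2).trans ?_
  rw [Summable.tsum_finsetSum fun _ _ => ENNReal.summable]
  have hS : ∀ σ ∈ bs (2 * p), ∑' x : List Bool × ℕ, ∑ τ ∈ bs (2 * p),
      ∑ k ∈ Finset.range (9 ^ i + 1), ∑ ν ∈ wtvA (9 ^ i) k,
        (if x.1 = σ ++ ν then cwF U R i j p k τ ν x.2 else 0) ≤
      2 * (1 / 2) ^ E i j p * (8 ^ i + 128 * 4 ^ j * 8 ^ i) := by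
    intro σ _
    rw [Summable.tsum_finsetSum fun _ _ => ENNReal.summable]
    have h1 : ∀ τ ∈ bs (2 * p), ∑' x : List Bool × ℕ,
        ∑ k ∈ Finset.range (9 ^ i + 1), ∑ ν ∈ wtvA (9 ^ i) k,
          (if x.1 = σ ++ ν then cwF U R i j p k τ ν x.2 else 0) =
        2 * (1 / 2) ^ E i j p * (∑ w ∈ words i, ∑ k ∈ Finset.range (9 ^ i + 1),
          ∑ ν ∈ wtvA (9 ^ i) k,
          (1 / 2 : ℝ≥0∞) ^ KS U (τ ++ str k (act (2 ^ 9 ^ i) w (wtvRep (9 ^ i) k ν)))) +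
        2 * (1 / 2) ^ E i j p * ((1 / 2) ^ (2 * p) *
          ∑ k ∈ Finset.range (9 ^ i + 1), ∑ ν ∈ wtvA (9 ^ i) k,
          (if BC R τ j i k (wtvRep (9 ^ i) k ν) then (1 / 2 : ℝ≥0∞) ^ (2 * k) else 0)) := by
      intro τ _
      rw [Summable.tsum_finsetSum fun _ _ => ENNReal.summable]
      have h2 : ∀ k ∈ Finset.range (9 ^ i + 1), ∑' x : List Bool × ℕ, ∑ ν ∈ wtvA (9 ^ i) k,
          (if x.1 = σ ++ ν then cwF U R i j p k τ ν x.2 else 0) =
          2 * (1 / 2) ^ E i j p * (∑ w ∈ words i, ∑ ν ∈ wtvA (9 ^ i) k,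
            (1 / 2 : ℝ≥0∞) ^ KS U (τ ++ str k (act (2 ^ 9 ^ i) w (wtvRep (9 ^ i) k ν)))) +
          2 * (1 / 2) ^ E i j p * ((1 / 2) ^ (2 * p) * ∑ ν ∈ wtvA (9 ^ i) k,
            (if BC R τ j i k (wtvRep (9 ^ i) k ν) then (1 / 2 : ℝ≥0∞) ^ (2 * k) else 0)) := by
        intro k _
        rw [Summable.tsum_finsetSum fun _ _ => ENNReal.summable]
        rw [Finset.sum_congr rfl fun ν _ => (wtv_single (σ ++ ν) (cwF U R i j p k τ ν)).trans
          (cw_tsumF U R i j p k τ ν), Finset.sum_add_distrib, Finset.sum_comm, Finset.mul_sum,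
          Finset.mul_sum, Finset.mul_sum]
        congr 1
        · refine Finset.sum_congr rfl fun w _ => ?_
          rw [Finset.mul_sum]
          refine Finset.sum_congr rfl fun ν _ => ?_
          rw [pow_add]
          ring
        · refine Finset.sum_congr rfl fun ν _ => ?_
          split_ifs
          · rw [pow_add, pow_add]
            ring
          · rw [mul_zero, mul_zero]
      rw [Finset.sum_congr rfl h2, Finset.sum_add_distrib, ← Finset.mul_sum, ← Finset.mul_sum,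
        ← Finset.mul_sum, Finset.sum_comm]
    rw [Finset.sum_congr rfl h1, Finset.sum_add_distrib, ← Finset.mul_sum, ← Finset.mul_sum,
      Finset.sum_comm, ← mul_add]
    refine mul_le_mul' le_rfl (add_le_add ?_ ?_)
    · refine (Finset.sum_le_sum fun w _ => cw_first hU (9 ^ i) p w).trans ?_
      rw [Finset.sum_const, card_words, nsmul_eq_mul, mul_one]
      push_cast
      exact le_rfl
    · rw [← Finset.mul_sum]
      refine (mul_le_mul' le_rfl (Finset.sum_le_sum fun τ _ => cw_second R τ i j)).trans ?_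
      rw [Finset.sum_const, card_bs, nsmul_eq_mul]
      push_cast
      have h3 : (1 / 2 : ℝ≥0∞) ^ (2 * p) * 2 ^ (2 * p) = 1 := by
        rw [← mul_pow, one_div, ENNReal.inv_mul_cancel (by norm_num) (by norm_num), one_pow]
      rw [← mul_assoc, h3, one_mul]
  refine (Finset.sum_le_sum hS).trans ?_
  rw [Finset.sum_const, card_bs, nsmul_eq_mul, pow_mul]
  push_cast
  have h5 : (1 : ℝ≥0∞) ≤ 4 ^ j := one_le_pow₀ (by norm_num)
  calc (4 : ℝ≥0∞) ^ p * (2 * (1 / 2) ^ E i j p * (8 ^ i + 128 * 4 ^ j * 8 ^ i))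
      = 4 ^ p * 8 ^ i * (1 / 2) ^ E i j p * (2 * 1 + 256 * 4 ^ j) := by ring
    _ ≤ 4 ^ p * 8 ^ i * (1 / 2) ^ E i j p * (2 * 4 ^ j + 256 * 4 ^ j) := by gcongr
    _ = 258 * (4 ^ p * 4 ^ j * 8 ^ i * (1 / 2) ^ E i j p) := by ring
    _ ≤ 512 * (4 ^ p * 4 ^ j * 8 ^ i * (1 / 2) ^ E i j p) := by gcongr; norm_num
    _ = 512 * 4 ^ p * 4 ^ j * 8 ^ i * (1 / 2) ^ E i j p := by ring

end KExp
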