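import Pool.Agent.KExp.Defs
import Pool.Agent.KRed.Sch2

/-!
# The coding theorem for computably enumerable sets of requests

Paper proof. As in KRed/Sch2.lean (`random_of_KS`, `S2.item`, `S2.HL`, `S2.pw_HL`, `S2.sum_g_le`):
`primrec_nf` gives a primitive recursive `B` with `R σ k ↔ ∃ t, B (σ, k) t`. Enumerate
`x = ((σ, k), t)` by its code, request `(List.replicate k false, encode σ)` when `B (σ, k) t` and
`B (σ, k) t'` fails for all `t' < t` (so each pair is requested once); the weight of a finite list
of requests is `≤ ∑' p, [R p] 2^-k ≤ 1 ≤ 2`, so `exists_machine` and optimality of `U` give the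
constant (`KC_le`, `hU.simulates`).
-/

set_option autoImplicit false

namespace KExp

open KRed AC Low4 Encodable
open scoped ENNReal

namespace Cd

/-- `t` is the first witness for `p` -/
def First (B : List Bool × ℕ → ℕ → Bool) (x : (List Bool × ℕ) × ℕ) : Prop :=
  B x.1 x.2 = true ∧ ¬ ∃ t ∈ List.range x.2, B x.1 t = true

theorem primrecPred_First {B : List Bool × ℕ → ℕ → Bool} (hB : Primrec₂ B) :
    PrimrecPred (First B) := by
  have h0 : PrimrecPred fun q : ℕ × (List Bool × ℕ) => B q.2 q.1 = true := by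
    refine Primrec.primrecPred ?_
    have h : Primrec fun q : ℕ × (List Bool × ℕ) => B q.2 q.1 :=
      hB.comp Primrec.snd Primrec.fst
    exact h.of_eq fun q => by simp
  have h1 : PrimrecRel fun (L : List ℕ) (y : List Bool × ℕ) => ∃ t ∈ L, B y t = true :=
    PrimrecRel.exists_mem_list (R := fun (t : ℕ) (y : List Bool × ℕ) => B y t = true) h0
  refine PrimrecPred.and ?_ (PrimrecPred.not ?_)
  · exact h0.comp (f := fun x : (List Bool × ℕ) × ℕ => (x.2, x.1))
      (Primrec.pair Primrec.snd Primrec.fst)
  · exact PrimrecRel.comp h1 (f := fun x : (List Bool × ℕ) × ℕ => List.range x.2)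
      (g := fun x : (List Bool × ℕ) × ℕ => x.1)
      (Primrec.list_range.comp Primrec.snd) Primrec.fst

open Classical in
/-- the `i`-th request -/
noncomputable def item (B : List Bool × ℕ → ℕ → Bool) (i : ℕ) : Option (List Bool × ℕ) :=
  (decode (α := (List Bool × ℕ) × ℕ) i).bind fun x =>
    if encode x = i ∧ First B x then
      some (List.replicate x.1.2 false, encode x.1.1) else none

/-- the first requests -/
noncomputable def HL (B : List Bool × ℕ → ℕ → Bool) (n : ℕ) : List (List Bool × ℕ) :=
  (List.range n).filterMap (item B)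

theorem primrec_item {B : List Bool × ℕ → ℕ → Bool} (hB : Primrec₂ B) : Primrec (item B) := by
  classical
  have ho : Primrec fun q : ℕ × ((List Bool × ℕ) × ℕ) => q.2 := Primrec.snd
  refine Primrec.option_bind (f := fun i : ℕ => decode (α := (List Bool × ℕ) × ℕ) i)
    (g := fun (i : ℕ) (x : (List Bool × ℕ) × ℕ) => if encode x = i ∧ First B x then
      some (List.replicate x.1.2 false, encode x.1.1) else none) Primrec.decode ?_
  refine Primrec.ite (c := fun q : ℕ × ((List Bool × ℕ) × ℕ) =>
    encode q.2 = q.1 ∧ First B q.2) ?_ ?_ (Primrec.const none)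
  · refine PrimrecPred.and ?_ ?_
    · exact PrimrecRel.comp (Primrec.eq (α := ℕ)) (Primrec.encode.comp ho) Primrec.fst
    · exact (primrecPred_First hB).comp ho
  · refine Primrec.option_some.comp (Primrec.pair ?_ (Primrec.encode.comp
      (Primrec.fst.comp (Primrec.fst.comp ho))))
    exact S2.primrec_replicate.comp (Primrec.snd.comp (Primrec.fst.comp ho))

theorem primrec_HL {B : List Bool × ℕ → ℕ → Bool} (hB : Primrec₂ B) : Primrec (HL B) := by
  refine Primrec.listFilterMap (f := fun n : ℕ => List.range n) (g := fun _ i => item B i)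
    Primrec.list_range ?_
  exact ((primrec_item hB).comp Primrec.snd).to₂

theorem HL_prefix (B : List Bool × ℕ → ℕ → Bool) {n m : ℕ} (h : n ≤ m) : HL B n <+: HL B m := by
  obtain ⟨k, rfl⟩ := Nat.exists_eq_add_of_le h
  unfold HL
  rw [List.range_add, List.filterMap_append]
  exact List.prefix_append _ _

open Classical in
/-- weight of a request -/
noncomputable def g (B : List Bool × ℕ → ℕ → Bool) (x : (List Bool × ℕ) × ℕ) : ℝ≥0∞ :=
  if First B x then (1 / 2) ^ x.1.2 else 0

open Classical in
/-- weight of the `i`-th request -/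
noncomputable def gi (B : List Bool × ℕ → ℕ → Bool) (i : ℕ) : ℝ≥0∞ :=
  match decode (α := (List Bool × ℕ) × ℕ) i with
  | some x => if encode x = i then g B x else 0
  | none => 0

theorem pw_HL (B : List Bool × ℕ → ℕ → Bool) (n : ℕ) :
    ENNReal.ofReal ((pw (HL B n) : ℚ) : ℝ) = ∑ i ∈ Finset.range n, gi B i := by
  induction n with
  | zero => simp [HL, pw]
  | succ n ih =>
    have h1 : HL B (n + 1) = HL B n ++ (item B n).toList := by
      unfold HL
      rw [List.range_succ, List.filterMap_append]
      congr 1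
    rw [h1, pw_append, Finset.sum_range_succ, ← ih]
    push_cast
    rw [ENNReal.ofReal_add (by exact_mod_cast pw_nonneg _) (by exact_mod_cast pw_nonneg _)]
    congr 1
    unfold item gi g
    rcases hd : decode (α := (List Bool × ℕ) × ℕ) n with _ | p
    · simp [pw]
    · by_cases h1 : encode p = n
      · by_cases h2 : First B p
        · simp only [Option.bind_some, if_pos (And.intro h1 h2), if_pos h1, if_pos h2]
          rw [S2.ofReal_pow_half]
          simp [pw]
        · simp only [Option.bind_some, if_neg (fun h : encode p = n ∧ _ => h2 h.2), if_pos h1,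
            if_neg h2]
          simp [pw]
      · simp only [Option.bind_some, if_neg (fun h : encode p = n ∧ _ => h1 h.1), if_neg h1]
        simp [pw]

open Classical in
theorem sum_g_le {R : List Bool → ℕ → Prop} {B : List Bool × ℕ → ℕ → Bool}
    (hB : ∀ a : List Bool × ℕ, R a.1 a.2 ↔ ∃ t, B a t = true)
    (hs : ∑' p : List Bool × ℕ, (if R p.1 p.2 then (1 / 2 : ℝ≥0∞) ^ p.2 else 0) ≤ 1) (n : ℕ) :
    ∑ i ∈ Finset.range n, gi B i ≤ 1 := by
  refine (ENNReal.sum_le_tsum _).trans ?_
  have h1 : ∑' i : ℕ, gi B i = ∑' x : (List Bool × ℕ) × ℕ, g B x := by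
    have h2 : ∀ x : (List Bool × ℕ) × ℕ, gi B (encode x) = g B x := by
      intro x
      unfold gi
      rw [encodek]
      simp
    rw [← tsum_congr h2]
    refine (Function.Injective.tsum_eq encode_injective ?_).symm
    intro i hi
    rw [Function.mem_support] at hi
    unfold gi at hi
    rcases hd : decode (α := (List Bool × ℕ) × ℕ) i with _ | x
    · rw [hd] at hi
      exact absurd rfl hi
    · rw [hd] at hi
      by_cases hx : encode x = i
      · exact ⟨x, hx⟩
      · simp only [if_neg hx] at hi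
        exact absurd rfl hi
  rw [h1, ENNReal.tsum_prod']
  refine (ENNReal.tsum_le_tsum fun p => ?_).trans hs
  by_cases hp : R p.1 p.2
  · rw [if_pos hp]
    have hex := (hB p).1 hp
    rw [tsum_eq_single (Nat.find hex)]
    · unfold g
      split_ifs
      · exact le_rfl
      · exact zero_le
    · intro t ht
      unfold g
      rw [if_neg]
      rintro ⟨h2, h3⟩
      rcases lt_or_gt_of_ne ht with h | h
      · exact Nat.find_min hex h h2
      · exact h3 ⟨Nat.find hex, List.mem_range.2 h, Nat.find_spec hex⟩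
  · rw [if_neg hp]
    refine le_of_eq (ENNReal.tsum_eq_zero.2 fun t => ?_)
    unfold g
    rw [if_neg]
    rintro ⟨h2, -⟩
    exact hp ((hB p).2 ⟨t, h2⟩)

end Cd

open Classical in
theorem coding {U : List Bool →. ℕ} (hU : IsOptimal ∅ U) {R : List Bool → ℕ → Prop}
    (hR : Sig1 fun p : List Bool × ℕ => R p.1 p.2)
    (hs : ∑' p : List Bool × ℕ, (if R p.1 p.2 then (1 / 2 : ℝ≥0∞) ^ p.2 else 0) ≤ 1) :
    ∃ c, ∀ σ k, R σ k → KS U σ ≤ k + c := by
  obtain ⟨B, hBp, hB⟩ := primrec_nf hR
  have hpw : ∀ n, pw (Cd.HL B n) ≤ 2 := by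
    intro n
    have h1 := Cd.sum_g_le hB hs n
    rw [← Cd.pw_HL, ← ENNReal.ofReal_one, ENNReal.ofReal_le_ofReal_iff (by norm_num)] at h1
    have h2 : pw (Cd.HL B n) ≤ 1 := by exact_mod_cast h1
    linarith
  obtain ⟨M, hM, hM2⟩ := exists_machine (fun σ => Cd.HL B σ.length)
    ((Cd.primrec_HL hBp).comp Primrec.list_length).to_comp
    (fun σ τ h => Cd.HL_prefix B h.length_le) (fun σ => hpw _) ∅
  obtain ⟨c₁, hc₁⟩ := hU.simulates M hM
  refine ⟨c₁ + 2, fun σ k hσ => ?_⟩
  have hex := (hB (σ, k)).1 hσ
  have hF : Cd.First B ((σ, k), Nat.find hex) := by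
    refine ⟨Nat.find_spec hex, ?_⟩
    rintro ⟨t, ht, h2⟩
    exact Nat.find_min hex (List.mem_range.1 ht) h2
  set i := encode ((σ, k), Nat.find hex) with hi
  have hof : decode (α := (List Bool × ℕ) × ℕ) i = some ((σ, k), Nat.find hex) := by
    rw [hi, encodek]
  have hmem : (List.replicate k false, encode σ) ∈ Cd.HL B (i + 1) := by
    unfold Cd.HL
    rw [List.mem_filterMap]
    refine ⟨i, List.mem_range.2 (Nat.lt_succ_self i), ?_⟩
    unfold Cd.item
    rw [hof, Option.bind_some, if_pos ⟨hi.symm, hF⟩]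
  obtain ⟨τ, hτ1, hτ2⟩ := hM2 (i + 1) (List.replicate k false, encode σ) (by
    rw [pre_length]
    exact hmem)
  dsimp only at hτ1 hτ2
  obtain ⟨ρ, hρ1, hρ2⟩ := hc₁ _ _ hτ1
  have h1 : KS U σ ≤ ρ.length := KRed.KC_le hρ1
  rw [List.length_replicate] at hτ2
  omega

end KExp
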