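import Pool.Agent.KRed.Sch1
import Pool.Agent.Hhelper54.AC.PreK
import Pool.Agent.Hhelper54.AC.Kcm

/-!
# KExp (MP_f87d4f_lc): the finite form of Q1 with the error term `0.95 log N`

THEOREM (Main.lean). For every optimal prefix-free machine there is `c` such that for every string
`τ` some string `σ` of the same length `N` satisfies `n ≤ K(σ↾n) + c` and
`K(τ↾n) ≤ K(σ↾n) + 0.95 log N + c` for all `n ≤ N`.

PROOF. Strings of length `2q` are pairs `z = (a, b)`, `a, b < 2^q` (`str`: interleaved binary
digits, the least digits first); `str k z` is the initial segment of length `2k`. The eight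
Gabber-Galil maps `gen` (`a ± 2b (± 1)`, `b ± 2a (± 1)` modulo `2^q`) act on the pairs and respect
initial segments. Their sum has norm `≤ 7.3` on the functions with sum `0` (`Gap`, `Norm`).
`P = D` is the set of the pairs `z` with `K(str k z) ≤ 2k - 2` for some `k`: at most a quarter of
all pairs (`Small`, Kraft). For words `w` of length `i`: `Dist l z` says that at least half of the
pairs `(w, y)`, `y` an extension of `str l z`, have `act w y ∈ P`. By the norm bound and the
maximal inequality (`Maxi`) at most `4 (7.3/8)^(2i)` of all `z` have `Dist l z` for some `l`.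
Hosts (`Host`): every `z` has `z' ∉ P` such that for each `k` either `str k z' = str k (act w z)`
for some `w`, or `Dist l z` for some `l ≤ k` (`Bad`). So it suffices to code: `str k z` with
`K(str k (act w z)) + e i` bits, and with `2k + e i` bits if `Bad`. With `q = 9^i` and
`e i = 3 i + i / 512 + 20` the weight of these requests is `≤ 1` (`Wt`); they are computably
enumerable (`Sig`), so the coding theorem (`Code`) applies.
-/

set_option autoImplicit false

namespace KExp

open KRed

/-- interleaved binary digits of two numbers, `2 k` bits, the least digits first -/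
def str : ℕ → ℕ × ℕ → List Bool
  | 0, _ => []
  | k + 1, p => decide (p.1 % 2 = 1) :: decide (p.2 % 2 = 1) :: str k (p.1 / 2, p.2 / 2)

/-- indices of the eight maps -/
abbrev G : Type := Bool × Bool × Bool

/-- `a + 2 b`, `a + 2 b + 1`, `a - 2 b`, `a - 2 b - 1` modulo `M` -/
def sh (M : ℕ) (inv one : Bool) (a b : ℕ) : ℕ :=
  bif inv then (a + 2 * (M - b % M) + (bif one then M - 1 else 0)) % M
  else (a + 2 * b + (bif one then 1 else 0)) % M

/-- the eight maps on pairs of numbers modulo `M` -/
def gen (M : ℕ) (g : G) (z : ℕ × ℕ) : ℕ × ℕ :=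
  bif g.2.2 then (z.1, sh M g.1 g.2.1 z.2 z.1) else (sh M g.1 g.2.1 z.1 z.2, z.2)

/-- words act on pairs -/
def act (M : ℕ) (w : List G) (z : ℕ × ℕ) : ℕ × ℕ := w.foldr (gen M) z

/-- the same maps in a ring -/
def shR {R : Type*} [CommRing R] (inv one : Bool) (a b : R) : R :=
  bif inv then a - 2 * b - (bif one then 1 else 0) else a + 2 * b + (bif one then 1 else 0)

/-- the eight maps in a ring -/
def genR {R : Type*} [CommRing R] (g : G) (z : R × R) : R × R :=
  bif g.2.2 then (z.1, shR g.1 g.2.1 z.2 z.1) else (shR g.1 g.2.1 z.1 z.2, z.2)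

/-- words act on pairs of elements of a ring -/
def actR {R : Type*} [CommRing R] (w : List G) (z : R × R) : R × R := w.foldr genR z

/-- the words of length `i` -/
def words : ℕ → Finset (List G)
  | 0 => {[]}
  | i + 1 => (Finset.univ ×ˢ words i).image fun p : G × List G => p.1 :: p.2

/-- the pairs of numbers `< M` -/
def box (M : ℕ) : Finset (ℕ × ℕ) := Finset.range M ×ˢ Finset.range M

open Classical in
/-- number of the pairs (word of length `i`, extension `y` of `str l z`) which are mapped in `P` -/
noncomputable def cnt (P : ℕ × ℕ → Prop) (q i l : ℕ) (z : ℕ × ℕ) : ℕ :=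
  ((words i ×ˢ box (2 ^ q)).filter fun x : List G × (ℕ × ℕ) =>
    str l x.2 = str l z ∧ P (act (2 ^ q) x.1 x.2)).card

/-- at least half of the pairs (word, extension of `str l z`) are mapped in `P` -/
def Dist (P : ℕ × ℕ → Prop) (q i l : ℕ) (z : ℕ × ℕ) : Prop :=
  8 ^ i * 4 ^ (q - l) ≤ 2 * cnt P q i l z

/-- `Dist` at some level `≤ k` -/
def Bad (P : ℕ × ℕ → Prop) (q i k : ℕ) (z : ℕ × ℕ) : Prop := ∃ l ≤ k, Dist P q i l z

/-- pairs with a compressible initial segment -/
def D (U : List Bool →. ℕ) (q : ℕ) (z : ℕ × ℕ) : Prop := ∃ k ≤ q, KS U (str k z) + 2 ≤ 2 * k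

/-- the error term -/
def e (i : ℕ) : ℕ := 3 * i + i / 512 + 20

/-- the requests of scale `i` -/
def V (U : List Bool →. ℕ) (i : ℕ) (σ : List Bool) (κ : ℕ) : Prop :=
  ∃ k ≤ 9 ^ i, ∃ z ∈ box (2 ^ 9 ^ i), str k z = σ ∧
    ((∃ w ∈ words i, KS U (str k (act (2 ^ 9 ^ i) w z)) + e i ≤ κ) ∨
      (Bad (D U (9 ^ i)) (9 ^ i) i k z ∧ 2 * k + e i ≤ κ))

/-- the requests -/
def Rq (U : List Bool →. ℕ) (σ : List Bool) (κ : ℕ) : Prop := ∃ i, V U i σ κ

end KExp
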