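import Pool.Agent.KExp.FDefs

/-!
# Base pairs: lengths, numbers

Never let Lean evaluate `qq J` at a numeral.
-/

set_option autoImplicit false

namespace KExp

open KRed

private theorem fbas_aa_lt (J : ℕ) : aa J < aa (J + 1) := by
  unfold aa
  exact Nat.pow_lt_pow_right (by norm_num) (Nat.lt_succ_self _)

private theorem fbas_aa_eq (J : ℕ) : aa J / 10 = 100 * 1000 ^ J := by
  have h : aa J = 10 * (100 * 1000 ^ J) := by
    unfold aa
    rw [pow_succ]
    ring
  rw [h]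
  exact Nat.mul_div_cancel_left _ (by norm_num)

theorem qq_pos (J : ℕ) : 0 < qq J := by
  unfold qq
  exact Nat.pow_pos (by norm_num)

theorem qq_lt (J : ℕ) : qq J < qq (J + 1) := by
  unfold qq
  refine Nat.pow_lt_pow_right (by norm_num) ?_
  have := fbas_aa_lt J
  omega

theorem qq_mono {I J : ℕ} (h : I ≤ J) : qq I ≤ qq J := by
  induction J, h using Nat.le_induction with
  | base => exact le_rfl
  | succ J _ ih => exact ih.trans (qq_lt J).le

theorem le_qq (J : ℕ) : J ≤ qq J := by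
  induction J with
  | zero => exact Nat.zero_le _
  | succ J ih => exact Nat.succ_le_of_lt (lt_of_le_of_lt ih (qq_lt J))

theorem Pr_len {J : ℕ} {v τ : List Bool} (h : Pr J v τ) :
    ∃ b ≤ qq J, v.length = 2 * b ∧ τ.length = 2 * b := by
  induction h with
  | nil => exact ⟨0, Nat.zero_le _, rfl, rfl⟩
  | @full J v τ w y h hw hy ih =>
    obtain ⟨b, hb, h1, h2⟩ := ih
    have h3 := qq_lt J
    refine ⟨qq (J + 1), le_rfl, ?_, ?_⟩
    · rw [List.length_append, length_str, h1]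
      unfold qr
      omega
    · rw [List.length_append, length_str, h2]
      unfold qr
      omega
  | @part J l v τ w y h hw hy hl ih =>
    obtain ⟨b, hb, h1, h2⟩ := ih
    have h3 := qq_lt J
    have h4 := qq_lt (J + 1)
    unfold qr at hl
    refine ⟨b + l, ?_, ?_, ?_⟩
    · have h5 : qq (J + 2) = qq (J + 1 + 1) := rfl
      omega
    · rw [List.length_append, length_str, h1]
      omega
    · rw [List.length_append, length_str, h2]
      omega

theorem mem_PF {J : ℕ} {x : List Bool × List Bool} : x ∈ PF J ↔ Pr J x.1 x.2 := by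
  classical
  unfold PF
  rw [Finset.mem_filter, Finset.mem_product, Finset.mem_biUnion, Finset.mem_biUnion]
  refine ⟨fun h => h.2, fun h => ⟨?_, h⟩⟩
  obtain ⟨b, hb, h1, h2⟩ := Pr_len h
  refine ⟨⟨2 * b, ?_, mem_bs.2 h1⟩, ⟨2 * b, ?_, mem_bs.2 h2⟩⟩
  · rw [Finset.mem_range]
    omega
  · rw [Finset.mem_range]
    omega

theorem num_jj (J : ℕ) : 2 * jj J + 6 ≤ aa J / 10 := by
  rw [fbas_aa_eq]
  unfold jj
  have h1 : 2 ^ J ≤ 1000 ^ J := Nat.pow_le_pow_left (by norm_num) J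
  have h2 : 1 ≤ 2 ^ J := Nat.one_le_two_pow
  omega

theorem jj_succ (J : ℕ) : 2 * jj J + 4 = jj (J + 1) := by
  unfold jj
  rw [pow_succ]
  have h2 : 1 ≤ 2 ^ J := Nat.one_le_two_pow
  omega

theorem jj_le (J : ℕ) : jj J ≤ jj (J + 1) := by
  rw [← jj_succ]
  omega

theorem num_aa (J : ℕ) : 48 * aa (J + 2) + 1 ≤ 2 ^ (aa J / 10) := by
  rw [fbas_aa_eq]
  have h1 : aa (J + 2) = 1000000000 * 1000 ^ J := by
    unfold aa
    rw [show J + 2 + 1 = J + 3 from rfl, pow_add]
    ring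
  rw [h1]
  obtain ⟨x, hx⟩ : ∃ x, x = 1000 ^ J := ⟨_, rfl⟩
  have hx1 : 1 ≤ x := by
    rw [hx]
    exact Nat.one_le_pow _ _ (by norm_num)
  rw [← hx]
  obtain ⟨z, rfl⟩ : ∃ z, x = z + 1 := ⟨x - 1, by omega⟩
  have h2 : 2 ^ (100 * (z + 1)) = 2 ^ 100 * 2 ^ (100 * z) := by
    rw [← pow_add]
    congr 1
    ring
  have h3 : z + 1 ≤ 2 ^ (100 * z) := by
    have h4 : z < 2 ^ z := Nat.lt_two_pow_self
    have h5 : 2 ^ z ≤ 2 ^ (100 * z) := Nat.pow_le_pow_right (by norm_num) (by omega)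
    omega
  rw [h2]
  calc 48 * (1000000000 * (z + 1)) + 1 ≤ 2 ^ 100 * (z + 1) := by norm_num; omega
    _ ≤ 2 ^ 100 * 2 ^ (100 * z) := Nat.mul_le_mul_left _ h3

end KExp
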