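import Pool.Agent.KExp.CBas

/-!
# The full version: definitions

THEOREM (FMain.lean). Every set `A` has a 1-random `B` (even `n ≤ K(B↾n) + 1`) with
`K(A↾n) ≤ K(B↾n) + (1 - 10^(-9)) log n + c` for ALL `n`, `c` independent of `A`.

PROOF. Lengths are counted in pairs of bits: level `k` = strings of length `2k`. Ranges: range `J`
consists of the levels `k`, `qq J < k ≤ qq (J+1)`, where `qq J = 2^(48 aa J)`, `aa J = 1000^(J+1)`.
Words of length `tt J = 4 aa J` are used in range `J`.

Base pairs `Pr J v τ`: `v` (initial segment of `A`), `τ` (initial segment of `B`), of the same level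
`b ≤ qq J`. A fixed finite set of pairs for every `J`, it does not depend on the complexities:
* `Pr 0 [] []`;
* from a base pair `(v, τ)` of range `J` with level `b`, `q = qq (J+1) - b`, a word `w` of length
  `tt J` and `y` in the box: `(v ++ str q y, τ ++ str q (act w y))` is a base pair of range `J + 1`
  (full step), `(v ++ str l y, τ ++ str l (act w y))`, `l ≤ q`, is a base pair of range `J + 2`
  (partial step; the range `J + 1` is skipped).
LOAD (`card_prefix`): at most `2^(aa J / 10)` base pairs `(v, τ)` of range `J` have `τ` as an initial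
segment of a given string (each full step multiplies by `8^(tt J)`, a partial step by
`8^(tt J) (qq (J+1) + 1)`, which is nothing compared with `qq (J+2)`).

Requests for range `J`: (RF1) for base pairs `(v, τ)` of range `J`: `v ++ str k' y` gets
`K(τ ++ str k' (act w y)) + ee` bits. (RF2) if `y` is bad at level `k'` for `τ` (at some stage at
which `τ` looks live, as in the cone version, `BCg`) then all extensions `ρ` of `v ++ str k' y` up to
the level `qq (J+2)` get `|ρ| + ee` bits. Here `ee k = log k - log k / 10^9`. The weight of RF1 is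
`≤ 2^(aa J / 10) · 8^(tt J) · 2 · 2^(-ee)`, of RF2
`≤ 2^(aa J / 10) · 4^(jj J + 3) (5329/6400)^(tt J) · 2 ∑_{k ≤ qq (J+2)} 2^(-ee k)`.

Hosts. Invariant `(v, τ)` of range `J`, level `b`: `v` = `A` up to `b`, `τ` is live with parameter
`jj J`; for `k ≤ b` `K(A↾2k) ≤ K(τ↾2k) + ee k + c + 1`; for `b < k ≤ qq J`
`K(A↾2k) ≤ 2k + ee k + c`. Step: `exists_base` gives a level `l ≤ q` and a word `w` such that
`τ' = τ ++ str l (act w y)` is live with parameter `2 jj J + 4 = jj (J+1)` and `y` is bad for all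
levels `k > l`. If `l = q` use the full step, if `l < q` the partial step: the levels from `b + l + 1`
up to `qq (J+2)` are covered by RF2 (or they are `≤ qq J` and were covered before).
-/

set_option autoImplicit false

namespace KExp

open KRed

/-- units -/
def aa (J : ℕ) : ℕ := 1000 ^ (J + 1)

/-- the end of range `J - 1` (never evaluate) -/
def qq (J : ℕ) : ℕ := 2 ^ (48 * aa J)

/-- length of the words in range `J` -/
def tt (J : ℕ) : ℕ := 4 * aa J

/-- parameter of liveness -/
def jj (J : ℕ) : ℕ := 4 * (2 ^ J - 1)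

/-- the error term -/
def ee (k : ℕ) : ℕ := Nat.log 2 k - Nat.log 2 k / 10 ^ 9

/-- the number of levels from the base `v` to the end of range `J` -/
def qr (J : ℕ) (v : List Bool) : ℕ := qq (J + 1) - v.length / 2

/-- the base pairs -/
inductive Pr : ℕ → List Bool → List Bool → Prop
  | nil : Pr 0 [] []
  | full {J : ℕ} {v τ : List Bool} {w : List G} {y : ℕ × ℕ} (h : Pr J v τ)
      (hw : w ∈ words (tt J)) (hy : y ∈ box (2 ^ qr J v)) :
      Pr (J + 1) (v ++ str (qr J v) y) (τ ++ str (qr J v) (act (2 ^ qr J v) w y))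
  | part {J l : ℕ} {v τ : List Bool} {w : List G} {y : ℕ × ℕ} (h : Pr J v τ)
      (hw : w ∈ words (tt J)) (hy : y ∈ box (2 ^ qr J v)) (hl : l ≤ qr J v) :
      Pr (J + 2) (v ++ str l y) (τ ++ str l (act (2 ^ qr J v) w y))

open Classical in
/-- the finite set of the base pairs -/
noncomputable def PF (J : ℕ) : Finset (List Bool × List Bool) :=
  (((Finset.range (2 * qq J + 1)).biUnion bs) ×ˢ ((Finset.range (2 * qq J + 1)).biUnion bs)).filter
    fun x => Pr J x.1 x.2

/-- bad at some stage at which `τ` looks live -/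
def BCg (R : List Bool × ℕ → ℕ → Bool) (τ : List Bool) (j i q k : ℕ) (z : ℕ × ℕ) : Prop :=
  ∃ t, Lv R (2 * q + t) j τ ∧ BadS (PC R τ j q t) q i (j + 3) k z

/-- requests of the first kind -/
def RF1 (U : List Bool →. ℕ) (J : ℕ) (ρ : List Bool) (κ : ℕ) : Prop :=
  ∃ (v τ : List Bool) (w : List G) (y : ℕ × ℕ) (k : ℕ), Pr J v τ ∧ w ∈ words (tt J) ∧
    y ∈ box (2 ^ qr J v) ∧ k ≤ qr J v ∧ ρ = v ++ str k y ∧ 2 * qq J < ρ.length ∧
    KS U (τ ++ str k (act (2 ^ qr J v) w y)) + ee (ρ.length / 2) ≤ κ

/-- requests of the second kind -/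
def RF2 (R : List Bool × ℕ → ℕ → Bool) (J : ℕ) (ρ : List Bool) (κ : ℕ) : Prop :=
  ∃ (v τ : List Bool) (y : ℕ × ℕ) (k : ℕ), Pr J v τ ∧ y ∈ box (2 ^ qr J v) ∧ k ≤ qr J v ∧
    BCg R τ (jj J) (tt J) (qr J v) k y ∧ v ++ str k y <+: ρ ∧
    2 * qq J < ρ.length ∧ ρ.length ≤ 2 * qq (J + 2) ∧ ρ.length % 2 = 0 ∧
    ρ.length + ee (ρ.length / 2) ≤ κ

/-- all requests -/
def RF (U : List Bool →. ℕ) (R : List Bool × ℕ → ℕ → Bool) (ρ : List Bool) (κ : ℕ) : Prop :=
  ∃ J, RF1 U J ρ κ ∨ RF2 R J ρ κ

end KExp
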