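import Pool.Agent.KExp.CMk
import Pool.Agent.KExp.FDefs

/-!
# A new base

Paper proof of `exists_base`. Choose a stage `t` as `exists_stage` in CMain.lean: on the box
`¬ Live R (j+1) (τ ++ str q y) → PC R τ j q t y`. Put `P = PC R τ j q t`, `s = j + 3`;
`2^s |P| ≤ (2^s - 2) 4^q` (`markov (hl _)`). `DistS P q i s 0 z` fails (`cnt = 8^i |P|`, see
CHost.lean). Let `l ≤ q` be maximal such that `DistS P q i s l'` fails for all `l' ≤ l`; then
`BadS P q i s k z` for `l < k ≤ q`. As `DistS .. l` fails, the number of the pairs `(w, y)` with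
`w ∈ words i`, `y` in the box, `str l y = str l z`, `¬ P (act w y)`, is `> 2^(-s) 8^i 4^(q-l)`
(`8^i 4^(q-l) - cnt`), so for some `w` at least `2^(-s) 4^(q-l)` of the `y` have
`¬ P (act w y)`, so `τ ++ str q (act w y)` is live for `j + 1`. They extend
`τ' = τ ++ str l (act w z)` (`act_str`). For every stage `T`:
`un R T (2(q-l) + T) τ' ≥ ∑_y un R T T (τ ++ str q (act w y)) ≥ 2^(-s) 4^(q-l) 2^T 2^(-j-2)`, and
`un R T (T + 2(q-l)) τ' ≤ 4^(q-l) un R T T τ'` (`un_ext_le` in CBas.lean), so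
`2^T ≤ 2^(2j+5) un R T T τ'`: `Lv R T (2j+4) τ'`.
-/

set_option autoImplicit false

namespace KExp

open KRed AC Low4

variable {R : List Bool × ℕ → ℕ → Bool}

theorem Live_mono {j j' : ℕ} (h : j ≤ j') {u : List Bool} (hl : Live R j u) : Live R j' u := by
  intro t
  have h1 := hl t
  unfold Lv at h1 ⊢
  exact h1.trans (Nat.mul_le_mul_right _ (Nat.pow_le_pow_right (by norm_num) (by omega)))

private theorem fb_stage (τ : List Bool) (j q : ℕ) : ∃ t, ∀ y ∈ box (2 ^ q),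
    ¬ Live R (j + 1) (τ ++ str q y) → PC R τ j q t y := by
  classical
  have h : ∀ y : ℕ × ℕ, ∃ t, ¬ Live R (j + 1) (τ ++ str q y) → PC R τ j q t y := by
    intro y
    by_cases hy : Live R (j + 1) (τ ++ str q y)
    · exact ⟨0, fun h => absurd hy h⟩
    · have h1 := hy
      unfold Live at h1
      push Not at h1
      obtain ⟨t, ht⟩ := h1
      exact ⟨t, fun _ => ht⟩
  choose t ht using h
  refine ⟨(box (2 ^ q)).sup t, fun y hy hl => ?_⟩
  exact fun h => ht y hl (Lv_anti (Finset.le_sup (f := t) hy) h)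

open Classical in
private theorem fb_dist0 {P : ℕ × ℕ → Prop} {q i s : ℕ} (hs : 1 ≤ s)
    (hP : 2 ^ s * ((box (2 ^ q)).filter P).card ≤ (2 ^ s - 2) * 4 ^ q) (z : ℕ × ℕ) :
    ¬ DistS P q i s 0 z := by
  have h2 : cnt P q i 0 z ≤ 8 ^ i * ((box (2 ^ q)).filter P).card := by
    rw [← card_words i, ← Finset.card_product]
    unfold cnt
    apply Finset.card_le_card_of_injOn (fun x : List G × (ℕ × ℕ) => (x.1, act (2 ^ q) x.1 x.2))
    · rintro ⟨w, y⟩ hx
      rw [SetLike.mem_coe, Finset.mem_filter, Finset.mem_product] at hx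
      rw [SetLike.mem_coe, Finset.mem_product, Finset.mem_filter]
      exact ⟨hx.1.1, act_mem w hx.1.2, hx.2.2⟩
    · rintro ⟨w, y⟩ hx ⟨w', y'⟩ hx' hxx
      rw [SetLike.mem_coe, Finset.mem_filter, Finset.mem_product] at hx hx'
      simp only [Prod.mk.injEq] at hxx
      obtain ⟨rfl, h3⟩ := hxx
      have h4 : y = y' := eq_of_str hx.1.2 hx'.1.2
        ((act_str le_rfl w).1 (congrArg (str q) h3))
      rw [h4]
  unfold DistS
  intro h3
  rw [Nat.sub_zero] at h3
  have h4 : 0 < 8 ^ i * 4 ^ q := by positivity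
  have h5 : 2 ^ s * cnt P q i 0 z ≤ (2 ^ s - 2) * (8 ^ i * 4 ^ q) :=
    calc 2 ^ s * cnt P q i 0 z ≤ 2 ^ s * (8 ^ i * ((box (2 ^ q)).filter P).card) :=
          Nat.mul_le_mul_left _ h2
      _ = 8 ^ i * (2 ^ s * ((box (2 ^ q)).filter P).card) := by ring
      _ ≤ 8 ^ i * ((2 ^ s - 2) * 4 ^ q) := Nat.mul_le_mul_left _ hP
      _ = (2 ^ s - 2) * (8 ^ i * 4 ^ q) := by ring
  have h6 : 2 ≤ 2 ^ s := by
    calc 2 = 2 ^ 1 := rfl
      _ ≤ 2 ^ s := Nat.pow_le_pow_right (by norm_num) hs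
  have h7 : 2 ^ s - 1 ≤ 2 ^ s - 2 := Nat.le_of_mul_le_mul_right (h3.trans h5) h4
  omega

open Classical in
/-- some word maps many extensions outside `P` -/
private theorem fb_word {P : ℕ × ℕ → Prop} {q i s l : ℕ} (hlq : l ≤ q) {z : ℕ × ℕ}
    (h : ¬ DistS P q i s l z) : ∃ w ∈ words i,
      4 ^ (q - l) ≤ 2 ^ s * ((box (2 ^ q)).filter fun y =>
        str l y = str l z ∧ ¬ P (act (2 ^ q) w y)).card := by
  by_contra hcon
  push Not at hcon
  apply h
  have h1 : ∀ w ∈ words i, ((box (2 ^ q)).filter fun y =>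
      str l y = str l z ∧ P (act (2 ^ q) w y)).card + ((box (2 ^ q)).filter fun y =>
      str l y = str l z ∧ ¬ P (act (2 ^ q) w y)).card = 4 ^ (q - l) := by
    intro w _
    rw [← card_cyl hlq z, ← Finset.card_filter_add_card_filter_not
      (s := (box (2 ^ q)).filter fun y => str l y = str l z) (fun y => P (act (2 ^ q) w y)),
      Finset.filter_filter, Finset.filter_filter]
  have h2 : cnt P q i l z = ∑ w ∈ words i, ((box (2 ^ q)).filter fun y =>
      str l y = str l z ∧ P (act (2 ^ q) w y)).card := by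
    unfold cnt
    rw [Finset.card_filter, Finset.sum_product]
    refine Finset.sum_congr rfl fun w _ => ?_
    rw [Finset.card_filter]
  unfold DistS
  rw [h2, Finset.mul_sum]
  have h3 : (2 ^ s - 1) * (8 ^ i * 4 ^ (q - l)) = ∑ w ∈ words i, (2 ^ s - 1) * 4 ^ (q - l) := by
    rw [Finset.sum_const, card_words, smul_eq_mul]
    ring
  rw [h3]
  refine Finset.sum_le_sum fun w hw => ?_
  have h4 := h1 w hw
  have h5 := hcon w hw
  set a := ((box (2 ^ q)).filter fun y => str l y = str l z ∧ P (act (2 ^ q) w y)).card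
  set b := ((box (2 ^ q)).filter fun y => str l y = str l z ∧ ¬ P (act (2 ^ q) w y)).card
  have h6 : (2 ^ s - 1) * 4 ^ (q - l) = 2 ^ s * 4 ^ (q - l) - 4 ^ (q - l) := by
    rw [Nat.sub_mul, one_mul]
  rw [h6, ← h4, Nat.mul_add]
  rw [← h4] at h5
  omega

/-- the new base is live -/
private theorem fb_live {q s l j : ℕ} {τ : List Bool} {w : List G}
    (hlq : l ≤ q) {z : ℕ × ℕ} {Y : Finset (ℕ × ℕ)} (hY : ∀ y ∈ Y, y ∈ box (2 ^ q) ∧
      str l y = str l z ∧ Live R (j + 1) (τ ++ str q (act (2 ^ q) w y)))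
    (hs : s = j + 3) (hc : 4 ^ (q - l) ≤ 2 ^ s * Y.card) :
    Live R (2 * j + 4) (τ ++ str l (act (2 ^ q) w z)) := by
  classical
  intro T
  obtain ⟨a, ha⟩ : ∃ a, a = 2 * (q - l) := ⟨_, rfl⟩
  obtain ⟨v, hv⟩ : ∃ v : ℕ × ℕ → List Bool, v = fun y => (str q (act (2 ^ q) w y)).drop (2 * l) :=
    ⟨_, rfl⟩
  have hsplit : ∀ y ∈ Y, str q (act (2 ^ q) w y) = str l (act (2 ^ q) w z) ++ v y := by
    intro y hy
    have h1 : str l (act (2 ^ q) w y) = str l (act (2 ^ q) w z) :=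
      (act_str hlq w).2 (hY y hy).2.1
    rw [← h1, ← take_str hlq (act (2 ^ q) w y), hv]
    exact (List.take_append_drop _ _).symm
  have hvm : ∀ y ∈ Y, v y ∈ bs a := by
    intro y _
    rw [mem_bs, hv, List.length_drop, length_str, ha]
    omega
  have hinj : Set.InjOn v Y := by
    intro y hy y' hy' h
    have h1 : str q (act (2 ^ q) w y) = str q (act (2 ^ q) w y') := by
      rw [hsplit y hy, hsplit y' hy', h]
    exact eq_of_str (hY y hy).1 (hY y' hy').1 ((act_str le_rfl w).1 h1)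
  have h1 : ∑ y ∈ Y, un R T T (τ ++ str q (act (2 ^ q) w y)) ≤
      un R T (a + T) (τ ++ str l (act (2 ^ q) w z)) := by
    rw [un_add_bs]
    calc ∑ y ∈ Y, un R T T (τ ++ str q (act (2 ^ q) w y))
        = ∑ y ∈ Y, un R T T ((τ ++ str l (act (2 ^ q) w z)) ++ v y) := by
          refine Finset.sum_congr rfl fun y hy => ?_
          rw [hsplit y hy, List.append_assoc]
      _ = ∑ s ∈ Y.image v, un R T T ((τ ++ str l (act (2 ^ q) w z)) ++ s) := by
          rw [Finset.sum_image]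
          exact fun y hy y' hy' h => hinj hy hy' h
      _ ≤ _ := by
          refine Finset.sum_le_sum_of_subset fun s hs => ?_
          rw [Finset.mem_image] at hs
          obtain ⟨y, hy, rfl⟩ := hs
          exact hvm y hy
  have h2 : Y.card * 2 ^ T ≤ 2 ^ (j + 2) * ∑ y ∈ Y, un R T T (τ ++ str q (act (2 ^ q) w y)) := by
    rw [Finset.mul_sum, ← smul_eq_mul (Y.card) (2 ^ T)]
    refine Finset.card_nsmul_le_sum _ _ _ fun y hy => ?_
    exact (hY y hy).2.2 T
  have h3 : un R T (a + T) (τ ++ str l (act (2 ^ q) w z)) ≤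
      2 ^ a * un R T T (τ ++ str l (act (2 ^ q) w z)) := by
    rw [Nat.add_comm a T]
    exact un_ext_le T T a _
  have e1 : 4 ^ (q - l) = 2 ^ a := by
    rw [ha, pow_mul]
    norm_num
  have h4 : 2 ^ a * 2 ^ T ≤ 2 ^ a * (2 ^ (2 * j + 4 + 1) *
      un R T T (τ ++ str l (act (2 ^ q) w z))) := by
    calc 2 ^ a * 2 ^ T ≤ (2 ^ s * Y.card) * 2 ^ T := by
          rw [← e1]; exact Nat.mul_le_mul_right _ hc
      _ = 2 ^ s * (Y.card * 2 ^ T) := by ring
      _ ≤ 2 ^ s * (2 ^ (j + 2) * ∑ y ∈ Y, un R T T (τ ++ str q (act (2 ^ q) w y))) :=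
          Nat.mul_le_mul_left _ h2
      _ ≤ 2 ^ s * (2 ^ (j + 2) * (2 ^ a * un R T T (τ ++ str l (act (2 ^ q) w z)))) :=
          Nat.mul_le_mul_left _ (Nat.mul_le_mul_left _ (h1.trans h3))
      _ = 2 ^ a * (2 ^ (2 * j + 4 + 1) * un R T T (τ ++ str l (act (2 ^ q) w z))) := by
          have e2 : 2 ^ (2 * j + 4 + 1) = 2 ^ s * 2 ^ (j + 2) := by
            rw [← pow_add, hs]
            congr 1
            omega
          rw [e2]
          ring
  exact Nat.le_of_mul_le_mul_left h4 (by positivity)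

theorem exists_base {j i q : ℕ} {τ : List Bool} (hl : Live R j τ) {z : ℕ × ℕ}
    (hz : z ∈ box (2 ^ q)) : ∃ l ≤ q, ∃ w ∈ words i,
    Live R (2 * j + 4) (τ ++ str l (act (2 ^ q) w z)) ∧
      ∀ k, l < k → k ≤ q → BCg R τ j i q k z := by
  classical
  obtain ⟨t, ht⟩ := fb_stage (R := R) τ j q
  have h0 : ¬ DistS (PC R τ j q t) q i (j + 3) 0 z := fb_dist0 (by omega) (markov (hl _)) z
  have fin : ∀ l ≤ q, ¬ DistS (PC R τ j q t) q i (j + 3) l z →
      (∀ k, l < k → k ≤ q → BadS (PC R τ j q t) q i (j + 3) k z) →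
      ∃ l ≤ q, ∃ w ∈ words i, Live R (2 * j + 4) (τ ++ str l (act (2 ^ q) w z)) ∧
        ∀ k, l < k → k ≤ q → BCg R τ j i q k z := by
    intro l hlq hD hB
    obtain ⟨w, hw, hc⟩ := fb_word hlq hD
    refine ⟨l, hlq, w, hw, ?_, fun k hk hk' => ⟨t, hl _, hB k hk hk'⟩⟩
    refine fb_live hlq (fun y hy => ?_) rfl hc
    rw [Finset.mem_filter] at hy
    refine ⟨hy.1, hy.2.1, ?_⟩
    by_contra hcon
    exact hy.2.2 (ht _ (act_mem w hy.1) hcon)
  by_cases hex : ∃ l, l ≤ q ∧ DistS (PC R τ j q t) q i (j + 3) l z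
  · obtain ⟨hl1, hlD⟩ := Nat.find_spec hex
    have hl0 : Nat.find hex ≠ 0 := by
      intro h
      rw [h] at hlD
      exact h0 hlD
    obtain ⟨m, hm⟩ := Nat.exists_eq_succ_of_ne_zero hl0
    have hmq : m ≤ q := by omega
    have hmD : ¬ DistS (PC R τ j q t) q i (j + 3) m z := by
      intro h
      exact Nat.find_min hex (m := m) (by omega) ⟨hmq, h⟩
    exact fin m hmq hmD fun k hk _ => ⟨Nat.find hex, by omega, hlD⟩
  · push Not at hex
    exact fin q le_rfl (hex q le_rfl) fun k hk hk' => absurd hk (by omega)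

end KExp
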