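import Pool.Agent.KExp.CCard
import Pool.Agent.KExp.FBas

/-!
# The number of bad pairs, all stages together; as `card_BC` in CCard.lean with `q` for `9 ^ i`
-/

set_option autoImplicit false

namespace KExp

open KRed AC Low4

variable {R : List Bool × ℕ → ℕ → Bool}

private theorem fcard_PC_mono {τ : List Bool} {j q t t' : ℕ} (h : t ≤ t') {y : ℕ × ℕ}
    (hy : PC R τ j q t y) : PC R τ j q t' y :=
  fun hl => hy (Lv_anti h hl)

open Classical in
private theorem fcard_BadS_mono {P Q : ℕ × ℕ → Prop} (h : ∀ y, P y → Q y) {q i s k : ℕ}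
    {z : ℕ × ℕ} (hb : BadS P q i s k z) : BadS Q q i s k z := by
  obtain ⟨l, hl, hd⟩ := hb
  refine ⟨l, hl, ?_⟩
  unfold DistS at hd ⊢
  refine hd.trans (Nat.mul_le_mul_left _ ?_)
  unfold cnt
  refine Finset.card_le_card fun x hx => ?_
  rw [Finset.mem_filter] at hx ⊢
  exact ⟨hx.1, hx.2.1, h _ hx.2.2⟩

private theorem fcard_cnt_congr (P : ℕ × ℕ → Prop) (q i l : ℕ) {z z' : ℕ × ℕ}
    (h : str l z = str l z') : cnt P q i l z = cnt P q i l z' := by
  unfold cnt
  rw [h]

open Classical in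
theorem card_BCg (τ : List Bool) (j i q : ℕ) :
    (((box (2 ^ q)).filter fun z => BCg R τ j i q q z).card : ℝ) ≤
      4 ^ (j + 3) * (5329 / 6400) ^ i * 4 ^ q := by
  set F := (box (2 ^ q)).filter fun z => BCg R τ j i q q z with hF
  rcases F.eq_empty_or_nonempty with h0 | hne
  · rw [h0]
    simp only [Finset.card_empty, Nat.cast_zero]
    positivity
  -- a stage for each bad pair
  have hst : ∀ z ∈ F, ∃ t, Lv R (2 * q + t) j τ ∧
      BadS (PC R τ j q t) q i (j + 3) q z := fun z hz =>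
    (Finset.mem_filter.mp hz).2
  choose! T hT using hst
  obtain ⟨z0, hz0, hmax⟩ := F.exists_max_image T hne
  have hL := (hT z0 hz0).1
  have hsub : F ⊆ (box (2 ^ q)).filter fun z =>
      BadS (PC R τ j q (T z0)) q i (j + 3) q z := by
    intro z hz
    rw [Finset.mem_filter]
    exact ⟨(Finset.mem_filter.mp hz).1,
      fcard_BadS_mono (fun y hy => fcard_PC_mono (hmax z hz) hy) (hT z hz).2⟩
  have h1 := card_badS (PC R τ j q (T z0)) q i (j + 3) (by omega) (markov hL)
  refine le_trans ?_ h1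
  exact_mod_cast Finset.card_le_card hsub

/-- badness at level `k` depends on `str k z` only and grows with `k` -/
theorem BCg_mono {τ : List Bool} {j i q k k' : ℕ} (h : k ≤ k') {z z' : ℕ × ℕ}
    (hz : str k z = str k z') (hb : BCg R τ j i q k z) : BCg R τ j i q k' z' := by
  obtain ⟨t, ht, l, hl, hd⟩ := hb
  refine ⟨t, ht, l, hl.trans h, ?_⟩
  unfold DistS at hd ⊢
  rw [← fcard_cnt_congr _ q i l (str_mono hl hz)]
  exact hd

/-- `(5329/6400)^4 ≤ 1/2` -/
theorem card_BCg' (τ : List Bool) (J q : ℕ) : open Classical in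
    (((box (2 ^ q)).filter fun z => BCg R τ (jj J) (tt J) q q z).card : ℝ) * 2 ^ aa J ≤
      4 ^ (jj J + 3) * 4 ^ q := by
  classical
  have h1 := card_BCg (R := R) τ (jj J) (tt J) q
  have h2 : ((5329 / 6400 : ℝ)) ^ (tt J) * 2 ^ aa J ≤ 1 := by
    unfold tt
    rw [pow_mul, ← mul_pow]
    exact pow_le_one₀ (by positivity) (by norm_num)
  calc (((box (2 ^ q)).filter fun z => BCg R τ (jj J) (tt J) q q z).card : ℝ) * 2 ^ aa J
      ≤ (4 ^ (jj J + 3) * (5329 / 6400) ^ (tt J) * 4 ^ q) * 2 ^ aa J := by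
        refine mul_le_mul_of_nonneg_right ?_ (by positivity)
        exact h1
    _ = 4 ^ (jj J + 3) * 4 ^ q * ((5329 / 6400 : ℝ) ^ (tt J) * 2 ^ aa J) := by ring
    _ ≤ 4 ^ (jj J + 3) * 4 ^ q * 1 := by
        exact mul_le_mul_of_nonneg_left h2 (by positivity)
    _ = 4 ^ (jj J + 3) * 4 ^ q := mul_one _

end KExp
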