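import Pool.Agent.KExp.FBas

/-!
# The load

Paper proof of `card_prefix`. Let `n J` be the maximum over `z` of the number. `n 0 ≤ 1`. A pair of
range `1` comes from a full step from range `0`; a pair of range `J + 2` from a full step from range
`J + 1` or a partial step from range `J`. Full step from `(v, τ)` with `w`: the new
`τ' = τ ++ str q (act w y)` is an initial segment of `z`, so `τ` is one, and `str q (act w y)` is
determined by `z`, hence `str q y` (`act_str`), hence the new pair is determined by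
`((v, τ), w)`: `n (J+1) ≤ 8^(tt J) n J` such pairs. Partial step: the same with the level `l`:
the new pair is determined by `((v, τ), w, l)`, `l ≤ qq (J+1)`: at most `8^(tt J) (qq (J+1) + 1) n J`.
So `n 1 ≤ 8^(tt 0) = 2^(12 aa 0) ≤ 2^(aa 1 / 10)` and
`n (J+2) ≤ 2^(12 aa (J+1)) n (J+1) + 2^(12 aa J) (2^(48 aa (J+1)) + 1) n J ≤ 2^(60 aa (J+1))
≤ 2^(aa (J+2) / 10)`, as `aa (J+1) = 1000 aa J`.

`sum_PF`: the left side is `∑_{z ∈ bs (2 qq J)} #{x ∈ PF J | x.2 <+: z}`, since a string of
length `2b ≤ 2 qq J` has `4^(qq J - b)` extensions of length `2 qq J`.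
-/

set_option autoImplicit false

namespace KExp

open KRed

/-- the three ways to get a base pair -/
private theorem Pr_inv {K : ℕ} {v' τ' : List Bool} (h : Pr K v' τ') :
    (K = 0 ∧ v' = [] ∧ τ' = []) ∨
    (∃ (J : ℕ) (v τ : List Bool) (w : List G) (y : ℕ × ℕ), K = J + 1 ∧ Pr J v τ ∧
      w ∈ words (tt J) ∧ y ∈ box (2 ^ qr J v) ∧ v' = v ++ str (qr J v) y ∧
      τ' = τ ++ str (qr J v) (act (2 ^ qr J v) w y)) ∨
    (∃ (J l : ℕ) (v τ : List Bool) (w : List G) (y : ℕ × ℕ), K = J + 2 ∧ Pr J v τ ∧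
      w ∈ words (tt J) ∧ y ∈ box (2 ^ qr J v) ∧ l ≤ qr J v ∧ v' = v ++ str l y ∧
      τ' = τ ++ str l (act (2 ^ qr J v) w y)) := by
  cases h with
  | nil => exact Or.inl ⟨rfl, rfl, rfl⟩
  | @full J v τ w y h hw hy => exact Or.inr (Or.inl ⟨J, v, τ, w, y, rfl, h, hw, hy, rfl, rfl⟩)
  | @part J l v τ w y h hw hy hl =>
    exact Or.inr (Or.inr ⟨J, l, v, τ, w, y, rfl, h, hw, hy, hl, rfl, rfl⟩)

private theorem aa_succ (J : ℕ) : aa (J + 1) = 1000 * aa J := by
  unfold aa
  rw [pow_succ _ (J + 1), mul_comm]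

private theorem aa_pos (J : ℕ) : 0 < aa J := by
  unfold aa
  positivity

open Classical in
/-- the pair after a step, determined by `z` -/
private noncomputable def nxt (z : List Bool) (J : ℕ)
    (p : (List Bool × List Bool) × List G × ℕ) : List Bool × List Bool :=
  if h : ∃ y ∈ box (2 ^ qr J p.1.1), p.1.2 ++ str p.2.2 (act (2 ^ qr J p.1.1) p.2.1 y) <+: z then
    (p.1.1 ++ str p.2.2 h.choose, p.1.2 ++ str p.2.2 (act (2 ^ qr J p.1.1) p.2.1 h.choose))
  else ([], [])

private theorem nxt_eq {z : List Bool} {J l : ℕ} {v τ : List Bool} {w : List G} {y : ℕ × ℕ}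
    (hy : y ∈ box (2 ^ qr J v)) (hl : l ≤ qr J v)
    (hz : τ ++ str l (act (2 ^ qr J v) w y) <+: z) :
    nxt z J ((v, τ), w, l) = (v ++ str l y, τ ++ str l (act (2 ^ qr J v) w y)) := by
  have h : ∃ y ∈ box (2 ^ qr J v), τ ++ str l (act (2 ^ qr J v) w y) <+: z := ⟨y, hy, hz⟩
  have e : nxt z J ((v, τ), w, l) =
      (v ++ str l h.choose, τ ++ str l (act (2 ^ qr J v) w h.choose)) := by
    unfold nxt
    exact dif_pos h
  rw [e]
  have h1 := h.choose_spec.2
  have h2 : τ ++ str l (act (2 ^ qr J v) w h.choose) = τ ++ str l (act (2 ^ qr J v) w y) := by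
    apply List.IsPrefix.eq_of_length
    · exact List.prefix_of_prefix_length_le h1 hz (by
        rw [List.length_append, List.length_append, length_str, length_str])
    · rw [List.length_append, List.length_append, length_str, length_str]
  have h3 : str l (act (2 ^ qr J v) w h.choose) = str l (act (2 ^ qr J v) w y) :=
    List.append_cancel_left h2
  rw [h2, (act_str hl w).1 h3]

open Classical in
private theorem card_zero (K : ℕ) (hK : K = 0) (z : List Bool) :
    ((PF K).filter fun x => x.2 <+: z).card ≤ 1 := by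
  rw [Finset.card_le_one]
  have h : ∀ x ∈ ((PF K).filter fun x => x.2 <+: z), x = ([], []) := by
    rintro ⟨v, τ⟩ hx
    rcases Pr_inv (mem_PF.1 (Finset.mem_filter.1 hx).1) with h1 | h1 | h1
    · obtain ⟨-, h2, h3⟩ := h1
      change v = [] at h2
      change τ = [] at h3
      rw [h2, h3]
    · obtain ⟨J, v, τ, w, y, h2, -⟩ := h1
      omega
    · obtain ⟨J, l, v, τ, w, y, h2, -⟩ := h1
      omega
  intro a ha b hb
  rw [h a ha, h b hb]

open Classical in
private theorem card_one (K : ℕ) (hK : K = 0) (z : List Bool) :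
    ((PF (K + 1)).filter fun x => x.2 <+: z).card ≤
    ((PF K).filter fun x => x.2 <+: z).card * 8 ^ tt K := by
  have h : ((PF (K + 1)).filter fun x => x.2 <+: z) ⊆
      (((PF K).filter fun x => x.2 <+: z) ×ˢ words (tt K)).image
        fun p => nxt z K (p.1, p.2, qr K p.1.1) := by
    rintro ⟨v', τ'⟩ hx
    rw [Finset.mem_filter] at hx
    obtain ⟨hx1, hx2⟩ := hx
    rw [Finset.mem_image]
    rcases Pr_inv (mem_PF.1 hx1) with h1 | h1 | h1
    · omega
    · obtain ⟨J, v, τ, w, y, h2, h3, hw, hy, h4, h5⟩ := h1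
      have hJ : J = K := by omega
      subst hJ
      change v' = _ at h4
      change τ' = _ at h5
      subst h4 h5
      have h6 : τ <+: z := (List.prefix_append _ _).trans hx2
      refine ⟨((v, τ), w), Finset.mem_product.2 ⟨Finset.mem_filter.2 ⟨mem_PF.2 h3, h6⟩, hw⟩, ?_⟩
      exact nxt_eq hy le_rfl hx2
    · obtain ⟨J, l, v, τ, w, y, h2, -⟩ := h1
      omega
  calc ((PF (K + 1)).filter fun x => x.2 <+: z).card ≤ _ := Finset.card_le_card h
    _ ≤ _ := Finset.card_image_le
    _ = _ := by rw [Finset.card_product, card_words]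

open Classical in
private theorem card_step (J : ℕ) (z : List Bool) : ((PF (J + 2)).filter fun x => x.2 <+: z).card ≤
    ((PF (J + 1)).filter fun x => x.2 <+: z).card * 8 ^ tt (J + 1) +
      ((PF J).filter fun x => x.2 <+: z).card * (8 ^ tt J * (qq (J + 1) + 1)) := by
  have h : ((PF (J + 2)).filter fun x => x.2 <+: z) ⊆
      ((((PF (J + 1)).filter fun x => x.2 <+: z) ×ˢ words (tt (J + 1))).image
        fun p => nxt z (J + 1) (p.1, p.2, qr (J + 1) p.1.1)) ∪
      ((((PF J).filter fun x => x.2 <+: z) ×ˢ (words (tt J) ×ˢ Finset.range (qq (J + 1) + 1))).image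
        fun p => nxt z J p) := by
    rintro ⟨v', τ'⟩ hx
    rw [Finset.mem_filter] at hx
    obtain ⟨hx1, hx2⟩ := hx
    rw [Finset.mem_union, Finset.mem_image, Finset.mem_image]
    rcases Pr_inv (mem_PF.1 hx1) with h1 | h1 | h1
    · omega
    · left
      obtain ⟨I, v, τ, w, y, h2, h3, hw, hy, h4, h5⟩ := h1
      have hI : I = J + 1 := by omega
      subst hI
      change v' = _ at h4
      change τ' = _ at h5
      subst h4 h5
      have h6 : τ <+: z := (List.prefix_append _ _).trans hx2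
      refine ⟨((v, τ), w), Finset.mem_product.2 ⟨Finset.mem_filter.2 ⟨mem_PF.2 h3, h6⟩, hw⟩, ?_⟩
      exact nxt_eq hy le_rfl hx2
    · right
      obtain ⟨I, l, v, τ, w, y, h2, h3, hw, hy, hl, h4, h5⟩ := h1
      have hI : I = J := by omega
      subst hI
      change v' = _ at h4
      change τ' = _ at h5
      subst h4 h5
      have h6 : τ <+: z := (List.prefix_append _ _).trans hx2
      have h7 : l < qq (I + 1) + 1 := by
        have h8 : qr I v ≤ qq (I + 1) := Nat.sub_le _ _
        exact Nat.lt_succ_of_le (hl.trans h8)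
      refine ⟨((v, τ), w, l), Finset.mem_product.2 ⟨Finset.mem_filter.2 ⟨mem_PF.2 h3, h6⟩,
        Finset.mem_product.2 ⟨hw, Finset.mem_range.2 h7⟩⟩, ?_⟩
      exact nxt_eq hy hl hx2
  calc ((PF (J + 2)).filter fun x => x.2 <+: z).card ≤ _ := Finset.card_le_card h
    _ ≤ _ := Finset.card_union_le _ _
    _ ≤ _ := Nat.add_le_add Finset.card_image_le Finset.card_image_le
    _ = _ := by
      rw [Finset.card_product, Finset.card_product, Finset.card_product, card_words, card_words,
        Finset.card_range]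

private theorem num_one {a n : ℕ} (h : n ≤ 1) : n * 8 ^ (4 * a) ≤ 2 ^ (1000 * a / 10) := by
  have h1 : 1000 * a / 10 = 100 * a := by omega
  rw [h1]
  calc n * 8 ^ (4 * a) ≤ 1 * 8 ^ (4 * a) := Nat.mul_le_mul_right _ h
    _ = 2 ^ (12 * a) := by
      rw [one_mul, show (8 : ℕ) = 2 ^ 3 by norm_num, ← pow_mul]
      congr 1
      omega
    _ ≤ 2 ^ (100 * a) := Nat.pow_le_pow_right (by norm_num) (by omega)

private theorem num_step {a m n : ℕ} (ha : 0 < a) (hm : m ≤ 2 ^ (1000 * a / 10))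
    (hn : n ≤ 2 ^ (a / 10)) :
    m * 8 ^ (4 * (1000 * a)) + n * (8 ^ (4 * a) * (2 ^ (48 * (1000 * a)) + 1)) ≤
      2 ^ (1000 * (1000 * a) / 10) := by
  have h1 : 1000 * a / 10 = 100 * a := by omega
  have h2 : 1000 * (1000 * a) / 10 = 100000 * a := by omega
  rw [h1] at hm
  rw [h2]
  have h8 : ∀ k : ℕ, 8 ^ k = 2 ^ (3 * k) := fun k => by
    rw [show (8 : ℕ) = 2 ^ 3 by norm_num, ← pow_mul]
  have h3 : m * 8 ^ (4 * (1000 * a)) ≤ 2 ^ (61001 * a) := by
    calc m * 8 ^ (4 * (1000 * a)) ≤ 2 ^ (100 * a) * 8 ^ (4 * (1000 * a)) :=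
          Nat.mul_le_mul_right _ hm
      _ = 2 ^ (100 * a + 3 * (4 * (1000 * a))) := by rw [h8, ← pow_add]
      _ ≤ 2 ^ (61001 * a) := Nat.pow_le_pow_right (by norm_num) (by omega)
  have h4 : 2 ^ (48 * (1000 * a)) + 1 ≤ 2 ^ (48 * (1000 * a) + 1) := by
    rw [pow_succ]
    have : 1 ≤ 2 ^ (48 * (1000 * a)) := Nat.one_le_two_pow
    omega
  have h5 : n * (8 ^ (4 * a) * (2 ^ (48 * (1000 * a)) + 1)) ≤ 2 ^ (61001 * a) := by
    calc n * (8 ^ (4 * a) * (2 ^ (48 * (1000 * a)) + 1))
        ≤ 2 ^ a * (8 ^ (4 * a) * 2 ^ (48 * (1000 * a) + 1)) := by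
          refine Nat.mul_le_mul (hn.trans (Nat.pow_le_pow_right (by norm_num) (by omega)))
            (Nat.mul_le_mul_left _ h4)
      _ = 2 ^ (a + (3 * (4 * a) + (48 * (1000 * a) + 1))) := by
          rw [h8, ← pow_add, ← pow_add]
      _ ≤ 2 ^ (61001 * a) := Nat.pow_le_pow_right (by norm_num) (by omega)
  calc m * 8 ^ (4 * (1000 * a)) + n * (8 ^ (4 * a) * (2 ^ (48 * (1000 * a)) + 1))
      ≤ 2 ^ (61001 * a) + 2 ^ (61001 * a) := Nat.add_le_add h3 h5
    _ = 2 ^ (61001 * a + 1) := by rw [pow_succ]; ring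
    _ ≤ 2 ^ (100000 * a) := Nat.pow_le_pow_right (by norm_num) (by omega)

open Classical in
private theorem card_base (K : ℕ) (hK : K = 0) (z : List Bool) :
    ((PF K).filter fun x => x.2 <+: z).card ≤ 2 ^ (aa K / 10) ∧
      ((PF (K + 1)).filter fun x => x.2 <+: z).card ≤ 2 ^ (aa (K + 1) / 10) := by
  have h1 := card_zero K hK z
  refine ⟨h1.trans Nat.one_le_two_pow, (card_one K hK z).trans ?_⟩
  have h3 : tt K = 4 * aa K := rfl
  rw [aa_succ, h3]
  exact num_one h1

open Classical in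
theorem card_prefix (J : ℕ) (z : List Bool) :
    ((PF J).filter fun x => x.2 <+: z).card ≤ 2 ^ (aa J / 10) := by
  have key : ∀ J : ℕ, ((PF J).filter fun x => x.2 <+: z).card ≤ 2 ^ (aa J / 10) ∧
      ((PF (J + 1)).filter fun x => x.2 <+: z).card ≤ 2 ^ (aa (J + 1) / 10) := by
    intro J
    induction J with
    | zero => exact card_base 0 rfl z
    | succ J ih =>
      refine ⟨ih.2, (card_step J z).trans ?_⟩
      obtain ⟨ih1, ih2⟩ := ih
      have h2 : aa (J + 1 + 1) = 1000 * (1000 * aa J) := by rw [aa_succ, aa_succ]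
      rw [h2]
      rw [aa_succ] at ih2
      have h3 : qq (J + 1) = 2 ^ (48 * (1000 * aa J)) := by
        unfold qq
        rw [aa_succ]
      have h4 : tt (J + 1) = 4 * (1000 * aa J) := by
        unfold tt
        rw [aa_succ]
      rw [h3, h4]
      exact num_step (aa_pos J) ih2 ih1
  exact (key J).1

open Classical in
private theorem ext_card {m a : ℕ} (h : a ≤ m) {τ : List Bool} (hτ : τ.length = a) :
    2 ^ (m - a) ≤ ((bs m).filter fun z => τ <+: z).card := by
  rw [← card_bs]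
  apply Finset.card_le_card_of_injOn (fun v => τ ++ v)
  · intro v hv
    have hv' : v.length = m - a := mem_bs.1 hv
    have h1 : (τ ++ v).length = m := by
      rw [List.length_append, hτ, hv']
      omega
    exact Finset.mem_filter.2 ⟨mem_bs.2 h1, List.prefix_append _ _⟩
  · intro v _ v' _ hvv
    exact List.append_cancel_left hvv

theorem sum_PF (J : ℕ) :
    ∑ x ∈ PF J, 4 ^ (qq J - x.2.length / 2) ≤ 2 ^ (aa J / 10) * 4 ^ qq J := by
  classical
  have h1 : ∀ x ∈ PF J, 4 ^ (qq J - x.2.length / 2) ≤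
      ∑ z ∈ bs (2 * qq J), if x.2 <+: z then 1 else 0 := by
    intro x hx
    obtain ⟨b, hb, -, hb2⟩ := Pr_len (mem_PF.1 hx)
    rw [← Finset.card_filter]
    refine le_trans (le_of_eq ?_) (ext_card (by omega : 2 * b ≤ 2 * qq J) hb2)
    rw [hb2, Nat.mul_div_cancel_left b (by norm_num), show (4 : ℕ) = 2 ^ 2 by norm_num, ← pow_mul,
      Nat.mul_sub]
  calc ∑ x ∈ PF J, 4 ^ (qq J - x.2.length / 2)
      ≤ ∑ x ∈ PF J, ∑ z ∈ bs (2 * qq J), (if x.2 <+: z then 1 else 0) := Finset.sum_le_sum h1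
    _ = ∑ z ∈ bs (2 * qq J), ∑ x ∈ PF J, (if x.2 <+: z then 1 else 0) := Finset.sum_comm
    _ ≤ ∑ _z ∈ bs (2 * qq J), 2 ^ (aa J / 10) := by
        apply Finset.sum_le_sum
        intro z _
        rw [← Finset.card_filter]
        have h2 := card_prefix J z
        refine le_trans (le_of_eq ?_) h2
        apply congrArg
        ext x
        simp only [Finset.mem_filter]
    _ = 2 ^ (aa J / 10) * 4 ^ qq J := by
        rw [Finset.sum_const, card_bs, smul_eq_mul, pow_mul, mul_comm]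
        norm_num

end KExp
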