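import Pool.Agent.KExp.FBas

/-!
# The error term

`ee k = L - L / 10^9` with `L = Nat.log 2 k`. `ee_ge`: `k > 2^(48 aa J)` gives `L ≥ 48 aa J`, and
`L - L / 10^9` is monotone in `L`. `sum_ee`: group the `k` with the same `L = λ`: there are at most
`2^λ` of them, each has `2^(-ee k) = 2^(-λ) 2^(λ / 10^9)`; `λ ≤ 48 aa (J+2)`, so the sum is
`≤ 1 + (48 aa (J+2) + 1) 2^(48 aa (J+2) / 10^9)` (the `1` for `k = 0`), `aa (J+2) = 10^6 aa J`,
`48 · 10^6 / 10^9 = 0.048`.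
`ee_le_logb`: `ee k ≤ (1 - 10^(-9)) log₂ k + 1`.
-/

set_option autoImplicit false

namespace KExp

open scoped ENNReal

theorem ee_ge {J k : ℕ} (h : qq J < k) : 47 * aa J ≤ ee k := by
  have h1 : 48 * aa J ≤ Nat.log 2 k := by
    refine Nat.le_log_of_pow_le (by norm_num) ?_
    exact h.le
  unfold ee
  generalize aa J = a at h1
  generalize Nat.log 2 k = L at h1
  have h2 : (10 : ℕ) ^ 9 = 1000000000 := by norm_num
  rw [h2]
  omega

private theorem block (n : ℕ) :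
    ∑ k ∈ Finset.Ico (2 ^ n) (2 ^ (n + 1)), (1 / 2 : ℝ≥0∞) ^ ee k = 2 ^ (n / 10 ^ 9) := by
  have h1 : ∀ k ∈ Finset.Ico (2 ^ n) (2 ^ (n + 1)),
      (1 / 2 : ℝ≥0∞) ^ ee k = (1 / 2) ^ (n - n / 10 ^ 9) := by
    intro k hk
    rw [Finset.mem_Ico] at hk
    have h2 : Nat.log 2 k = n := Nat.log_eq_of_pow_le_of_lt_pow hk.1 hk.2
    unfold ee
    rw [h2]
  rw [Finset.sum_congr rfl h1, Finset.sum_const, Nat.card_Ico, nsmul_eq_mul]
  have h2 : 2 ^ (n + 1) - 2 ^ n = 2 ^ n := by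
    rw [pow_succ]
    omega
  rw [h2]
  have h3 : n / 10 ^ 9 ≤ n := Nat.div_le_self _ _
  generalize n / 10 ^ 9 = d at h3
  obtain ⟨e, rfl⟩ := Nat.exists_eq_add_of_le h3
  rw [Nat.add_sub_cancel_left]
  push_cast
  rw [pow_add, mul_assoc, ← mul_pow, one_div, ENNReal.mul_inv_cancel (by norm_num) (by norm_num),
    one_pow, mul_one]

private theorem sum_pow (n : ℕ) :
    ∑ k ∈ Finset.range (2 ^ (n + 1)), (1 / 2 : ℝ≥0∞) ^ ee k ≤
      1 + ∑ l ∈ Finset.range (n + 1), (2 : ℝ≥0∞) ^ (l / 10 ^ 9) := by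
  induction n with
  | zero =>
    have h0 : ee 0 = 0 := by simp [ee]
    have h1 : ee 1 = 0 := by simp [ee]
    rw [zero_add, pow_one, Finset.sum_range_succ, Finset.sum_range_succ, Finset.sum_range_zero,
      h0, h1, Finset.sum_range_one]
    simp
  | succ n ih =>
    rw [Finset.range_eq_Ico, ← Finset.sum_Ico_consecutive _ (Nat.zero_le (2 ^ (n + 1)))
      (Nat.pow_le_pow_right (by norm_num) (Nat.le_succ (n + 1))), ← Finset.range_eq_Ico, block,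
      Finset.sum_range_succ, ← add_assoc]
    exact add_le_add ih le_rfl

private theorem arith (b : ℕ) (hb : 1 ≤ b) :
    1 + (48 * (10 ^ 9 * b) + 1) * 2 ^ (48 * b) ≤ 2 ^ (200 * b) := by
  have h1 : b < 2 ^ b := Nat.lt_two_pow_self
  have h2 : 48 * (10 ^ 9 * b) + 1 + 1 ≤ 2 ^ (37 * b) := by
    calc 48 * (10 ^ 9 * b) + 1 + 1 ≤ 2 ^ 36 * b := by
          norm_num
          omega
      _ ≤ 2 ^ (36 * b) * 2 ^ b :=
          Nat.mul_le_mul (Nat.pow_le_pow_right (by norm_num) (by omega)) h1.le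
      _ = 2 ^ (37 * b) := by
          rw [← pow_add]
          congr 1
          omega
  have h3 : 1 ≤ 2 ^ (48 * b) := Nat.one_le_two_pow
  calc 1 + (48 * (10 ^ 9 * b) + 1) * 2 ^ (48 * b)
      ≤ (48 * (10 ^ 9 * b) + 1 + 1) * 2 ^ (48 * b) := by
        rw [Nat.add_mul (48 * (10 ^ 9 * b) + 1) 1, one_mul, add_comm]
        exact Nat.add_le_add_left h3 _
    _ ≤ 2 ^ (37 * b) * 2 ^ (48 * b) := Nat.mul_le_mul_right _ h2
    _ = 2 ^ (85 * b) := by
        rw [← pow_add]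
        congr 1
        omega
    _ ≤ 2 ^ (200 * b) := Nat.pow_le_pow_right (by norm_num) (by omega)

theorem sum_ee (J : ℕ) : ∑ k ∈ Finset.range (qq (J + 2) + 1), (1 / 2 : ℝ≥0∞) ^ ee k ≤
    2 ^ (aa J / 10 + aa J / 10) := by
  set b := 1000 ^ J with hb
  have hb1 : 1 ≤ b := Nat.one_le_pow _ _ (by norm_num)
  have ha : aa J = 1000 * b := by
    unfold aa
    rw [pow_succ, mul_comm]
  have ha2 : 48 * aa (J + 2) = 48 * (10 ^ 9 * b) := by
    unfold aa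
    rw [hb, show J + 2 + 1 = 3 + J by ring, pow_add]
    norm_num
  have hexp : aa J / 10 + aa J / 10 = 200 * b := by
    rw [ha]
    omega
  rw [hexp]
  set n := 48 * (10 ^ 9 * b) with hn
  have hq : qq (J + 2) = 2 ^ n := by
    unfold qq
    rw [ha2]
  have h1 : Finset.range (qq (J + 2) + 1) ⊆ Finset.range (2 ^ (n + 1)) := by
    rw [hq]
    refine Finset.range_subset_range.2 ?_
    have h2 : 1 ≤ 2 ^ n := Nat.one_le_two_pow
    rw [pow_succ]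
    omega
  have h3 : ∑ l ∈ Finset.range (n + 1), (2 : ℝ≥0∞) ^ (l / 10 ^ 9) ≤ (n + 1 : ℕ) * 2 ^ (48 * b) := by
    calc ∑ l ∈ Finset.range (n + 1), (2 : ℝ≥0∞) ^ (l / 10 ^ 9)
        ≤ ∑ _l ∈ Finset.range (n + 1), (2 : ℝ≥0∞) ^ (48 * b) := by
          refine Finset.sum_le_sum fun l hl => ?_
          refine pow_le_pow_right₀ (by norm_num) ?_
          have h4 : l ≤ n := Nat.lt_succ_iff.1 (Finset.mem_range.1 hl)
          refine (Nat.div_le_div_right h4).trans ?_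
          rw [hn, show 48 * (10 ^ 9 * b) = 10 ^ 9 * (48 * b) by ring,
            Nat.mul_div_cancel_left _ (by norm_num)]
      _ = (n + 1 : ℕ) * 2 ^ (48 * b) := by
          rw [Finset.sum_const, Finset.card_range, nsmul_eq_mul]
  calc ∑ k ∈ Finset.range (qq (J + 2) + 1), (1 / 2 : ℝ≥0∞) ^ ee k
      ≤ ∑ k ∈ Finset.range (2 ^ (n + 1)), (1 / 2 : ℝ≥0∞) ^ ee k :=
        Finset.sum_le_sum_of_subset h1
    _ ≤ 1 + ∑ l ∈ Finset.range (n + 1), (2 : ℝ≥0∞) ^ (l / 10 ^ 9) := sum_pow n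
    _ ≤ 1 + (n + 1 : ℕ) * 2 ^ (48 * b) := add_le_add le_rfl h3
    _ = ((1 + (n + 1) * 2 ^ (48 * b) : ℕ) : ℝ≥0∞) := by push_cast; ring
    _ ≤ ((2 ^ (200 * b) : ℕ) : ℝ≥0∞) := by exact_mod_cast arith b hb1
    _ = 2 ^ (200 * b) := by push_cast; ring

theorem ee_le_logb {k : ℕ} (h : 1 ≤ k) :
    (ee k : ℝ) ≤ (1 - 1 / 10 ^ 9) * Real.logb 2 k + 1 := by
  have h1 : (Nat.log 2 k : ℝ) ≤ Real.logb 2 k := by
    have := Real.natLog_le_logb k 2
    exact_mod_cast this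
  unfold ee
  set L := Nat.log 2 k with hL
  have h2 : L < 10 ^ 9 * (L / 10 ^ 9 + 1) := Nat.lt_mul_div_succ L (by norm_num)
  have h3 : (L : ℝ) < 10 ^ 9 * ((L / 10 ^ 9 : ℕ) + 1) := by exact_mod_cast h2
  have h4 : L / 10 ^ 9 ≤ L := Nat.div_le_self _ _
  rw [Nat.cast_sub h4]
  set d : ℝ := ((L / 10 ^ 9 : ℕ) : ℝ)
  have h5 : (L : ℝ) / 10 ^ 9 < d + 1 := by
    rw [div_lt_iff₀ (by norm_num)]
    linarith
  have h6 : (1 - 1 / 10 ^ 9) * (L : ℝ) ≤ (1 - 1 / 10 ^ 9) * Real.logb 2 k :=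
    mul_le_mul_of_nonneg_left h1 (by norm_num)
  linarith

end KExp
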