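import Pool.Agent.KExp.CBas
import Pool.Agent.KExp.FDefs

/-!
# Live strings have incompressible extensions

For every stage `T ≥ m` some extension of `τ` by `T` bits is not killed at stage `T` (`Lv R T j τ`
gives `un R T T τ > 0`), so some `v ∈ bs m` has `τ ++ v` not killed at stage `T` (`Kl_mono`); `bs m`
is finite, so one `v` is good for arbitrarily large `T`, hence for all stages (`Kl_mono`); then
as in `le_of_live`.
-/

set_option autoImplicit false

namespace KExp

open KRed AC Low4

variable {R : List Bool × ℕ → ℕ → Bool}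

/-- some `v ∈ bs m` is not killed at stage `m + d` -/
theorem exists_ext_stage {j : ℕ} {τ : List Bool} (hl : Live R j τ) (m d : ℕ) :
    ∃ v ∈ bs m, ¬ Kl R (m + d) (τ ++ v) := by
  by_contra hcon
  push Not at hcon
  have h1 : un R (m + d) (m + d) τ = 0 := by
    rw [un_add_bs]
    exact Finset.sum_eq_zero fun v hv => un_eq_zero (hcon v hv)
  have h2 := hl (m + d)
  unfold Lv at h2
  rw [h1, mul_zero] at h2
  have : 0 < 2 ^ (m + d) := by positivity
  omega

/-- some `v ∈ bs m` is never killed -/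
theorem exists_ext_all {j : ℕ} {τ : List Bool} (hl : Live R j τ) (m : ℕ) :
    ∃ v ∈ bs m, ∀ t, ¬ Kl R t (τ ++ v) := by
  by_contra hcon
  push Not at hcon
  choose! f hf using hcon
  obtain ⟨v, hv, hk⟩ := exists_ext_stage hl m ((bs m).sup f)
  refine hk (Kl_mono ?_ (List.prefix_refl _) (hf v hv))
  exact (Finset.le_sup hv).trans (Nat.le_add_left _ _)

theorem exists_ext {U : List Bool →. ℕ} (hR : NF U R) {j : ℕ} {τ : List Bool}
    (hl : Live R j τ) (m : ℕ) : ∃ v ∈ bs m, ∀ n ≤ τ.length + m, n ≤ KS U ((τ ++ v).take n) + 1 := by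
  obtain ⟨v, hv, hk⟩ := exists_ext_all hl m
  refine ⟨v, hv, fun n hn => ?_⟩
  by_contra hcon
  have h1 : KS U ((τ ++ v).take n) ≤ n - 2 := by omega
  obtain ⟨t, ht⟩ := (hR.2 ((τ ++ v).take n, n - 2)).1 h1
  refine hk t ⟨n, ?_, by omega, t, le_rfl, ht⟩
  rw [List.length_append, mem_bs.1 hv]
  exact hn

end KExp
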