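import Pool.Agent.KExp.CSig2
import Pool.Agent.KExp.FBas

/-!
# `BCg` is `Sig1`: as `sig_BC` in CSig2.lean with `q` for `9 ^ i`
-/

set_option autoImplicit false

namespace KExp

open KRed AC Low4 Encodable

variable {R : List Bool × ℕ → ℕ → Bool}

/-- parameters: `τ, j, i, q, k, z` -/
abbrev ParF : Type := List Bool × ℕ × ℕ × ℕ × ℕ × (ℕ × ℕ)

theorem sig_BCg (hR : Primrec₂ R) : Sig1 fun p : List Bool × ℕ × ℕ × ℕ × ℕ × (ℕ × ℕ) =>
    BCg R p.1 p.2.1 p.2.2.1 p.2.2.2.1 p.2.2.2.2.1 p.2.2.2.2.2 := by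
  -- projections from `(ParF × ℕ) × ℕ` : parameters, `t`, `l`
  have a0 : Computable fun x : (ParF × ℕ) × ℕ => x.1.1 := c2_fst Computable.fst
  have at' : Computable fun x : (ParF × ℕ) × ℕ => x.1.2 := c2_snd Computable.fst
  have al : Computable fun x : (ParF × ℕ) × ℕ => x.2 := Computable.snd
  have aτ : Computable fun x : (ParF × ℕ) × ℕ => x.1.1.1 := c2_fst a0
  have a1 : Computable fun x : (ParF × ℕ) × ℕ => x.1.1.2 := c2_snd a0
  have aj : Computable fun x : (ParF × ℕ) × ℕ => x.1.1.2.1 := c2_fst a1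
  have a2 : Computable fun x : (ParF × ℕ) × ℕ => x.1.1.2.2 := c2_snd a1
  have ai : Computable fun x : (ParF × ℕ) × ℕ => x.1.1.2.2.1 := c2_fst a2
  have a3 : Computable fun x : (ParF × ℕ) × ℕ => x.1.1.2.2.2 := c2_snd a2
  have aq : Computable fun x : (ParF × ℕ) × ℕ => x.1.1.2.2.2.1 := c2_fst a3
  have a4 : Computable fun x : (ParF × ℕ) × ℕ => x.1.1.2.2.2.2 := c2_snd a3
  have ak : Computable fun x : (ParF × ℕ) × ℕ => x.1.1.2.2.2.2.1 := c2_fst a4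
  have az : Computable fun x : (ParF × ℕ) × ℕ => x.1.1.2.2.2.2.2 := c2_snd a4
  have h1 : Sig1 fun x : (ParF × ℕ) × ℕ =>
      x.2 ≤ x.1.1.2.2.2.2.1 ∧ DistS (PC R x.1.1.1 x.1.1.2.1 x.1.1.2.2.2.1 x.1.2)
        x.1.1.2.2.2.1 x.1.1.2.2.1 (x.1.1.2.1 + 3) x.2 x.1.1.2.2.2.2.2 :=
    (c1_le al ak).and (sig_DistS hR aτ aj aq at' ai (c2_add aj (Computable.const 3)) al az)
  have h2 : Sig1 fun x : ParF × ℕ => ∃ l, l ≤ x.1.2.2.2.2.1 ∧
      DistS (PC R x.1.1 x.1.2.1 x.1.2.2.2.1 x.2)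
        x.1.2.2.2.1 x.1.2.2.1 (x.1.2.1 + 3) l x.1.2.2.2.2.2 :=
    Sig1.ex (p := fun (x : ParF × ℕ) l => l ≤ x.1.2.2.2.2.1 ∧
      DistS (PC R x.1.1 x.1.2.1 x.1.2.2.2.1 x.2)
        x.1.2.2.2.1 x.1.2.2.1 (x.1.2.1 + 3) l x.1.2.2.2.2.2) h1
  have b0 : Computable fun x : ParF × ℕ => x.1 := Computable.fst
  have bt : Computable fun x : ParF × ℕ => x.2 := Computable.snd
  have bτ : Computable fun x : ParF × ℕ => x.1.1 := c2_fst b0
  have b1 : Computable fun x : ParF × ℕ => x.1.2 := c2_snd b0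
  have bj : Computable fun x : ParF × ℕ => x.1.2.1 := c2_fst b1
  have b2 : Computable fun x : ParF × ℕ => x.1.2.2 := c2_snd b1
  have b3 : Computable fun x : ParF × ℕ => x.1.2.2.2 := c2_snd b2
  have bq : Computable fun x : ParF × ℕ => x.1.2.2.2.1 := c2_fst b3
  have h3 : Sig1 fun x : ParF × ℕ => Lv R (2 * x.1.2.2.2.1 + x.2) x.1.2.1 x.1.1 :=
    ((sig_Lv hR).comp (f := fun x : ParF × ℕ => (2 * x.1.2.2.2.1 + x.2, x.1.2.1, x.1.1))
      (Computable.pair (c2_add (c2_mul (Computable.const 2) bq) bt)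
        (Computable.pair bj bτ)))
  refine (Sig1.ex (p := fun (x : ParF) t => Lv R (2 * x.2.2.2.1 + t) x.2.1 x.1 ∧
    ∃ l, l ≤ x.2.2.2.2.1 ∧ DistS (PC R x.1 x.2.1 x.2.2.2.1 t)
        x.2.2.2.1 x.2.2.1 (x.2.1 + 3) l x.2.2.2.2.2) (h3.and h2)).of_eq fun x => ?_
  unfold BCg BadS
  exact Iff.rfl

end KExp
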