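import Pool.Agent.KExp.FSigP
import Pool.Agent.KExp.FSigB

/-!
# The requests of the full version are `Sig1`

`Sig1.ex` over `J, v, τ, w, y, k`, `sig_Pr`, `sig_BCg`, `sig_KS`, and decidable conditions
(`computable_qr`, `computable_str`, `computable_act`); `w ∈ words i` iff `w.length = i`
(`mem_words`), `y ∈ box M` iff `y.1 < M ∧ y.2 < M` (`mem_box`), `ρ₁ <+: ρ` iff
`ρ.take ρ₁.length = ρ₁`. See CSig.lean.
-/

set_option autoImplicit false

namespace KExp

open KRed AC Low4 Encodable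

private theorem fsig_log : Primrec fun k : ℕ => Nat.log 2 k := by
  have hp : PrimrecRel fun k e : ℕ => 2 ^ e ≤ k :=
    Primrec.nat_le.comp (c1_pow.comp (Primrec.const 2) Primrec.snd) Primrec.fst
  have h : Primrec fun k : ℕ => Nat.findGreatest (fun e => 2 ^ e ≤ k) k :=
    Primrec.nat_findGreatest (f := fun k : ℕ => k) (p := fun k e : ℕ => 2 ^ e ≤ k) Primrec.id hp
  refine h.of_eq fun k => ?_
  rw [Nat.findGreatest_eq_iff]
  refine ⟨Nat.log_le_self 2 k, fun h0 => ?_, fun n hn _ hk => ?_⟩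
  · refine Nat.pow_log_le_self 2 ?_
    rintro rfl
    simp at h0
  · exact absurd hk (not_le.2 (Nat.lt_pow_of_log_lt (by norm_num) hn))

theorem computable_ee : Computable ee := by
  have h : Primrec fun k : ℕ => Nat.log 2 k - Nat.log 2 k / 10 ^ 9 :=
    Primrec.nat_sub.comp fsig_log (Primrec.nat_div.comp fsig_log (Primrec.const (10 ^ 9)))
  exact h.to_comp

section

variable {α : Type} [Primcodable α]

private theorem fsig_aa {f : α → ℕ} (hf : Computable f) : Computable fun x => aa (f x) := by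
  unfold aa
  exact c2_pow (Computable.const 1000) (c2_add hf (Computable.const 1))

private theorem fsig_qq {f : α → ℕ} (hf : Computable f) : Computable fun x => qq (f x) := by
  unfold qq
  exact c2_pow (Computable.const 2) (c2_mul (Computable.const 48) (fsig_aa hf))

private theorem fsig_tt {f : α → ℕ} (hf : Computable f) : Computable fun x => tt (f x) := by
  unfold tt
  exact c2_mul (Computable.const 4) (fsig_aa hf)

private theorem fsig_jj {f : α → ℕ} (hf : Computable f) : Computable fun x => jj (f x) := by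
  unfold jj
  exact c2_mul (Computable.const 4)
    (c2_sub (c2_pow (Computable.const 2) hf) (Computable.const 1))

private theorem fsig_qr {f : α → ℕ} {g : α → List Bool} (hf : Computable f) (hg : Computable g) :
    Computable fun x => qr (f x) (g x) := by
  have h1 : Computable fun x => (f x, g x) := Computable.pair hf hg
  have h2 := Computable.comp (f := fun p : ℕ × List Bool => qr p.1 p.2)
    (g := fun x => (f x, g x)) computable_qr h1
  exact h2

private theorem fsig_ee {f : α → ℕ} (hf : Computable f) : Computable fun x => ee (f x) :=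
  computable_ee.comp hf

private theorem fsig_app {f g : α → List Bool} (hf : Computable f) (hg : Computable g) :
    Computable fun x => f x ++ g x := Primrec.list_append.to_comp.comp hf hg

private theorem fsig_div {f g : α → ℕ} (hf : Computable f) (hg : Computable g) :
    Computable fun a => f a / g a := Primrec.nat_div.to_comp.comp hf hg

private theorem fsig_mod {f g : α → ℕ} (hf : Computable f) (hg : Computable g) :
    Computable fun a => f a % g a := Primrec.nat_mod.to_comp.comp hf hg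

end

/-- the parameters of a request: `J`, the strings, `k` and `y` -/
private abbrev FPar : Type := ℕ × (List Bool × List Bool) × (ℕ × (ℕ × ℕ))

theorem sig_RF {U : List Bool →. ℕ} (hU : IsOptimal ∅ U) {R : List Bool × ℕ → ℕ → Bool}
    (hR : Primrec₂ R) : Sig1 fun p : List Bool × ℕ => RF U R p.1 p.2 := by
  -- the projections of `x = (a, (J, (v, τ), (k, y)))`
  have pid : Computable fun x : (List Bool × ℕ) × FPar => x := Computable.id
  have pρ := c2_fst (c2_fst pid)
  have pκ := c2_snd (c2_fst pid)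
  have pJ := c2_fst (c2_snd pid)
  have pv := c2_fst (c2_fst (c2_snd (c2_snd pid)))
  have pτ := c2_snd (c2_fst (c2_snd (c2_snd pid)))
  have pk := c2_fst (c2_snd (c2_snd (c2_snd pid)))
  have py := c2_snd (c2_snd (c2_snd (c2_snd pid)))
  have pq := fsig_qr pJ pv
  have p2q := c2_pow (Computable.const 2) pq
  have pstr := fsig_app pv (c2_str pk py)
  have plen := c2_len pρ
  have pee := fsig_ee (fsig_div plen (Computable.const 2))
  have d1 : Sig1 fun x : (List Bool × ℕ) × FPar => Pr x.2.1 x.2.2.1.1 x.2.2.1.2 :=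
    sig_Pr.comp (f := fun x : (List Bool × ℕ) × FPar => (x.2.1, x.2.2.1.1, x.2.2.1.2))
      (Computable.pair pJ (Computable.pair pv pτ))
  have d2 := c1_lt (c2_fst py) p2q
  have d3 := c1_lt (c2_snd py) p2q
  have d4 := c1_le pk pq
  have d5 := c1_lt (c2_mul (Computable.const 2) (fsig_qq pJ)) plen
  -- the first kind
  have e1 := c1_eq pρ pstr
  have e2 := c1_le pee pκ
  have e3 : Sig1 fun x : (List Bool × ℕ) × FPar => ∃ w : List G,
      w.length = tt x.2.1 ∧
        KS U (x.2.2.1.2 ++ str x.2.2.2.1 (act (2 ^ qr x.2.1 x.2.2.1.1) w x.2.2.2.2)) ≤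
          x.1.2 - ee (x.1.1.length / 2) := by
    refine Sig1.ex (p := fun (x : (List Bool × ℕ) × FPar) (w : List G) =>
      w.length = tt x.2.1 ∧
        KS U (x.2.2.1.2 ++ str x.2.2.2.1 (act (2 ^ qr x.2.1 x.2.2.1.1) w x.2.2.2.2)) ≤
          x.1.2 - ee (x.1.1.length / 2)) (Sig1.and ?_ ?_)
    · exact c1_eq (c2_len Computable.snd) (fsig_tt (pJ.comp Computable.fst))
    · refine (sig_KS hU).comp (f := fun z : ((List Bool × ℕ) × FPar) × List G =>
        (z.1.2.2.1.2 ++ str z.1.2.2.2.1 (act (2 ^ qr z.1.2.1 z.1.2.2.1.1) z.2 z.1.2.2.2.2),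
          z.1.1.2 - ee (z.1.1.1.length / 2))) ?_
      exact Computable.pair (fsig_app (pτ.comp Computable.fst) (c2_str (pk.comp Computable.fst)
        (c2_act (p2q.comp Computable.fst) Computable.snd (py.comp Computable.fst))))
        (c2_sub (pκ.comp Computable.fst) (pee.comp Computable.fst))
  -- the second kind
  have f1 : Sig1 fun x : (List Bool × ℕ) × FPar =>
      BCg R x.2.2.1.2 (jj x.2.1) (tt x.2.1) (qr x.2.1 x.2.2.1.1) x.2.2.2.1 x.2.2.2.2 :=
    (sig_BCg hR).comp (f := fun x : (List Bool × ℕ) × FPar =>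
      (x.2.2.1.2, jj x.2.1, tt x.2.1, qr x.2.1 x.2.2.1.1, x.2.2.2.1, x.2.2.2.2))
      (Computable.pair pτ (Computable.pair (fsig_jj pJ) (Computable.pair (fsig_tt pJ)
        (Computable.pair pq (Computable.pair pk py)))))
  have f2 : Sig1 fun x : (List Bool × ℕ) × FPar => ∃ s : List Bool,
      (x.2.2.1.1 ++ str x.2.2.2.1 x.2.2.2.2) ++ s = x.1.1 :=
    Sig1.ex (p := fun (x : (List Bool × ℕ) × FPar) (s : List Bool) =>
      (x.2.2.1.1 ++ str x.2.2.2.1 x.2.2.2.2) ++ s = x.1.1)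
      (c1_eq (fsig_app (pstr.comp Computable.fst) Computable.snd) (pρ.comp Computable.fst))
  have f3 := c1_le plen (c2_mul (Computable.const 2) (fsig_qq (c2_add pJ (Computable.const 2))))
  have f4 := c1_eq (fsig_mod plen (Computable.const 2)) (Computable.const 0)
  have f5 := c1_le (c2_add plen pee) pκ
  have hall := Sig1.ex (α := List Bool × ℕ) (β := FPar) (p := fun a x =>
    (Pr x.1 x.2.1.1 x.2.1.2 ∧ x.2.2.2.1 < 2 ^ qr x.1 x.2.1.1 ∧
      x.2.2.2.2 < 2 ^ qr x.1 x.2.1.1 ∧ x.2.2.1 ≤ qr x.1 x.2.1.1 ∧ 2 * qq x.1 < a.1.length) ∧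
      ((a.1 = x.2.1.1 ++ str x.2.2.1 x.2.2.2 ∧ ee (a.1.length / 2) ≤ a.2 ∧
        ∃ w : List G, w.length = tt x.1 ∧
          KS U (x.2.1.2 ++ str x.2.2.1 (act (2 ^ qr x.1 x.2.1.1) w x.2.2.2)) ≤
            a.2 - ee (a.1.length / 2)) ∨
      (BCg R x.2.1.2 (jj x.1) (tt x.1) (qr x.1 x.2.1.1) x.2.2.1 x.2.2.2 ∧
        (∃ s : List Bool, (x.2.1.1 ++ str x.2.2.1 x.2.2.2) ++ s = a.1) ∧
        a.1.length ≤ 2 * qq (x.1 + 2) ∧ a.1.length % 2 = 0 ∧
        a.1.length + ee (a.1.length / 2) ≤ a.2)))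
    ((d1.and (d2.and (d3.and (d4.and d5)))).and
      ((e1.and (e2.and e3)).or (f1.and (f2.and (f3.and (f4.and f5))))))
  refine hall.of_eq fun a => ?_
  constructor
  · rintro ⟨⟨J, ⟨v, τ⟩, ⟨k, y⟩⟩, ⟨h1, h2, h3, h4, h5⟩, h6⟩
    refine ⟨J, ?_⟩
    rcases h6 with ⟨g1, g2, w, g3, g4⟩ | ⟨g1, ⟨s, g2⟩, g3, g4, g5⟩
    · left
      refine ⟨v, τ, w, y, k, h1, mem_words.2 g3, mem_box.2 ⟨h2, h3⟩, h4, g1, h5, ?_⟩
      dsimp only at g2 g4
      omega
    · right
      exact ⟨v, τ, y, k, h1, mem_box.2 ⟨h2, h3⟩, h4, g1, ⟨s, g2⟩, h5, g3, g4, g5⟩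
  · rintro ⟨J, ⟨v, τ, w, y, k, h1, g3, hy, h4, g1, h5, g4⟩ |
      ⟨v, τ, y, k, h1, hy, h4, g1, ⟨s, g2⟩, h5, g3, g4, g5⟩⟩
    · refine ⟨⟨J, ⟨v, τ⟩, ⟨k, y⟩⟩, ⟨h1, (mem_box.1 hy).1, (mem_box.1 hy).2, h4, h5⟩, Or.inl
        ⟨g1, ?_, w, mem_words.1 g3, ?_⟩⟩
      · omega
      · dsimp only
        omega
    · exact ⟨⟨J, ⟨v, τ⟩, ⟨k, y⟩⟩, ⟨h1, (mem_box.1 hy).1, (mem_box.1 hy).2, h4, h5⟩, Or.inr
        ⟨g1, ⟨s, g2⟩, g3, g4, g5⟩⟩

end KExp
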