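import Pool.Agent.KExp.WtV

/-!
# The total weight (paper proof in WtV.lean)
-/

set_option autoImplicit false

namespace KExp

open KRed AC Low4
open scoped ENNReal

theorem half_pow_mul (n : ℕ) : (1 / 2 : ℝ≥0∞) ^ n * 2 ^ n = 1 := by
  rw [← mul_pow, one_div, ENNReal.inv_mul_cancel (by norm_num) (by norm_num), one_pow]

theorem tsum_half_div : ∑' i : ℕ, (1 / 2 : ℝ≥0∞) ^ (i / 512) = 1024 := by
  rw [← (Nat.divModEquiv 512).symm.tsum_eq (fun i : ℕ => (1 / 2 : ℝ≥0∞) ^ (i / 512)),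
    ENNReal.tsum_prod (f := fun (a : ℕ) (b : Fin 512) =>
      (1 / 2 : ℝ≥0∞) ^ ((Nat.divModEquiv 512).symm (a, b) / 512))]
  have h : ∀ (a : ℕ) (b : Fin 512), ((Nat.divModEquiv 512).symm (a, b)) / 512 = a := by
    intro a b
    simp only [Nat.divModEquiv_symm_apply]
    have := b.2
    omega
  simp only [h, tsum_fintype, Finset.sum_const, Finset.card_univ, Fintype.card_fin, nsmul_eq_mul]
  rw [ENNReal.tsum_mul_left, ENNReal.tsum_geometric]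
  have h2 : (1 - 1 / 2 : ℝ≥0∞)⁻¹ = 2 := by
    rw [one_div, ENNReal.one_sub_inv_two, inv_inv]
  rw [h2]
  norm_num

theorem weight_scale (i : ℕ) :
    (18 * 8 ^ i * (1 / 2) ^ e i : ℝ≥0∞) = 18 * (1 / 2) ^ 20 * (1 / 2) ^ (i / 512) := by
  have h8 : (8 : ℝ≥0∞) ^ i = 2 ^ (3 * i) := by
    rw [pow_mul]; norm_num
  rw [e, pow_add, pow_add, h8]
  have h := half_pow_mul (3 * i)
  calc (18 * 2 ^ (3 * i) * ((1 / 2) ^ (3 * i) * (1 / 2) ^ (i / 512) * (1 / 2) ^ 20) : ℝ≥0∞)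
      = ((1 / 2) ^ (3 * i) * 2 ^ (3 * i)) * (18 * (1 / 2) ^ 20 * (1 / 2) ^ (i / 512)) := by ring
    _ = _ := by rw [h, one_mul]

open Classical in
theorem weight_Rq {U : List Bool →. ℕ} (hU : IsOptimal ∅ U) :
    ∑' p : List Bool × ℕ, (if Rq U p.1 p.2 then (1 / 2 : ℝ≥0∞) ^ p.2 else 0) ≤ 1 := by
  have h1 : ∀ p : List Bool × ℕ, (if Rq U p.1 p.2 then (1 / 2 : ℝ≥0∞) ^ p.2 else 0) ≤
      ∑' i : ℕ, (if V U i p.1 p.2 then (1 / 2 : ℝ≥0∞) ^ p.2 else 0) := by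
    intro p
    split_ifs with h
    · obtain ⟨i, hi⟩ := h
      refine le_trans ?_ (ENNReal.le_tsum i)
      rw [if_pos hi]
    · exact zero_le
  calc ∑' p : List Bool × ℕ, (if Rq U p.1 p.2 then (1 / 2 : ℝ≥0∞) ^ p.2 else 0)
      ≤ ∑' p : List Bool × ℕ, ∑' i : ℕ, (if V U i p.1 p.2 then (1 / 2 : ℝ≥0∞) ^ p.2 else 0) :=
        ENNReal.tsum_le_tsum h1
    _ = ∑' i : ℕ, ∑' p : List Bool × ℕ, (if V U i p.1 p.2 then (1 / 2 : ℝ≥0∞) ^ p.2 else 0) :=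
        ENNReal.tsum_comm
    _ ≤ ∑' i : ℕ, (18 * 8 ^ i * (1 / 2) ^ e i : ℝ≥0∞) :=
        ENNReal.tsum_le_tsum fun i => weight_V hU i
    _ = ∑' i : ℕ, (18 * (1 / 2) ^ 20 * (1 / 2) ^ (i / 512) : ℝ≥0∞) := by
        simp only [weight_scale]
    _ = 18 * (1 / 2) ^ 20 * 1024 := by rw [ENNReal.tsum_mul_left, tsum_half_div]
    _ ≤ 2 ^ 10 * (1 / 2) ^ 20 * 2 ^ 10 := by
        gcongr
        · norm_num
        · norm_num
    _ = (1 / 2) ^ 20 * 2 ^ 20 := by ring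
    _ = 1 := half_pow_mul 20

end KExp
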