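import Pool.Agent.KExp.FCnt
import Pool.Agent.KExp.FEe
import Pool.Agent.KExp.FCard
import Pool.Agent.KExp.CWtV
import Pool.Agent.KExp.Wt

/-!
# The weight of the requests of the second kind

Paper proof. Let `β = 4^(jj J + 3) 2^(-aa J)`. For a base pair `(v, τ)` of level `b`, `q = qr J v`,
and a level `m` with `qq J < m ≤ qq (J+2)`, the number of the `ρ ∈ bs (2m)` which extend some
`v ++ str k y` with `k ≤ q`, `y` in the box, `BCg .. k y`, is `≤ β 4^(m-b)`: if `m - b ≤ q` then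
`ρ = v ++ str (m-b) z` with `BCg .. (m-b) z` (`BCg_mono`), each such node has `4^(q-(m-b))` pairs `z`
in the box, all of them with `BCg .. q z`, and there are `≤ β 4^q` of these (`card_BCg'`); if
`m - b > q` then the initial segment of `ρ` of level `b + q` is `v ++ str q z` with `BCg .. q z`, and it
has `4^(m-b-q)` extensions. So the weight is
`≤ ∑_m 2 · 2^(-2m - ee m) ∑_{(v,τ) ∈ PF J} β 4^(m-b) = 2 β ∑_m 2^(-ee m) ∑_{(v,τ)} 4^(-b)
≤ 2 β 2^(2 aa J / 10) 2^(aa J / 10)` (`sum_ee`, `sum_PF`), and `2 jj J + 6 ≤ aa J / 10` (`num_jj`), so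
it is `≤ 2 · 2^(aa J / 10 - aa J + 3 aa J / 10) ≤ 2^(1 - 6 aa J / 10) ≤ 2^(-J-2)`
(`aa J / 10` is exact, `aa J = 10 (aa J / 10)`).
-/

set_option autoImplicit false

namespace KExp

open KRed AC Low4
open scoped ENNReal

variable {R : List Bool × ℕ → ℕ → Bool}

open Classical in
/-- the bad strings of level `l` -/
private noncomputable def fwS (R : List Bool × ℕ → ℕ → Bool) (J q l : ℕ) (τ : List Bool) :
    Finset (List Bool) :=
  (wtvA q l).filter fun ν => BCg R τ (jj J) (tt J) q l (wtvRep q l ν)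

open Classical in
/-- the strings of level `m` above a bad string -/
private noncomputable def fwD (R : List Bool × ℕ → ℕ → Bool) (J m : ℕ)
    (x : List Bool × List Bool) : Finset (List Bool) :=
  (bs (2 * m)).filter fun ρ => ∃ y ∈ box (2 ^ qr J x.1), ∃ k ≤ qr J x.1,
    BCg R x.2 (jj J) (tt J) (qr J x.1) k y ∧ x.1 ++ str k y <+: ρ

private theorem fw_memA {q l : ℕ} (h : l ≤ q) {u : List Bool} (hu : u.length = 2 * l) :
    u ∈ wtvA q l := by
  obtain ⟨z, hz, hs⟩ := exists_str hu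
  refine Finset.mem_image.2 ⟨z, ?_, hs⟩
  rw [mem_box] at hz ⊢
  have h1 : 2 ^ l ≤ 2 ^ q := Nat.pow_le_pow_right (by norm_num) h
  exact ⟨hz.1.trans_le h1, hz.2.trans_le h1⟩

private theorem fw_cardS (J : ℕ) {q l : ℕ} (h : l ≤ q) (τ : List Bool) :
    (fwS R J q l τ).card * 2 ^ aa J ≤ 4 ^ (jj J + 3) * 4 ^ l := by
  classical
  have h0 := card_BCg' (R := R) τ J q
  have hp : (0 : ℝ) < 2 ^ aa J := pow_pos (by norm_num) _
  have h1 := cw_fib h (fun z => BCg R τ (jj J) (tt J) q l z)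
    (fun z z' hz hb => BCg_mono le_rfl hz hb) (C := 4 ^ (jj J + 3) / 2 ^ aa J)
    (fun z => BCg R τ (jj J) (tt J) q q z) (fun z hb => BCg_mono h rfl hb) (by
      rw [div_mul_eq_mul_div, le_div_iff₀ hp]
      exact h0)
  have h2 : ((1 : ℝ) / 2) ^ (2 * l) = (4 ^ l)⁻¹ := by
    rw [pow_mul, ← inv_pow]
    norm_num
  rw [h2, ← div_eq_mul_inv, div_le_iff₀ (pow_pos (by norm_num) _), div_mul_eq_mul_div,
    le_div_iff₀ hp] at h1
  have h3 : (((fwS R J q l τ).card * 2 ^ aa J : ℕ) : ℝ) ≤ ((4 ^ (jj J + 3) * 4 ^ l : ℕ) : ℝ) := by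
    rw [Nat.cast_mul, Nat.cast_mul, Nat.cast_pow, Nat.cast_pow, Nat.cast_pow]
    exact h1
  exact Nat.cast_le.1 h3

private theorem fw_cardD {J m b : ℕ} {x : List Bool × List Bool} (hb : b ≤ qq J)
    (hv : x.1.length = 2 * b) (hm : qq J < m) :
    (fwD R J m x).card * 2 ^ aa J ≤ 4 ^ (jj J + 3) * 4 ^ (m - b) := by
  classical
  obtain ⟨v, τ⟩ := x
  simp only at hv
  set q := qr J v with hq
  set l := min (m - b) q with hl
  have hlq : l ≤ q := min_le_right _ _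
  have hlm : l ≤ m - b := min_le_left _ _
  have hsub : fwD R J m (v, τ) ⊆ ((fwS R J q l τ) ×ˢ bs (2 * (m - b - l))).image
      fun p : List Bool × List Bool => v ++ p.1 ++ p.2 := by
    intro ρ hρ
    obtain ⟨hρ1, y, hy, k, hk, hB, hpre⟩ := Finset.mem_filter.1 hρ
    simp only at hk hB hpre hy
    rw [← hq] at hk hB
    have hlen : ρ.length = 2 * m := mem_bs.1 hρ1
    have hlen2 : (v ++ str k y).length = 2 * b + 2 * k := by
      rw [List.length_append, length_str, hv]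
    have hle := hpre.length_le
    rw [hlen2, hlen] at hle
    have hkl : k ≤ l := by
      rw [hl]
      exact le_min (by omega) hk
    have h1 : v ++ str k y <+: ρ.take (2 * b + 2 * l) := by
      refine List.prefix_of_prefix_length_le hpre (List.take_prefix _ _) ?_
      rw [hlen2, List.length_take, hlen]
      omega
    obtain ⟨r, hr⟩ := h1
    have hrl : (str k y ++ r).length = 2 * l := by
      have h2 := congrArg List.length hr
      rw [List.append_assoc, List.length_append, List.length_take, hlen, hv] at h2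
      omega
    have hA := fw_memA hlq hrl
    obtain ⟨hR1, hR2⟩ := wtvRep_spec hA
    refine Finset.mem_image.2 ⟨(str k y ++ r, ρ.drop (2 * b + 2 * l)), ?_, ?_⟩
    · refine Finset.mem_product.2 ⟨Finset.mem_filter.2 ⟨hA, ?_⟩, ?_⟩
      · refine BCg_mono hkl ?_ hB
        have h3 : (str l (wtvRep q l (str k y ++ r))).take (2 * k) = str k y := by
          rw [hR2, List.take_append_of_le_length (by rw [length_str]), List.take_of_length_le
            (by rw [length_str])]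
        rw [take_str hkl] at h3
        exact h3.symm
      · rw [mem_bs, List.length_drop, hlen]
        omega
    · simp only
      rw [← List.append_assoc v, hr, List.take_append_drop]
  have hc := (Finset.card_le_card hsub).trans Finset.card_image_le
  rw [Finset.card_product, card_bs] at hc
  have h5 : 2 ^ (2 * (m - b - l)) = 4 ^ (m - b - l) := by
    rw [pow_mul]
    norm_num
  rw [h5] at hc
  calc (fwD R J m (v, τ)).card * 2 ^ aa J
      ≤ (fwS R J q l τ).card * 4 ^ (m - b - l) * 2 ^ aa J := Nat.mul_le_mul_right _ hc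
    _ = (fwS R J q l τ).card * 2 ^ aa J * 4 ^ (m - b - l) := by ring
    _ ≤ 4 ^ (jj J + 3) * 4 ^ l * 4 ^ (m - b - l) := Nat.mul_le_mul_right _ (fw_cardS J hlq τ)
    _ = 4 ^ (jj J + 3) * 4 ^ (m - b) := by
      rw [mul_assoc, ← pow_add, Nat.add_sub_cancel' hlm]

/-- the number of all strings of level `m` above bad strings -/
private noncomputable def fwC (R : List Bool × ℕ → ℕ → Bool) (J m : ℕ) : ℕ :=
  ∑ x ∈ PF J, (fwD R J m x).card

private theorem fw_cardC {J m : ℕ} (hm : qq J < m) :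
    fwC R J m * 2 ^ aa J ≤ 4 ^ (jj J + 3) * 2 ^ (aa J / 10) * 4 ^ m := by
  unfold fwC
  rw [Finset.sum_mul]
  have h1 : ∀ x ∈ PF J, (fwD R J m x).card * 2 ^ aa J ≤
      4 ^ (jj J + 3) * (4 ^ (m - qq J) * 4 ^ (qq J - x.2.length / 2)) := by
    intro x hx
    obtain ⟨b, hb, hv, hτ⟩ := Pr_len (mem_PF.1 hx)
    refine (fw_cardD hb hv hm).trans (le_of_eq ?_)
    have h2 : m - b = (m - qq J) + (qq J - 2 * b / 2) := by omega
    rw [hτ, h2, pow_add _ (m - qq J)]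
  refine (Finset.sum_le_sum h1).trans ?_
  rw [← Finset.mul_sum, ← Finset.mul_sum]
  calc 4 ^ (jj J + 3) * (4 ^ (m - qq J) * ∑ x ∈ PF J, 4 ^ (qq J - x.2.length / 2))
      ≤ 4 ^ (jj J + 3) * (4 ^ (m - qq J) * (2 ^ (aa J / 10) * 4 ^ qq J)) :=
        Nat.mul_le_mul_left _ (Nat.mul_le_mul_left _ (sum_PF J))
    _ = 4 ^ (jj J + 3) * 2 ^ (aa J / 10) * (4 ^ (m - qq J) * 4 ^ qq J) := by ring
    _ = _ := by rw [← pow_add, Nat.sub_add_cancel hm.le]

open Classical in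
private theorem fw_point (J : ℕ) (ρ : List Bool) (κ : ℕ) :
    (if RF2 R J ρ κ then (1 / 2 : ℝ≥0∞) ^ κ else 0) ≤
      ∑ m ∈ Finset.Ioc (qq J) (qq (J + 2)), ∑ x ∈ PF J, ∑ ν ∈ fwD R J m x,
        (if ρ = ν then (if 2 * m + ee m ≤ κ then (1 / 2 : ℝ≥0∞) ^ κ else 0) else 0) := by
  split_ifs with h
  · obtain ⟨v, τ, y, k, hP, hy, hk, hB, hpre, hl1, hl2, hl3, hκ⟩ := h
    have hlen : ρ.length = 2 * (ρ.length / 2) := by omega
    set m := ρ.length / 2 with hm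
    have hmm : m ∈ Finset.Ioc (qq J) (qq (J + 2)) := by
      rw [Finset.mem_Ioc]
      omega
    have hx : (v, τ) ∈ PF J := mem_PF.2 hP
    have hρ : ρ ∈ fwD R J m (v, τ) :=
      Finset.mem_filter.2 ⟨mem_bs.2 hlen, y, hy, k, hk, hB, hpre⟩
    have h1 : (1 / 2 : ℝ≥0∞) ^ κ =
        (if ρ = ρ then (if 2 * m + ee m ≤ κ then (1 / 2 : ℝ≥0∞) ^ κ else 0) else 0) := by
      rw [if_pos rfl, if_pos (by rw [← hlen]; exact hκ)]
    have h2 := Finset.single_le_sum (f := fun ν =>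
      (if ρ = ν then (if 2 * m + ee m ≤ κ then (1 / 2 : ℝ≥0∞) ^ κ else 0) else 0))
      (fun _ _ => bot_le) hρ
    have h3 := Finset.single_le_sum (f := fun x => ∑ ν ∈ fwD R J m x,
      (if ρ = ν then (if 2 * m + ee m ≤ κ then (1 / 2 : ℝ≥0∞) ^ κ else 0) else 0))
      (fun _ _ => bot_le) hx
    have h4 := Finset.single_le_sum (f := fun m => ∑ x ∈ PF J, ∑ ν ∈ fwD R J m x,
      (if ρ = ν then (if 2 * m + ee m ≤ κ then (1 / 2 : ℝ≥0∞) ^ κ else 0) else 0))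
      (fun _ _ => bot_le) hmm
    exact h1.le.trans (h2.trans (h3.trans h4))
  · exact bot_le

private theorem fw_C_half {J m : ℕ} (hm : qq J < m) :
    (fwC R J m : ℝ≥0∞) * (1 / 2) ^ (2 * m) ≤
      4 ^ (jj J + 3) * 2 ^ (aa J / 10) * (1 / 2) ^ aa J := by
  have h1 : (fwC R J m : ℝ≥0∞) * 2 ^ aa J ≤ 4 ^ (jj J + 3) * 2 ^ (aa J / 10) * 4 ^ m := by
    have h2 : ((fwC R J m * 2 ^ aa J : ℕ) : ℝ≥0∞) ≤
        ((4 ^ (jj J + 3) * 2 ^ (aa J / 10) * 4 ^ m : ℕ) : ℝ≥0∞) :=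
      Nat.cast_le.2 (fw_cardC hm)
    rw [Nat.cast_mul, Nat.cast_mul, Nat.cast_mul, Nat.cast_pow, Nat.cast_pow, Nat.cast_pow,
      Nat.cast_pow] at h2
    exact_mod_cast h2
  have h3 : (4 : ℝ≥0∞) ^ m = 2 ^ (2 * m) := by
    rw [pow_mul]
    norm_num
  rw [h3] at h1
  calc (fwC R J m : ℝ≥0∞) * (1 / 2) ^ (2 * m)
      = fwC R J m * (1 / 2) ^ (2 * m) * ((1 / 2) ^ aa J * 2 ^ aa J) := by
        rw [half_pow_mul, mul_one]
    _ = (fwC R J m * 2 ^ aa J) * ((1 / 2) ^ aa J * (1 / 2) ^ (2 * m)) := by ring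
    _ ≤ (4 ^ (jj J + 3) * 2 ^ (aa J / 10) * 2 ^ (2 * m)) * ((1 / 2) ^ aa J * (1 / 2) ^ (2 * m)) :=
        mul_le_mul' h1 le_rfl
    _ = 4 ^ (jj J + 3) * 2 ^ (aa J / 10) * (1 / 2) ^ aa J * ((1 / 2) ^ (2 * m) * 2 ^ (2 * m)) := by
        ring
    _ = _ := by rw [half_pow_mul, mul_one]

private theorem fw_num (J : ℕ) : ∃ a r, aa J / 10 = a ∧ aa J = (4 * a + 1) + (J + 2) + r := by
  have h1 : aa J = 1000 * 1000 ^ J := by
    unfold aa
    rw [pow_succ, mul_comm]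
  have h2 : J < 1000 ^ J := Nat.lt_pow_self (by norm_num)
  refine ⟨_, aa J - ((4 * (aa J / 10) + 1) + (J + 2)), rfl, ?_⟩
  generalize 1000 ^ J = t at h1 h2
  omega

open Classical in
theorem weight_RF2 (J : ℕ) :
    ∑' x : List Bool × ℕ, (if RF2 R J x.1 x.2 then (1 / 2 : ℝ≥0∞) ^ x.2 else 0) ≤
      (1 / 2) ^ (J + 2) := by
  refine (ENNReal.tsum_le_tsum fun x : List Bool × ℕ => fw_point J x.1 x.2).trans ?_
  rw [Summable.tsum_finsetSum fun _ _ => ENNReal.summable]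
  have h1 : ∀ m ∈ Finset.Ioc (qq J) (qq (J + 2)), ∑' y : List Bool × ℕ,
      ∑ x ∈ PF J, ∑ ν ∈ fwD R J m x,
        (if y.1 = ν then (if 2 * m + ee m ≤ y.2 then (1 / 2 : ℝ≥0∞) ^ y.2 else 0) else 0) ≤
      4 ^ (jj J + 3) * 2 ^ (aa J / 10) * (1 / 2) ^ aa J * 2 * (1 / 2) ^ ee m := by
    intro m hm
    rw [Summable.tsum_finsetSum fun _ _ => ENNReal.summable]
    have h2 : ∀ x ∈ PF J, ∑' y : List Bool × ℕ, ∑ ν ∈ fwD R J m x,
        (if y.1 = ν then (if 2 * m + ee m ≤ y.2 then (1 / 2 : ℝ≥0∞) ^ y.2 else 0) else 0) =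
        ((fwD R J m x).card : ℝ≥0∞) * (2 * (1 / 2) ^ (2 * m + ee m)) := by
      intro x _
      rw [Summable.tsum_finsetSum fun _ _ => ENNReal.summable]
      rw [Finset.sum_congr rfl fun ν _ => (wtv_single ν fun κ =>
        (if 2 * m + ee m ≤ κ then (1 / 2 : ℝ≥0∞) ^ κ else 0)).trans (wtv_tail _),
        Finset.sum_const, nsmul_eq_mul]
    rw [Finset.sum_congr rfl h2, ← Finset.sum_mul, ← Nat.cast_sum]
    change (fwC R J m : ℝ≥0∞) * _ ≤ _
    calc (fwC R J m : ℝ≥0∞) * (2 * (1 / 2) ^ (2 * m + ee m))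
        = fwC R J m * (1 / 2) ^ (2 * m) * (2 * (1 / 2) ^ ee m) := by
          rw [pow_add]
          ring
      _ ≤ 4 ^ (jj J + 3) * 2 ^ (aa J / 10) * (1 / 2) ^ aa J * (2 * (1 / 2) ^ ee m) :=
          mul_le_mul' (fw_C_half (Finset.mem_Ioc.1 hm).1) le_rfl
      _ = _ := by ring
  refine (Finset.sum_le_sum h1).trans ?_
  rw [← Finset.mul_sum]
  have h3 : ∑ m ∈ Finset.Ioc (qq J) (qq (J + 2)), (1 / 2 : ℝ≥0∞) ^ ee m ≤
      2 ^ (aa J / 10 + aa J / 10) := by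
    refine le_trans (Finset.sum_le_sum_of_subset ?_) (sum_ee J)
    intro m hm
    rw [Finset.mem_Ioc] at hm
    rw [Finset.mem_range]
    omega
  refine (mul_le_mul' le_rfl h3).trans ?_
  have h4 : (4 : ℝ≥0∞) ^ (jj J + 3) ≤ 2 ^ (aa J / 10) := by
    have h5 : (4 : ℝ≥0∞) ^ (jj J + 3) = 2 ^ (2 * jj J + 6) := by
      rw [show 2 * jj J + 6 = 2 * (jj J + 3) by ring, pow_mul]
      norm_num
    rw [h5]
    exact pow_le_pow_right₀ (by norm_num) (num_jj J)
  obtain ⟨a, r, ha, haa⟩ := fw_num J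
  rw [ha] at h4 ⊢
  rw [haa]
  calc (4 : ℝ≥0∞) ^ (jj J + 3) * 2 ^ a * (1 / 2) ^ (4 * a + 1 + (J + 2) + r) * 2 * 2 ^ (a + a)
      ≤ 2 ^ a * 2 ^ a * (1 / 2) ^ (4 * a + 1 + (J + 2) + r) * 2 * 2 ^ (a + a) := by gcongr
    _ = ((1 / 2) ^ (4 * a + 1) * 2 ^ (4 * a + 1)) * ((1 / 2) ^ (J + 2) * (1 / 2) ^ r) := by
        rw [pow_add _ (4 * a + 1 + (J + 2)) r, pow_add _ (4 * a + 1) (J + 2),
          show 4 * a + 1 = a + a + (a + a) + 1 by ring, pow_succ 2 (a + a + (a + a)),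
          pow_add 2 (a + a) (a + a), pow_add 2 a a]
        ring
    _ ≤ 1 * ((1 / 2) ^ (J + 2) * 1) := by
        rw [half_pow_mul]
        refine mul_le_mul' le_rfl (mul_le_mul' le_rfl (pow_le_one' ?_ r))
        rw [one_div]
        exact ENNReal.inv_le_one.2 (by norm_num)
    _ = (1 / 2) ^ (J + 2) := by rw [one_mul, mul_one]

end KExp
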