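import Pool.Agent.KExp.FW1
import Pool.Agent.KExp.FW2

/-!
# The total weight: `∑_J 2 · 2^(-J-2) = 1`
-/

set_option autoImplicit false

namespace KExp

open KRed AC Low4
open scoped ENNReal

private theorem fw_two : (2 : ℝ≥0∞) * (1 / 2) = 1 := by
  rw [one_div, ENNReal.mul_inv_cancel (by norm_num) (by norm_num)]

private theorem fw_geo : ∑' n : ℕ, (1 / 2 : ℝ≥0∞) ^ n = 2 := by
  rw [ENNReal.tsum_geometric, one_div, ENNReal.one_sub_inv_two, inv_inv]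

open Classical in
theorem weight_RF {U : List Bool →. ℕ} (hU : IsOptimal ∅ U) (R : List Bool × ℕ → ℕ → Bool) :
    ∑' x : List Bool × ℕ, (if RF U R x.1 x.2 then (1 / 2 : ℝ≥0∞) ^ x.2 else 0) ≤ 1 := by
  have h1 : ∀ x : List Bool × ℕ, (if RF U R x.1 x.2 then (1 / 2 : ℝ≥0∞) ^ x.2 else 0) ≤
      ∑' J : ℕ, ((if RF1 U J x.1 x.2 then (1 / 2 : ℝ≥0∞) ^ x.2 else 0) +
        (if RF2 R J x.1 x.2 then (1 / 2 : ℝ≥0∞) ^ x.2 else 0)) := by
    intro x
    split_ifs with h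
    · obtain ⟨J, h⟩ := h
      refine le_trans ?_ (ENNReal.le_tsum (f := fun J : ℕ =>
        ((if RF1 U J x.1 x.2 then (1 / 2 : ℝ≥0∞) ^ x.2 else 0) +
          (if RF2 R J x.1 x.2 then (1 / 2 : ℝ≥0∞) ^ x.2 else 0))) J)
      rcases h with h | h
      · rw [if_pos h]
        exact le_self_add
      · rw [if_pos h]
        exact le_add_self
    · exact bot_le
  refine (ENNReal.tsum_le_tsum h1).trans ?_
  rw [ENNReal.tsum_comm]
  have h2 : ∀ J : ℕ, ∑' x : List Bool × ℕ,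
      ((if RF1 U J x.1 x.2 then (1 / 2 : ℝ≥0∞) ^ x.2 else 0) +
        (if RF2 R J x.1 x.2 then (1 / 2 : ℝ≥0∞) ^ x.2 else 0)) ≤
      (1 / 2) * (1 / 2) ^ J := by
    intro J
    rw [ENNReal.tsum_add]
    refine (add_le_add (weight_RF1 hU J) (weight_RF2 J)).trans (le_of_eq ?_)
    rw [← two_mul, pow_add, sq]
    calc (2 : ℝ≥0∞) * ((1 / 2) ^ J * (1 / 2 * (1 / 2)))
        = (2 * (1 / 2)) * ((1 / 2) * (1 / 2) ^ J) := by ring
      _ = _ := by rw [fw_two, one_mul]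
  refine (ENNReal.tsum_le_tsum h2).trans ?_
  rw [ENNReal.tsum_mul_left, fw_geo, mul_comm, fw_two]

end KExp
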