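import Pool.Agent.KExp.KSs
import Pool.Agent.KExp.CHost
import Pool.Agent.KExp.CNil
import Pool.Agent.KExp.FW
import Pool.Agent.KExp.FSig
import Pool.Agent.KExp.FBase
import Pool.Agent.KExp.FExt
import Pool.Agent.KRed.Main

/-!
# The full version: main theorem
-/

set_option autoImplicit false

namespace KExp

open KRed AC Low4 Encodable

variable {U : List Bool →. ℕ} {R : List Bool × ℕ → ℕ → Bool}

/-- the invariant: a base pair on `A` with small errors so far -/
def Inv (U : List Bool →. ℕ) (R : List Bool × ℕ → ℕ → Bool) (c : ℕ) (A : Set ℕ) (J : ℕ)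
    (v τ : List Bool) : Prop :=
  Pr J v τ ∧ v = pre A v.length ∧ Live R (jj J) τ ∧
  (∀ k, 2 * k ≤ v.length → KS U (pre A (2 * k)) ≤ KS U (τ.take (2 * k)) + ee k + c + 1) ∧
  (∀ k, v.length < 2 * k → k ≤ qq J → KS U (pre A (2 * k)) ≤ 2 * k + ee k + c)

/-- the complexities of the short strings are bounded -/
theorem bdd_KS (U : List Bool →. ℕ) (Q : ℕ) : ∃ c, ∀ σ : List Bool, σ.length ≤ Q → KS U σ ≤ c := by
  refine ⟨((Finset.range (Q + 1)).biUnion bs).sup (KS U), fun σ hσ => ?_⟩
  exact Finset.le_sup (f := KS U) (Finset.mem_biUnion.2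
    ⟨σ.length, Finset.mem_range.2 (by omega), mem_bs.2 rfl⟩)

theorem inv_zero (hU : IsOptimal ∅ U) (hR : NF U R) {c : ℕ}
    (hc : ∀ σ : List Bool, σ.length ≤ 2 * qq 0 → KS U σ ≤ c) (A : Set ℕ) :
    Inv U R c A 0 [] [] := by
  refine ⟨Pr.nil, by simp [pre], live_nil hU hR, fun k hk => ?_, fun k _ hk => ?_⟩
  · have : k = 0 := by
      rw [List.length_nil] at hk
      omega
    subst this
    have e1 : pre A (2 * 0) = [] := by simp [pre]
    rw [e1, List.take_nil]
    omega
  · have h1 := hc (pre A (2 * k)) (by rw [pre_length]; omega)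
    omega

/-- the third clause of the invariant after a step -/
theorem inv_third (hR : NF U R) {c : ℕ} (hc : ∀ σ k, RF U R σ k → KS U σ ≤ k + c) {A : Set ℕ}
    {J b : ℕ} {v τ : List Bool} (hI : Inv U R c A J v τ) (hv : v.length = 2 * b)
    (hτ : τ.length = 2 * b) {z : ℕ × ℕ} (hz : z ∈ box (2 ^ qr J v))
    (hA : ∀ k ≤ qr J v, v ++ str k z = pre A (2 * b + 2 * k)) {l : ℕ} (hl : l ≤ qr J v)
    {w : List G} (hw : w ∈ words (tt J)) {j : ℕ}
    (hlive : Live R j (τ ++ str l (act (2 ^ qr J v) w z))) :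
    ∀ k, 2 * k ≤ 2 * b + 2 * l → KS U (pre A (2 * k)) ≤
      KS U ((τ ++ str l (act (2 ^ qr J v) w z)).take (2 * k)) + ee k + c + 1 := by
  intro k hk
  obtain ⟨hPr, -, -, h3, h4⟩ := hI
  rcases Nat.lt_or_ge b k with hbk | hbk
  · rcases Nat.lt_or_ge (qq J) k with hq | hq
    · -- a request of the first kind
      have e1 : (τ ++ str l (act (2 ^ qr J v) w z)).take (2 * k) =
          τ ++ str (k - b) (act (2 ^ qr J v) w z) := by
        have e2 : 2 * k = τ.length + 2 * (k - b) := by omega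
        rw [e2, List.take_length_add_append, take_str (by omega)]
      have e3 : v ++ str (k - b) z = pre A (2 * k) := by
        rw [hA (k - b) (by omega)]
        congr 1
        omega
      have h5 := hc (pre A (2 * k))
        (KS U (τ ++ str (k - b) (act (2 ^ qr J v) w z)) + ee ((pre A (2 * k)).length / 2))
        ⟨J, Or.inl ⟨v, τ, w, z, k - b, hPr, hw, hz, by omega, e3.symm, by
          rw [pre_length]; omega, le_rfl⟩⟩
      rw [pre_length, Nat.mul_div_cancel_left k (by norm_num)] at h5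
      rw [e1]
      omega
    · have h5 := h4 k (by omega) hq
      have h6 := le_of_live hR hlive (n := 2 * k) (by
        rw [List.length_append, hτ, length_str]
        omega)
      omega
  · have h5 := h3 k (by omega)
    have e1 : (τ ++ str l (act (2 ^ qr J v) w z)).take (2 * k) = τ.take (2 * k) := by
      rw [List.take_append_of_le_length (by omega)]
    rw [e1]
    exact h5

theorem inv_step (hR : NF U R) {c : ℕ} (hc : ∀ σ k, RF U R σ k → KS U σ ≤ k + c) {A : Set ℕ}
    {J : ℕ} {v τ : List Bool} (hI : Inv U R c A J v τ) :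
    ∃ J' > J, ∃ v' τ' : List Bool, Inv U R c A J' v' τ' := by
  obtain ⟨b, hb, hv, hτ⟩ := Pr_len hI.1
  have hqr : qr J v = qq (J + 1) - b := by
    unfold qr
    rw [hv, Nat.mul_div_cancel_left b (by norm_num)]
  have hlt := qq_lt J
  obtain ⟨z, hz, hzs⟩ := exists_str (k := qr J v)
    (σ := (pre A (2 * b + 2 * qr J v)).drop (2 * b))
    (by rw [List.length_drop, pre_length]; omega)
  have hvA : v = pre A (2 * b) := by
    rw [← hv]
    exact hI.2.1
  have hA : ∀ k ≤ qr J v, v ++ str k z = pre A (2 * b + 2 * k) := by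
    intro k hk
    rw [← take_str hk z, hzs]
    have e2 : v = (pre A (2 * b + 2 * qr J v)).take (2 * b) := by
      rw [pre_take _ _ _ (by omega)]
      exact hvA
    have e3 : ∀ L : List Bool, L.take (2 * b) ++ (L.drop (2 * b)).take (2 * k) =
        L.take (2 * b + 2 * k) := fun L => by rw [← List.take_add]
    have e4 := e3 (pre A (2 * b + 2 * qr J v))
    rw [← e2, pre_take _ _ _ (by omega)] at e4
    exact e4
  obtain ⟨l, hl, w, hw, hlive, hbad⟩ := exists_base (i := tt J) (q := qr J v) hI.2.2.1 hz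
  have hthird := inv_third hR hc hI hv hτ hz hA hl hw hlive
  have hlen : (v ++ str l z).length = 2 * b + 2 * l := by
    rw [List.length_append, hv, length_str]
  rcases Nat.lt_or_ge l (qr J v) with hlq | hlq
  · -- a partial step
    refine ⟨J + 2, by omega, v ++ str l z, τ ++ str l (act (2 ^ qr J v) w z),
      Pr.part hI.1 hw hz hl, ?_, ?_, ?_, ?_⟩
    · rw [hlen]
      exact hA l hl
    · rw [jj_succ] at hlive
      exact Live_mono (jj_le (J + 1)) hlive
    · intro k hk
      exact hthird k (by omega)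
    · intro k hk hkq
      rw [hlen] at hk
      rcases Nat.lt_or_ge (qq J) k with hq | hq
      · have hpre : v ++ str (l + 1) z <+: pre A (2 * k) := by
          rw [hA (l + 1) (by omega)]
          refine ⟨(pre A (2 * k)).drop (2 * b + 2 * (l + 1)), ?_⟩
          have e1 : pre A (2 * b + 2 * (l + 1)) = (pre A (2 * k)).take (2 * b + 2 * (l + 1)) :=
            (pre_take _ _ _ (by omega)).symm
          rw [e1]
          exact List.take_append_drop _ _
        have h5 := hc (pre A (2 * k)) ((pre A (2 * k)).length + ee ((pre A (2 * k)).length / 2))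
          ⟨J, Or.inr ⟨v, τ, z, l + 1, hI.1, hz, by omega, hbad (l + 1) (by omega) (by omega),
            hpre, by rw [pre_length]; omega, by rw [pre_length]; omega, by rw [pre_length]; omega,
            le_rfl⟩⟩
        rw [pre_length, Nat.mul_div_cancel_left k (by norm_num)] at h5
        omega
      · exact hI.2.2.2.2 k (by omega) hq
  · -- a full step
    have hlq' : l = qr J v := le_antisymm hl hlq
    subst hlq'
    refine ⟨J + 1, by omega, v ++ str (qr J v) z, τ ++ str (qr J v) (act (2 ^ qr J v) w z),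
      Pr.full hI.1 hw hz, ?_, ?_, ?_, ?_⟩
    · rw [hlen]
      exact hA _ le_rfl
    · rw [jj_succ] at hlive
      exact hlive
    · intro k hk
      exact hthird k (by omega)
    · intro k hk hkq
      rw [hlen] at hk
      omega

theorem inv_all (hU : IsOptimal ∅ U) (hR : NF U R) : ∃ c, ∀ A : Set ℕ, ∀ N : ℕ,
    ∃ J ≥ N, ∃ v τ : List Bool, Inv U R c A J v τ := by
  obtain ⟨c0, h0⟩ := coding hU (sig_RF hU hR.1) (weight_RF hU R)
  obtain ⟨c1, h1⟩ := bdd_KS U (2 * qq 0)
  refine ⟨c0 + c1, fun A N => ?_⟩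
  have h0' : ∀ σ k, RF U R σ k → KS U σ ≤ k + (c0 + c1) := fun σ k h => by
    have := h0 σ k h
    omega
  have h1' : ∀ σ : List Bool, σ.length ≤ 2 * qq 0 → KS U σ ≤ c0 + c1 := fun σ h => by
    have := h1 σ h
    omega
  induction N with
  | zero => exact ⟨0, le_rfl, [], [], inv_zero hU hR h1' A⟩
  | succ N ih =>
    obtain ⟨J, hJ, v, τ, hI⟩ := ih
    obtain ⟨J', hJ', v', τ', hI'⟩ := inv_step hR h0' hI
    exact ⟨J', by omega, v', τ', hI'⟩

/-- long strings with all the properties -/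
theorem fin_all (hU : IsOptimal ∅ U) : ∃ c, ∀ A : Set ℕ, ∀ N : ℕ,
    ∃ σ : List Bool, N ≤ σ.length ∧ ∀ n ≤ σ.length, n ≤ KS U (σ.take n) + 1 ∧
      KS U (pre A n) ≤ KS U (σ.take n) + ee (n / 2) + c := by
  obtain ⟨R, hR1, hR2⟩ := primrec_nf (sig_KS hU)
  have hR : NF U R := ⟨hR1, hR2⟩
  obtain ⟨c, hc⟩ := inv_all hU hR
  obtain ⟨c1, h1⟩ := KS_succ hU
  obtain ⟨c2, h2⟩ := KS_pred hU
  refine ⟨c + c1 + c2 + 1, fun A N => ?_⟩
  obtain ⟨J, hJ, v, τ, hI⟩ := hc A N
  obtain ⟨b, hb, hv, hτ⟩ := Pr_len hI.1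
  obtain ⟨-, -, hlive, h3, h4⟩ := hI
  have hJq := le_qq J
  obtain ⟨x, hx, hx2⟩ := exists_ext hR hlive (2 * qq J - 2 * b)
  have hxl := mem_bs.1 hx
  have hlen : (τ ++ x).length = 2 * qq J := by
    rw [List.length_append, hxl, hτ]
    omega
  have hx2' : ∀ n ≤ 2 * qq J, n ≤ KS U ((τ ++ x).take n) + 1 := by
    intro n hn
    exact hx2 n (by rw [hτ]; omega)
  -- the even levels
  have heven : ∀ k ≤ qq J, KS U (pre A (2 * k)) ≤ KS U ((τ ++ x).take (2 * k)) + ee k + c + 1 := by
    intro k hk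
    rcases Nat.lt_or_ge b k with h | h
    · have h5 := h4 k (by omega) hk
      have h6 := hx2' (2 * k) (by omega)
      omega
    · have h5 := h3 k (by omega)
      rw [List.take_append_of_le_length (by omega)]
      exact h5
  refine ⟨τ ++ x, by omega, fun n hn => ⟨hx2' n (by omega), ?_⟩⟩
  rw [hlen] at hn
  have g1 := heven (n / 2) (by omega)
  have g2 : KS U (pre A n) ≤ KS U (pre A (2 * (n / 2))) + c1 := by
    rcases (by omega : n = 2 * (n / 2) ∨ n = 2 * (n / 2) + 1) with h | h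
    · rw [← h]; omega
    · have e1 : pre A (2 * (n / 2)) = (pre A n).take (2 * (n / 2)) :=
        (pre_take _ _ _ (by omega)).symm
      have e2 : pre A n = (pre A n).take (2 * (n / 2) + 1) := by
        rw [← h]; exact (pre_take _ _ _ le_rfl).symm
      rw [e1]
      conv_lhs => rw [e2]
      exact h1 _ _
  have g3 : KS U ((τ ++ x).take (2 * (n / 2))) ≤ KS U ((τ ++ x).take n) + c2 := by
    rcases (by omega : n = 2 * (n / 2) ∨ n = 2 * (n / 2) + 1) with h | h
    · rw [← h]; omega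
    · have h6 := h2 (τ ++ x) (2 * (n / 2))
      rw [← h] at h6
      exact h6
  omega

theorem full_aux (hU : IsOptimal ∅ U) : ∃ c, ∀ A : Set ℕ, ∃ B : Set ℕ, ∀ n,
    n ≤ KS U (pre B n) + 1 ∧ KS U (pre A n) ≤ KS U (pre B n) + ee (n / 2) + c := by
  obtain ⟨c, hc⟩ := fin_all hU
  refine ⟨c, fun A => ?_⟩
  by_contra hcon
  push Not at hcon
  obtain ⟨N, hN⟩ := compact_tree (fun σ => ∃ n < σ.length + 1, ¬ (n ≤ KS U (σ.take n) + 1 ∧
      KS U (pre A n) ≤ KS U (σ.take n) + ee (n / 2) + c)) (by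
    rintro σ τ hst ⟨n, hn, hd⟩
    have hl := hst.length_le
    refine ⟨n, by omega, ?_⟩
    have h1 : σ.take n = τ.take n := by
      obtain ⟨x, rfl⟩ := hst
      rw [List.take_append_of_le_length (by omega)]
    rw [← h1]
    exact hd) (by
    intro X
    obtain ⟨n, hn⟩ := hcon X
    refine ⟨n, n, by rw [pre_length]; omega, ?_⟩
    rw [pre_take _ _ _ le_rfl]
    rintro ⟨h1, h2⟩
    exact absurd (hn h1) (not_lt.2 h2))
  obtain ⟨σ, hσ1, hσ2⟩ := hc A N
  obtain ⟨n, hn, hd⟩ := hN (σ.take N) (by rw [List.length_take]; omega)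
  rw [List.length_take] at hn
  apply hd
  have h1 : (σ.take N).take n = σ.take n := by
    rw [List.take_take]
    congr 1
    omega
  rw [h1]
  exact hσ2 n (by omega)

/-- the error is at most `(1 - 10^(-9)) log₂ n + c` at every length `n ≥ 1` -/
theorem full_main (hU : IsOptimal ∅ U) : ∃ c : ℕ, ∀ A : Set ℕ, ∃ B : Set ℕ,
    (∀ n, n ≤ KS U (restr B n) + 1) ∧
    ∀ n, 1 ≤ n → (KS U (restr A n) : ℝ) ≤
      KS U (restr B n) + (1 - 1 / 10 ^ 9) * Real.logb 2 n + c := by
  obtain ⟨c, hc⟩ := full_aux hU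
  refine ⟨c + 1 + ee 0, fun A => ?_⟩
  obtain ⟨B, hB⟩ := hc A
  refine ⟨B, fun n => (hB n).1, fun n hn => ?_⟩
  have h1 : (KS U (restr A n) : ℝ) ≤ KS U (restr B n) + ee (n / 2) + c := by
    exact_mod_cast (hB n).2
  have hlog : (0 : ℝ) ≤ Real.logb 2 n := Real.logb_nonneg (by norm_num) (by exact_mod_cast hn)
  rcases Nat.eq_zero_or_pos (n / 2) with h | h
  · rw [h] at h1
    push_cast
    have : 0 ≤ (1 - 1 / 10 ^ 9 : ℝ) * Real.logb 2 n := mul_nonneg (by norm_num) hlog
    linarith
  · have h2 := ee_le_logb h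
    have h3 : Real.logb 2 ((n / 2 : ℕ) : ℝ) ≤ Real.logb 2 n :=
      Real.logb_le_logb_of_le (by norm_num) (by exact_mod_cast h)
        (by exact_mod_cast Nat.div_le_self n 2)
    have h4 : (1 - 1 / 10 ^ 9 : ℝ) * Real.logb 2 ((n / 2 : ℕ) : ℝ) ≤
        (1 - 1 / 10 ^ 9 : ℝ) * Real.logb 2 n :=
      mul_le_mul_of_nonneg_left h3 (by norm_num)
    have h5 : (0 : ℝ) ≤ (ee 0 : ℝ) := by positivity
    push_cast
    linarith

end KExp
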