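import Pool.Agent.KExp.CSig2
import Pool.Agent.KExp.FBas

/-!
# The base pairs and `BCg` are `Sig1`

Paper proof of `sig_Pr`. `Pr J v τ` iff there is a list of moves
`(full or partial, w, y, l)` such that the computable function `run` (a `foldr` over the moves with
states `Bool × ℕ × List Bool × List Bool`, start `(true, 0, [], [])`; a move is legal if
`w.length = tt J`, `y.1, y.2 < 2^(qr J v)`, `l ≤ qr J v`) gives `(true, J, v, τ)` (induction on the
derivation, and on the list). `aa, qq, tt, qr` are primitive recursive.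
`sig_BCg`: as `sig_BC` in CSig2.lean with `q` for `9 ^ i`.
-/

set_option autoImplicit false

namespace KExp

open KRed AC Low4 Encodable

variable {R : List Bool × ℕ → ℕ → Bool}

section

variable {α : Type*} [Primcodable α]

theorem fp_aa {f : α → ℕ} (h : Primrec f) : Primrec fun a => aa (f a) := by
  have h1 : Primrec fun a => 1000 ^ (f a + 1) :=
    c1_pow.comp (Primrec.const 1000) (Primrec.succ.comp h)
  exact h1.of_eq fun a => by unfold aa; rfl

theorem fp_qq {f : α → ℕ} (h : Primrec f) : Primrec fun a => qq (f a) := by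
  have h1 : Primrec fun a => 2 ^ (48 * aa (f a)) :=
    c1_pow.comp (Primrec.const 2) (Primrec.nat_mul.comp (Primrec.const 48) (fp_aa h))
  exact h1.of_eq fun a => by unfold qq; rfl

theorem fp_tt {f : α → ℕ} (h : Primrec f) : Primrec fun a => tt (f a) := by
  have h1 : Primrec fun a => 4 * aa (f a) :=
    Primrec.nat_mul.comp (Primrec.const 4) (fp_aa h)
  exact h1.of_eq fun a => by unfold tt; rfl

theorem fp_qr {f : α → ℕ} {g : α → List Bool} (h : Primrec f) (hg : Primrec g) :
    Primrec fun a => qr (f a) (g a) := by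
  have h1 : Primrec fun a => qq (f a + 1) - (g a).length / 2 :=
    Primrec.nat_sub.comp (fp_qq (Primrec.succ.comp h))
      (Primrec.nat_div.comp (Primrec.list_length.comp hg) (Primrec.const 2))
  exact h1.of_eq fun a => by unfold qr; rfl

end

theorem computable_qr : Computable fun p : ℕ × List Bool => qr p.1 p.2 :=
  (fp_qr Primrec.fst Primrec.snd).to_comp

/-- a move: full or partial, word, pair, level -/
abbrev Mv : Type := Bool × List G × (ℕ × ℕ) × ℕ

/-- a state: legal up to now, range, pair of strings -/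
abbrev St : Type := Bool × ℕ × List Bool × List Bool

/-- a legal move -/
def legal (m : Mv) (s : St) : Bool :=
  s.1 && (decide (m.2.1.length = tt s.2.1) && (decide (m.2.2.1.1 < 2 ^ qr s.2.1 s.2.2.1) &&
    (decide (m.2.2.1.2 < 2 ^ qr s.2.1 s.2.2.1) && decide (m.2.2.2 ≤ qr s.2.1 s.2.2.1))))

/-- one step -/
def stp (m : Mv) (s : St) : St :=
  (legal m s, cond m.1
    (s.2.1 + 1, s.2.2.1 ++ str (qr s.2.1 s.2.2.1) m.2.2.1,
      s.2.2.2 ++ str (qr s.2.1 s.2.2.1) (act (2 ^ qr s.2.1 s.2.2.1) m.2.1 m.2.2.1))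
    (s.2.1 + 2, s.2.2.1 ++ str m.2.2.2 m.2.2.1,
      s.2.2.2 ++ str m.2.2.2 (act (2 ^ qr s.2.1 s.2.2.1) m.2.1 m.2.2.1)))

/-- run of a list of moves -/
def run (L : List Mv) : St := L.foldr (fun m s => stp m s) (true, 0, [], [])

theorem primrec_legal : Primrec fun x : Mv × St => legal x.1 x.2 := by
  have hJ : Primrec fun x : Mv × St => x.2.2.1 :=
    Primrec.fst.comp (Primrec.snd.comp Primrec.snd)
  have hv : Primrec fun x : Mv × St => x.2.2.2.1 :=
    Primrec.fst.comp (Primrec.snd.comp (Primrec.snd.comp Primrec.snd))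
  have hb : Primrec fun x : Mv × St => x.2.1 := Primrec.fst.comp Primrec.snd
  have hw : Primrec fun x : Mv × St => x.1.2.1 := Primrec.fst.comp (Primrec.snd.comp Primrec.fst)
  have hyl : Primrec fun x : Mv × St => x.1.2.2 := Primrec.snd.comp (Primrec.snd.comp Primrec.fst)
  have hy1 : Primrec fun x : Mv × St => x.1.2.2.1.1 := Primrec.fst.comp (Primrec.fst.comp hyl)
  have hy2 : Primrec fun x : Mv × St => x.1.2.2.1.2 := Primrec.snd.comp (Primrec.fst.comp hyl)
  have hl : Primrec fun x : Mv × St => x.1.2.2.2 := Primrec.snd.comp hyl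
  have hq : Primrec fun x : Mv × St => qr x.2.2.1 x.2.2.2.1 := fp_qr hJ hv
  have hM : Primrec fun x : Mv × St => 2 ^ qr x.2.2.1 x.2.2.2.1 :=
    c1_pow.comp (Primrec.const 2) hq
  have d1 : Primrec fun x : Mv × St => decide (x.1.2.1.length = tt x.2.2.1) :=
    (Primrec.eq (α := ℕ)).decide.comp (Primrec.list_length.comp hw) (fp_tt hJ)
  have d2 : Primrec fun x : Mv × St => decide (x.1.2.2.1.1 < 2 ^ qr x.2.2.1 x.2.2.2.1) :=
    Primrec.nat_lt.decide.comp hy1 hM
  have d3 : Primrec fun x : Mv × St => decide (x.1.2.2.1.2 < 2 ^ qr x.2.2.1 x.2.2.2.1) :=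
    Primrec.nat_lt.decide.comp hy2 hM
  have d4 : Primrec fun x : Mv × St => decide (x.1.2.2.2 ≤ qr x.2.2.1 x.2.2.2.1) :=
    Primrec.nat_le.decide.comp hl hq
  exact Primrec.and.comp hb (Primrec.and.comp d1 (Primrec.and.comp d2 (Primrec.and.comp d3 d4)))

theorem primrec_stp : Primrec fun x : Mv × St => stp x.1 x.2 := by
  have hJ : Primrec fun x : Mv × St => x.2.2.1 :=
    Primrec.fst.comp (Primrec.snd.comp Primrec.snd)
  have hv : Primrec fun x : Mv × St => x.2.2.2.1 :=
    Primrec.fst.comp (Primrec.snd.comp (Primrec.snd.comp Primrec.snd))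
  have hτ : Primrec fun x : Mv × St => x.2.2.2.2 :=
    Primrec.snd.comp (Primrec.snd.comp (Primrec.snd.comp Primrec.snd))
  have hf : Primrec fun x : Mv × St => x.1.1 := Primrec.fst.comp Primrec.fst
  have hw : Primrec fun x : Mv × St => x.1.2.1 := Primrec.fst.comp (Primrec.snd.comp Primrec.fst)
  have hyl : Primrec fun x : Mv × St => x.1.2.2 := Primrec.snd.comp (Primrec.snd.comp Primrec.fst)
  have hy : Primrec fun x : Mv × St => x.1.2.2.1 := Primrec.fst.comp hyl
  have hl : Primrec fun x : Mv × St => x.1.2.2.2 := Primrec.snd.comp hyl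
  have hq : Primrec fun x : Mv × St => qr x.2.2.1 x.2.2.2.1 := fp_qr hJ hv
  have hM : Primrec fun x : Mv × St => 2 ^ qr x.2.2.1 x.2.2.2.1 :=
    c1_pow.comp (Primrec.const 2) hq
  have ha : Primrec fun x : Mv × St => act (2 ^ qr x.2.2.1 x.2.2.2.1) x.1.2.1 x.1.2.2.1 :=
    primrec_act.comp (Primrec.pair hM (Primrec.pair hw hy))
  have e1 : Primrec fun x : Mv × St => str (qr x.2.2.1 x.2.2.2.1) x.1.2.2.1 :=
    primrec_str.comp (Primrec.pair hq hy)
  have e2 : Primrec fun x : Mv × St =>
      str (qr x.2.2.1 x.2.2.2.1) (act (2 ^ qr x.2.2.1 x.2.2.2.1) x.1.2.1 x.1.2.2.1) :=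
    primrec_str.comp (Primrec.pair hq ha)
  have e3 : Primrec fun x : Mv × St => str x.1.2.2.2 x.1.2.2.1 :=
    primrec_str.comp (Primrec.pair hl hy)
  have e4 : Primrec fun x : Mv × St =>
      str x.1.2.2.2 (act (2 ^ qr x.2.2.1 x.2.2.2.1) x.1.2.1 x.1.2.2.1) :=
    primrec_str.comp (Primrec.pair hl ha)
  have j1 : Primrec fun x : Mv × St => x.2.2.1 + 1 :=
    Primrec.nat_add.comp hJ (Primrec.const 1)
  have j2 : Primrec fun x : Mv × St => x.2.2.1 + 2 :=
    Primrec.nat_add.comp hJ (Primrec.const 2)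
  exact Primrec.pair primrec_legal (Primrec.cond hf
    (Primrec.pair j1 (Primrec.pair (Primrec.list_append.comp hv e1)
      (Primrec.list_append.comp hτ e2)))
    (Primrec.pair j2 (Primrec.pair (Primrec.list_append.comp hv e3)
      (Primrec.list_append.comp hτ e4))))

theorem primrec_run : Primrec run := by
  have h : Primrec fun L : List Mv => L.foldr (fun m s => stp m s) ((true, 0, [], []) : St) :=
    Primrec.list_foldr (f := fun L : List Mv => L) (g := fun _ => ((true, 0, [], []) : St))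
      (h := fun (_ : List Mv) (x : Mv × St) => stp x.1 x.2) Primrec.id (Primrec.const _)
      (primrec_stp.comp Primrec.snd)
  exact h

theorem legal_iff (m : Mv) (s : St) : legal m s = true ↔ s.1 = true ∧
    m.2.1 ∈ words (tt s.2.1) ∧ m.2.2.1 ∈ box (2 ^ qr s.2.1 s.2.2.1) ∧
    m.2.2.2 ≤ qr s.2.1 s.2.2.1 := by
  unfold legal
  rw [Bool.and_eq_true, Bool.and_eq_true, Bool.and_eq_true, Bool.and_eq_true, decide_eq_true_eq,
    decide_eq_true_eq, decide_eq_true_eq, decide_eq_true_eq, mem_words, mem_box]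
  exact ⟨fun ⟨h1, h2, h3, h4, h5⟩ => ⟨h1, h2, ⟨h3, h4⟩, h5⟩,
    fun ⟨h1, h2, ⟨h3, h4⟩, h5⟩ => ⟨h1, h2, h3, h4, h5⟩⟩

theorem run_cons (m : Mv) (L : List Mv) : run (m :: L) = stp m (run L) := by
  unfold run
  rw [List.foldr_cons]

theorem exists_run {J : ℕ} {v τ : List Bool} (h : Pr J v τ) : ∃ L, run L = (true, J, v, τ) := by
  induction h with
  | nil => exact ⟨[], by unfold run; rw [List.foldr_nil]⟩
  | @full J v τ w y _ hw hy ih =>
    obtain ⟨L, hL⟩ := ih
    refine ⟨(true, w, y, 0) :: L, ?_⟩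
    rw [run_cons, hL]
    have h1 : legal (true, w, y, 0) (true, J, v, τ) = true :=
      (legal_iff _ _).2 ⟨rfl, hw, hy, Nat.zero_le _⟩
    unfold stp
    rw [h1]
    rfl
  | @part J l v τ w y _ hw hy hl ih =>
    obtain ⟨L, hL⟩ := ih
    refine ⟨(false, w, y, l) :: L, ?_⟩
    rw [run_cons, hL]
    have h1 : legal (false, w, y, l) (true, J, v, τ) = true :=
      (legal_iff _ _).2 ⟨rfl, hw, hy, hl⟩
    unfold stp
    rw [h1]
    rfl

theorem pr_of_run (L : List Mv) : (run L).1 = true → Pr (run L).2.1 (run L).2.2.1 (run L).2.2.2 := by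
  induction L with
  | nil =>
    intro _
    have h : run [] = (true, 0, [], []) := by unfold run; rw [List.foldr_nil]
    rw [h]
    exact Pr.nil
  | cons m L ih =>
    rw [run_cons]
    generalize run L = s at ih ⊢
    obtain ⟨b, J, v, τ⟩ := s
    obtain ⟨f, w, y, l⟩ := m
    intro h
    have h1 : legal (f, w, y, l) (b, J, v, τ) = true := h
    obtain ⟨h2, h3, h4, h5⟩ := (legal_iff _ _).1 h1
    have h6 := ih h2
    cases f with
    | true => exact Pr.full h6 h3 h4
    | false => exact Pr.part h6 h3 h4 h5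

theorem sig_Pr : Sig1 fun p : ℕ × List Bool × List Bool => Pr p.1 p.2.1 p.2.2 := by
  have h1 : Computable fun x : (ℕ × List Bool × List Bool) × List Mv => run x.2 :=
    primrec_run.to_comp.comp Computable.snd
  have h2 : Computable fun x : (ℕ × List Bool × List Bool) × List Mv => ((true, x.1) : St) :=
    Computable.pair (Computable.const true) Computable.fst
  refine (Sig1.ex (p := fun (x : ℕ × List Bool × List Bool) (L : List Mv) =>
    run L = ((true, x) : St)) (c1_eq h1 h2)).of_eq fun x => ?_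
  obtain ⟨J, v, τ⟩ := x
  constructor
  · rintro ⟨L, hL⟩
    have h3 := pr_of_run L (by rw [hL])
    rw [hL] at h3
    exact h3
  · intro h
    exact exists_run h

end KExp
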