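import Pool.Agent.KExp.FCnt
import Pool.Agent.KExp.FEe
import Pool.Agent.KExp.WtV
import Pool.Agent.KExp.Wt

/-!
# The weight of the requests of the first kind

Paper proof. As `weight_RC3` in CWtV.lean (first part). For a base pair `(v, τ)` and a word `w` the
map `str k y ↦ str k (act w y)` is a bijection of `bs (2k)` for every `k ≤ qr J v`. So the weight is
`≤ ∑_{(v,τ) ∈ PF J} ∑_{w ∈ words (tt J)} ∑_k ∑_{ν ∈ bs (2k)} 2 · 2^(-KS (τ ++ ν) - ee)`
with `2 qq J < |τ ++ ν|` (`|v| = |τ|`), so `ee ≥ 47 aa J` (`ee_ge`). Collect the terms of a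
string `z = τ ++ ν`: `(v, τ)` has `τ <+: z`, so there are at most `2^(aa J / 10)` pairs
(`card_prefix`), and `8^(tt J) = 2^(12 aa J)` words. Hence the weight is
`≤ 2^(aa J / 10) · 2^(12 aa J) · 2 · 2^(-47 aa J) · ∑_z 2^(-KS z)`, and the last sum is `≤ 1`
(`kraft_KS`). In total `≤ 2^(-30 aa J) ≤ 2^(-J-2)`.
-/

set_option autoImplicit false

namespace KExp

open KRed AC Low4
open scoped ENNReal

open Classical in
/-- the string given by a base pair, a word and an initial segment -/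
private noncomputable def f1Z (J : ℕ) (x : List Bool × List Bool) (w : List G) (k : ℕ)
    (ν : List Bool) : List Bool :=
  x.2 ++ str k (act (2 ^ qr J x.1) w (wtvRep (qr J x.1) k ν))

open Classical in
/-- bound for one string and one length of the code -/
private noncomputable def f1F (U : List Bool →. ℕ) (J : ℕ) (x : List Bool × List Bool)
    (w : List G) (k : ℕ) (ν : List Bool) (κ : ℕ) : ℝ≥0∞ :=
  if KS U (f1Z J x w k ν) + 47 * aa J ≤ κ then (1 / 2 : ℝ≥0∞) ^ κ else 0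

open Classical in
private theorem f1_point (U : List Bool →. ℕ) (J : ℕ) (ρ : List Bool) (κ : ℕ) :
    (if RF1 U J ρ κ then (1 / 2 : ℝ≥0∞) ^ κ else 0) ≤
      ∑ w ∈ words (tt J), ∑ x ∈ PF J, ∑ k ∈ Finset.range (qr J x.1 + 1),
        ∑ ν ∈ wtvA (qr J x.1) k, (if ρ = x.1 ++ ν then f1F U J x w k ν κ else 0) := by
  split_ifs with h
  · obtain ⟨v, τ, w, y, k, hP, hw, hy, hk, hρ, hl, h⟩ := h
    have hA : str k y ∈ wtvA (qr J v) k := Finset.mem_image.2 ⟨y, hy, rfl⟩
    obtain ⟨h1, h2⟩ := wtvRep_spec hA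
    have hx : (v, τ) ∈ PF J := mem_PF.2 hP
    obtain ⟨b, hb, hb1, hb2⟩ := Pr_len hP
    have hlen : ρ.length = 2 * b + 2 * k := by
      rw [hρ, List.length_append, length_str, hb1]
    have he : 47 * aa J ≤ ee (ρ.length / 2) := ee_ge (by omega)
    have h5 : f1Z J (v, τ) w k (str k y) = τ ++ str k (act (2 ^ qr J v) w y) := by
      unfold f1Z
      simp only
      rw [(act_str hk w).2 h2]
    have h6 : KS U (f1Z J (v, τ) w k (str k y)) + 47 * aa J ≤ κ := by
      rw [h5]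
      exact (Nat.add_le_add_left he _).trans h
    have h7 : (1 / 2 : ℝ≥0∞) ^ κ =
        (if ρ = v ++ str k y then f1F U J (v, τ) w k (str k y) κ else 0) := by
      unfold f1F
      rw [if_pos hρ, if_pos h6]
    have h8 := Finset.single_le_sum (f := fun ν =>
      (if ρ = v ++ ν then f1F U J (v, τ) w k ν κ else 0)) (fun _ _ => bot_le) hA
    have h9 := Finset.single_le_sum (f := fun k => ∑ ν ∈ wtvA (qr J v) k,
      (if ρ = v ++ ν then f1F U J (v, τ) w k ν κ else 0)) (fun _ _ => bot_le)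
      (Finset.mem_range.2 (Nat.lt_succ_of_le hk))
    have h10 := Finset.single_le_sum (f := fun x : List Bool × List Bool =>
      ∑ k ∈ Finset.range (qr J x.1 + 1), ∑ ν ∈ wtvA (qr J x.1) k,
      (if ρ = x.1 ++ ν then f1F U J x w k ν κ else 0)) (fun _ _ => bot_le) hx
    have h11 := Finset.single_le_sum (f := fun w => ∑ x ∈ PF J,
      ∑ k ∈ Finset.range (qr J x.1 + 1), ∑ ν ∈ wtvA (qr J x.1) k,
      (if ρ = x.1 ++ ν then f1F U J x w k ν κ else 0)) (fun _ _ => bot_le) hw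
    exact h7.le.trans (h8.trans (h9.trans (h10.trans h11)))
  · exact bot_le

/-- the strings of a base pair -/
private noncomputable def f1I (J : ℕ) (w : List G) (x : List Bool × List Bool) :
    Finset (List Bool) :=
  ((Finset.range (qr J x.1 + 1)).sigma fun k => wtvA (qr J x.1) k).image
    fun p : (_ : ℕ) × List Bool => f1Z J x w p.1 p.2

private theorem f1_inj (J : ℕ) (w : List G) (x : List Bool × List Bool) :
    Set.InjOn (fun p : (_ : ℕ) × List Bool => f1Z J x w p.1 p.2)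
      (((Finset.range (qr J x.1 + 1)).sigma fun k => wtvA (qr J x.1) k :
        Finset ((_ : ℕ) × List Bool)) : Set ((_ : ℕ) × List Bool)) := by
  rintro ⟨k, ν⟩ hx ⟨l, ν'⟩ hy hxy
  rw [Finset.mem_coe, Finset.mem_sigma] at hx hy
  simp only at hxy hx hy
  unfold f1Z at hxy
  have h1 := List.append_cancel_left hxy
  have h2 := congrArg List.length h1
  rw [length_str, length_str] at h2
  obtain rfl : k = l := by omega
  have h3 := (act_str (Nat.lt_succ_iff.1 (Finset.mem_range.1 hx.1)) w).1 h1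
  rw [(wtvRep_spec hx.2).2, (wtvRep_spec hy.2).2] at h3
  rw [h3]

open Classical in
/-- the sum of the weights of the strings, for one word -/
private theorem f1_first {U : List Bool →. ℕ} (hU : IsOptimal ∅ U) (J : ℕ) (w : List G) :
    ∑ x ∈ PF J, ∑ k ∈ Finset.range (qr J x.1 + 1), ∑ ν ∈ wtvA (qr J x.1) k,
      (1 / 2 : ℝ≥0∞) ^ KS U (f1Z J x w k ν) ≤ 2 ^ (aa J / 10) := by
  set T := (PF J).biUnion fun x => f1I J w x with hT
  have h1 : ∀ x ∈ PF J, ∑ k ∈ Finset.range (qr J x.1 + 1), ∑ ν ∈ wtvA (qr J x.1) k,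
      (1 / 2 : ℝ≥0∞) ^ KS U (f1Z J x w k ν) ≤
      ∑ z ∈ T, (if x.2 <+: z then (1 / 2 : ℝ≥0∞) ^ KS U z else 0) := by
    intro x hx
    rw [Finset.sum_sigma', ← Finset.sum_image (f := fun z => (1 / 2 : ℝ≥0∞) ^ KS U z)
      (f1_inj J w x), ← Finset.sum_filter]
    refine Finset.sum_le_sum_of_subset ?_
    intro z hz
    refine Finset.mem_filter.2 ⟨Finset.mem_biUnion.2 ⟨x, hx, hz⟩, ?_⟩
    obtain ⟨p, -, rfl⟩ := Finset.mem_image.1 hz
    exact List.prefix_append _ _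
  refine (Finset.sum_le_sum h1).trans ?_
  rw [Finset.sum_comm]
  have h2 : ∀ z ∈ T, ∑ x ∈ PF J, (if x.2 <+: z then (1 / 2 : ℝ≥0∞) ^ KS U z else 0) ≤
      2 ^ (aa J / 10) * (1 / 2 : ℝ≥0∞) ^ KS U z := by
    intro z _
    rw [← Finset.sum_filter, Finset.sum_const, nsmul_eq_mul]
    refine mul_le_mul' ?_ le_rfl
    have h3 : ((((PF J).filter fun x => x.2 <+: z).card : ℕ) : ℝ≥0∞) ≤
        ((2 ^ (aa J / 10) : ℕ) : ℝ≥0∞) := Nat.cast_le.2 (card_prefix J z)
    rw [Nat.cast_pow] at h3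
    exact h3
  refine (Finset.sum_le_sum h2).trans ?_
  rw [← Finset.mul_sum]
  calc (2 : ℝ≥0∞) ^ (aa J / 10) * ∑ z ∈ T, (1 / 2 : ℝ≥0∞) ^ KS U z
      ≤ 2 ^ (aa J / 10) * 1 := mul_le_mul' le_rfl (sum_ennreal_le _ _ (kraft_KS hU _))
    _ = _ := mul_one _

private theorem f1_num (J : ℕ) : ∃ a r, aa J / 10 = a ∧
    47 * aa J = (12 * aa J + a + 1) + (J + 2) + r := by
  have h1 : aa J = 1000 * 1000 ^ J := by
    unfold aa
    rw [pow_succ, mul_comm]
  have h2 : J < 1000 ^ J := Nat.lt_pow_self (by norm_num)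
  refine ⟨_, 47 * aa J - ((12 * aa J + aa J / 10 + 1) + (J + 2)), rfl, ?_⟩
  generalize 1000 ^ J = t at h1 h2
  omega

open Classical in
theorem weight_RF1 {U : List Bool →. ℕ} (hU : IsOptimal ∅ U) (J : ℕ) :
    ∑' x : List Bool × ℕ, (if RF1 U J x.1 x.2 then (1 / 2 : ℝ≥0∞) ^ x.2 else 0) ≤
      (1 / 2) ^ (J + 2) := by
  refine (ENNReal.tsum_le_tsum fun x : List Bool × ℕ => f1_point U J x.1 x.2).trans ?_
  rw [Summable.tsum_finsetSum fun _ _ => ENNReal.summable]
  have h1 : ∀ w ∈ words (tt J), ∑' y : List Bool × ℕ, ∑ x ∈ PF J,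
      ∑ k ∈ Finset.range (qr J x.1 + 1), ∑ ν ∈ wtvA (qr J x.1) k,
        (if y.1 = x.1 ++ ν then f1F U J x w k ν y.2 else 0) ≤
      2 * (1 / 2) ^ (47 * aa J) * 2 ^ (aa J / 10) := by
    intro w _
    rw [Summable.tsum_finsetSum fun _ _ => ENNReal.summable]
    have h2 : ∀ x ∈ PF J, ∑' y : List Bool × ℕ,
        ∑ k ∈ Finset.range (qr J x.1 + 1), ∑ ν ∈ wtvA (qr J x.1) k,
          (if y.1 = x.1 ++ ν then f1F U J x w k ν y.2 else 0) =
        2 * (1 / 2) ^ (47 * aa J) * ∑ k ∈ Finset.range (qr J x.1 + 1),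
          ∑ ν ∈ wtvA (qr J x.1) k, (1 / 2 : ℝ≥0∞) ^ KS U (f1Z J x w k ν) := by
      intro x _
      rw [Summable.tsum_finsetSum fun _ _ => ENNReal.summable, Finset.mul_sum]
      refine Finset.sum_congr rfl fun k _ => ?_
      rw [Summable.tsum_finsetSum fun _ _ => ENNReal.summable, Finset.mul_sum]
      refine Finset.sum_congr rfl fun ν _ => ?_
      refine (wtv_single (x.1 ++ ν) (f1F U J x w k ν)).trans ?_
      unfold f1F
      rw [wtv_tail, pow_add]
      ring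
    rw [Finset.sum_congr rfl h2, ← Finset.mul_sum]
    exact mul_le_mul' le_rfl (f1_first hU J w)
  refine (Finset.sum_le_sum h1).trans ?_
  rw [Finset.sum_const, card_words, nsmul_eq_mul]
  have h3 : (((8 : ℕ) ^ tt J : ℕ) : ℝ≥0∞) = 2 ^ (12 * aa J) := by
    have h4 : (8 : ℕ) ^ tt J = 2 ^ (12 * aa J) := by
      unfold tt
      rw [show (8 : ℕ) = 2 ^ 3 by norm_num, ← pow_mul]
      congr 1
      ring
    rw [h4, Nat.cast_pow]
    rfl
  rw [h3]
  obtain ⟨a, r, ha, haa⟩ := f1_num J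
  rw [ha, haa]
  generalize 12 * aa J = d
  calc (2 : ℝ≥0∞) ^ d * (2 * (1 / 2) ^ (d + a + 1 + (J + 2) + r) * 2 ^ a)
      = ((1 / 2) ^ (d + a + 1) * 2 ^ (d + a + 1)) * ((1 / 2) ^ (J + 2) * (1 / 2) ^ r) := by
        rw [pow_add _ (d + a + 1 + (J + 2)) r, pow_add _ (d + a + 1) (J + 2),
          pow_succ 2 (d + a), pow_add 2 d a]
        ring
    _ ≤ 1 * ((1 / 2) ^ (J + 2) * 1) := by
        rw [half_pow_mul]
        refine mul_le_mul' le_rfl (mul_le_mul' le_rfl (pow_le_one' ?_ r))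
        rw [one_div]
        exact ENNReal.inv_le_one.2 (by norm_num)
    _ = (1 / 2) ^ (J + 2) := by rw [one_mul, mul_one]

end KExp
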