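import Pool.Agent.KExp.GapW

/-!
# The spectral gap (Fourier transform, from `weighted`; paper proof in GapP.lean)
-/

set_option autoImplicit false

namespace KExp

open ZMod

/-- the Fourier transform on pairs -/
noncomputable def FT (n : ℕ) [NeZero n] (f : ZMod n × ZMod n → ℝ) (w : ZMod n × ZMod n) : ℂ :=
  ∑ z : ZMod n × ZMod n, (f z : ℂ) * (stdAddChar (z.1 * w.1 + z.2 * w.2) : ℂ)

theorem orth1 (n : ℕ) [NeZero n] (x : ZMod n) :
    ∑ w : ZMod n, (stdAddChar (x * w) : ℂ) = if x = 0 then (n : ℂ) else 0 := by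
  have h := AddChar.sum_mulShift x (isPrimitive_stdAddChar n)
  rw [ZMod.card] at h
  have e : ∑ w : ZMod n, (stdAddChar (x * w) : ℂ) = ∑ w : ZMod n, (stdAddChar (w * x) : ℂ) :=
    Finset.sum_congr rfl fun w _ => by rw [mul_comm]
  rw [e, h]
  split_ifs <;> simp

theorem orth (n : ℕ) [NeZero n] (x : ZMod n × ZMod n) :
    ∑ w : ZMod n × ZMod n, (stdAddChar (x.1 * w.1 + x.2 * w.2) : ℂ) =
      if x = 0 then (n : ℂ) ^ 2 else 0 := by
  rw [Fintype.sum_prod_type]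
  have : ∀ a b : ZMod n, (stdAddChar (x.1 * a + x.2 * b) : ℂ) =
      stdAddChar (x.1 * a) * stdAddChar (x.2 * b) := fun a b => AddChar.map_add_eq_mul _ _ _
  simp only [this, ← Finset.mul_sum, ← Finset.sum_mul, orth1]
  by_cases h1 : x.1 = 0 <;> by_cases h2 : x.2 = 0 <;> simp [h1, h2, Prod.ext_iff, sq]

theorem conj_FT (n : ℕ) [NeZero n] (f : ZMod n × ZMod n → ℝ) (w : ZMod n × ZMod n) :
    (starRingEnd ℂ) (FT n f w) =
      ∑ z : ZMod n × ZMod n, (f z : ℂ) * (stdAddChar (-(z.1 * w.1 + z.2 * w.2)) : ℂ) := by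
  rw [FT, map_sum]
  refine Finset.sum_congr rfl fun z _ => ?_
  rw [map_mul, Complex.conj_ofReal, AddChar.map_neg_eq_conj]

theorem parseval (n : ℕ) [NeZero n] (f g : ZMod n × ZMod n → ℝ) :
    ∑ w, (starRingEnd ℂ) (FT n f w) * FT n g w = (n : ℂ) ^ 2 * ((∑ z, f z * g z : ℝ) : ℂ) := by
  have h1 : ∀ w : ZMod n × ZMod n, (starRingEnd ℂ) (FT n f w) * FT n g w =
      ∑ z : ZMod n × ZMod n, ∑ z' : ZMod n × ZMod n, (f z : ℂ) * (g z' : ℂ) *
        (stdAddChar ((z' - z).1 * w.1 + (z' - z).2 * w.2) : ℂ) := by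
    intro w
    rw [conj_FT, FT, Finset.sum_mul_sum]
    refine Finset.sum_congr rfl fun z _ => Finset.sum_congr rfl fun z' _ => ?_
    have : (z' - z).1 * w.1 + (z' - z).2 * w.2 =
        -(z.1 * w.1 + z.2 * w.2) + (z'.1 * w.1 + z'.2 * w.2) := by
      simp only [Prod.fst_sub, Prod.snd_sub]; ring
    rw [this, AddChar.map_add_eq_mul _ (-(z.1 * w.1 + z.2 * w.2)) (z'.1 * w.1 + z'.2 * w.2)]
    generalize (stdAddChar (-(z.1 * w.1 + z.2 * w.2)) : ℂ) = A
    generalize (stdAddChar (z'.1 * w.1 + z'.2 * w.2) : ℂ) = B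
    ring
  simp only [h1]
  rw [Finset.sum_comm]
  have h2 : ∀ z : ZMod n × ZMod n, ∑ w : ZMod n × ZMod n, ∑ z' : ZMod n × ZMod n,
      (f z : ℂ) * (g z' : ℂ) * (stdAddChar ((z' - z).1 * w.1 + (z' - z).2 * w.2) : ℂ) =
      (n : ℂ) ^ 2 * ((f z * g z : ℝ) : ℂ) := by
    intro z
    rw [Finset.sum_comm]
    simp only [← Finset.mul_sum, orth]
    rw [Finset.sum_eq_single z]
    · simp; ring
    · intro b _ hb
      rw [if_neg (sub_ne_zero.2 hb), mul_zero]
    · simp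
  simp only [h2]
  rw [← Finset.mul_sum]
  push_cast
  rfl

theorem norm_one_add (n : ℕ) [NeZero n] (u : ZMod n) :
    ‖1 + (stdAddChar (-u) : ℂ)‖ = 2 * cc u := by
  have hn : (0 : ℝ) < n := by exact_mod_cast NeZero.pos n
  have h1 : (stdAddChar (-u) : ℂ) = Complex.exp (2 * Real.pi * Complex.I * ((-u.valMinAbs : ℤ) : ℂ) / n) := by
    rw [← stdAddChar_coe, Int.cast_neg, coe_valMinAbs]
  set t : ℝ := Real.pi * (u.valMinAbs : ℝ) / n with ht
  have h2 : (stdAddChar (-u) : ℂ) = Complex.exp (-(t : ℂ) * Complex.I) ^ 2 := by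
    rw [h1, ← Complex.exp_nat_mul, ht]
    push_cast
    congr 1
    ring
  have h3 : (1 : ℂ) + stdAddChar (-u) = Complex.exp (-(t : ℂ) * Complex.I) * (2 * Complex.cos t) := by
    rw [h2, Complex.two_cos]
    rw [mul_add, ← Complex.exp_add, ← Complex.exp_add, sq, ← Complex.exp_add]
    congr 1
    · rw [show -(t : ℂ) * Complex.I + (t : ℂ) * Complex.I = 0 by ring, Complex.exp_zero]
  rw [h3, norm_mul, norm_mul]
  have h4 : ‖Complex.exp (-(t : ℂ) * Complex.I)‖ = 1 := by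
    have := Complex.norm_exp_ofReal_mul_I (-t)
    push_cast at this
    exact this
  have h5 : Real.cos t = cc u := by
    rw [cc, ht, ← Real.cos_abs, abs_div, abs_mul, abs_of_pos Real.pi_pos, abs_of_pos hn, ab]
    congr 2
    rw [Nat.cast_natAbs, Int.cast_abs]
  have h6 : 0 ≤ cc u := by
    rw [cc]
    apply Real.cos_nonneg_of_neg_pi_div_two_le_of_le
    · have : 0 ≤ Real.pi * ab u / n := by positivity
      linarith [Real.pi_pos]
    · have h := ZMod.natAbs_valMinAbs_le u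
      have h' : (ab u : ℝ) ≤ n / 2 := by
        have : ab u * 2 ≤ n := by unfold ab; omega
        have : (ab u : ℝ) * 2 ≤ n := by exact_mod_cast this
        linarith
      rw [div_le_iff₀ hn]
      nlinarith [Real.pi_pos]
  rw [h4, one_mul, ← Complex.ofReal_cos, Complex.norm_real, Real.norm_eq_abs, h5, abs_of_nonneg h6]
  simp

/-- shift of the first coordinate -/
theorem FT_T1 (n : ℕ) [NeZero n] (f : ZMod n × ZMod n → ℝ) (c : ZMod n) (w : ZMod n × ZMod n) :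
    FT n (fun z => f (z.1 + 2 * z.2 + c, z.2)) w =
      stdAddChar (-(c * w.1)) * FT n f (w.1, w.2 - 2 * w.1) := by
  rw [FT, FT, Finset.mul_sum]
  let E : ZMod n × ZMod n ≃ ZMod n × ZMod n :=
    ⟨fun z => (z.1 + 2 * z.2 + c, z.2), fun z => (z.1 - 2 * z.2 - c, z.2),
      fun z => by ext <;> simp <;> ring, fun z => by ext <;> simp <;> ring⟩
  refine Fintype.sum_equiv E _ _ fun z => ?_
  simp only [E, Equiv.coe_fn_mk]
  rw [mul_left_comm, ← AddChar.map_add_eq_mul]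
  congr 2
  ring

theorem FT_T2 (n : ℕ) [NeZero n] (f : ZMod n × ZMod n → ℝ) (c : ZMod n) (w : ZMod n × ZMod n) :
    FT n (fun z => f (z.1, z.2 + 2 * z.1 + c)) w =
      stdAddChar (-(c * w.2)) * FT n f (w.1 - 2 * w.2, w.2) := by
  rw [FT, FT, Finset.mul_sum]
  let E : ZMod n × ZMod n ≃ ZMod n × ZMod n :=
    ⟨fun z => (z.1, z.2 + 2 * z.1 + c), fun z => (z.1, z.2 - 2 * z.1 - c),
      fun z => by ext <;> simp <;> ring, fun z => by ext <;> simp <;> ring⟩
  refine Fintype.sum_equiv E _ _ fun z => ?_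
  simp only [E, Equiv.coe_fn_mk]
  rw [mul_left_comm, ← AddChar.map_add_eq_mul]
  congr 2
  ring

/-- the sum over the eight maps -/
theorem sum_gen (n : ℕ) [NeZero n] (f : ZMod n × ZMod n → ℝ) :
    ∑ z, f z * ∑ g : G, f (genR g z) =
      2 * ((∑ z, f z * f (z.1 + 2 * z.2 + 0, z.2)) + (∑ z, f z * f (z.1 + 2 * z.2 + 1, z.2)) +
        ((∑ z, f z * f (z.1, z.2 + 2 * z.1 + 0)) + ∑ z, f z * f (z.1, z.2 + 2 * z.1 + 1))) := by
  have e1 : ∀ c : ZMod n, ∑ z : ZMod n × ZMod n, f z * f (z.1 - 2 * z.2 - c, z.2) =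
      ∑ z : ZMod n × ZMod n, f z * f (z.1 + 2 * z.2 + c, z.2) := by
    intro c
    let E : ZMod n × ZMod n ≃ ZMod n × ZMod n :=
      ⟨fun z => (z.1 - 2 * z.2 - c, z.2), fun z => (z.1 + 2 * z.2 + c, z.2),
        fun z => by ext <;> simp <;> ring, fun z => by ext <;> simp <;> ring⟩
    refine Fintype.sum_equiv E _ _ fun z => ?_
    simp only [E, Equiv.coe_fn_mk]
    rw [mul_comm]
    congr 2
    ext <;> simp <;> ring
  have e2 : ∀ c : ZMod n, ∑ z : ZMod n × ZMod n, f z * f (z.1, z.2 - 2 * z.1 - c) =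
      ∑ z : ZMod n × ZMod n, f z * f (z.1, z.2 + 2 * z.1 + c) := by
    intro c
    let E : ZMod n × ZMod n ≃ ZMod n × ZMod n :=
      ⟨fun z => (z.1, z.2 - 2 * z.1 - c), fun z => (z.1, z.2 + 2 * z.1 + c),
        fun z => by ext <;> simp <;> ring, fun z => by ext <;> simp <;> ring⟩
    refine Fintype.sum_equiv E _ _ fun z => ?_
    simp only [E, Equiv.coe_fn_mk]
    rw [mul_comm]
    congr 2
    ext <;> simp <;> ring
  have e3 : ∀ z : ZMod n × ZMod n, f z * ∑ g : G, f (genR g z) =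
      (f z * f (z.1 - 2 * z.2 - 0, z.2) + f z * f (z.1 - 2 * z.2 - 1, z.2)) +
      (f z * f (z.1, z.2 - 2 * z.1 - 0) + f z * f (z.1, z.2 - 2 * z.1 - 1)) +
      ((f z * f (z.1 + 2 * z.2 + 0, z.2) + f z * f (z.1 + 2 * z.2 + 1, z.2)) +
      (f z * f (z.1, z.2 + 2 * z.1 + 0) + f z * f (z.1, z.2 + 2 * z.1 + 1))) := by
    intro z
    simp only [Fintype.sum_prod_type, Fintype.sum_bool, genR, shR, cond_true, cond_false]
    ring
  simp only [e3, Finset.sum_add_distrib, e1, e2]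
  ring

/-- the spectral gap -/
theorem gap (n : ℕ) [NeZero n] (f : ZMod n × ZMod n → ℝ) (h0 : ∑ z, f z = 0) :
    |∑ z, f z * ∑ g : G, f (genR g z)| ≤ 73 / 10 * ∑ z, f z ^ 2 := by
  have hn : (0 : ℝ) < (n : ℝ) ^ 2 := by
    have : (0 : ℝ) < n := by exact_mod_cast NeZero.pos n
    positivity
  set S : ℝ := (∑ z, f z * f (z.1 + 2 * z.2 + 0, z.2)) + (∑ z, f z * f (z.1 + 2 * z.2 + 1, z.2)) +
        ((∑ z, f z * f (z.1, z.2 + 2 * z.1 + 0)) + ∑ z, f z * f (z.1, z.2 + 2 * z.1 + 1)) with hS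
  have hF0 : FT n f (0, 0) = 0 := by
    rw [FT]
    simp only [mul_zero, add_zero, AddChar.map_zero_eq_one, mul_one]
    exact_mod_cast h0
  have key : (n : ℂ) ^ 2 * (S : ℂ) = ∑ w : ZMod n × ZMod n,
      ((starRingEnd ℂ) (FT n f w) * ((1 + (stdAddChar (-w.1) : ℂ)) * FT n f (w.1, w.2 - 2 * w.1)) +
       (starRingEnd ℂ) (FT n f w) * ((1 + (stdAddChar (-w.2) : ℂ)) * FT n f (w.1 - 2 * w.2, w.2))) := by
    rw [hS]
    push_cast
    have p1 := parseval n f (fun z => f (z.1 + 2 * z.2 + 0, z.2))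
    have p2 := parseval n f (fun z => f (z.1 + 2 * z.2 + 1, z.2))
    have p3 := parseval n f (fun z => f (z.1, z.2 + 2 * z.1 + 0))
    have p4 := parseval n f (fun z => f (z.1, z.2 + 2 * z.1 + 1))
    simp only [FT_T1, FT_T2] at p1 p2 p3 p4
    push_cast at p1 p2 p3 p4
    rw [mul_add, mul_add, mul_add, ← p1, ← p2, ← p3, ← p4, ← Finset.sum_add_distrib,
      ← Finset.sum_add_distrib, ← Finset.sum_add_distrib]
    refine Finset.sum_congr rfl fun w _ => ?_
    simp only [zero_mul, neg_zero, AddChar.map_zero_eq_one, one_mul]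
    ring
  have hP : ∑ w, ‖FT n f w‖ ^ 2 = (n : ℝ) ^ 2 * ∑ z, f z ^ 2 := by
    have p := parseval n f f
    have q : ∀ w, (starRingEnd ℂ) (FT n f w) * FT n f w = ((‖FT n f w‖ ^ 2 : ℝ) : ℂ) := by
      intro w
      rw [mul_comm, Complex.mul_conj, Complex.normSq_eq_norm_sq]
    simp only [q] at p
    rw [← Complex.ofReal_sum] at p
    have : ((∑ w, ‖FT n f w‖ ^ 2 : ℝ) : ℂ) = (((n : ℝ) ^ 2 * ∑ z, f z ^ 2 : ℝ) : ℂ) := by
      rw [p]
      push_cast
      simp only [sq]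
    exact_mod_cast this
  have hw := weighted n (fun w => ‖FT n f w‖) (fun _ => norm_nonneg _) (by simp [hF0])
  have hb : (n : ℝ) ^ 2 * |S| ≤ 73 / 20 * ((n : ℝ) ^ 2 * ∑ z, f z ^ 2) := by
    rw [← hP]
    refine le_trans ?_ hw
    have : (n : ℝ) ^ 2 * |S| = ‖(n : ℂ) ^ 2 * (S : ℂ)‖ := by
      rw [norm_mul, norm_pow, Complex.norm_natCast, Complex.norm_real, Real.norm_eq_abs]
    rw [this, key]
    refine (norm_sum_le _ _).trans (Finset.sum_le_sum fun w _ => ?_)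
    refine (norm_add_le _ _).trans (le_of_eq ?_)
    rw [norm_mul, norm_mul, norm_mul, norm_mul, norm_one_add, norm_one_add, RCLike.norm_conj]
    ring
  rw [sum_gen, ← hS, abs_mul, abs_two]
  have hb' : |S| ≤ 73 / 20 * ∑ z, f z ^ 2 := by
    have : (n : ℝ) ^ 2 * |S| ≤ (n : ℝ) ^ 2 * (73 / 20 * ∑ z, f z ^ 2) := by linarith
    exact le_of_mul_le_mul_left this hn
  linarith

end KExp
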