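import Pool.Agent.KExp.Defs

/-!
# The spectral gap of the Gabber-Galil maps (pure Mathlib, no computability)

Paper proof (Jimbo-Maruoka, as in the survey of Hoory, Linial, Wigderson, section 8). Let
`e : ZMod n → ℂ` be the standard additive character, `F(u,v) = ∑_{x,y} f(x,y) e(x u + y v)`, so
`F(0,0) = 0`. Parseval: `∑ conj F G = n² ∑ f g` (orthogonality: `∑_u e(u x) = n` if `x = 0`, else
`0`). The inverse pairs give (substitute in the sum over `z`)
`∑_z f(z) ∑_g f(g z) = 2 ∑_z f(z) [f(T1 z) + f(T1' z) + f(T2 z) + f(T2' z)]`,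
`T1 (a,b) = (a+2b, b)`, `T1' (a,b) = (a+2b+1, b)`, `T2 (a,b) = (a, b+2a)`, `T2' (a,b) = (a, b+2a+1)`.
The transform of `f ∘ T1` is `F(u, v - 2u)`, of `f ∘ T1'` it is `e(-u) F(u, v - 2u)`, of `f ∘ T2`
it is `F(u - 2v, v)`, of `f ∘ T2'` it is `e(-v) F(u - 2v, v)`. And `|1 + e(-u)| = 2 c(u)` with
`c(u) = |cos(π u.val / n)| = cos (π |u| / n)`, `|u| = u.valMinAbs.natAbs`. Hence with `H = |F|`,
`H(0,0) = 0`: `|∑_z f(z) ∑_g f(g z)| ≤ (2/n²) ∑_{u,v} [2 c(u) H(u,v) H(u,v-2u) + 2 c(v) H(u,v) H(u-2v,v)]`.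
Use `2 H(z) H(z') ≤ h(s,t) H(z)² + h(t,s) H(z')²` with `h(s,t) = 4/5` if `s < t`, `5/4` if `t < s`,
`1` if `s = t` (`h(s,t) h(t,s) = 1`), `s, t` = `|v|, |v-2u|` in the first and `|u|, |u-2v|` in the
second sum, and substitute (`(u,v) ↦ (u,v-2u)` keeps `u`). It remains, for `(u,v) ≠ (0,0)`:
`c(u) [h(|v|,|v-2u|) + h(|v|,|v+2u|)] + c(v) [h(|u|,|u-2v|) + h(|u|,|u+2v|)] ≤ 73/20`.
(1) If `2(|u|+|v|) ≥ n`: `c(u) + c(v) ≤ √2`, and `(5/4) 2 √2 < 73/20`.
(2) If `2(|u|+|v|) < n` and `|v| < |u|`: `|v ± 2u| > |v|` for both signs (the integer `v ± 2u` has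
absolute value in `[2|u|-|v|, 2|u|+|v|]`, and `n - 2|u| - |v| > |v|`), so the first bracket is `8/5`.
If `v = 0` the second is `2`. If `v ≠ 0`, for one sign `|u ± 2v| > |u|`, for the other `<`, so the
second bracket is `4/5 + 5/4`: in total `≤ 8/5 + 41/20 = 73/20`. (3) `|u| < |v|` is symmetric.
(4) If `|u| = |v| ≠ 0`: in each bracket one term is `1` (`v ∓ 2u = -v`) and the other `4/5`
(`|3u| > |u|` as `4|u| < n`): `18/5`.
-/

set_option autoImplicit false

namespace KExp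

/-- the pointwise inequality -/
noncomputable def hh (s t : ℕ) : ℝ := if s < t then 4 / 5 else if t < s then 5 / 4 else 1

/-- absolute value on `ZMod n` -/
def ab {n : ℕ} (u : ZMod n) : ℕ := u.valMinAbs.natAbs

/-- the cosine weight -/
noncomputable def cc {n : ℕ} (u : ZMod n) : ℝ := Real.cos (Real.pi * ab u / n)

private theorem le_ab {n : ℕ} [NeZero n] {w : ℤ} (t : ℕ) (h1 : t ≤ w.natAbs) (h2 : w.natAbs + t ≤ n) :
    t ≤ ab (w : ZMod n) := by
  by_contra hcon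
  rw [not_le] at hcon
  unfold ab at hcon
  have e : (((w : ZMod n).valMinAbs : ℤ) : ZMod n) = (w : ZMod n) := ZMod.coe_valMinAbs _
  rw [ZMod.intCast_eq_intCast_iff_dvd_sub] at e
  obtain ⟨k, hk⟩ := e
  generalize (w : ZMod n).valMinAbs = m at hcon hk
  have hk0 : k ≠ 0 := by
    rintro rfl
    rw [mul_zero] at hk
    omega
  have hk1 : (n : ℤ) ≤ |(n : ℤ) * k| := by
    rw [abs_mul, abs_of_nonneg (by positivity : (0 : ℤ) ≤ n)]
    have : 1 ≤ |k| := Int.one_le_abs hk0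
    nlinarith [(by positivity : (0 : ℤ) ≤ n)]
  rw [← hk] at hk1
  rcases abs_cases (w - m) with ⟨h3, -⟩ | ⟨h3, -⟩ <;> rw [h3] at hk1 <;> omega

private theorem nab (x y : ℤ) :
    ((x - 2 * y).natAbs = x.natAbs + 2 * y.natAbs ∧
      ((x + 2 * y).natAbs + 2 * y.natAbs = x.natAbs ∨ (x + 2 * y).natAbs + x.natAbs = 2 * y.natAbs)) ∨
    ((x + 2 * y).natAbs = x.natAbs + 2 * y.natAbs ∧
      ((x - 2 * y).natAbs + 2 * y.natAbs = x.natAbs ∨ (x - 2 * y).natAbs + x.natAbs = 2 * y.natAbs)) := by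
  omega

private theorem hh_nonneg (s t : ℕ) : 0 ≤ hh s t := by
  unfold hh
  split_ifs <;> norm_num

private theorem hh_le (s t : ℕ) : hh s t ≤ 5 / 4 := by
  unfold hh
  split_ifs <;> norm_num

private theorem hh_lt {s t : ℕ} (h : s < t) : hh s t = 4 / 5 := by
  unfold hh
  rw [if_pos h]

private theorem hh_le_one {s t : ℕ} (h : s ≤ t) : hh s t ≤ 1 := by
  unfold hh
  rcases Nat.lt_or_ge s t with h1 | h1
  · rw [if_pos h1]
    norm_num
  · rw [if_neg (by omega), if_neg (by omega)]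

private theorem cc_nonneg {n : ℕ} [NeZero n] {u : ZMod n} (h : ab u ≤ n / 2) : 0 ≤ cc u := by
  have hn : 0 < n := Nat.pos_of_ne_zero (NeZero.ne n)
  have hn' : (0 : ℝ) < n := by exact_mod_cast hn
  have h2 : (ab u : ℝ) * 2 ≤ n := by
    have : ab u * 2 ≤ n := by omega
    exact_mod_cast this
  unfold cc
  apply Real.cos_nonneg_of_neg_pi_div_two_le_of_le
  · have : 0 ≤ Real.pi * (ab u : ℝ) / n := by positivity
    linarith [Real.pi_pos]
  · rw [div_le_div_iff₀ hn' two_pos]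
    nlinarith [Real.pi_pos]

private theorem cc_add {n : ℕ} [NeZero n] {u v : ZMod n} (hU : ab u ≤ n / 2) (hV : ab v ≤ n / 2)
    (hs : n ≤ 2 * (ab u + ab v)) : cc u + cc v ≤ 73 / 50 := by
  have hn : 0 < n := Nat.pos_of_ne_zero (NeZero.ne n)
  have hn' : (0 : ℝ) < n := by exact_mod_cast hn
  have h1 : (ab u : ℝ) * 2 ≤ n := by
    have : ab u * 2 ≤ n := by omega
    exact_mod_cast this
  have h2 : (ab v : ℝ) * 2 ≤ n := by
    have : ab v * 2 ≤ n := by omega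
    exact_mod_cast this
  have h3 : (n : ℝ) ≤ 2 * (ab u + ab v) := by exact_mod_cast hs
  unfold cc
  rw [Real.cos_add_cos]
  have hpi := Real.pi_pos
  set A : ℝ := (Real.pi * ab u / n + Real.pi * ab v / n) / 2 with hA
  have eA : A = Real.pi * (ab u + ab v) / (2 * n) := by
    rw [hA]
    field_simp
  have hA1 : Real.pi / 4 ≤ A := by
    rw [eA, div_le_div_iff₀ (by norm_num) (by positivity)]
    nlinarith
  have hA2 : A ≤ Real.pi / 2 := by
    rw [eA, div_le_div_iff₀ (by positivity) (by norm_num)]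
    nlinarith
  have c1 : Real.cos A ≤ Real.cos (Real.pi / 4) :=
    Real.cos_le_cos_of_nonneg_of_le_pi (by positivity) (by linarith) hA1
  have c2 : 0 ≤ Real.cos A := Real.cos_nonneg_of_neg_pi_div_two_le_of_le (by linarith) hA2
  have c3 := Real.cos_le_one ((Real.pi * ab u / n - Real.pi * ab v / n) / 2)
  have c4 : Real.cos (Real.pi / 4) ≤ 73 / 100 := by
    rw [Real.cos_pi_div_four]
    have : √2 ≤ 73 / 50 := by
      rw [Real.sqrt_le_left (by norm_num)]
      norm_num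
    linarith
  nlinarith [mul_le_mul_of_nonneg_left c3 c2]

private theorem bracket {n U V A B P Q : ℕ} (hs : 2 * (U + V) < n) (hVU : V < U)
    (h : (P = V + 2 * U ∧ (Q + 2 * U = V ∨ Q + V = 2 * U)) ∨ (Q = V + 2 * U ∧ (P + 2 * U = V ∨ P + V = 2 * U)))
    (b1 : ∀ t, t ≤ P → P + t ≤ n → t ≤ A) (b2 : ∀ t, t ≤ Q → Q + t ≤ n → t ≤ B) :
    hh V A + hh V B = 8 / 5 := by
  rw [hh_lt (b1 (V + 1) (by omega) (by omega)), hh_lt (b2 (V + 1) (by omega) (by omega))]
  norm_num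

private theorem bracket' {n U V C D R S : ℕ} (hs : 2 * (U + V) < n) (hVU : V < U)
    (h : (R = U + 2 * V ∧ (S + 2 * V = U ∨ S + U = 2 * V)) ∨ (S = U + 2 * V ∧ (R + 2 * V = U ∨ R + U = 2 * V)))
    (b3 : ∀ t, t ≤ R → R + t ≤ n → t ≤ C) (b4 : ∀ t, t ≤ S → S + t ≤ n → t ≤ D) :
    hh U C + hh U D ≤ 41 / 20 := by
  have gC := hh_le U C
  have gD := hh_le U D
  rcases Nat.eq_zero_or_pos V with h1 | h1
  · have k3 := hh_le_one (b3 U (by omega) (by omega))
    have k4 := hh_le_one (b4 U (by omega) (by omega))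
    linarith
  · rcases h with ⟨h2, -⟩ | ⟨h2, -⟩
    · have k3 := hh_lt (b3 (U + 1) (by omega) (by omega))
      linarith
    · have k4 := hh_lt (b4 (U + 1) (by omega) (by omega))
      linarith

private theorem bracket'' {n U V A B P Q : ℕ} (hs : 2 * (U + V) < n) (hVU : V = U) (h0 : U ≠ 0)
    (h : (P = V + 2 * U ∧ (Q + 2 * U = V ∨ Q + V = 2 * U)) ∨ (Q = V + 2 * U ∧ (P + 2 * U = V ∨ P + V = 2 * U)))
    (b1 : ∀ t, t ≤ P → P + t ≤ n → t ≤ A) (b2 : ∀ t, t ≤ Q → Q + t ≤ n → t ≤ B) :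
    hh V A + hh V B ≤ 9 / 5 := by
  rcases h with ⟨h2, h3⟩ | ⟨h2, h3⟩
  · have k1 := hh_lt (b1 (V + 1) (by omega) (by omega))
    have k2 := hh_le_one (b2 V (by omega) (by omega))
    linarith
  · have k1 := hh_le_one (b1 V (by omega) (by omega))
    have k2 := hh_lt (b2 (V + 1) (by omega) (by omega))
    linarith

private theorem fin_cases_ineq {n U V A B C D P Q R S : ℕ} (hs : 2 * (U + V) < n) (h0 : U ≠ 0 ∨ V ≠ 0)
    (h : (P = V + 2 * U ∧ (Q + 2 * U = V ∨ Q + V = 2 * U)) ∨ (Q = V + 2 * U ∧ (P + 2 * U = V ∨ P + V = 2 * U)))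
    (h' : (R = U + 2 * V ∧ (S + 2 * V = U ∨ S + U = 2 * V)) ∨ (S = U + 2 * V ∧ (R + 2 * V = U ∨ R + U = 2 * V)))
    (b1 : ∀ t, t ≤ P → P + t ≤ n → t ≤ A) (b2 : ∀ t, t ≤ Q → Q + t ≤ n → t ≤ B)
    (b3 : ∀ t, t ≤ R → R + t ≤ n → t ≤ C) (b4 : ∀ t, t ≤ S → S + t ≤ n → t ≤ D) :
    hh V A + hh V B + (hh U C + hh U D) ≤ 73 / 20 := by
  rcases lt_trichotomy V U with hlt | heq | hlt
  · have k1 := bracket hs hlt h b1 b2
    have k2 := bracket' hs hlt h' b3 b4
    linarith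
  · have k1 := bracket'' hs heq (by omega) h b1 b2
    have k2 := bracket'' (by omega) heq.symm (by omega) h' b3 b4
    linarith
  · have k1 := bracket (by omega) hlt h' b3 b4
    have k2 := bracket' (by omega) hlt h b1 b2
    linarith

theorem pointwise (n : ℕ) [NeZero n] (u v : ZMod n) (h : u ≠ 0 ∨ v ≠ 0) :
    cc u * (hh (ab v) (ab (v - 2 * u)) + hh (ab v) (ab (v + 2 * u))) +
      cc v * (hh (ab u) (ab (u - 2 * v)) + hh (ab u) (ab (u + 2 * v))) ≤ 73 / 20 := by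
  have hn : 0 < n := Nat.pos_of_ne_zero (NeZero.ne n)
  have hn' : (0 : ℝ) < n := by exact_mod_cast hn
  have hu : ((u.valMinAbs : ℤ) : ZMod n) = u := ZMod.coe_valMinAbs u
  have hv : ((v.valMinAbs : ℤ) : ZMod n) = v := ZMod.coe_valMinAbs v
  have hU : ab u ≤ n / 2 := ZMod.natAbs_valMinAbs_le u
  have hV : ab v ≤ n / 2 := ZMod.natAbs_valMinAbs_le v
  have cu0 : 0 ≤ cc u := cc_nonneg hU
  have cv0 : 0 ≤ cc v := cc_nonneg hV
  have cu1 : cc u ≤ 1 := Real.cos_le_one _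
  have cv1 : cc v ≤ 1 := Real.cos_le_one _
  have e1 : v - 2 * u = ((v.valMinAbs - 2 * u.valMinAbs : ℤ) : ZMod n) := by push_cast; rfl
  have e2 : v + 2 * u = ((v.valMinAbs + 2 * u.valMinAbs : ℤ) : ZMod n) := by push_cast; rfl
  have e3 : u - 2 * v = ((u.valMinAbs - 2 * v.valMinAbs : ℤ) : ZMod n) := by push_cast; rfl
  have e4 : u + 2 * v = ((u.valMinAbs + 2 * v.valMinAbs : ℤ) : ZMod n) := by push_cast; rfl
  have h0 : ab u ≠ 0 ∨ ab v ≠ 0 := by
    rcases h with h | h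
    · left
      intro h1
      apply h
      have h2 : u.valMinAbs = 0 := Int.natAbs_eq_zero.mp h1
      rw [← hu, h2, Int.cast_zero]
    · right
      intro h1
      apply h
      have h2 : v.valMinAbs = 0 := Int.natAbs_eq_zero.mp h1
      rw [← hv, h2, Int.cast_zero]
  rcases Nat.lt_or_ge (2 * (ab u + ab v)) n with hs | hs
  · -- the small case
    have key : hh (ab v) (ab (v - 2 * u)) + hh (ab v) (ab (v + 2 * u)) +
        (hh (ab u) (ab (u - 2 * v)) + hh (ab u) (ab (u + 2 * v))) ≤ 73 / 20 := by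
      have b1 := fun t => le_ab (n := n) (w := v.valMinAbs - 2 * u.valMinAbs) t
      have b2 := fun t => le_ab (n := n) (w := v.valMinAbs + 2 * u.valMinAbs) t
      have b3 := fun t => le_ab (n := n) (w := u.valMinAbs - 2 * v.valMinAbs) t
      have b4 := fun t => le_ab (n := n) (w := u.valMinAbs + 2 * v.valMinAbs) t
      rw [← e1] at b1
      rw [← e2] at b2
      rw [← e3] at b3
      rw [← e4] at b4
      exact fin_cases_ineq hs h0 (nab v.valMinAbs u.valMinAbs) (nab u.valMinAbs v.valMinAbs) b1 b2 b3 b4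
    have g1 := hh_nonneg (ab v) (ab (v - 2 * u))
    have g2 := hh_nonneg (ab v) (ab (v + 2 * u))
    have g3 := hh_nonneg (ab u) (ab (u - 2 * v))
    have g4 := hh_nonneg (ab u) (ab (u + 2 * v))
    nlinarith [mul_le_mul_of_nonneg_right cu1 (add_nonneg g1 g2), mul_le_mul_of_nonneg_right cv1 (add_nonneg g3 g4)]
  · -- the large case
    have hc : cc u + cc v ≤ 73 / 50 := cc_add hU hV hs
    have g1 := hh_le (ab v) (ab (v - 2 * u))
    have g2 := hh_le (ab v) (ab (v + 2 * u))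
    have g3 := hh_le (ab u) (ab (u - 2 * v))
    have g4 := hh_le (ab u) (ab (u + 2 * v))
    nlinarith [mul_le_mul_of_nonneg_left (add_le_add g1 g2) cu0, mul_le_mul_of_nonneg_left (add_le_add g3 g4) cv0]

end KExp
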