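import Pool.Agent.KExp.GapP

/-!
# The weighted inequality (from `pointwise`; paper proof in GapP.lean)
-/

set_option autoImplicit false

namespace KExp

theorem cc_nonneg (n : ℕ) [NeZero n] (u : ZMod n) : 0 ≤ cc u := by
  unfold cc
  have hn : (0 : ℝ) < n := by exact_mod_cast Nat.pos_of_ne_zero (NeZero.ne n)
  have h1 : (ab u : ℝ) ≤ n / 2 := by
    have h2 : ab u ≤ n / 2 := ZMod.natAbs_valMinAbs_le u
    have h3 : 2 * ab u ≤ n := by omega
    have h4 : (2 : ℝ) * ab u ≤ n := by exact_mod_cast h3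
    linarith
  have hpi := Real.pi_pos
  apply Real.cos_nonneg_of_mem_Icc
  constructor
  · have : 0 ≤ Real.pi * ab u / n := by positivity
    linarith
  · rw [div_le_div_iff₀ hn (by norm_num)]
    nlinarith

theorem two_mul_le_hh (s t : ℕ) (a b : ℝ) :
    2 * a * b ≤ hh s t * a ^ 2 + hh t s * b ^ 2 := by
  unfold hh
  rcases lt_trichotomy s t with h | h | h
  · rw [if_pos h, if_neg (not_lt.2 h.le), if_pos h]
    nlinarith [sq_nonneg (4 * a - 5 * b)]
  · subst h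
    simp only [lt_irrefl, if_false]
    nlinarith [sq_nonneg (a - b)]
  · rw [if_neg (not_lt.2 h.le), if_pos h, if_pos h]
    nlinarith [sq_nonneg (5 * a - 4 * b)]

/-- `(u, v) ↦ (u, v - 2 u)` -/
def eq1 (n : ℕ) : ZMod n × ZMod n ≃ ZMod n × ZMod n where
  toFun z := (z.1, z.2 - 2 * z.1)
  invFun z := (z.1, z.2 + 2 * z.1)
  left_inv z := by simp
  right_inv z := by simp

/-- `(u, v) ↦ (u - 2 v, v)` -/
def eq2 (n : ℕ) : ZMod n × ZMod n ≃ ZMod n × ZMod n where
  toFun z := (z.1 - 2 * z.2, z.2)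
  invFun z := (z.1 + 2 * z.2, z.2)
  left_inv z := by simp
  right_inv z := by simp

/-- the weighted inequality for nonnegative functions -/
theorem weighted (n : ℕ) [NeZero n] (H : ZMod n × ZMod n → ℝ) (hH : ∀ z, 0 ≤ H z)
    (h0 : H (0, 0) = 0) :
    ∑ z : ZMod n × ZMod n, (2 * cc z.1 * H z * H (z.1, z.2 - 2 * z.1) +
      2 * cc z.2 * H z * H (z.1 - 2 * z.2, z.2)) ≤ 73 / 20 * ∑ z, H z ^ 2 := by
  have s1 : ∑ z : ZMod n × ZMod n, cc z.1 * (hh (ab (z.2 - 2 * z.1)) (ab z.2) *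
      H (z.1, z.2 - 2 * z.1) ^ 2) =
      ∑ z : ZMod n × ZMod n, cc z.1 * (hh (ab z.2) (ab (z.2 + 2 * z.1)) * H z ^ 2) := by
    rw [← Equiv.sum_comp (eq1 n) fun z : ZMod n × ZMod n =>
      cc z.1 * (hh (ab z.2) (ab (z.2 + 2 * z.1)) * H z ^ 2)]
    refine Finset.sum_congr rfl fun z _ => ?_
    simp [eq1]
  have s2 : ∑ z : ZMod n × ZMod n, cc z.2 * (hh (ab (z.1 - 2 * z.2)) (ab z.1) *
      H (z.1 - 2 * z.2, z.2) ^ 2) =
      ∑ z : ZMod n × ZMod n, cc z.2 * (hh (ab z.1) (ab (z.1 + 2 * z.2)) * H z ^ 2) := by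
    rw [← Equiv.sum_comp (eq2 n) fun z : ZMod n × ZMod n =>
      cc z.2 * (hh (ab z.1) (ab (z.1 + 2 * z.2)) * H z ^ 2)]
    refine Finset.sum_congr rfl fun z _ => ?_
    simp [eq2]
  calc ∑ z : ZMod n × ZMod n, (2 * cc z.1 * H z * H (z.1, z.2 - 2 * z.1) +
      2 * cc z.2 * H z * H (z.1 - 2 * z.2, z.2))
      ≤ ∑ z : ZMod n × ZMod n,
          ((cc z.1 * (hh (ab z.2) (ab (z.2 - 2 * z.1)) * H z ^ 2) +
            cc z.1 * (hh (ab (z.2 - 2 * z.1)) (ab z.2) * H (z.1, z.2 - 2 * z.1) ^ 2)) +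
          (cc z.2 * (hh (ab z.1) (ab (z.1 - 2 * z.2)) * H z ^ 2) +
            cc z.2 * (hh (ab (z.1 - 2 * z.2)) (ab z.1) * H (z.1 - 2 * z.2, z.2) ^ 2))) := by
        refine Finset.sum_le_sum fun z _ => ?_
        have a1 := mul_le_mul_of_nonneg_left
          (two_mul_le_hh (ab z.2) (ab (z.2 - 2 * z.1)) (H z) (H (z.1, z.2 - 2 * z.1)))
          (cc_nonneg n z.1)
        have a2 := mul_le_mul_of_nonneg_left
          (two_mul_le_hh (ab z.1) (ab (z.1 - 2 * z.2)) (H z) (H (z.1 - 2 * z.2, z.2)))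
          (cc_nonneg n z.2)
        linarith
    _ = ∑ z : ZMod n × ZMod n,
          ((cc z.1 * (hh (ab z.2) (ab (z.2 - 2 * z.1)) + hh (ab z.2) (ab (z.2 + 2 * z.1))) +
            cc z.2 * (hh (ab z.1) (ab (z.1 - 2 * z.2)) + hh (ab z.1) (ab (z.1 + 2 * z.2)))) *
            H z ^ 2) := by
        rw [Finset.sum_add_distrib, Finset.sum_add_distrib, Finset.sum_add_distrib, s1, s2,
          ← Finset.sum_add_distrib, ← Finset.sum_add_distrib, ← Finset.sum_add_distrib]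
        refine Finset.sum_congr rfl fun z _ => ?_
        ring
    _ ≤ ∑ z : ZMod n × ZMod n, 73 / 20 * H z ^ 2 := by
        refine Finset.sum_le_sum fun z _ => ?_
        by_cases hz : z = (0, 0)
        · rw [hz, h0]
          norm_num
        · refine mul_le_mul_of_nonneg_right (pointwise n z.1 z.2 ?_) (sq_nonneg _)
          by_contra hcon
          push Not at hcon
          exact hz (Prod.ext hcon.1 hcon.2)
    _ = 73 / 20 * ∑ z, H z ^ 2 := by rw [Finset.mul_sum]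

end KExp
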