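import Pool.Agent.KExp.Code

/-!
# One bit more, one bit less
-/

set_option autoImplicit false

namespace KExp

open KRed AC Low4 Encodable

variable {U : List Bool →. ℕ}

/-- one more bit -/
theorem KS_succ (hU : IsOptimal ∅ U) : ∃ c, ∀ (σ : List Bool) (n : ℕ),
    KS U (σ.take (n + 1)) ≤ KS U (σ.take n) + c := by
  have h : ∀ b : Bool, ∃ c, ∀ σ : List Bool, KS U (σ ++ [b]) ≤ KS U σ + c := fun b =>
    KS_map hU (f := fun σ => σ ++ [b]) (Computable.list_append.comp Computable.id
      (Computable.const [b]))
  obtain ⟨c0, h0⟩ := h false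
  obtain ⟨c1, h1⟩ := h true
  refine ⟨c0 + c1, fun σ n => ?_⟩
  rcases Nat.lt_or_ge n σ.length with hn | hn
  · rw [List.take_succ_eq_append_getElem hn]
    cases σ[n]
    · have := h0 (σ.take n); omega
    · have := h1 (σ.take n); omega
  · rw [List.take_of_length_le hn, List.take_of_length_le (by omega)]
    omega

/-- one bit less -/
theorem KS_pred (hU : IsOptimal ∅ U) : ∃ c, ∀ (σ : List Bool) (n : ℕ),
    KS U (σ.take n) ≤ KS U (σ.take (n + 1)) + c := by
  obtain ⟨c, hc⟩ := KS_map hU (f := fun σ : List Bool => σ.dropLast) (by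
    have h : Primrec fun τ : List Bool => τ.take (τ.length - 1) :=
      Primrec.list_take.comp (Primrec.nat_sub.comp Primrec.list_length (Primrec.const 1))
        Primrec.id
    exact (h.of_eq fun τ => (List.dropLast_eq_take).symm).to_comp)
  refine ⟨c, fun σ n => ?_⟩
  rcases Nat.lt_or_ge n σ.length with hn | hn
  · have h1 : (σ.take (n + 1)).dropLast = σ.take n := by
      rw [List.dropLast_eq_take, List.length_take, List.take_take]
      congr 1
      omega
    rw [← h1]
    exact hc _
  · rw [List.take_of_length_le hn, List.take_of_length_le (by omega)]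
    omega

end KExp
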