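import Pool.Agent.KExp.CMain

/-!
# The finite version: main theorem

It is the step of the cone version with empty strings.
-/

set_option autoImplicit false

namespace KExp

open KRed AC Low4 Encodable

variable {U : List Bool →. ℕ}

theorem even (hU : IsOptimal ∅ U) : ∃ c, ∀ i, ∀ z ∈ box (2 ^ 9 ^ i), ∃ z' ∈ box (2 ^ 9 ^ i),
    ∀ k ≤ 9 ^ i, 2 * k ≤ KS U (str k z') + 1 ∧ KS U (str k z) ≤ KS U (str k z') + e i + c := by
  obtain ⟨R, hR1, hR2⟩ := primrec_nf (sig_KS hU)
  have hR : NF U R := ⟨hR1, hR2⟩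
  obtain ⟨c, hc⟩ := step hU hR
  refine ⟨c + 10, fun i z hz => ?_⟩
  obtain ⟨z', hz', h1, h2⟩ := hc i 0 0 [] [] rfl rfl (live_nil hU hR) z hz
  refine ⟨z', hz', fun k hk => ⟨?_, ?_⟩⟩
  · have h3 := le_of_live hR h1 (n := 2 * k) (by
      rw [List.nil_append, length_str]; omega)
    rw [List.nil_append, take_str hk] at h3
    exact h3
  · have h3 := h2 k hk
    rw [List.nil_append, List.nil_append] at h3
    unfold E at h3
    unfold e
    omega

theorem log_bound {N i : ℕ} (h : 2 * 9 ^ i < N) : 1 + (i : ℝ) * (79 / 25) ≤ Real.logb 2 N := by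
  have h1 : (2 : ℝ) ^ (1 + (i : ℝ) * (79 / 25)) ≤ N := by
    have h2 : (2 : ℝ) ^ ((79 : ℝ) / 25) ≤ 9 := by
      have h3 : ((2 : ℝ) ^ ((79 : ℝ) / 25)) ^ (25 : ℕ) ≤ 9 ^ 25 := by
        rw [← Real.rpow_natCast, ← Real.rpow_mul (by norm_num)]
        norm_num
      exact le_of_pow_le_pow_left₀ (by norm_num) (by norm_num) h3
    calc (2 : ℝ) ^ (1 + (i : ℝ) * (79 / 25)) = 2 * ((2 : ℝ) ^ ((79 : ℝ) / 25)) ^ i := by
          rw [Real.rpow_add (by norm_num), Real.rpow_one, ← Real.rpow_natCast, ← Real.rpow_mul (by norm_num)]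
          congr 2
          ring
      _ ≤ 2 * 9 ^ i := by gcongr
      _ ≤ N := by exact_mod_cast h.le
  have hN : (0 : ℝ) < N := by exact_mod_cast (by omega : 0 < N)
  rw [Real.le_logb_iff_rpow_le (by norm_num) hN]
  exact h1

theorem e_le {N i : ℕ} (hN : 1 ≤ N) (h : ∀ j < i, 2 * 9 ^ j < N) :
    (e i : ℝ) ≤ 19 / 20 * Real.logb 2 N + 24 := by
  have h0 : (e i : ℝ) ≤ 3 * i + i / 512 + 20 := by
    unfold e
    push_cast
    have := @Nat.cast_div_le ℝ _ _ _ i 512
    push_cast at this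
    linarith
  rcases i with _ | i
  · have : 0 ≤ Real.logb 2 (N : ℝ) := Real.logb_nonneg (by norm_num) (by exact_mod_cast hN)
    push_cast at h0
    linarith
  · have h1 := log_bound (h i (Nat.lt_succ_self i))
    push_cast at h0
    have : (0 : ℝ) ≤ i := by positivity
    linarith

theorem main (hU : IsOptimal ∅ U) : ∃ c : ℕ, ∀ τ : List Bool, ∃ σ : List Bool,
    σ.length = τ.length ∧ ∀ n ≤ τ.length, n ≤ KS U (σ.take n) + c ∧
      (KS U (τ.take n) : ℝ) ≤ KS U (σ.take n) + 19 / 20 * Real.logb 2 τ.length + c := by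
  classical
  obtain ⟨c, hc⟩ := even hU
  obtain ⟨c1, h1⟩ := KS_succ hU
  obtain ⟨c2, h2⟩ := KS_pred hU
  refine ⟨c + c1 + c2 + 24, fun τ => ?_⟩
  rcases Nat.eq_zero_or_pos τ.length with h0 | h0
  · refine ⟨[], by simp [h0], fun n hn => ?_⟩
    have hτ : τ = [] := List.eq_nil_of_length_eq_zero h0
    subst hτ
    have : n = 0 := by simpa using hn
    subst this
    simp
    positivity
  have hex : ∃ i, τ.length ≤ 2 * 9 ^ i := by
    refine ⟨τ.length, ?_⟩
    have := Nat.lt_pow_self (n := τ.length) (a := 9) (by norm_num)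
    omega
  set i := Nat.find hex with hi
  have hle : τ.length ≤ 2 * 9 ^ i := Nat.find_spec hex
  have hlt : ∀ j < i, 2 * 9 ^ j < τ.length := fun j hj => by
    have := Nat.find_min hex hj
    omega
  obtain ⟨z, hz, hzs⟩ := exists_str (k := 9 ^ i)
    (σ := τ ++ List.replicate (2 * 9 ^ i - τ.length) false) (by simp; omega)
  obtain ⟨z', hz', hh⟩ := hc i z hz
  refine ⟨(str (9 ^ i) z').take τ.length, ?_, fun n hn => ?_⟩
  · rw [List.length_take, length_str]
    omega
  rw [List.take_take, min_eq_left hn]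
  have hτn : τ.take n = (str (9 ^ i) z).take n := by
    rw [hzs, List.take_append_of_le_length hn]
  rw [hτn]
  set k := n / 2 with hk
  have hkq : k ≤ 9 ^ i := by omega
  obtain ⟨g1, g2⟩ := hh k hkq
  rw [← take_str hkq z', ← take_str hkq z] at g2
  rw [← take_str hkq z'] at g1
  have hs : KS U ((str (9 ^ i) z).take n) ≤ KS U ((str (9 ^ i) z).take (2 * k)) + c1 := by
    rcases (by omega : n = 2 * k ∨ n = 2 * k + 1) with h | h
    · rw [← h]; omega
    · rw [h]; exact h1 _ _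
  have hp : KS U ((str (9 ^ i) z').take (2 * k)) ≤ KS U ((str (9 ^ i) z').take n) + c2 := by
    rcases (by omega : n = 2 * k ∨ n = 2 * k + 1) with h | h
    · rw [← h]; omega
    · rw [h]; exact h2 _ _
  refine ⟨by omega, ?_⟩
  have h3 : KS U ((str (9 ^ i) z).take n) ≤ KS U ((str (9 ^ i) z').take n) + e i + (c + c1 + c2) := by
    omega
  have h4 : (KS U ((str (9 ^ i) z).take n) : ℝ) ≤
      KS U ((str (9 ^ i) z').take n) + e i + (c + c1 + c2) := by exact_mod_cast h3
  have h5 := e_le h0 hlt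
  push_cast
  linarith

end KExp
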