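import Pool.Agent.KExp.Norm1
import Pool.Agent.KExp.Act

/-!
# Words and the box (from `norm_gen`; paper proof in Norm1.lean)
-/

set_option autoImplicit false

namespace KExp

private theorem shR_inv {R : Type*} [CommRing R] (inv one : Bool) (a b : R) :
    shR (!inv) one (shR inv one a b) b = a := by
  cases inv <;> cases one <;> simp only [shR, cond_true, cond_false, Bool.not_true, Bool.not_false] <;> ring

private theorem genR_inv {R : Type*} [CommRing R] (g : G) (z : R × R) :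
    genR (!g.1, g.2.1, g.2.2) (genR g z) = z := by
  obtain ⟨inv, one, side⟩ := g
  obtain ⟨a, b⟩ := z
  cases side
  · simp [genR, shR_inv]
  · simp [genR, shR_inv]

private theorem genR_bijective {R : Type*} [CommRing R] [Finite R] (g : G) :
    Function.Bijective (genR (R := R) g) := by
  refine Finite.injective_iff_bijective.mp fun x y h => ?_
  rw [← genR_inv g x, h, genR_inv]

private theorem sum_genR {n : ℕ} [NeZero n] (f : ZMod n × ZMod n → ℝ) :
    ∑ z, ∑ g : G, f (genR g z) = ∑ _g : G, ∑ z, f z := by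
  rw [Finset.sum_comm]
  exact Finset.sum_congr rfl fun g _ => (genR_bijective g).sum_comp f

private theorem sum_words {α : Type*} [AddCommMonoid α] (i : ℕ) (F : List G → α) :
    ∑ w ∈ words (i + 1), F w = ∑ w ∈ words i, ∑ g : G, F (g :: w) := by
  rw [words, Finset.sum_image]
  · rw [Finset.sum_product, Finset.sum_comm]
  · rintro ⟨g, w⟩ _ ⟨g', w'⟩ _ h
    simp only [List.cons.injEq] at h
    rw [h.1, h.2]

theorem norm_words (n : ℕ) [NeZero n] (i : ℕ) (f : ZMod n × ZMod n → ℝ) (h0 : ∑ z, f z = 0) :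
    ∑ z, (∑ w ∈ words i, f (actR w z)) ^ 2 ≤ ((73 / 10) ^ 2) ^ i * ∑ z, f z ^ 2 := by
  induction i generalizing f with
  | zero => simp [words, actR]
  | succ i ih =>
    have h1 : ∀ z : ZMod n × ZMod n, ∑ w ∈ words (i + 1), f (actR w z) =
        ∑ w ∈ words i, (fun y => ∑ g : G, f (genR g y)) (actR w z) := by
      intro z
      rw [sum_words]
      rfl
    simp only [h1]
    refine (ih (fun y => ∑ g : G, f (genR g y)) ?_).trans ?_
    · rw [sum_genR, h0]
      simp
    · have h2 : ((73 / 10 : ℝ) ^ 2) ^ (i + 1) * ∑ z, f z ^ 2 =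
          ((73 / 10 : ℝ) ^ 2) ^ i * ((73 / 10) ^ 2 * ∑ z, f z ^ 2) := by ring
      rw [h2]
      exact mul_le_mul_of_nonneg_left (norm_gen n f h0) (by positivity)

/-- reduction modulo `2 ^ q` -/
private def red (q : ℕ) (z : ℕ × ℕ) : ZMod (2 ^ q) × ZMod (2 ^ q) := ((z.1 : ZMod (2 ^ q)), (z.2 : ZMod (2 ^ q)))

/-- representatives -/
private def rep (q : ℕ) (x : ZMod (2 ^ q) × ZMod (2 ^ q)) : ℕ × ℕ := (x.1.val, x.2.val)

private theorem rep_red {q : ℕ} {z : ℕ × ℕ} (hz : z ∈ box (2 ^ q)) : rep q (red q z) = z := by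
  rw [box, Finset.mem_product, Finset.mem_range, Finset.mem_range] at hz
  rw [rep, red, ZMod.val_cast_of_lt hz.1, ZMod.val_cast_of_lt hz.2]

private theorem red_rep {q : ℕ} (x : ZMod (2 ^ q) × ZMod (2 ^ q)) : red q (rep q x) = x := by
  rw [rep, red, ZMod.natCast_zmod_val, ZMod.natCast_zmod_val]

private theorem rep_mem {q : ℕ} (x : ZMod (2 ^ q) × ZMod (2 ^ q)) : rep q x ∈ box (2 ^ q) := by
  rw [box, Finset.mem_product, Finset.mem_range, Finset.mem_range]
  exact ⟨ZMod.val_lt _, ZMod.val_lt _⟩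

private theorem sum_box (q : ℕ) (H : ZMod (2 ^ q) × ZMod (2 ^ q) → ℝ) :
    ∑ z ∈ box (2 ^ q), H (red q z) = ∑ x, H x := by
  refine Finset.sum_bij' (fun z _ => red q z) (fun x _ => rep q x) (fun _ _ => Finset.mem_univ _)
    (fun x _ => rep_mem x) (fun z hz => rep_red hz) (fun x _ => red_rep x) (fun _ _ => rfl)

theorem norm_box (q i : ℕ) (f : ℕ × ℕ → ℝ) (h0 : ∑ z ∈ box (2 ^ q), f z = 0) :
    ∑ z ∈ box (2 ^ q), (∑ w ∈ words i, f (act (2 ^ q) w z)) ^ 2 ≤
      ((73 / 10) ^ 2) ^ i * ∑ z ∈ box (2 ^ q), f z ^ 2 := by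
  set F : ZMod (2 ^ q) × ZMod (2 ^ q) → ℝ := fun x => f (rep q x) with hF
  have h1 : ∀ z ∈ box (2 ^ q), F (red q z) = f z := fun z hz => by rw [hF]; simp only [rep_red hz]
  have h2 : ∀ z ∈ box (2 ^ q), ∀ w : List G, f (act (2 ^ q) w z) = F (actR w (red q z)) := by
    intro z hz w
    rw [← h1 _ (act_mem w hz)]
    have h3 : red q (act (2 ^ q) w z) = actR w (red q z) := cast_act q w z
    rw [h3]
  have e1 : ∑ z ∈ box (2 ^ q), (∑ w ∈ words i, f (act (2 ^ q) w z)) ^ 2 =
      ∑ x, (∑ w ∈ words i, F (actR w x)) ^ 2 := by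
    rw [← sum_box q fun x => (∑ w ∈ words i, F (actR w x)) ^ 2]
    refine Finset.sum_congr rfl fun z hz => ?_
    simp only [h2 z hz]
  have e2 : ∑ z ∈ box (2 ^ q), f z ^ 2 = ∑ x, F x ^ 2 := by
    rw [← sum_box q fun x => F x ^ 2]
    refine Finset.sum_congr rfl fun z hz => ?_
    simp only [h1 z hz]
  rw [e1, e2]
  refine norm_words (2 ^ q) i F ?_
  rw [← sum_box q F, ← h0]
  exact Finset.sum_congr rfl h1

end KExp
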