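import Pool.Agent.KExp.Gap

/-!
# The norm bound for words

Paper proof. `A f (z) = ∑_g f (g z)` is symmetric (the maps come in inverse pairs) and preserves
the functions with sum zero. Polarisation of `gap`: `4 ⟨A f, g⟩ = ⟨A (f+g), f+g⟩ - ⟨A (f-g), f-g⟩
≤ 7.3 (‖f+g‖² + ‖f-g‖²) = 14.6 (‖f‖² + ‖g‖²)`, with `g = t A f`, `t = ‖f‖/‖A f‖`: `‖A f‖ ≤ 7.3 ‖f‖`.
Words: induction on `i`, `∑_{w ∈ words (i+1)} f (actR w z) = ∑_{w ∈ words i} ∑_g ...`; note
`actR (g :: w) z = genR g (actR w z)`, so `∑_{words (i+1)} f ∘ actR = ∑_{w ∈ words i} (A f) (actR w z)`.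
Transfer to `box (2^q)`: `z ↦ ((z.1 : ZMod (2^q)), (z.2 : ZMod (2^q)))` is a bijection from the box
which carries `act (2^q) w` to `actR w`.
-/

set_option autoImplicit false

namespace KExp

/-- the index of the inverse map -/
def flip (g : G) : G := (!g.1, g.2.1, g.2.2)

theorem flip_flip (g : G) : flip (flip g) = g := by
  simp [flip]

theorem genR_flip {R : Type*} [CommRing R] (g : G) (z : R × R) : genR (flip g) (genR g z) = z := by
  obtain ⟨i, o, d⟩ := g
  obtain ⟨x, y⟩ := z
  cases i <;> cases o <;> cases d <;> simp [genR, shR, flip] <;> ring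

theorem genR_flip' {R : Type*} [CommRing R] (g : G) (z : R × R) :
    genR g (genR (flip g) z) = z := by
  have := genR_flip (flip g) z
  rwa [flip_flip] at this

/-- the maps as permutations -/
def genE {R : Type*} [CommRing R] (g : G) : R × R ≃ R × R where
  toFun := genR g
  invFun := genR (flip g)
  left_inv := genR_flip g
  right_inv := genR_flip' g

/-- the indices of the inverse maps -/
def flipE : G ≃ G where
  toFun := flip
  invFun := flip
  left_inv := flip_flip
  right_inv := flip_flip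

theorem sum_gen8 (n : ℕ) [NeZero n] (f : ZMod n × ZMod n → ℝ) :
    ∑ z, ∑ g : G, f (genR g z) = 8 * ∑ z, f z := by
  rw [Finset.sum_comm]
  have : ∀ g : G, ∑ z : ZMod n × ZMod n, f (genR g z) = ∑ z, f z := fun g =>
    Equiv.sum_comp (genE g) f
  rw [Finset.sum_congr rfl fun g _ => this g, Finset.sum_const, nsmul_eq_mul]
  congr 1

theorem symm_gen (n : ℕ) [NeZero n] (f h : ZMod n × ZMod n → ℝ) :
    ∑ z, h z * ∑ g : G, f (genR g z) = ∑ z, f z * ∑ g : G, h (genR g z) := by
  simp only [Finset.mul_sum]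
  rw [Finset.sum_comm, Finset.sum_comm (s := Finset.univ) (t := Finset.univ)
    (f := fun (z : ZMod n × ZMod n) (g : G) => f z * h (genR g z)),
    ← Equiv.sum_comp flipE]
  refine Finset.sum_congr rfl fun g _ => ?_
  rw [← Equiv.sum_comp (genE g)]
  refine Finset.sum_congr rfl fun z _ => ?_
  change h (genR g z) * f (genR (flip g) (genR g z)) = f z * h (genR g z)
  rw [genR_flip, mul_comm]

theorem norm_gen (n : ℕ) [NeZero n] (f : ZMod n × ZMod n → ℝ) (h0 : ∑ z, f z = 0) :
    ∑ z, (∑ g : G, f (genR g z)) ^ 2 ≤ (73 / 10) ^ 2 * ∑ z, f z ^ 2 := by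
  set A : ZMod n × ZMod n → ℝ := fun z => ∑ g : G, f (genR g z) with hA
  set h : ZMod n × ZMod n → ℝ := fun z => 10 / 73 * A z with hh
  have hA0 : ∑ z, A z = 0 := by rw [hA, sum_gen8, h0, mul_zero]
  have hh0 : ∑ z, h z = 0 := by rw [hh, ← Finset.mul_sum, hA0, mul_zero]
  have k1 := le_of_abs_le (gap n (fun z => f z + h z) (by rw [Finset.sum_add_distrib, h0, hh0, add_zero]))
  have k2 := neg_le_of_abs_le (gap n (fun z => f z - h z) (by rw [Finset.sum_sub_distrib, h0, hh0, sub_zero]))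
  have e1 : ∑ z, (f z + h z) * ∑ g : G, (f (genR g z) + h (genR g z)) =
      ∑ z, f z * ∑ g : G, f (genR g z) + ∑ z, h z * ∑ g : G, h (genR g z) +
      2 * ∑ z, h z * ∑ g : G, f (genR g z) := by
    have k : ∀ z : ZMod n × ZMod n, (f z + h z) * ∑ g : G, (f (genR g z) + h (genR g z)) =
        f z * ∑ g : G, f (genR g z) + h z * ∑ g : G, h (genR g z) +
        (h z * ∑ g : G, f (genR g z) + f z * ∑ g : G, h (genR g z)) := by
      intro z
      rw [Finset.sum_add_distrib]
      ring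
    rw [Finset.sum_congr rfl fun z _ => k z, Finset.sum_add_distrib, Finset.sum_add_distrib,
      Finset.sum_add_distrib, ← symm_gen n f h]
    ring
  have e2 : ∑ z, (f z - h z) * ∑ g : G, (f (genR g z) - h (genR g z)) =
      ∑ z, f z * ∑ g : G, f (genR g z) + ∑ z, h z * ∑ g : G, h (genR g z) -
      2 * ∑ z, h z * ∑ g : G, f (genR g z) := by
    have k : ∀ z : ZMod n × ZMod n, (f z - h z) * ∑ g : G, (f (genR g z) - h (genR g z)) =
        f z * ∑ g : G, f (genR g z) + h z * ∑ g : G, h (genR g z) -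
        (h z * ∑ g : G, f (genR g z) + f z * ∑ g : G, h (genR g z)) := by
      intro z
      rw [Finset.sum_sub_distrib]
      ring
    rw [Finset.sum_congr rfl fun z _ => k z, Finset.sum_sub_distrib, Finset.sum_add_distrib,
      Finset.sum_add_distrib, ← symm_gen n f h]
    ring
  have e3 : ∑ z, (f z + h z) ^ 2 + ∑ z, (f z - h z) ^ 2 =
      2 * ∑ z, f z ^ 2 + 2 * ∑ z, h z ^ 2 := by
    rw [Finset.mul_sum, Finset.mul_sum, ← Finset.sum_add_distrib, ← Finset.sum_add_distrib]
    refine Finset.sum_congr rfl fun z _ => ?_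
    ring
  have e4 : ∑ z, h z ^ 2 = (10 / 73) ^ 2 * ∑ z, A z ^ 2 := by
    rw [Finset.mul_sum]
    refine Finset.sum_congr rfl fun z _ => ?_
    rw [hh]
    ring
  have e5 : ∑ z, h z * ∑ g : G, f (genR g z) = 10 / 73 * ∑ z, A z ^ 2 := by
    rw [Finset.mul_sum]
    refine Finset.sum_congr rfl fun z _ => ?_
    rw [hh, hA]
    ring
  rw [e1] at k1
  rw [e2] at k2
  rw [e5] at k1 k2
  rw [e4] at e3
  change ∑ z, A z ^ 2 ≤ _
  linarith [k1, k2, e3]

end KExp
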