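import Pool.Agent.KExp.SigC

/-!
Not needed any more: the finite version is the step of the cone version (Main.lean).
-/
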