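import Pool.Agent.KExp.Act

/-!
# The requests are computably enumerable

Paper proof. `str`, `gen`, `act` are computable in all arguments (`str (k, z)`: iterate
`(z, l) ↦ (z / 2, l ++ [z.1 % 2, z.2 % 2])`; `act`: `foldr`). `D U q z` is `Sig1` in `(q, z)` by
`sig_KS`. `Dist (D U q) q i l z` iff there is a list `L : List (List G × (ℕ × ℕ))` without
repetitions, `8^i * 4^(q-l) ≤ 2 * L.length`, all members `(w, y)` of `L` satisfying `w.length = i`,
`y.1 < 2^q`, `y.2 < 2^q`, `str l y = str l z` and `D U q (act (2^q) w y)` (use `Sig1.ex` for `L` and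
`Sig1.ball` over the indices `j < L.length` with `L[j]? = some x`, see the API in
Hhelper75/Low4/Sig1.lean: `Sig1.and, or, ex, ball, bex, comp, of_computable, of_eq`).
-/

set_option autoImplicit false

namespace KExp

open KRed AC Low4 Encodable

/-- one step of the computation of `str` -/
def strStep (s : (ℕ × ℕ) × List Bool) : (ℕ × ℕ) × List Bool :=
  ((s.1.1 / 2, s.1.2 / 2), s.2 ++ [Nat.bodd s.1.1, Nat.bodd s.1.2])

theorem decide_bodd (n : ℕ) : decide (n % 2 = 1) = Nat.bodd n := by
  have h := Nat.mod_two_of_bodd n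
  cases hb : Nat.bodd n <;> rw [hb] at h <;> simp at h <;> simp [h]

theorem strStep_iter (k : ℕ) : ∀ (z : ℕ × ℕ) (l : List Bool),
    (strStep^[k] (z, l)).2 = l ++ str k z := by
  induction k with
  | zero => intro z l; simp [str]
  | succ k ih =>
    intro z l
    rw [Function.iterate_succ_apply, strStep, ih]
    simp [str, decide_bodd]

theorem primrec_strStep : Primrec strStep := by
  have h11 : Primrec fun s : (ℕ × ℕ) × List Bool => s.1.1 := Primrec.fst.comp Primrec.fst
  have h12 : Primrec fun s : (ℕ × ℕ) × List Bool => s.1.2 := Primrec.snd.comp Primrec.fst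
  refine Primrec.pair (Primrec.pair (Primrec.nat_div.comp h11 (Primrec.const 2))
    (Primrec.nat_div.comp h12 (Primrec.const 2))) ?_
  refine Primrec.list_append.comp Primrec.snd ?_
  refine Primrec.list_cons.comp (Primrec.nat_bodd.comp h11) ?_
  exact Primrec.list_cons.comp (Primrec.nat_bodd.comp h12) (Primrec.const [])

theorem primrec_str : Primrec fun p : ℕ × (ℕ × ℕ) => str p.1 p.2 := by
  have h : Primrec fun p : ℕ × (ℕ × ℕ) => (strStep^[p.1] (p.2, ([] : List Bool))).2 := by
    refine Primrec.snd.comp ?_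
    exact Primrec.nat_iterate Primrec.fst (Primrec.pair Primrec.snd (Primrec.const []))
      (primrec_strStep.comp Primrec.snd)
  refine h.of_eq fun p => ?_
  rw [strStep_iter]
  simp

theorem computable_str : Computable fun p : ℕ × (ℕ × ℕ) => str p.1 p.2 :=
  primrec_str.to_comp

theorem primrec_sh {α : Type*} [Primcodable α] {m a b : α → ℕ} {i o : α → Bool}
    (hm : Primrec m) (hi : Primrec i) (ho : Primrec o) (ha : Primrec a) (hb : Primrec b) :
    Primrec fun x => sh (m x) (i x) (o x) (a x) (b x) := by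
  unfold sh
  have h2 : Primrec fun _ : α => (2 : ℕ) := Primrec.const 2
  refine Primrec.cond hi ?_ ?_
  · refine Primrec.nat_mod.comp ?_ hm
    refine Primrec.nat_add.comp (Primrec.nat_add.comp ha (Primrec.nat_mul.comp h2
      (Primrec.nat_sub.comp hm (Primrec.nat_mod.comp hb hm)))) ?_
    exact Primrec.cond ho (Primrec.nat_sub.comp hm (Primrec.const 1)) (Primrec.const 0)
  · refine Primrec.nat_mod.comp ?_ hm
    refine Primrec.nat_add.comp (Primrec.nat_add.comp ha (Primrec.nat_mul.comp h2 hb)) ?_
    exact Primrec.cond ho (Primrec.const 1) (Primrec.const 0)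

theorem primrec_gen {α : Type*} [Primcodable α] {m : α → ℕ} {g : α → G} {z : α → ℕ × ℕ}
    (hm : Primrec m) (hg : Primrec g) (hz : Primrec z) :
    Primrec fun x => gen (m x) (g x) (z x) := by
  unfold gen
  have g1 : Primrec fun x => (g x).1 := Primrec.fst.comp hg
  have g2 : Primrec fun x => (g x).2.1 := Primrec.fst.comp (Primrec.snd.comp hg)
  have g3 : Primrec fun x => (g x).2.2 := Primrec.snd.comp (Primrec.snd.comp hg)
  have z1 : Primrec fun x => (z x).1 := Primrec.fst.comp hz
  have z2 : Primrec fun x => (z x).2 := Primrec.snd.comp hz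
  exact Primrec.cond g3 (Primrec.pair z1 (primrec_sh hm g1 g2 z2 z1))
    (Primrec.pair (primrec_sh hm g1 g2 z1 z2) z2)

theorem primrec_act : Primrec fun p : ℕ × List G × (ℕ × ℕ) => act p.1 p.2.1 p.2.2 := by
  unfold act
  refine Primrec.list_foldr (h := fun (p : ℕ × List G × (ℕ × ℕ)) (x : G × (ℕ × ℕ)) =>
    gen p.1 x.1 x.2) (Primrec.fst.comp Primrec.snd) (Primrec.snd.comp Primrec.snd) ?_
  exact primrec_gen (Primrec.fst.comp Primrec.fst) (Primrec.fst.comp Primrec.snd)
    (Primrec.snd.comp Primrec.snd)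

theorem computable_act : Computable fun p : ℕ × List G × (ℕ × ℕ) => act p.1 p.2.1 p.2.2 :=
  primrec_act.to_comp

end KExp
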